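import Pool.Agent.Lib.MP_f72ae4_gt.Base

/-! # N: the superposition (Nemytskii) operator is smooth -/

open scoped Manifold ContDiff Topology
open Set

noncomputable section

namespace Pool.Agent.SH

section N
variable {K : Type*} [TopologicalSpace K] [CompactSpace K]

/-- pointwise evaluation `(A, h) ↦ (x ↦ A x (h x))` as a continuous bilinear map. -/
def nem_eval (K : Type*) [TopologicalSpace K] [CompactSpace K]
    (F : Type*) [NormedAddCommGroup F] [NormedSpace ℝ F]
    (G : Type*) [NormedAddCommGroup G] [NormedSpace ℝ G] :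
    C(K, F →L[ℝ] G) →L[ℝ] (C(K, F) →L[ℝ] C(K, G)) :=
  LinearMap.mkContinuous₂
    (LinearMap.mk₂ ℝ (fun (A : C(K, F →L[ℝ] G)) (h : C(K, F)) =>
        (⟨fun x => A x (h x), A.continuous.clm_apply h.continuous⟩ : C(K, G)))
      (by intro A B h; ext x; simp)
      (by intro c A h; ext x; simp)
      (by intro A h k; ext x; simp)
      (by intro c A h; ext x; simp)) 1
    (by
      intro A h
      rw [ContinuousMap.norm_le _ (by positivity)]
      intro x
      simp only [LinearMap.mk₂_apply, ContinuousMap.coe_mk, one_mul]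
      exact (A x).le_opNorm_of_le (h.norm_coe_le_norm x) |>.trans
        (mul_le_mul_of_nonneg_right (A.norm_coe_le_norm x) (norm_nonneg _)))

theorem nem_eval_apply (F : Type*) [NormedAddCommGroup F] [NormedSpace ℝ F]
    (G : Type*) [NormedAddCommGroup G] [NormedSpace ℝ G] (A : C(K, F →L[ℝ] G)) (h : C(K, F)) (x : K) :
    nem_eval K F G A h x = A x (h x) := rfl

theorem nem_hasFDerivAt {F : Type*} [NormedAddCommGroup F] [NormedSpace ℝ F]
    {G : Type*} [NormedAddCommGroup G] [NormedSpace ℝ G]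
    (V : C(F, G)) (V' : C(F, F →L[ℝ] G)) (hV : ∀ z, HasFDerivAt V (V' z) z) (u : C(K, F)) :
    HasFDerivAt (nem K V) (nem_eval K F G (nem K V' u)) u := by
  rw [hasFDerivAt_iff_isLittleO_nhds_zero, Asymptotics.isLittleO_iff]
  intro ε hε
  have hcont : Continuous (fun w : C(K, F) => V'.comp w) := ContinuousMap.continuous_postcomp V'
  have h1 := (Metric.continuous_iff (α := C(K, F)) (β := C(K, F →L[ℝ] G))).1 hcont u ε hε
  obtain ⟨δ, hδ, h1⟩ := h1
  have h2 : ∀ x : K, ∀ z : F, ‖z - u x‖ < δ → ‖V' z - V' (u x)‖ ≤ ε := by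
    intro x z hz
    have h3 := h1 (u + ContinuousMap.const K (z - u x)) (by
      rw [dist_eq_norm, add_sub_cancel_left]
      rw [ContinuousMap.norm_lt_iff _ hδ]
      intro y
      simpa using hz)
    have h4 : dist (V' (u x + (z - u x))) (V' (u x)) ≤ ε :=
      (ContinuousMap.dist_apply_le_dist x).trans h3.le
    rwa [add_sub_cancel, dist_eq_norm] at h4
  rw [Metric.eventually_nhds_iff]
  refine ⟨δ, hδ, fun h hh => ?_⟩
  rw [dist_zero_right] at hh
  rw [ContinuousMap.norm_le _ (by positivity)]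
  intro x
  have h5 := (convex_ball (u x) δ).norm_image_sub_le_of_norm_hasFDerivWithin_le'
    (f := V) (f' := V') (C := ε) (φ := V' (u x))
    (fun z _ => (hV z).hasFDerivWithinAt)
    (fun z hz => h2 x z (by rwa [← dist_eq_norm]))
    (Metric.mem_ball_self hδ)
    (show u x + h x ∈ Metric.ball (u x) δ by
      rw [Metric.mem_ball, dist_eq_norm, add_sub_cancel_left]
      exact (h.norm_coe_le_norm x).trans_lt hh)
  rw [add_sub_cancel_left] at h5
  refine le_trans (le_of_eq ?_) (h5.trans (mul_le_mul_of_nonneg_left (h.norm_coe_le_norm x) hε.le))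
  rfl

theorem nem_aux_nat.{u, v} {F : Type u} [NormedAddCommGroup F] [NormedSpace ℝ F] (n : ℕ) :
    ∀ (G : Type (max u v)) [NormedAddCommGroup G] [NormedSpace ℝ G] (V : C(F, G)),
      ContDiff ℝ n V → ContDiff ℝ n (nem K V) := by
  induction n with
  | zero =>
    intro G _ _ V hV
    simp only [Nat.cast_zero, contDiff_zero]
    exact ContinuousMap.continuous_postcomp V
  | succ n ih =>
    intro G _ _ V hV
    rw [show ((n + 1 : ℕ) : WithTop ℕ∞) = (n : WithTop ℕ∞) + 1 by push_cast; rfl] at hV ⊢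
    rw [contDiff_succ_iff_hasFDerivAt] at hV ⊢
    obtain ⟨V', hV'1, hV'2⟩ := hV
    have hc : Continuous V' := hV'1.continuous
    refine ⟨fun u => nem_eval K F G (nem K ⟨V', hc⟩ u), ?_, ?_⟩
    · exact (nem_eval K F G).contDiff.comp (ih (F →L[ℝ] G) ⟨V', hc⟩ hV'1)
    · intro u
      exact nem_hasFDerivAt V ⟨V', hc⟩ hV'2 u

theorem nem_aux_infty.{u, v} {F : Type u} [NormedAddCommGroup F] [NormedSpace ℝ F]
    (G : Type (max u v)) [NormedAddCommGroup G] [NormedSpace ℝ G] (V : C(F, G))
    (hV : ContDiff ℝ ∞ V) : ContDiff ℝ ∞ (nem K V) := by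
  rw [contDiff_infty] at hV ⊢
  intro n
  exact nem_aux_nat n G V (hV n)

variable {F : Type*} [NormedAddCommGroup F] [NormedSpace ℝ F] [FiniteDimensional ℝ F]
variable {G : Type*} [NormedAddCommGroup G] [NormedSpace ℝ G]

/-- post-composition with a continuous linear map -/
def nem_clm (K : Type*) [TopologicalSpace K] [CompactSpace K]
    {F : Type*} [NormedAddCommGroup F] [NormedSpace ℝ F]
    {G : Type*} [NormedAddCommGroup G] [NormedSpace ℝ G] (L : F →L[ℝ] G) :
    C(K, F) →L[ℝ] C(K, G) :=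
  LinearMap.mkContinuous
    { toFun := fun u => ⟨fun x => L (u x), L.continuous.comp u.continuous⟩
      map_add' := by intro u v; ext x; simp
      map_smul' := by intro c u; ext x; simp } ‖L‖
    (by
      intro u
      rw [ContinuousMap.norm_le _ (by positivity)]
      intro x
      exact L.le_opNorm_of_le (u.norm_coe_le_norm x))

theorem contDiff_nem_gen.{u, v} {F : Type u} [NormedAddCommGroup F] [NormedSpace ℝ F]
    {G : Type v} [NormedAddCommGroup G] [NormedSpace ℝ G] (V : C(F, G)) (hV : ContDiff ℝ ∞ V) :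
    ContDiff ℝ ∞ (nem K V) := by
  let e : ULift.{max u v} G ≃L[ℝ] G := ContinuousLinearEquiv.ulift
  let W : C(F, ULift.{max u v} G) := ⟨fun z => e.symm (V z), e.symm.continuous.comp V.continuous⟩
  have hW : ContDiff ℝ ∞ W := e.symm.contDiff.comp hV
  have h1 : ContDiff ℝ ∞ (nem K W) := nem_aux_infty.{_, u, max u v} (ULift.{max u v} G) W hW
  have h2 : nem K V = fun u => nem_clm K (e : ULift.{max u v} G →L[ℝ] G) (nem K W u) := by
    ext u x
    rfl
  rw [h2]
  exact (nem_clm K (e : ULift.{max u v} G →L[ℝ] G)).contDiff.comp h1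

theorem contDiff_nem (V : C(F, G)) (hV : ContDiff ℝ ∞ V) : ContDiff ℝ ∞ (nem K V) :=
  contDiff_nem_gen V hV

end N

end Pool.Agent.SH
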