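import Pool.Agent.Lib.MP_f72ae4_gt.Base
import Pool.Agent.Lib.MP_f72ae4_gt.Nem

open scoped Manifold ContDiff Topology
open Set

noncomputable section

namespace Pool.Agent.SH


/-! ## Smooth local flows (superposition operator + implicit function theorem in `C([-1,1],F)`) -/

/-- the Banach space `C([-1,1],F)` -/
def LfB (F : Type*) [NormedAddCommGroup F] : Type _ := C(Icc (-1 : ℝ) 1, F)

section LF

variable {F : Type*} [NormedAddCommGroup F]

instance : NormedAddCommGroup (LfB F) := inferInstanceAs (NormedAddCommGroup C(Icc (-1 : ℝ) 1, F))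

instance [NormedSpace ℝ F] : NormedSpace ℝ (LfB F) :=
  inferInstanceAs (NormedSpace ℝ C(Icc (-1 : ℝ) 1, F))

instance [CompleteSpace F] : CompleteSpace (LfB F) :=
  inferInstanceAs (CompleteSpace C(Icc (-1 : ℝ) 1, F))

/-- value at a point -/
def lf_app (w : LfB F) (t : Icc (-1 : ℝ) 1) : F := (show C(Icc (-1 : ℝ) 1, F) from w) t

theorem lf_app_ext {w w' : LfB F} (h : ∀ t, lf_app w t = lf_app w' t) : w = w' :=
  ContinuousMap.ext h

theorem lf_app_norm (w : LfB F) (t : Icc (-1 : ℝ) 1) : ‖lf_app w t‖ ≤ ‖w‖ :=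
  ContinuousMap.norm_coe_le_norm (show C(Icc (-1 : ℝ) 1, F) from w) t

theorem lf_norm_le {w : LfB F} {M : ℝ} (hM : 0 ≤ M) (h : ∀ t, ‖lf_app w t‖ ≤ M) : ‖w‖ ≤ M :=
  (ContinuousMap.norm_le (show C(Icc (-1 : ℝ) 1, F) from w) hM).2 h

/-- extension of a curve on `[-1,1]` by constants -/
def lf_ext (w : LfB F) : ℝ → F := IccExtend (by norm_num : (-1 : ℝ) ≤ 1) (lf_app w)

theorem lf_app_cont (w : LfB F) : Continuous (lf_app w) :=
  ContinuousMap.continuous (show C(Icc (-1 : ℝ) 1, F) from w)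

theorem lf_ext_cont (w : LfB F) : Continuous (lf_ext w) := (lf_app_cont w).Icc_extend'

theorem lf_ext_of_mem (w : LfB F) {t : ℝ} (ht : t ∈ Icc (-1 : ℝ) 1) :
    lf_ext w t = lf_app w ⟨t, ht⟩ := IccExtend_of_mem _ _ ht

theorem lf_ext_norm (w : LfB F) (t : ℝ) : ‖lf_ext w t‖ ≤ ‖w‖ := lf_app_norm w _

variable [NormedSpace ℝ F]

/-- integration `w ↦ (t ↦ ∫_0^t w)` on `C([-1,1],F)` -/
def lf_I : LfB F →L[ℝ] LfB F :=
  LinearMap.mkContinuous
    { toFun := fun w => (⟨fun t => ∫ s in (0 : ℝ)..t, lf_ext w s,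
        (intervalIntegral.continuous_primitive
          (fun a b => (lf_ext_cont w).intervalIntegrable a b) 0).comp continuous_subtype_val⟩ :
          C(Icc (-1 : ℝ) 1, F))
      map_add' := fun w w' => by
        refine lf_app_ext fun t => ?_
        show ∫ s in (0 : ℝ)..t, lf_ext (w + w') s =
          (∫ s in (0 : ℝ)..t, lf_ext w s) + ∫ s in (0 : ℝ)..t, lf_ext w' s
        rw [← intervalIntegral.integral_add ((lf_ext_cont w).intervalIntegrable _ _)
          ((lf_ext_cont w').intervalIntegrable _ _)]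
        rfl
      map_smul' := fun c w => by
        refine lf_app_ext fun t => ?_
        show ∫ s in (0 : ℝ)..t, lf_ext (c • w) s = c • ∫ s in (0 : ℝ)..t, lf_ext w s
        rw [← intervalIntegral.integral_smul]
        rfl } 1 (fun w => by
      rw [one_mul]
      refine lf_norm_le (norm_nonneg _) fun t => ?_
      show ‖∫ s in (0 : ℝ)..t, lf_ext w s‖ ≤ ‖w‖
      have h1 := intervalIntegral.norm_integral_le_of_norm_le_const
        (a := 0) (b := (t : ℝ)) (C := ‖w‖) (f := lf_ext w) (fun s _ => lf_ext_norm w s)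
      have h2 : |(t : ℝ) - 0| ≤ 1 := by
        rw [sub_zero, abs_le]; exact ⟨t.2.1, t.2.2⟩
      have h3 : ‖w‖ * |(t : ℝ) - 0| ≤ ‖w‖ * 1 := mul_le_mul_of_nonneg_left h2 (norm_nonneg _)
      linarith)

theorem lf_I_apply (w : LfB F) (t : Icc (-1 : ℝ) 1) :
    lf_app (lf_I w) t = ∫ s in (0 : ℝ)..t, lf_ext w s := rfl

theorem lf_I_norm : ‖(lf_I : LfB F →L[ℝ] LfB F)‖ ≤ 1 :=
  LinearMap.mkContinuous_norm_le _ zero_le_one _

/-- constants -/
def lf_const : F →L[ℝ] LfB F :=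
  LinearMap.mkContinuous
    { toFun := fun z => (ContinuousMap.const _ z : C(Icc (-1 : ℝ) 1, F))
      map_add' := fun _ _ => rfl
      map_smul' := fun _ _ => rfl } 1 (fun z => by
      rw [one_mul]
      exact lf_norm_le (norm_nonneg _) fun t => le_rfl)

theorem lf_const_apply (z : F) (t : Icc (-1 : ℝ) 1) : lf_app (lf_const z) t = z := rfl

/-- evaluation -/
def lf_ev (t : Icc (-1 : ℝ) 1) : LfB F →L[ℝ] F :=
  LinearMap.mkContinuous
    { toFun := fun w => lf_app w t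
      map_add' := fun _ _ => rfl
      map_smul' := fun _ _ => rfl } 1 (fun w => by
      rw [one_mul]
      exact lf_app_norm w t)

theorem lf_ev_apply (t : Icc (-1 : ℝ) 1) (w : LfB F) : lf_ev t w = lf_app w t := rfl

/-- the superposition operator -/
def lf_N (V : C(F, F)) (u : LfB F) : LfB F := nem (Icc (-1 : ℝ) 1) V u

omit [NormedSpace ℝ F] in
theorem lf_N_apply (V : C(F, F)) (u : LfB F) (t : Icc (-1 : ℝ) 1) :
    lf_app (lf_N V u) t = V (lf_app u t) := rfl

omit [NormedSpace ℝ F] in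
theorem lf_N_ext (V : C(F, F)) (u : LfB F) (t : ℝ) : lf_ext (lf_N V u) t = V (lf_ext u t) := rfl

/-- the fixed point map -/
def lf_T (V : C(F, F)) (p : ℝ × F) (u : LfB F) : LfB F := lf_const p.2 + p.1 • lf_I (lf_N V u)

theorem lf_T_apply (V : C(F, F)) (p : ℝ × F) (u : LfB F) (t : Icc (-1 : ℝ) 1) :
    lf_app (lf_T V p u) t = p.2 + p.1 • ∫ s in (0 : ℝ)..t, V (lf_ext u s) := rfl

omit [NormedSpace ℝ F] in
theorem lf_nem_lip {V : C(F, F)} {L : NNReal} (hL : LipschitzWith L V) :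
    LipschitzWith L (lf_N V) := by
  refine LipschitzWith.of_dist_le_mul fun u v => ?_
  rw [dist_eq_norm, dist_eq_norm]
  refine lf_norm_le (by positivity) fun t => ?_
  show ‖V (lf_app u t) - V (lf_app v t)‖ ≤ L * ‖u - v‖
  have h := hL.dist_le_mul (lf_app u t) (lf_app v t)
  rw [dist_eq_norm, dist_eq_norm] at h
  refine h.trans ?_
  gcongr
  exact lf_app_norm (u - v) t

theorem lf_T_lip {V : C(F, F)} {L : NNReal} (hL : LipschitzWith L V) (p : ℝ × F)
    (u v : LfB F) : ‖lf_T V p u - lf_T V p v‖ ≤ |p.1| * L * ‖u - v‖ := by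
  have h1 : lf_T V p u - lf_T V p v = p.1 • lf_I (lf_N V u - lf_N V v) := by
    unfold lf_T
    rw [map_sub, smul_sub]; abel
  rw [h1, norm_smul, Real.norm_eq_abs, mul_assoc]
  gcongr
  refine (lf_I.le_opNorm _).trans ?_
  have h2 := (lf_nem_lip hL).dist_le_mul u v
  rw [dist_eq_norm, dist_eq_norm] at h2
  calc ‖(lf_I : LfB F →L[ℝ] LfB F)‖ * ‖lf_N V u - lf_N V v‖
      ≤ 1 * ‖lf_N V u - lf_N V v‖ := by gcongr; exact lf_I_norm
    _ ≤ L * ‖u - v‖ := by rw [one_mul]; exact h2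

theorem lf_unique {V : C(F, F)} {L : NNReal} (hL : LipschitzWith L V) {p : ℝ × F}
    (hp : |p.1| * L < 1) {u v : LfB F} (hu : lf_T V p u = u) (hv : lf_T V p v = v) :
    u = v := by
  have h1 := lf_T_lip hL p u v
  rw [hu, hv] at h1
  by_contra hne
  have h2 : 0 < ‖u - v‖ := norm_pos_iff.2 (sub_ne_zero.2 hne)
  nlinarith

theorem lf_exists [CompleteSpace F] {V : C(F, F)} {L : NNReal} (hL : LipschitzWith L V) {p : ℝ × F}
    (hp : |p.1| * L < 1) : ∃ u : LfB F, lf_T V p u = u := by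
  have hc : ContractingWith (Real.toNNReal |p.1| * L) (lf_T V p) := by
    constructor
    · rw [← NNReal.coe_lt_coe]
      push_cast
      rw [Real.coe_toNNReal _ (abs_nonneg _)]
      exact hp
    · refine LipschitzWith.of_dist_le_mul fun u v => ?_
      rw [dist_eq_norm, dist_eq_norm]
      push_cast
      rw [Real.coe_toNNReal _ (abs_nonneg _)]
      exact lf_T_lip hL p u v
  exact ⟨hc.fixedPoint _, hc.fixedPoint_isFixedPt⟩

variable [FiniteDimensional ℝ F]

theorem lf_contDiff_N {V : C(F, F)} (hV : ContDiff ℝ ∞ V) : ContDiff ℝ ∞ (lf_N V) :=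
  contDiff_nem (K := Icc (-1 : ℝ) 1) V hV

/-- smooth dependence of the fixed point on the parameters -/
theorem lf_smooth {V : C(F, F)} (hV : ContDiff ℝ ∞ V) {L : NNReal} (hL : LipschitzWith L V)
    {u : ℝ × F → LfB F}
    (hu : ∀ p : ℝ × F, |p.1| * L < 1 → lf_T V p (u p) = u p) {p : ℝ × F} (hp : |p.1| * L < 1) :
    ContDiffAt ℝ ∞ u p := by
  have hFc : CompleteSpace F := FiniteDimensional.complete ℝ F
  set Φ : (ℝ × F) × LfB F → LfB F :=
    fun q => q.2 - (lf_const q.1.2 + q.1.1 • lf_I (lf_N V q.2)) with hΦ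
  have hnem : ContDiff ℝ ∞ (lf_N V) := lf_contDiff_N hV
  have hΦs : ContDiff ℝ ∞ Φ := by
    refine contDiff_snd.sub (ContDiff.add ?_ ?_)
    · exact lf_const.contDiff.comp (contDiff_snd.comp contDiff_fst)
    · exact (contDiff_fst.comp contDiff_fst).smul (lf_I.contDiff.comp (hnem.comp contDiff_snd))
  have hΦ0 : ∀ q : (ℝ × F) × LfB F, Φ q = 0 ↔ lf_T V q.1 q.2 = q.2 := by
    intro q
    rw [hΦ]
    show q.2 - lf_T V q.1 q.2 = 0 ↔ _
    rw [sub_eq_zero]; exact eq_comm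
  -- the partial derivative
  have hnd : DifferentiableAt ℝ (lf_N V) (u p) :=
    (hnem.differentiable (by simp)) (u p)
  set N' := fderiv ℝ (lf_N V) (u p) with hN'
  have hN'norm : ‖N'‖ ≤ L := norm_fderiv_le_of_lipschitz ℝ (lf_nem_lip hL)
  have hpart : fderiv ℝ Φ (p, u p) ∘L .inr ℝ (ℝ × F) (LfB F) =
      ContinuousLinearMap.id ℝ _ - p.1 • (lf_I ∘L N') := by
    have h1 : HasFDerivAt Φ (fderiv ℝ Φ (p, u p)) (p, u p) :=
      ((hΦs.differentiable (by simp)) _).hasFDerivAt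
    have h2 : HasFDerivAt (fun w => Φ (p, w))
        (fderiv ℝ Φ (p, u p) ∘L .inr ℝ (ℝ × F) (LfB F)) (u p) :=
      h1.comp (u p) (hasFDerivAt_prodMk_right p (u p))
    have h3 : HasFDerivAt (fun w => Φ (p, w))
        (ContinuousLinearMap.id ℝ _ - p.1 • (lf_I ∘L N')) (u p) := by
      have e1 : HasFDerivAt (fun w => lf_I (lf_N V w)) (lf_I ∘L N') (u p) :=
        (lf_I.hasFDerivAt).comp (u p) hnd.hasFDerivAt
      have e2 := ((hasFDerivAt_id (u p)).sub ((e1.const_smul p.1).const_add (lf_const p.2)))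
      exact e2
    exact h2.unique h3
  have hinv : (fderiv ℝ Φ (p, u p) ∘L .inr ℝ (ℝ × F) (LfB F)).IsInvertible := by
    rw [hpart]
    have hlt : ‖p.1 • (lf_I ∘L N')‖ < 1 := by
      rw [norm_smul, Real.norm_eq_abs]
      refine lt_of_le_of_lt ?_ hp
      gcongr
      refine (ContinuousLinearMap.opNorm_comp_le _ _).trans ?_
      calc ‖(lf_I : LfB F →L[ℝ] LfB F)‖ * ‖N'‖ ≤ 1 * L := by
            gcongr; exact lf_I_norm
        _ = L := one_mul _
    refine ⟨ContinuousLinearEquiv.unitsEquiv ℝ _ (Units.oneSub (p.1 • (lf_I ∘L N')) hlt), ?_⟩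
    ext w
    rfl
  have hcd := hΦs.contDiffAt (x := (p, u p))
  have hn : (∞ : ℕ∞ω) ≠ 0 := by simp
  have h1 := hcd.eventually_apply_implicitFunction hn hinv
  have h2 := hcd.contDiffAt_implicitFunction hn hinv
  refine h2.congr_of_eventuallyEq ?_
  have h3 : ∀ᶠ q : ℝ × F in 𝓝 p, |q.1| * L < 1 := by
    have : Continuous fun q : ℝ × F => |q.1| * (L : ℝ) := by fun_prop
    exact (this.tendsto p).eventually (gt_mem_nhds hp)
  filter_upwards [h1, h3] with q hq1 hq3
  have e0 : Φ (p, u p) = 0 := (hΦ0 _).2 (hu p hp)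
  rw [e0] at hq1
  exact lf_unique hL hq3 (hu q hq3) ((hΦ0 _).1 hq1)

omit [FiniteDimensional ℝ F] in
/-- the fixed point equation -/
theorem lf_eq {V : C(F, F)} {p : ℝ × F} {w : LfB F} (h : lf_T V p w = w) {t : ℝ}
    (ht : t ∈ Icc (-1 : ℝ) 1) : lf_ext w t = p.2 + p.1 • ∫ s in (0 : ℝ)..t, V (lf_ext w s) := by
  have h1 := lf_T_apply V p w ⟨t, ht⟩
  rw [h] at h1
  rw [lf_ext_of_mem w ht, h1]

omit [FiniteDimensional ℝ F] in
/-- scaling of the time -/
theorem lf_scale {V : C(F, F)} {L : NNReal} (hL : LipschitzWith L V) {ε τ : ℝ} (hε : 0 < ε)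
    (hεL : ε * L < 1) (hτ : |τ| ≤ ε) {z : F} {w w' : LfB F} (hw : lf_T V (ε, z) w = w)
    (hw' : lf_T V (τ, z) w' = w') : lf_app w' ⟨1, by norm_num⟩ = lf_ext w (τ / ε) := by
  have hc : |τ / ε| ≤ 1 := by
    rw [abs_div, abs_of_pos hε, div_le_one hε]; exact hτ
  let v : LfB F := (⟨fun t => lf_ext w (τ / ε * t),
    (lf_ext_cont w).comp (continuous_const.mul continuous_subtype_val)⟩ : C(Icc (-1 : ℝ) 1, F))
  have hvapp : ∀ t : Icc (-1 : ℝ) 1, lf_app v t = lf_ext w (τ / ε * t) := fun t => rfl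
  have hvext : ∀ t ∈ Icc (-1 : ℝ) 1, lf_ext v t = lf_ext w (τ / ε * t) := by
    intro t ht
    rw [lf_ext_of_mem v ht, hvapp]
  have hmem : ∀ t ∈ Icc (-1 : ℝ) 1, τ / ε * t ∈ Icc (-1 : ℝ) 1 := by
    intro t ht
    have h1 : |t| ≤ 1 := abs_le.2 ht
    have h2 : |τ / ε * t| ≤ 1 := by
      rw [abs_mul]
      calc |τ / ε| * |t| ≤ 1 * 1 := mul_le_mul hc h1 (abs_nonneg _) zero_le_one
        _ = 1 := one_mul _
    exact abs_le.1 h2
  have hv : lf_T V (τ, z) v = v := by
    refine lf_app_ext fun t => ?_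
    rw [lf_T_apply, hvapp, lf_eq hw (hmem t t.2)]
    congr 1
    have h1 : ∫ s in (0 : ℝ)..t, V (lf_ext v s) = ∫ s in (0 : ℝ)..t, V (lf_ext w (τ / ε * s)) := by
      refine intervalIntegral.integral_congr fun s hs => ?_
      have hs' : s ∈ Icc (-1 : ℝ) 1 := by
        have ht := t.2
        rw [Set.mem_uIcc] at hs
        rcases hs with hs | hs
        · exact ⟨by linarith [hs.1], by linarith [hs.2, ht.2]⟩
        · exact ⟨by linarith [hs.1, ht.1], by linarith [hs.2]⟩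
      show V (lf_ext v s) = V (lf_ext w (τ / ε * s))
      rw [hvext s hs']
    rw [h1]
    have h2 := intervalIntegral.smul_integral_comp_mul_left (fun s => V (lf_ext w s)) (τ / ε)
      (a := 0) (b := (t : ℝ))
    rw [mul_zero] at h2
    rw [← h2, smul_smul]
    congr 1
    field_simp
  have h3 : w' = v := by
    refine lf_unique hL (p := (τ, z)) ?_ hw' hv
    refine lt_of_le_of_lt ?_ hεL
    gcongr
  rw [h3, hvapp]
  congr 1
  show τ / ε * 1 = τ / ε
  rw [mul_one]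

/-- the curve solves the differential equation -/
theorem lf_deriv {V : C(F, F)} {p : ℝ × F} {w : LfB F} (h : lf_T V p w = w) {t : ℝ}
    (ht : t ∈ Ioo (-1 : ℝ) 1) : HasDerivAt (lf_ext w) (p.1 • V (lf_ext w t)) t := by
  have hFc : CompleteSpace F := FiniteDimensional.complete ℝ F
  have hc : Continuous fun s => V (lf_ext w s) := V.continuous.comp (lf_ext_cont w)
  have h1 : HasDerivAt (fun r => p.2 + p.1 • ∫ s in (0 : ℝ)..r, V (lf_ext w s))
      (p.1 • V (lf_ext w t)) t :=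
    ((hc.integral_hasStrictDerivAt 0 t).hasDerivAt.const_smul p.1).const_add p.2
  refine h1.congr_of_eventuallyEq ?_
  filter_upwards [Icc_mem_nhds ht.1 ht.2] with r hr
  exact lf_eq h hr

end LF

theorem exists_local_smooth_flow {F : Type*} [NormedAddCommGroup F] [NormedSpace ℝ F]
    [FiniteDimensional ℝ F] {U : Set F} (hU : IsOpen U) {V : F → F} (hV : ContDiffOn ℝ ∞ V U)
    {z₀ : F} (hz : z₀ ∈ U) :
    ∃ ε > 0, ∃ W : Set F, IsOpen W ∧ z₀ ∈ W ∧ ∃ Θ : ℝ × F → F,
      ContDiffOn ℝ ∞ Θ (Ioo (-ε) ε ×ˢ W) ∧ (∀ z ∈ W, Θ (0, z) = z) ∧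
      ∀ z ∈ W, ∀ τ ∈ Ioo (-ε) ε, Θ (τ, z) ∈ U ∧
        HasDerivAt (fun s => Θ (s, z)) (V (Θ (τ, z))) τ := by
  have hFc : CompleteSpace F := FiniteDimensional.complete ℝ F
  obtain ⟨ρ, hρ, hball⟩ := Metric.isOpen_iff.1 hU z₀ hz
  let b : ContDiffBump z₀ := ⟨ρ / 4, ρ / 2, by positivity, by linarith⟩
  have hts : tsupport b ⊆ U := by
    rw [b.tsupport_eq]
    exact (Metric.closedBall_subset_ball (by linarith : ρ / 2 < ρ)).trans hball
  have hV' : ContDiff ℝ ∞ (fun x => b x • V x) := by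
    rw [contDiff_iff_contDiffAt]
    intro x
    by_cases hx : x ∈ U
    · exact b.contDiff.contDiffAt.smul (hV.contDiffAt (hU.mem_nhds hx))
    · have h1 : (b : F → ℝ) =ᶠ[𝓝 x] 0 := notMem_tsupport_iff_eventuallyEq.1 fun h => hx (hts h)
      have h2 : (fun x => b x • V x) =ᶠ[𝓝 x] fun _ => 0 := by
        filter_upwards [h1] with y hy
        rw [hy]; simp
      exact contDiffAt_const.congr_of_eventuallyEq h2
  have hcs : HasCompactSupport (fun x => b x • V x) := b.hasCompactSupport.smul_right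
  set V' : C(F, F) := ⟨fun x => b x • V x, hV'.continuous⟩ with hV'def
  have hV's : ContDiff ℝ ∞ V' := hV'
  obtain ⟨L, hL⟩ : ∃ L, LipschitzWith L V' :=
    ContDiff.lipschitzWith_of_hasCompactSupport hcs hV' (by simp)
  obtain ⟨M, hM⟩ : ∃ M, ∀ x, ‖V' x‖ ≤ M := V'.continuous.bounded_above_of_compact_support hcs
  have hM0 : 0 ≤ M := (norm_nonneg _).trans (hM z₀)
  have hL0 : (0 : ℝ) ≤ L := L.2
  set ε : ℝ := min (1 / (2 * (L + 1))) (ρ / (16 * (M + 1))) with hεdef
  have hε : 0 < ε := by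
    refine lt_min ?_ ?_
    · positivity
    · positivity
  have hεL : ε * L < 1 := by
    have h1 : ε ≤ 1 / (2 * (L + 1)) := min_le_left _ _
    calc ε * L ≤ 1 / (2 * (L + 1)) * L := by gcongr
      _ < 1 := by
        rw [div_mul_eq_mul_div, one_mul, div_lt_one (by positivity)]
        linarith
  have hεM : ε * M < ρ / 8 := by
    have h1 : ε ≤ ρ / (16 * (M + 1)) := min_le_right _ _
    calc ε * M ≤ ρ / (16 * (M + 1)) * M := by gcongr
      _ < ρ / 8 := by
        rw [div_mul_eq_mul_div, div_lt_div_iff₀ (by positivity) (by norm_num)]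
        nlinarith
  have hex : ∀ p : ℝ × F, ∃ w : LfB F, |p.1| * L < 1 → lf_T V' p w = w := by
    intro p
    by_cases hp : |p.1| * L < 1
    · obtain ⟨w, hw⟩ := lf_exists hL hp
      exact ⟨w, fun _ => hw⟩
    · exact ⟨0, fun h => absurd h hp⟩
  choose u hu using hex
  have hlt : ∀ τ : ℝ, |τ| ≤ ε → |τ| * L < 1 := by
    intro τ hτ
    refine lt_of_le_of_lt ?_ hεL
    gcongr
  refine ⟨ε, hε, Metric.ball z₀ (ρ / 8), Metric.isOpen_ball, Metric.mem_ball_self (by positivity),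
    fun p => lf_app (u p) ⟨1, by norm_num⟩, ?_, ?_, ?_⟩
  · intro p hp
    have hp1 : |p.1| ≤ ε := (abs_lt.2 hp.1).le
    have h1 : ContDiffAt ℝ ∞ u p := lf_smooth hV's hL hu (hlt _ hp1)
    have h2 : ContDiffAt ℝ ∞ (fun p => lf_ev ⟨1, by norm_num⟩ (u p)) p :=
      (lf_ev ⟨1, by norm_num⟩).contDiff.contDiffAt.comp p h1
    exact h2.contDiffWithinAt
  · intro z _
    have h1 := lf_T_apply V' (0, z) (u (0, z)) ⟨1, by norm_num⟩
    rw [hu (0, z) (by simp)] at h1
    show lf_app (u (0, z)) ⟨1, by norm_num⟩ = z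
    rw [h1]
    simp
  · intro z hzW τ hτ
    have hτ' : |τ| < ε := abs_lt.2 hτ
    have hfix : lf_T V' (ε, z) (u (ε, z)) = u (ε, z) := hu _ (by
      rw [abs_of_pos hε]; exact hεL)
    -- distance
    have hdist : lf_app (u (τ, z)) ⟨1, by norm_num⟩ ∈ Metric.ball z₀ (ρ / 4) := by
      have h1 := lf_T_apply V' (τ, z) (u (τ, z)) ⟨1, by norm_num⟩
      rw [hu (τ, z) (hlt _ hτ'.le)] at h1
      have h2 : ‖lf_app (u (τ, z)) ⟨1, by norm_num⟩ - z‖ ≤ ε * M := by
        rw [h1]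
        simp only [add_sub_cancel_left]
        rw [norm_smul, Real.norm_eq_abs]
        have h3 : ‖∫ s in (0 : ℝ)..1, V' (lf_ext (u (τ, z)) s)‖ ≤ M * |(1 : ℝ) - 0| :=
          intervalIntegral.norm_integral_le_of_norm_le_const fun s _ => hM _
        rw [sub_zero, abs_one, mul_one] at h3
        exact mul_le_mul hτ'.le h3 (norm_nonneg _) hε.le
      rw [Metric.mem_ball, dist_eq_norm] at hzW ⊢
      have h4 : lf_app (u (τ, z)) ⟨1, by norm_num⟩ - z₀ =
          (lf_app (u (τ, z)) ⟨1, by norm_num⟩ - z) + (z - z₀) := by abel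
      rw [h4]
      refine lt_of_le_of_lt (norm_add_le _ _) ?_
      linarith
    have hUmem : lf_app (u (τ, z)) ⟨1, by norm_num⟩ ∈ U :=
      hball (Metric.ball_subset_ball (by linarith) hdist)
    refine ⟨hUmem, ?_⟩
    have hVV : V' (lf_app (u (τ, z)) ⟨1, by norm_num⟩) =
        V (lf_app (u (τ, z)) ⟨1, by norm_num⟩) := by
      show b _ • V _ = V _
      rw [b.one_of_mem_closedBall (Metric.ball_subset_closedBall hdist), one_smul]
    show HasDerivAt (fun s => lf_app (u (s, z)) ⟨1, by norm_num⟩)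
      (V (lf_app (u (τ, z)) ⟨1, by norm_num⟩)) τ
    rw [← hVV]
    have hsc : ∀ s : ℝ, |s| ≤ ε → lf_app (u (s, z)) ⟨1, by norm_num⟩ = lf_ext (u (ε, z)) (s / ε) :=
      fun s hs => lf_scale hL hε hεL hs hfix (hu (s, z) (hlt _ hs))
    have hτε : τ / ε ∈ Ioo (-1 : ℝ) 1 := by
      constructor
      · rw [lt_div_iff₀ hε]; linarith [hτ.1]
      · rw [div_lt_one hε]; exact hτ.2
    have h5 := lf_deriv hfix hτε
    have h6 : HasDerivAt (fun s : ℝ => s / ε) (1 / ε) τ := by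
      simpa using (hasDerivAt_id τ).div_const ε
    have h7 := h5.scomp τ h6
    have h8 : HasDerivAt (fun s => lf_ext (u (ε, z)) (s / ε))
        (V' (lf_app (u (τ, z)) ⟨1, by norm_num⟩)) τ := by
      rw [hsc τ hτ'.le]
      have h9 : (1 / ε) • (ε, z).1 • V' (lf_ext (u (ε, z)) (τ / ε)) =
          V' (lf_ext (u (ε, z)) (τ / ε)) := by
        rw [smul_smul, one_div, inv_mul_cancel₀ hε.ne', one_smul]
      rw [h9] at h7
      exact h7
    refine h8.congr_of_eventuallyEq ?_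
    filter_upwards [Ioo_mem_nhds hτ.1 hτ.2] with s hs
    exact hsc s (abs_lt.2 hs).le

end Pool.Agent.SH
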