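import Pool.Agent.Lib.MP_f72ae4_gt.Base

/-! # S4b: a priori bounds for the second Moser isotopy -/

open scoped Manifold ContDiff Topology
open Set

noncomputable section

namespace Pool.Agent.SH

section Apriori
variable {E : Type*} [NormedAddCommGroup E] [InnerProductSpace ℝ E]

/-- along the flow, `t³ ⟨γ, Y⟩ = -(‖tγ‖² - 2⟨tγ, Z(tγ)⟩)` -/
theorem apriori_aux1 {Y : ℝ × E → E} {Z : E → E}
    (h1 : ∀ (s : ℝ) (x : E), s ^ 2 • Y (s, x) = - (s • x - (2 : ℝ) • Z (s • x))) (s : ℝ) (x : E) :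
    s ^ 3 * inner ℝ x (Y (s, x)) = - (‖s • x‖ ^ 2 - 2 * inner ℝ (s • x) (Z (s • x))) := by
  have h := congrArg (fun z => inner ℝ (s • x) z) (h1 s x)
  simp only [inner_neg_right, inner_sub_right, inner_smul_right] at h
  rw [real_inner_smul_left] at h
  have h2 : s ^ 3 * inner ℝ x (Y (s, x)) = s ^ 2 * (s * inner ℝ x (Y (s, x))) := by ring
  have h3 : s * inner ℝ (s • x) x = ‖s • x‖ ^ 2 := by
    rw [← real_inner_self_eq_norm_sq (s • x)]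
    exact (inner_smul_right _ _ _).symm
  rw [h2, h, h3]

/-- monotonicity of `‖s γ(s)‖²` with the differential identity -/
theorem apriori_aux2 {Y : ℝ × E → E} {Z : E → E}
    (h1 : ∀ (s : ℝ) (x : E), s ^ 2 • Y (s, x) = - (s • x - (2 : ℝ) • Z (s • x)))
    {γ : ℝ → E} {s : ℝ} (hs : 0 < s) (hd : HasDerivAt γ (Y (s, γ s)) s) :
    HasDerivAt (fun t => ‖t • γ t‖ ^ 2) (4 * inner ℝ (s • γ s) (Z (s • γ s)) / s) s := by
  have hy : HasDerivAt (fun t => t • γ t) (s • Y (s, γ s) + (1 : ℝ) • γ s) s :=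
    (hasDerivAt_id s).smul hd
  have h := hy.norm_sq
  refine h.congr_deriv ?_
  rw [eq_div_iff hs.ne']
  have e : s • (s • Y (s, γ s) + (1 : ℝ) • γ s) = (2 : ℝ) • Z (s • γ s) := by
    rw [smul_add, smul_smul, ← sq, h1, one_smul]; abel
  have h3 := congrArg (fun z => inner ℝ (s • γ s) z) e
  simp only [inner_smul_right] at h3
  linarith

variable [FiniteDimensional ℝ E]

theorem apriori_fwd {Y : ℝ × E → E} {Z : E → E} (hY : Continuous Y)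
    (h1 : ∀ (s : ℝ) (x : E), s ^ 2 • Y (s, x) = - (s • x - (2 : ℝ) • Z (s • x)))
    (h2 : ∀ y, inner ℝ y (Z y) ≤ ‖y‖ ^ 2 / 2) (x : E) :
    ∀ T ∈ Ioc (0 : ℝ) 1, ∀ γ : ℝ → E, γ 0 = x → ContinuousOn γ (Ico 0 T) →
      (∀ t ∈ Ioo 0 T, HasDerivAt γ (Y (t, γ t)) t) → ∀ t ∈ Ico 0 T, ‖γ t‖ ≤ ‖x‖ := by
  intro T hT γ h0 hcont hder t ht
  have hanti : AntitoneOn (fun s => ‖γ s‖ ^ 2) (Ico 0 T) := by
    apply antitoneOn_of_deriv_nonpos (convex_Ico 0 T)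
    · exact (hcont.norm).pow 2
    · rw [interior_Ico]
      intro s hs
      exact ((hder s hs).norm_sq.differentiableAt).differentiableWithinAt
    · rw [interior_Ico]
      intro s hs
      rw [(hder s hs).norm_sq.deriv]
      have h3 := apriori_aux1 h1 s (γ s)
      have h4 := h2 (s • γ s)
      have hs3 : 0 < s ^ 3 := pow_pos hs.1 3
      have h5 : s ^ 3 * inner ℝ (γ s) (Y (s, γ s)) ≤ 0 := by rw [h3]; linarith
      have h6 : inner ℝ (γ s) (Y (s, γ s)) ≤ 0 := by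
        by_contra hcon
        push Not at hcon
        have := mul_pos hs3 hcon
        linarith
      linarith
  have h3 := hanti ⟨le_rfl, hT.1⟩ ht ht.1
  simp only [h0] at h3
  exact (sq_le_sq₀ (norm_nonneg _) (norm_nonneg _)).1 h3

theorem apriori_bwd {Y : ℝ × E → E} {Z : E → E} (hY : Continuous Y)
    (hZ : Continuous Z)
    (h1 : ∀ (s : ℝ) (x : E), s ^ 2 • Y (s, x) = - (s • x - (2 : ℝ) • Z (s • x)))
    (h2 : ∀ y, inner ℝ y (Z y) ≤ ‖y‖ ^ 2 / 2) (h3 : ∀ y, y ≠ 0 → 0 < inner ℝ y (Z y))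
    (h4 : ∃ C > 0, ∃ δ > 0, ∀ y : E, ‖y‖ ≤ δ → ‖y - (2 : ℝ) • Z y‖ ≤ C * ‖y‖ ^ 2) (x : E) :
    ∃ R : ℝ, ∀ T ∈ Ico (0 : ℝ) 1, ∀ γ : ℝ → E, γ 1 = x → ContinuousOn γ (Ioc T 1) →
      (∀ t ∈ Ioo T 1, HasDerivAt γ (Y (t, γ t)) t) → ∀ t ∈ Ioc T 1, ‖γ t‖ ≤ R := by
  obtain ⟨C, hC, δ₀, hδ₀, h4⟩ := h4
  -- shrink δ
  obtain ⟨δ, hδ, hδδ, hCδ⟩ : ∃ δ > 0, δ ≤ δ₀ ∧ C * δ ≤ 1 / 2 := by
    refine ⟨min δ₀ (1 / (2 * C)), lt_min hδ₀ (by positivity), min_le_left _ _, ?_⟩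
    calc C * min δ₀ (1 / (2 * C)) ≤ C * (1 / (2 * C)) :=
          mul_le_mul_of_nonneg_left (min_le_right _ _) hC.le
      _ = 1 / 2 := by field_simp
  -- the minimum over the shell
  obtain ⟨c, hc, hcs⟩ : ∃ c > 0, ∀ y : E, δ ≤ ‖y‖ → ‖y‖ ≤ ‖x‖ → c ≤ 4 * inner ℝ y (Z y) := by
    have hcomp : IsCompact ({y : E | δ ≤ ‖y‖} ∩ Metric.closedBall (0 : E) ‖x‖) :=
      (isCompact_closedBall _ _).inter_left (isClosed_le continuous_const continuous_norm)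
    rcases ({y : E | δ ≤ ‖y‖} ∩ Metric.closedBall (0 : E) ‖x‖).eq_empty_or_nonempty with he | hne
    · refine ⟨1, one_pos, fun y hy1 hy2 => ?_⟩
      exfalso
      have : y ∈ ({y : E | δ ≤ ‖y‖} ∩ Metric.closedBall (0 : E) ‖x‖) :=
        ⟨hy1, by simpa using hy2⟩
      rw [he] at this
      exact this
    · obtain ⟨y₀, hy₀, hmin⟩ := hcomp.exists_isMinOn hne
        (f := fun y => 4 * inner ℝ y (Z y))
        ((continuous_const.mul (continuous_id.inner hZ)).continuousOn)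
      have hy0 : y₀ ≠ 0 := by
        rintro rfl
        have := hy₀.1
        rw [mem_ofPred_eq, norm_zero] at this
        linarith
      refine ⟨4 * inner ℝ y₀ (Z y₀), by have := h3 y₀ hy0; positivity, fun y hy1 hy2 => ?_⟩
      exact hmin ⟨hy1, by simpa using hy2⟩
  set s₁ : ℝ := Real.exp (-(‖x‖ ^ 2 / c + 1)) with hs₁
  have hs₁pos : 0 < s₁ := Real.exp_pos _
  have hs₁lt : s₁ ≤ 1 := by
    rw [hs₁, Real.exp_le_one_iff]
    have : 0 ≤ ‖x‖ ^ 2 / c := by positivity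
    linarith
  refine ⟨2 * (‖x‖ / s₁), ?_⟩
  intro T hT γ hγ1 hcont hder
  have hpos : ∀ s ∈ Ioc T 1, 0 < s := fun s hs => lt_of_le_of_lt hT.1 hs.1
  -- continuity and derivative of r
  have hrcont : ContinuousOn (fun t => ‖t • γ t‖ ^ 2) (Ioc T 1) :=
    ((continuousOn_id.smul hcont).norm).pow 2
  have hrd : ∀ s ∈ Ioo T 1, HasDerivAt (fun t => ‖t • γ t‖ ^ 2)
      (4 * inner ℝ (s • γ s) (Z (s • γ s)) / s) s := fun s hs =>
    apriori_aux2 h1 (hpos s ⟨hs.1, hs.2.le⟩) (hder s hs)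
  have hZnn : ∀ y : E, 0 ≤ inner ℝ y (Z y) := by
    intro y
    by_cases hy : y = 0
    · simp [hy]
    · exact (h3 y hy).le
  have hmono : MonotoneOn (fun t => ‖t • γ t‖ ^ 2) (Ioc T 1) := by
    apply monotoneOn_of_deriv_nonneg (convex_Ioc T 1) hrcont
    · rw [interior_Ioc]
      intro s hs
      exact (hrd s hs).differentiableAt.differentiableWithinAt
    · rw [interior_Ioc]
      intro s hs
      rw [(hrd s hs).deriv]
      have := hpos s ⟨hs.1, hs.2.le⟩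
      have := hZnn (s • γ s)
      positivity
  have hone : (1 : ℝ) ∈ Ioc T 1 := ⟨hT.2, le_rfl⟩
  have hmono' : ∀ s ∈ Ioc T 1, ∀ t ∈ Ioc T 1, s ≤ t → ‖s • γ s‖ ≤ ‖t • γ t‖ := by
    intro s hs t ht hst
    exact (sq_le_sq₀ (norm_nonneg _) (norm_nonneg _)).1 (hmono hs ht hst)
  have hle : ∀ s ∈ Ioc T 1, ‖s • γ s‖ ≤ ‖x‖ := by
    intro s hs
    have := hmono' s hs 1 hone hs.2
    rwa [one_smul, hγ1] at this
  -- smallness below s₁
  have hsmall : ∀ s ∈ Ioc T 1, s ≤ s₁ → ‖s • γ s‖ ≤ δ := by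
    intro s hs hss
    by_contra hcon
    push Not at hcon
    have hsub : Icc s 1 ⊆ Ioc T 1 := fun t ht => ⟨lt_of_lt_of_le hs.1 ht.1, ht.2⟩
    have hs0 : 0 < s := hpos s hs
    have hm : MonotoneOn (fun t => ‖t • γ t‖ ^ 2 - c * Real.log t) (Icc s 1) := by
      apply monotoneOn_of_deriv_nonneg (convex_Icc s 1)
      · refine (hrcont.mono hsub).sub (continuousOn_const.mul ?_)
        exact Real.continuousOn_log.mono (fun t ht => (lt_of_lt_of_le hs0 ht.1).ne')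
      · rw [interior_Icc]
        intro t ht
        have htT : t ∈ Ioo T 1 := ⟨lt_trans hs.1 ht.1, ht.2⟩
        have ht0 : t ≠ 0 := (lt_trans hs0 ht.1).ne'
        exact ((hrd t htT).sub ((Real.hasDerivAt_log ht0).const_mul c)).differentiableAt.differentiableWithinAt
      · rw [interior_Icc]
        intro t ht
        have htT : t ∈ Ioo T 1 := ⟨lt_trans hs.1 ht.1, ht.2⟩
        have ht0 : 0 < t := lt_trans hs0 ht.1
        have hdm : HasDerivAt (fun t => ‖t • γ t‖ ^ 2 - c * Real.log t)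
            (4 * inner ℝ (t • γ t) (Z (t • γ t)) / t - c * t⁻¹) t :=
          (hrd t htT).sub ((Real.hasDerivAt_log ht0.ne').const_mul c)
        rw [hdm.deriv]
        have hδt : δ ≤ ‖t • γ t‖ :=
          hcon.le.trans (hmono' s hs t ⟨htT.1, htT.2.le⟩ ht.1.le)
        have := hcs (t • γ t) hδt (hle t ⟨htT.1, htT.2.le⟩)
        rw [sub_nonneg, div_eq_mul_inv]
        exact mul_le_mul_of_nonneg_right this (by positivity)
    have h5 := hm ⟨le_rfl, hs.2⟩ ⟨hs.2, le_rfl⟩ hs.2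
    simp only [one_smul, hγ1, Real.log_one, mul_zero, sub_zero] at h5
    have h6 : Real.log s ≤ -(‖x‖ ^ 2 / c + 1) := by
      have := Real.log_le_log hs0 hss
      rwa [hs₁, Real.log_exp] at this
    have h7 : c * Real.log s ≤ c * (-(‖x‖ ^ 2 / c + 1)) := mul_le_mul_of_nonneg_left h6 hc.le
    have h8 : c * (-(‖x‖ ^ 2 / c + 1)) = - ‖x‖ ^ 2 - c := by field_simp; ring
    have h9 : 0 ≤ ‖s • γ s‖ ^ 2 := by positivity
    linarith
  have hbig : ∀ s ∈ Ioc T 1, s₁ ≤ s → ‖γ s‖ ≤ ‖x‖ / s₁ := by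
    intro s hs hss
    have hs0 := hpos s hs
    have h5 := hle s hs
    rw [norm_smul, Real.norm_of_nonneg hs0.le] at h5
    rw [le_div_iff₀ hs₁pos]
    calc ‖γ s‖ * s₁ ≤ ‖γ s‖ * s := mul_le_mul_of_nonneg_left hss (norm_nonneg _)
      _ = s * ‖γ s‖ := mul_comm _ _
      _ ≤ ‖x‖ := h5
  intro s hs
  have hxs : 0 ≤ ‖x‖ / s₁ := by positivity
  rcases le_or_gt s₁ s with hss | hss
  · have := hbig s hs hss
    linarith
  have hs₁T : s₁ ∈ Ioc T 1 := ⟨lt_trans hs.1 hss, hs₁lt⟩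
  have hs0 : 0 < s := hpos s hs
  by_cases hγs : γ s = 0
  · rw [hγs, norm_zero]; positivity
  have hne : ∀ t ∈ Icc s s₁, γ t ≠ 0 := by
    intro t ht h0
    have htT : t ∈ Ioc T 1 := ⟨lt_of_lt_of_le hs.1 ht.1, ht.2.trans hs₁lt⟩
    have := hmono' s hs t htT ht.1
    rw [h0, smul_zero, norm_zero, norm_smul] at this
    have h5 : 0 < ‖s‖ * ‖γ s‖ := mul_pos (norm_pos_iff.2 hs0.ne') (norm_pos_iff.2 hγs)
    linarith
  have hYb : ∀ t ∈ Ioo s s₁, ‖Y (t, γ t)‖ ≤ C * ‖γ t‖ ^ 2 := by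
    intro t ht
    have ht0 : 0 < t := lt_trans hs0 ht.1
    have htT : t ∈ Ioc T 1 := ⟨lt_trans hs.1 ht.1, ht.2.le.trans hs₁lt⟩
    have h5 := h4 (t • γ t) ((hsmall t htT ht.2.le).trans hδδ)
    have h6 : ‖t ^ 2 • Y (t, γ t)‖ ≤ C * ‖t • γ t‖ ^ 2 := by
      rw [h1, norm_neg]; exact h5
    rw [norm_smul, norm_smul, Real.norm_of_nonneg ht0.le, Real.norm_of_nonneg (by positivity)] at h6
    have h7 : t ^ 2 * ‖Y (t, γ t)‖ ≤ t ^ 2 * (C * ‖γ t‖ ^ 2) := by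
      calc t ^ 2 * ‖Y (t, γ t)‖ ≤ C * (t * ‖γ t‖) ^ 2 := h6
        _ = t ^ 2 * (C * ‖γ t‖ ^ 2) := by ring
    exact le_of_mul_le_mul_left h7 (by positivity)
  -- the function 1/‖γ‖
  have hFd : ∀ t ∈ Ioo s s₁, HasDerivAt (fun t => ‖γ t‖ ^ 2) (2 * inner ℝ (γ t) (Y (t, γ t))) t := by
    intro t ht
    exact (hder t ⟨lt_trans hs.1 ht.1, lt_of_lt_of_le ht.2 hs₁lt⟩).norm_sq
  have hF2 : ∀ t ∈ Ioo s s₁, HasDerivAt (fun t => (‖γ t‖)⁻¹)
      (-((2 * inner ℝ (γ t) (Y (t, γ t))) / (2 * ‖γ t‖)) / ‖γ t‖ ^ 2) t := by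
    intro t ht
    have hnz : 0 < ‖γ t‖ := norm_pos_iff.2 (hne t ⟨ht.1.le, ht.2.le⟩)
    have h5 := (hFd t ht).sqrt (by positivity)
    have h6 : (fun t => Real.sqrt (‖γ t‖ ^ 2)) = fun t => ‖γ t‖ := by
      funext u; exact Real.sqrt_sq (norm_nonneg _)
    rw [h6, Real.sqrt_sq (norm_nonneg _)] at h5
    exact h5.inv hnz.ne'
  have hsubI : Icc s s₁ ⊆ Ioc T 1 := fun t ht => ⟨lt_of_lt_of_le hs.1 ht.1, ht.2.trans hs₁lt⟩
  have hinv := Convex.image_sub_le_mul_sub_of_deriv_le (convex_Icc s s₁) (f := fun t => (‖γ t‖)⁻¹)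
    (C := C) (((hcont.mono hsubI).norm).inv₀ (fun t ht => norm_ne_zero_iff.2 (hne t ht)))
    (by
      rw [interior_Icc]
      intro t ht
      exact (hF2 t ht).differentiableAt.differentiableWithinAt)
    (by
      rw [interior_Icc]
      intro t ht
      rw [(hF2 t ht).deriv]
      have hnz : 0 < ‖γ t‖ := norm_pos_iff.2 (hne t ⟨ht.1.le, ht.2.le⟩)
      rw [div_le_iff₀ (by positivity)]
      have h5 : -(2 * inner ℝ (γ t) (Y (t, γ t))) ≤ 2 * (‖γ t‖ * (C * ‖γ t‖ ^ 2)) := by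
        have h6 := abs_real_inner_le_norm (γ t) (Y (t, γ t))
        have h7 := (abs_le.1 h6).1
        have h8 := mul_le_mul_of_nonneg_left (hYb t ht) hnz.le
        linarith
      rw [neg_div', div_le_iff₀ (by positivity)]
      calc -(2 * inner ℝ (γ t) (Y (t, γ t))) ≤ 2 * (‖γ t‖ * (C * ‖γ t‖ ^ 2)) := h5
        _ = C * ‖γ t‖ ^ 2 * (2 * ‖γ t‖) := by ring)
    s ⟨le_rfl, hss.le⟩ s₁ ⟨hss.le, le_rfl⟩ hss.le
  have hq : 0 < ‖γ s₁‖ := norm_pos_iff.2 (hne s₁ ⟨hss.le, le_rfl⟩)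
  have hqs : 0 < ‖γ s‖ := norm_pos_iff.2 hγs
  have h5 : C * s₁ * ‖γ s₁‖ ≤ 1 / 2 := by
    have h6 := hsmall s₁ hs₁T le_rfl
    rw [norm_smul, Real.norm_of_nonneg hs₁pos.le] at h6
    calc C * s₁ * ‖γ s₁‖ = C * (s₁ * ‖γ s₁‖) := by ring
      _ ≤ C * δ := mul_le_mul_of_nonneg_left h6 hC.le
      _ ≤ 1 / 2 := hCδ
  have h6 : C * (s₁ - s) ≤ 1 / 2 * (‖γ s₁‖)⁻¹ := by
    have h7 : C * (s₁ - s) ≤ C * s₁ := by nlinarith
    refine h7.trans ?_
    rw [← div_eq_mul_inv, le_div_iff₀ hq]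
    exact h5
  have h7 : 1 / 2 * (‖γ s₁‖)⁻¹ ≤ (‖γ s‖)⁻¹ := by linarith
  have h8 : ‖γ s‖ ≤ 2 * ‖γ s₁‖ := by
    have h9 : (2 * ‖γ s₁‖)⁻¹ ≤ (‖γ s‖)⁻¹ := by
      rw [mul_inv]; linarith
    exact (inv_le_inv₀ (by positivity) hqs).1 h9
  exact h8.trans (mul_le_mul_of_nonneg_left (hbig s₁ hs₁T le_rfl) (by norm_num))

end Apriori

end Pool.Agent.SH
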