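import Pool.Agent.Lib.MP_f72ae4_gt.Defs

/-! # Internal definitions for the proof of MP_f72ae4_gt -/

open scoped Manifold ContDiff Topology
open Set

noncomputable section

namespace Pool.Agent.SH

/-- The superposition operator `u ↦ V ∘ u` on continuous maps. -/
def nem (K : Type*) [TopologicalSpace K] {F G : Type*} [TopologicalSpace F] [TopologicalSpace G]
    (V : C(F, G)) (u : C(K, F)) : C(K, G) := V.comp u

/-- `Ω`, `J` on `ℝ^m` such that `g = Ω(·,J·)` is expressed in normal coordinates at `0` of a complete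
metric of nonpositive curvature: Gauss lemma and monotonicity. -/
structure Setting (m : ℕ) (Ω : Euc m → Form2 (Euc m)) (J : Euc m → Euc m →L[ℝ] Euc m) : Prop where
  smooth : ContDiff ℝ ∞ Ω
  smoothJ : ContDiff ℝ ∞ J
  alt : ∀ x v, Ω x v v = 0
  closed : ∀ x, ClosedAt Ω x
  sq : ∀ x v, J x (J x v) = -v
  inv : ∀ x u v, Ω x (J x u) (J x v) = Ω x u v
  pos : ∀ x v, v ≠ 0 → 0 < Ω x v (J x v)
  gauss : ∀ x v, Ω x x (J x v) = inner ℝ x v
  mono : ∀ x v, MonotoneOn (fun s : ℝ => Ω (s • x) v (J (s • x) v)) (Ici 0)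

/-- `L_E Ω` for the Euler field `E(x) = x`. -/
def LE {m : ℕ} (Ω : Euc m → Form2 (Euc m)) (x : Euc m) : Form2 (Euc m) :=
  (2 : ℝ) • Ω x + fderiv ℝ Ω x x

/-- The Liouville field `Z` of `(L_E Ω, i_E Ω)`: `(L_E Ω)_y (Z y, ·) = Ω_y (y, ·)`. -/
def liou {m : ℕ} (Ω : Euc m → Form2 (Euc m)) (y : Euc m) : Euc m :=
  (LE Ω y).inverse (Ω y y)

/-- The Moser field of the second isotopy: `(1/2) L_E Ω (s x) (Y(s,x), ·) = - (1/2) (∂_x Ω)_{s x} (x, ·)`. -/
def yfield {m : ℕ} (Ω : Euc m → Form2 (Euc m)) (p : ℝ × Euc m) : Euc m :=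
  - (LE Ω (p.1 • p.2)).inverse (fderiv ℝ Ω (p.1 • p.2) p.2 p.2)

section Mfd
variable {m : ℕ} {M : Type*} [TopologicalSpace M] [ChartedSpace (Euc m) M]

/-- smooth Riemannian metric (chart-wise) -/
structure IsRiem (g : FormField m M) : Prop where
  symm : ∀ x u v, g x u v = g x v u
  pos : ∀ x v, v ≠ 0 → 0 < g x v v
  smooth : ∀ e ∈ IsManifold.maximalAtlas 𝓘(ℝ, Euc m) ∞ M, ContDiffOn ℝ ∞ (coordForm g e) e.target

/-- Pull-back of a form field under a map `f : ℝ^m → M`. -/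
def pullForm (g : FormField m M) (f : Euc m → M) (y : Euc m) : Form2 (Euc m) :=
  ContinuousLinearMap.bilinearComp (E := Euc m) (F := Euc m) (E' := Euc m) (F' := Euc m)
    (g (f y)) (mfderiv 𝓘(ℝ, Euc m) 𝓘(ℝ, Euc m) f y) (mfderiv 𝓘(ℝ, Euc m) 𝓘(ℝ, Euc m) f y)

end Mfd

end Pool.Agent.SH
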