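import Pool.Agent.Lib.MP_f72ae4_gt.Base

/-! # Christoffel symbols: algebra and smoothness (piece C) -/

open scoped Manifold ContDiff Topology
open Set

noncomputable section

namespace Pool.Agent.SH

set_option linter.unusedSectionVars false
set_option linter.unusedVariables false

section C
variable {E : Type*} [NormedAddCommGroup E] [NormedSpace ℝ E] [FiniteDimensional ℝ E]
variable {G : E → Form2 E} {U : Set E}

/-- A positive definite form on a finite-dimensional space is an isomorphism onto the dual. -/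
theorem chr_equiv (B : Form2 E) (hpd : ∀ v, v ≠ 0 → 0 < B v v) :
    ∃ e : E ≃L[ℝ] (E →L[ℝ] ℝ), (e : E →L[ℝ] (E →L[ℝ] ℝ)) = B := by
  have hinj : Function.Injective (B : E →ₗ[ℝ] (E →L[ℝ] ℝ)) := by
    rw [← LinearMap.ker_eq_bot, LinearMap.ker_eq_bot']
    intro v hv
    by_contra hne
    have h1 := hpd v hne
    have h2 : B v = 0 := hv
    rw [h2] at h1
    simp at h1
  have hdim : Module.finrank ℝ E = Module.finrank ℝ (E →L[ℝ] ℝ) := by
    rw [← (LinearMap.toContinuousLinearMap : (E →ₗ[ℝ] ℝ) ≃ₗ[ℝ] (E →L[ℝ] ℝ)).finrank_eq]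
    exact (Subspace.dual_finrank_eq (K := ℝ) (V := E)).symm
  let e := LinearMap.linearEquivOfInjective (B : E →ₗ[ℝ] (E →L[ℝ] ℝ)) hinj hdim
  refine ⟨e.toContinuousLinearEquiv, ?_⟩
  ext v w
  rfl

theorem chr_apply_inverse (B : Form2 E) (hpd : ∀ v, v ≠ 0 → 0 < B v v) (l : E →L[ℝ] ℝ) :
    B (B.inverse l) = l := by
  obtain ⟨e, he⟩ := chr_equiv B hpd
  rw [← he, ContinuousLinearMap.inverse_equiv]
  simp

theorem christoffel_spec {y : E} (hpd : ∀ v, v ≠ 0 → 0 < G y v v) (u v w : E) :
    G y (christoffel G y u v) w = christoffelLower G y u v w := by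
  unfold christoffel
  rw [chr_apply_inverse (G y) hpd]

omit [FiniteDimensional ℝ E] in
theorem chr_lower_apply (y u v w : E) :
    christoffelLower G y u v w =
      (1 / 2 : ℝ) * (fderiv ℝ G y u v w + fderiv ℝ G y v u w - fderiv ℝ G y w u v) := by
  simp [christoffelLower, ContinuousLinearMap.flip_apply]

omit [FiniteDimensional ℝ E] in
theorem chr_fderiv_symm {y : E} (hG : DifferentiableAt ℝ G y)
    (hsym : ∀ᶠ z in 𝓝 y, ∀ u v, G z u v = G z v u) (w u v : E) :
    fderiv ℝ G y w u v = fderiv ℝ G y w v u := by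
  have key : ∀ a b : E, fderiv ℝ (fun z => G z a b) y w = fderiv ℝ G y w a b := by
    intro a b
    have h1 : HasFDerivAt G (fderiv ℝ G y) y := hG.hasFDerivAt
    have h2 := (h1.clm_apply (hasFDerivAt_const a y)).clm_apply (hasFDerivAt_const b y)
    rw [h2.fderiv]
    simp
  rw [← key u v, ← key v u]
  have h3 : (fun z => G z u v) =ᶠ[𝓝 y] (fun z => G z v u) := hsym.mono fun z hz => hz u v
  rw [h3.fderiv_eq]

theorem christoffel_compat {y : E} (hG : DifferentiableAt ℝ G y) (hpd : ∀ v, v ≠ 0 → 0 < G y v v)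
    (hsym : ∀ᶠ z in 𝓝 y, ∀ u v, G z u v = G z v u) (w u v : E) :
    fderiv ℝ G y w u v = G y (christoffel G y w u) v + G y u (christoffel G y w v) := by
  have hs := hsym.self_of_nhds
  rw [hs u, christoffel_spec hpd, christoffel_spec hpd, chr_lower_apply, chr_lower_apply]
  have h1 := chr_fderiv_symm hG hsym w u v
  have h2 := chr_fderiv_symm hG hsym u w v
  have h3 := chr_fderiv_symm hG hsym v w u
  linarith

theorem christoffel_symm {y : E} (hG : DifferentiableAt ℝ G y) (hpd : ∀ v, v ≠ 0 → 0 < G y v v)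
    (hsym : ∀ᶠ z in 𝓝 y, ∀ u v, G z u v = G z v u) (u v : E) :
    christoffel G y u v = christoffel G y v u := by
  have h : christoffelLower G y u v = christoffelLower G y v u := by
    ext w
    rw [chr_lower_apply, chr_lower_apply, chr_fderiv_symm hG hsym w u v]
    ring
  unfold christoffel
  rw [h]

set_option maxSynthPendingDepth 3 in
/-- `T ↦ ((u,v) ↦ ½ (T(u,v,·) + T(v,u,·) - T(·,u,v)))` as a continuous linear map. -/
def chrLowerL : (E →L[ℝ] Form2 E) →L[ℝ] (E →L[ℝ] E →L[ℝ] (E →L[ℝ] ℝ)) :=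
  LinearMap.toContinuousLinearMap
    { toFun := fun T => (1 / 2 : ℝ) • (T + T.flip -
        ((ContinuousLinearMap.flipₗᵢ ℝ E E ℝ : (E →L[ℝ] E →L[ℝ] ℝ) ≃ₗᵢ[ℝ] (E →L[ℝ] E →L[ℝ] ℝ)) :
          (E →L[ℝ] E →L[ℝ] ℝ) →L[ℝ] (E →L[ℝ] E →L[ℝ] ℝ)).comp T.flip)
      map_add' := by
        intro S T
        ext u v w
        simp
        ring
      map_smul' := by
        intro c T
        ext u v w
        simp
        ring }

set_option maxSynthPendingDepth 3 in
theorem chrLowerL_apply (y u v : E) : chrLowerL (fderiv ℝ G y) u v = christoffelLower G y u v := by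
  ext w
  rw [chr_lower_apply]
  simp [chrLowerL]

set_option maxSynthPendingDepth 3 in
/-- Christoffel symbols as a smooth field of continuous bilinear maps. -/
theorem exists_christoffelCLM (hU : IsOpen U) (hG : ContDiffOn ℝ ∞ G U)
    (hpd : ∀ y ∈ U, ∀ v, v ≠ 0 → 0 < G y v v) :
    ∃ Γ : E → E →L[ℝ] E →L[ℝ] E, ContDiffOn ℝ ∞ Γ U ∧ ∀ y ∈ U, ∀ u v, Γ y u v = christoffel G y u v := by
  have : CompleteSpace E := FiniteDimensional.complete ℝ E
  refine ⟨fun y => (ContinuousLinearMap.compL ℝ E (E →L[ℝ] ℝ) E (G y).inverse).comp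
    (chrLowerL (fderiv ℝ G y)), ?_, ?_⟩
  · have h1 : ContDiffOn ℝ ∞ (fun y => chrLowerL (fderiv ℝ G y)) U :=
      (chrLowerL (E := E)).contDiff.comp_contDiffOn
        (hG.fderiv_of_isOpen hU (by simp))
    have h2 : ContDiffOn ℝ ∞ (fun y => (G y).inverse) U := by
      intro y hy
      obtain ⟨e, he⟩ := chr_equiv (G y) (hpd y hy)
      have h3 : ContDiffAt ℝ ∞ ContinuousLinearMap.inverse (G y) := by
        rw [← he]
        exact contDiffAt_map_inverse e
      exact h3.comp_contDiffWithinAt y (hG y hy)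
    have h4 : ContDiffOn ℝ ∞ (fun y => ContinuousLinearMap.compL ℝ E (E →L[ℝ] ℝ) E (G y).inverse) U :=
      (ContinuousLinearMap.compL ℝ E (E →L[ℝ] ℝ) E).contDiff.comp_contDiffOn h2
    exact h4.clm_comp h1
  · intro y hy u v
    simp only [ContinuousLinearMap.comp_apply, ContinuousLinearMap.compL_apply, chrLowerL_apply]
    rfl

omit [FiniteDimensional ℝ E] in
theorem chr_lower_congr {G' : E → Form2 E} {y : E} (h : G =ᶠ[𝓝 y] G') (u v : E) :
    christoffelLower G y u v = christoffelLower G' y u v := by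
  unfold christoffelLower
  rw [h.fderiv_eq]

/-- The three objects only depend on the germ of the metric. -/
theorem christoffel_congr {G' : E → Form2 E} {y : E} (h : G =ᶠ[𝓝 y] G') (u v : E) :
    christoffel G y u v = christoffel G' y u v := by
  unfold christoffel
  rw [chr_lower_congr h, h.eq_of_nhds]

theorem chr_riemann_congr {G' : E → Form2 E} {y : E} (h : G =ᶠ[𝓝 y] G') (u v w : E) :
    riemann G y u v w = riemann G' y u v w := by
  have h' := h.eventually_nhds
  have key : ∀ a b : E, (fun z => christoffel G z a b) =ᶠ[𝓝 y] (fun z => christoffel G' z a b) :=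
    fun a b => h'.mono fun z hz => christoffel_congr hz a b
  unfold riemann
  rw [(key v w).fderiv_eq, (key u w).fderiv_eq, christoffel_congr h v w, christoffel_congr h u w,
    christoffel_congr h u, christoffel_congr h v]

theorem sectionalNumerator_congr {G' : E → Form2 E} {y : E} (h : G =ᶠ[𝓝 y] G') (u v : E) :
    sectionalNumerator G y u v = sectionalNumerator G' y u v := by
  unfold sectionalNumerator
  rw [chr_riemann_congr h, h.eq_of_nhds]

theorem closedAt_congr {G' : E → Form2 E} {y : E} (h : G =ᶠ[𝓝 y] G') :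
    ClosedAt G y ↔ ClosedAt G' y := by
  unfold ClosedAt
  rw [h.fderiv_eq]

end C

end Pool.Agent.SH
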