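import Pool.Agent.Lib.MP_f72ae4_gt.Base

/-! # Linear algebra: orthonormal and symplectic bases (piece D) -/

open scoped Manifold ContDiff Topology
open Set

noncomputable section

namespace Pool.Agent.SH

/-- a linear map preserving a form from a nondegenerate model is an equivalence if the dimensions agree -/
theorem linalg_aux_equiv {V W : Type*} [NormedAddCommGroup V] [NormedSpace ℝ V] [FiniteDimensional ℝ V]
    [NormedAddCommGroup W] [NormedSpace ℝ W] [FiniteDimensional ℝ W]
    (h : Module.finrank ℝ V = Module.finrank ℝ W) (f : V →ₗ[ℝ] W) (hf : Function.Injective f) :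
    ∃ L : V ≃L[ℝ] W, ∀ x, L x = f x :=
  ⟨(LinearEquiv.ofInjectiveOfFinrankEq f hf h).toContinuousLinearEquiv, fun _ => rfl⟩

theorem exists_isometry {m : ℕ} (B : Form2 (Euc m)) (hsym : ∀ u v, B u v = B v u)
    (hpos : ∀ v, v ≠ 0 → 0 < B v v) :
    ∃ L : Euc m ≃L[ℝ] Euc m, ∀ u v, B (L u) (L v) = inner ℝ u v := by
  classical
  set B' : LinearMap.BilinForm ℝ (Euc m) :=
    LinearMap.mk₂ ℝ (fun u v => B u v) (by intros; simp) (by intros; simp) (by intros; simp)
      (by intros; simp) with hB'
  have hB'app : ∀ u v, B' u v = B u v := fun u v => rfl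
  have hs : LinearMap.IsSymm B' := ⟨fun u v => by simpa [hB'app] using hsym u v⟩
  have : Invertible (2 : ℝ) := invertibleOfNonzero two_ne_zero
  obtain ⟨b, hb⟩ := LinearMap.BilinForm.exists_orthogonal_basis (B := B') hs
  have hfr : Module.finrank ℝ (Euc m) = m := by simp
  have hbo : ∀ i j, i ≠ j → B (b i) (b j) = 0 := fun i j hij =>
    hb hij
  have hbp : ∀ i, 0 < B (b i) (b i) := fun i => hpos _ (b.ne_zero i)
  let c : Fin m → Euc m := fun i =>
    (Real.sqrt (B (b (Fin.cast hfr.symm i)) (b (Fin.cast hfr.symm i))))⁻¹ • b (Fin.cast hfr.symm i)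
  have hc : ∀ i j, B (c i) (c j) = if i = j then 1 else 0 := by
    intro i j
    by_cases hij : i = j
    · subst hij
      have h1 := hbp (Fin.cast hfr.symm i)
      have h2 : Real.sqrt (B (b (Fin.cast hfr.symm i)) (b (Fin.cast hfr.symm i))) ≠ 0 :=
        (Real.sqrt_pos.mpr h1).ne'
      simp only [c, map_smul, smul_apply, smul_eq_mul, if_true]
      rw [← mul_assoc, ← mul_inv, Real.mul_self_sqrt h1.le, inv_mul_cancel₀ h1.ne']
    · have h1 : Fin.cast hfr.symm i ≠ Fin.cast hfr.symm j := by
        intro h; apply hij; exact Fin.cast_injective _ h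
      simp only [c, map_smul, smul_apply, smul_eq_mul, hbo _ _ h1, mul_zero,
        if_neg hij]
  let f : Euc m →ₗ[ℝ] Euc m :=
    { toFun := fun x => ∑ i, x i • c i
      map_add' := by intro x y; simp [add_smul, Finset.sum_add_distrib]
      map_smul' := by intro r x; simp [mul_smul, Finset.smul_sum] }
  have hf : ∀ u v, B (f u) (f v) = inner ℝ u v := by
    intro u v
    have : B (f u) (f v) = ∑ i, ∑ j, u i * (v j * B (c i) (c j)) := by
      have h2 : ∀ w, B (f u) w = ∑ i, u i * B (c i) w := by
        intro w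
        simp [f, map_sum, sum_apply]
      rw [h2]
      refine Finset.sum_congr rfl fun i _ => ?_
      have h3 : ∀ w : Euc m, B w (f v) = ∑ j, v j * B w (c j) := by
        intro w
        simp [f, map_sum]
      rw [h3, Finset.mul_sum]
    rw [this]
    simp only [hc, mul_ite, mul_one, mul_zero, Finset.sum_ite_eq, Finset.mem_univ, if_true]
    rw [PiLp.inner_apply]
    refine Finset.sum_congr rfl fun i _ => ?_
    simp [mul_comm]
  have hinj : Function.Injective f := by
    rw [← LinearMap.ker_eq_bot, LinearMap.ker_eq_bot']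
    intro x hx
    have : inner ℝ x x = (0 : ℝ) := by rw [← hf x x, hx]; simp
    simpa using this
  obtain ⟨L, hL⟩ := linalg_aux_equiv rfl f hinj
  exact ⟨L, fun u v => by rw [hL, hL, hf]⟩

/-- extension step: `k < n` symplectic-unitary vectors can be extended by one more. -/
theorem linalg_aux_frame (n : ℕ) (B : Form2 (Euc (2 * n))) (J : Euc (2 * n) →L[ℝ] Euc (2 * n))
    (hsq : ∀ v, J (J v) = -v) (hinv : ∀ u v, B (J u) (J v) = B u v) (halt : ∀ v, B v v = 0)
    (hpos : ∀ v, v ≠ 0 → 0 < B v (J v)) (k : ℕ) (hk : k ≤ n) :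
    ∃ e : Fin k → Euc (2 * n), (∀ i j, B (e i) (e j) = 0) ∧
      ∀ i j, B (e i) (J (e j)) = if i = j then 1 else 0 := by
  have hanti : ∀ u v, B u v = - B v u := by
    intro u v
    have h := halt (u + v)
    simp only [map_add, add_apply, halt] at h
    linarith
  induction k with
  | zero => exact ⟨fun i => i.elim0, fun i => i.elim0, fun i => i.elim0⟩
  | succ k ih =>
    obtain ⟨e, he1, he2⟩ := ih (by omega)
    -- a vector orthogonal to everything
    let F : Euc (2 * n) →ₗ[ℝ] ((Fin k → ℝ) × (Fin k → ℝ)) :=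
      { toFun := fun v => (fun i => B v (e i), fun i => B v (J (e i)))
        map_add' := by intro x y; ext <;> simp
        map_smul' := by intro r x; ext <;> simp }
    have hlt : Module.finrank ℝ ((Fin k → ℝ) × (Fin k → ℝ)) < Module.finrank ℝ (Euc (2 * n)) := by
      simp; omega
    have hker : LinearMap.ker F ≠ ⊥ := LinearMap.ker_ne_bot_of_finrank_lt hlt
    obtain ⟨v, hv, hv0⟩ := (Submodule.ne_bot_iff _).mp hker
    have hv1 : ∀ i, B v (e i) = 0 := fun i => congrFun (congrArg Prod.fst (LinearMap.mem_ker.mp hv)) i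
    have hv2 : ∀ i, B v (J (e i)) = 0 := fun i =>
      congrFun (congrArg Prod.snd (LinearMap.mem_ker.mp hv)) i
    have hp := hpos v hv0
    set s := (Real.sqrt (B v (J v)))⁻¹ with hs
    set w := s • v with hw
    have hw0 : B w (J w) = 1 := by
      simp only [hw, map_smul, smul_apply, smul_eq_mul]
      rw [← mul_assoc, hs, ← mul_inv, Real.mul_self_sqrt hp.le, inv_mul_cancel₀ hp.ne']
    have hw1 : ∀ i, B w (e i) = 0 := fun i => by
      simp [hw, hv1]
    have hw2 : ∀ i, B w (J (e i)) = 0 := fun i => by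
      simp [hw, hv2]
    have hw3 : ∀ i, B (e i) w = 0 := fun i => by rw [hanti, hw1]; simp
    have hw4 : ∀ i, B (e i) (J w) = 0 := fun i => by
      rw [← hinv, hsq, map_neg, hanti, hw2]; simp
    refine ⟨Fin.cons w e, ?_, ?_⟩
    · intro i j
      refine Fin.cases ?_ (fun i => ?_) i <;> refine Fin.cases ?_ (fun j => ?_) j
      · simpa using halt w
      · simpa using hw1 j
      · simpa using hw3 i
      · simpa using he1 i j
    · intro i j
      refine Fin.cases ?_ (fun i => ?_) i <;> refine Fin.cases ?_ (fun j => ?_) j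
      · simpa using hw0
      · simpa [Fin.ext_iff] using hw2 j
      · simpa [Fin.ext_iff] using hw4 i
      · simpa using he2 i j

theorem linear_darboux (n : ℕ) (B : Form2 (Euc (2 * n))) (J : Euc (2 * n) →L[ℝ] Euc (2 * n))
    (hsq : ∀ v, J (J v) = -v) (hinv : ∀ u v, B (J u) (J v) = B u v) (halt : ∀ v, B v v = 0)
    (hpos : ∀ v, v ≠ 0 → 0 < B v (J v)) :
    ∃ L : Euc (2 * n) ≃L[ℝ] (Fin n → ℝ) × (Fin n → ℝ), ∀ u v, stdForm n (L u) (L v) = B u v := by
  classical
  obtain ⟨e, he1, he2⟩ := linalg_aux_frame n B J hsq hinv halt hpos n le_rfl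
  have he3 : ∀ i j, B (J (e i)) (e j) = if i = j then -1 else 0 := by
    intro i j
    rw [← hinv, hsq, map_neg, neg_apply, he2]
    split_ifs <;> simp
  have he4 : ∀ i j, B (J (e i)) (J (e j)) = 0 := fun i j => by rw [hinv, he1]
  let f : ((Fin n → ℝ) × (Fin n → ℝ)) →ₗ[ℝ] Euc (2 * n) :=
    { toFun := fun x => ∑ i, (x.1 i • e i + x.2 i • J (e i))
      map_add' := by
        intro x y
        rw [← Finset.sum_add_distrib]
        refine Finset.sum_congr rfl fun i _ => ?_
        simp only [Prod.fst_add, Prod.snd_add, Pi.add_apply, add_smul]; abel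
      map_smul' := by
        intro r x
        simp [Finset.smul_sum, mul_smul] }
  have hf : ∀ a b, B (f a) (f b) = stdForm n a b := by
    intro a b
    have h1 : B (f a) (f b) = ∑ i, ∑ j, (a.1 i * (b.1 j * B (e i) (e j)) + a.1 i * (b.2 j * B (e i) (J (e j)))
        + (a.2 i * (b.1 j * B (J (e i)) (e j)) + a.2 i * (b.2 j * B (J (e i)) (J (e j))))) := by
      have h2 : ∀ w, B (f a) w = ∑ i, (a.1 i * B (e i) w + a.2 i * B (J (e i)) w) := by
        intro w
        simp [f, map_sum, sum_apply]
      rw [h2]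
      refine Finset.sum_congr rfl fun i _ => ?_
      have h3 : ∀ u : Euc (2 * n), B u (f b) = ∑ j, (b.1 j * B u (e j) + b.2 j * B u (J (e j))) := by
        intro u
        simp [f, map_sum]
      rw [h3, h3, Finset.mul_sum, Finset.mul_sum, ← Finset.sum_add_distrib]
      refine Finset.sum_congr rfl fun j _ => ?_
      ring
    rw [h1, stdForm]
    refine Finset.sum_congr rfl fun i _ => ?_
    simp only [he1, he2, he3, he4, mul_zero, zero_add, add_zero, mul_ite, mul_one, Finset.sum_add_distrib,
      Finset.sum_ite_eq, Finset.mem_univ, if_true]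
    ring
  have hinj : Function.Injective f := by
    rw [← LinearMap.ker_eq_bot, LinearMap.ker_eq_bot']
    intro x hx
    have h0 : ∀ b, stdForm n x b = 0 := fun b => by rw [← hf, hx]; simp
    have hx1 : ∀ i, x.1 i = 0 := by
      intro i
      have := h0 (0, Pi.single i 1)
      simpa [stdForm, Pi.single_apply] using this
    have hx2 : ∀ i, x.2 i = 0 := by
      intro i
      have := h0 (Pi.single i 1, 0)
      simpa [stdForm, Pi.single_apply] using this
    ext i
    · exact hx1 i
    · exact hx2 i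
  have hfr : Module.finrank ℝ ((Fin n → ℝ) × (Fin n → ℝ)) = Module.finrank ℝ (Euc (2 * n)) := by
    simp; omega
  obtain ⟨L, hL⟩ := linalg_aux_equiv hfr f hinj
  refine ⟨L.symm, fun u v => ?_⟩
  rw [← hf, ← hL, ← hL]
  simp

end Pool.Agent.SH
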