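import Pool.Agent.Lib.MP_f72ae4_gt.Base

/-! # Existence of global solutions (piece GF2) -/

open scoped Manifold ContDiff Topology
open Set

noncomputable section

namespace Pool.Agent.SH

section GF2
variable {E : Type*} [NormedAddCommGroup E] [NormedSpace ℝ E]

/-- uniform time lemma on a vector space -/
theorem exist_global_auto {F : Type*} [NormedAddCommGroup F] [NormedSpace ℝ F] [CompleteSpace F]
    {V : F → F} (hV : ContDiff ℝ 1 V) {ε : ℝ} (hε : 0 < ε)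
    (h : ∀ z : F, ∃ γ : ℝ → F, γ 0 = z ∧ ∀ t ∈ Ioo (-ε) ε, HasDerivAt γ (V (γ t)) t) (z : F) :
    ∃ γ : ℝ → F, γ 0 = z ∧ ∀ t, HasDerivAt γ (V (γ t)) t := by
  have hv := (contMDiff_vectorSpace_iff_contDiff (𝕜 := ℝ) (E := F) (n := 1) (V := V)).2 hV
  obtain ⟨γ, h0, hγ⟩ := exists_isMIntegralCurve_of_isMIntegralCurveOn (I := 𝓘(ℝ, F)) (M := F)
    (v := V) hv hε (fun x => by
      obtain ⟨γ, h0, hγ⟩ := h x
      refine ⟨γ, h0, fun t ht => ?_⟩
      exact ((hγ t ht).hasFDerivAt.hasFDerivWithinAt).hasMFDerivWithinAt) z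
  refine ⟨γ, h0, fun t => ?_⟩
  have h1 : HasFDerivAt γ (ContinuousLinearMap.smulRight (1 : ℝ →L[ℝ] ℝ) (V (γ t))) t :=
    (hγ t).hasFDerivAt
  simpa using h1.hasDerivAt

/-- one step of uniform length -/
theorem exist_local [FiniteDimensional ℝ E] {X : ℝ × E → E} (hX : ContDiff ℝ ∞ X) {C : ℝ}
    (hC0 : 0 < C) (hC : ∀ t x, ‖X (t, x)‖ ≤ C * (1 + ‖x‖)) (s : ℝ) (x : E) :
    ∃ α : ℝ → E, α s = x ∧ ∀ t ∈ Ioo (s - 1 / (2 * C)) (s + 1 / (2 * C)),
      HasDerivAt α (X (t, α t)) t := by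
  haveI : CompleteSpace E := FiniteDimensional.complete ℝ E
  haveI : ProperSpace E := FiniteDimensional.proper ℝ E
  have hh : 0 < 1 / (2 * C) := by positivity
  obtain ⟨h, hhdef⟩ : ∃ h : ℝ, h = 1 / (2 * C) := ⟨_, rfl⟩
  rw [← hhdef] at hh ⊢
  have ha0 : 0 ≤ 1 + ‖x‖ := by positivity
  have hL0 : 0 ≤ 2 * C * (1 + ‖x‖) := by positivity
  have hcompact : IsCompact (Icc (s - h) (s + h) ×ˢ Metric.closedBall x (1 + ‖x‖)) :=
    isCompact_Icc.prod (isCompact_closedBall _ _)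
  have hconv : Convex ℝ (Icc (s - h) (s + h) ×ˢ Metric.closedBall x (1 + ‖x‖)) :=
    (convex_Icc _ _).prod (convex_closedBall _ _)
  obtain ⟨K, hK⟩ := (hX.contDiffOn (s := Icc (s - h) (s + h) ×ˢ
    Metric.closedBall x (1 + ‖x‖))).exists_lipschitzOnWith (by simp) hconv hcompact
  have hs : s ∈ Icc (s - h) (s + h) := ⟨by linarith, by linarith⟩
  have hPL : IsPicardLindelof (fun t y => X (t, y)) (⟨s, hs⟩ : Icc (s - h) (s + h)) x
      ⟨1 + ‖x‖, ha0⟩ 0 ⟨2 * C * (1 + ‖x‖), hL0⟩ K := by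
    refine ⟨fun t ht => ?_, fun y _ => ?_, fun t _ y hy => ?_, ?_⟩
    · intro y hy z hz
      have h1 := hK (x := (t, y)) ⟨ht, hy⟩ (y := (t, z)) ⟨ht, hz⟩
      simpa [Prod.edist_eq] using h1
    · exact (hX.continuous.comp (by fun_prop)).continuousOn
    · have h1 : ‖y‖ ≤ ‖x‖ + (1 + ‖x‖) := by
        have h2 : ‖y - x‖ ≤ 1 + ‖x‖ := by
          rw [← dist_eq_norm]; exact hy
        calc ‖y‖ = ‖x + (y - x)‖ := by congr 1; abel
          _ ≤ ‖x‖ + ‖y - x‖ := norm_add_le _ _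
          _ ≤ ‖x‖ + (1 + ‖x‖) := by linarith
      refine (hC t y).trans ?_
      change C * (1 + ‖y‖) ≤ 2 * C * (1 + ‖x‖)
      nlinarith
    · change (2 * C * (1 + ‖x‖)) * max ((s + h) - s) (s - (s - h)) ≤ (1 + ‖x‖) - 0
      have h1 : max ((s + h) - s) (s - (s - h)) = h := by
        rw [add_sub_cancel_left, sub_sub_cancel, max_self]
      rw [h1, hhdef, sub_zero]
      have h2 : 2 * C * (1 + ‖x‖) * (1 / (2 * C)) = 1 + ‖x‖ := by field_simp
      exact h2.le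
  obtain ⟨α, hα0, hα⟩ := hPL.exists_eq_forall_mem_Icc_hasDerivWithinAt₀
  refine ⟨α, hα0, fun t ht => ?_⟩
  exact (hα t ⟨ht.1.le, ht.2.le⟩).hasDerivAt (Icc_mem_nhds ht.1 ht.2)

theorem exists_solution_of_linear_growth [FiniteDimensional ℝ E] {X : ℝ × E → E}
    (hX : ContDiff ℝ ∞ X) {C : ℝ}
    (hC : ∀ t x, ‖X (t, x)‖ ≤ C * (1 + ‖x‖)) (t₀ : ℝ) (x : E) :
    ∃ γ : ℝ → E, γ t₀ = x ∧ ∀ t, HasDerivAt γ (X (t, γ t)) t := by
  haveI : CompleteSpace E := FiniteDimensional.complete ℝ E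
  have hC' : ∀ t x, ‖X (t, x)‖ ≤ (|C| + 1) * (1 + ‖x‖) := by
    intro t x
    refine (hC t x).trans ?_
    refine mul_le_mul_of_nonneg_right ?_ (by positivity)
    have := le_abs_self C
    linarith
  have hC0 : 0 < |C| + 1 := by positivity
  have hh : 0 < 1 / (2 * (|C| + 1)) := by positivity
  obtain ⟨c, hc0, hc⟩ := exist_global_auto (F := ℝ × E) (V := fun p => ((1 : ℝ), X p))
    (by
      refine contDiff_const.prodMk (hX.of_le ?_)
      exact_mod_cast le_top) hh (fun z => by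
      obtain ⟨α, hα0, hα⟩ := exist_local hX hC0 hC' z.1 z.2
      refine ⟨fun t => (z.1 + t, α (z.1 + t)), ?_, fun t ht => ?_⟩
      · simp only [add_zero, hα0]
      · have h1 : z.1 + t ∈ Ioo (z.1 - 1 / (2 * (|C| + 1))) (z.1 + 1 / (2 * (|C| + 1))) := by
          constructor
          · linarith [ht.1]
          · linarith [ht.2]
        have h2 : HasDerivAt (fun t => z.1 + t) 1 t := by
          simpa using (hasDerivAt_id t).const_add z.1
        have h3 := HasDerivAt.scomp (𝕜 := ℝ) t (hα _ h1) h2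
        rw [one_smul] at h3
        exact h2.prodMk h3) (t₀, x)
  -- the first coordinate
  have hfst : ∀ t, HasDerivAt (fun t => (c t).1) 1 t := fun t =>
    (hasFDerivAt_fst (𝕜 := ℝ) (p := c t)).comp_hasDerivAt t (hc t)
  have hsnd : ∀ t, HasDerivAt (fun t => (c t).2) (X (c t)) t := fun t =>
    (hasFDerivAt_snd (𝕜 := ℝ) (p := c t)).comp_hasDerivAt t (hc t)
  have hfst' : ∀ t, (c t).1 = t₀ + t := by
    intro t
    have h1 : ∀ t, HasDerivAt (fun t => (c t).1 - t) 0 t := fun t => by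
      simpa using (hfst t).fun_sub (hasDerivAt_id' t)
    have h2 := is_const_of_deriv_eq_zero (fun t => (h1 t).differentiableAt)
      (fun t => (h1 t).deriv) t 0
    simp only [hc0, sub_zero] at h2
    linarith
  refine ⟨fun t => (c (t - t₀)).2, ?_, fun t => ?_⟩
  · simp only [sub_self, hc0]
  · have h2 : HasDerivAt (fun t => t - t₀) 1 t := by
      simpa using (hasDerivAt_id t).sub_const t₀
    have h3 := HasDerivAt.scomp (𝕜 := ℝ) t (hsnd (t - t₀)) h2
    rw [one_smul] at h3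
    have h4 : c (t - t₀) = (t, (c (t - t₀)).2) := by
      refine Prod.ext ?_ rfl
      rw [hfst']
      ring
    have h5 : X (c (t - t₀)) = X (t, (c (t - t₀)).2) := congrArg X h4
    rw [h5] at h3
    exact h3

/-- a global solution of the cut-off field -/
theorem exist_cutoff [FiniteDimensional ℝ E] {Y : ℝ × E → E} (hY : ContDiff ℝ ∞ Y) (t₀ : ℝ) (x : E)
    (R : ℝ) : ∃ δ : ℝ → E, δ t₀ = x ∧ Continuous δ ∧
      ∀ s ∈ Icc (0 : ℝ) 1, ‖δ s‖ ≤ R → HasDerivAt δ (Y (s, δ s)) s := by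
  haveI : ProperSpace E := FiniteDimensional.proper ℝ E
  let χ : ContDiffBump (0 : ℝ × E) := ⟨|R| + 2, |R| + 3, by positivity, by linarith⟩
  have hX : ContDiff ℝ ∞ (fun p : ℝ × E => χ p • Y p) := χ.contDiff.smul hY
  have hcont : Continuous (fun p : ℝ × E => χ p • Y p) := hX.continuous
  have hsupp : HasCompactSupport (fun p : ℝ × E => χ p • Y p) :=
    χ.hasCompactSupport.smul_right
  obtain ⟨C, hC⟩ := hsupp.exists_bound_of_continuous hcont
  have hC0 : 0 ≤ C := (norm_nonneg _).trans (hC 0)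
  obtain ⟨δ, hδ0, hδ⟩ := exists_solution_of_linear_growth hX (C := C) (fun t x => by
    refine (hC (t, x)).trans ?_
    have : 0 ≤ C * ‖x‖ := by positivity
    linarith) t₀ x
  refine ⟨δ, hδ0, ?_, fun s hs hsR => ?_⟩
  · rw [continuous_iff_continuousAt]
    exact fun t => (hδ t).continuousAt
  · have h1 : χ (s, δ s) = 1 := by
      apply χ.one_of_mem_closedBall
      rw [mem_closedBall_zero_iff, Prod.norm_def]
      refine max_le ?_ ?_
      · change ‖s‖ ≤ |R| + 2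
        rw [Real.norm_eq_abs, abs_of_nonneg hs.1]
        have := abs_nonneg R
        linarith [hs.2]
      · change ‖δ s‖ ≤ |R| + 2
        have := le_abs_self R
        linarith
    have h2 := hδ s
    simp only [h1, one_smul] at h2
    exact h2

/-- time change -/
theorem exist_timechange {Y : ℝ × E → E} {δ : ℝ → E}
    (h : ∀ s ∈ Icc (0 : ℝ) 1, HasDerivAt δ (Y (s, δ s)) s) (t : ℝ) :
    HasDerivAt (fun t => δ (Real.smoothTransition t))
      (deriv Real.smoothTransition t • Y (Real.smoothTransition t, δ (Real.smoothTransition t))) t := by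
  have h1 := h (Real.smoothTransition t) ⟨Real.smoothTransition.nonneg t,
    Real.smoothTransition.le_one t⟩
  have h2 : HasDerivAt Real.smoothTransition (deriv Real.smoothTransition t) t :=
    ((Real.smoothTransition.contDiff (n := 1)).differentiable (by simp) t).hasDerivAt
  exact HasDerivAt.scomp t h1 h2

theorem exists_solution_timechange_fwd [FiniteDimensional ℝ E] {Y : ℝ × E → E}
    (hY : ContDiff ℝ ∞ Y) (x : E) (R : ℝ)
    (hap : ∀ T ∈ Ioc (0 : ℝ) 1, ∀ γ : ℝ → E, γ 0 = x → ContinuousOn γ (Ico 0 T) →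
      (∀ t ∈ Ioo 0 T, HasDerivAt γ (Y (t, γ t)) t) → ∀ t ∈ Ico 0 T, ‖γ t‖ ≤ R) :
    ∃ γ : ℝ → E, γ 0 = x ∧ ∀ t, HasDerivAt γ
      (deriv Real.smoothTransition t • Y (Real.smoothTransition t, γ t)) t := by
  obtain ⟨R', hR'def⟩ : ∃ R' : ℝ, R' = max R ‖x‖ + 1 := ⟨_, rfl⟩
  have hR1 : R < R' := by have := le_max_left R ‖x‖; linarith
  have hR2 : ‖x‖ < R' := by have := le_max_right R ‖x‖; linarith
  obtain ⟨δ, hδ0, hδc, hδ⟩ := exist_cutoff hY 0 x R'
  have hstay : ∀ s ∈ Icc (0 : ℝ) 1, ‖δ s‖ < R' := by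
    by_contra hneg
    push Not at hneg
    obtain ⟨s₀, hs₀, hbig⟩ := hneg
    obtain ⟨A, hA⟩ : ∃ A : Set ℝ, A = Icc (0 : ℝ) 1 ∩ {s | R' ≤ ‖δ s‖} := ⟨_, rfl⟩
    have hAc : IsCompact A := by
      rw [hA]
      exact isCompact_Icc.inter_right (isClosed_le continuous_const hδc.norm)
    have hAne : A.Nonempty := ⟨s₀, by rw [hA]; exact ⟨hs₀, hbig⟩⟩
    obtain ⟨T, hT, hmin⟩ := hAc.exists_isLeast hAne
    have hT' : T ∈ Icc (0 : ℝ) 1 ∩ {s | R' ≤ ‖δ s‖} := by rw [← hA]; exact hT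
    have hTpos : 0 < T := by
      rcases hT'.1.1.eq_or_lt with h | h
      · exfalso
        have h2 : R' ≤ ‖δ T‖ := hT'.2
        rw [← h, hδ0] at h2
        linarith
      · exact h
    have hlt : ∀ t ∈ Ico 0 T, ‖δ t‖ < R' := by
      intro t ht
      by_contra hcon
      push Not at hcon
      have : t ∈ A := by
        rw [hA]
        exact ⟨⟨ht.1, ht.2.le.trans hT'.1.2⟩, hcon⟩
      have := hmin this
      linarith [ht.2]
    have h3 := hap T ⟨hTpos, hT'.1.2⟩ δ hδ0 hδc.continuousOn (fun t ht =>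
      hδ t ⟨ht.1.le, ht.2.le.trans hT'.1.2⟩ (hlt t ⟨ht.1.le, ht.2⟩).le)
    have h4 : closure (Ico 0 T) ⊆ {t | ‖δ t‖ ≤ R} :=
      closure_minimal h3 (isClosed_le hδc.norm continuous_const)
    rw [closure_Ico hTpos.ne] at h4
    have h5 : ‖δ T‖ ≤ R := h4 ⟨hTpos.le, le_rfl⟩
    have h6 : R' ≤ ‖δ T‖ := hT'.2
    linarith
  refine ⟨fun t => δ (Real.smoothTransition t), ?_, fun t => ?_⟩
  · simp only [Real.smoothTransition.zero, hδ0]
  · exact exist_timechange (fun s hs => hδ s hs (hstay s hs).le) t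

theorem exists_solution_timechange_bwd [FiniteDimensional ℝ E] {Y : ℝ × E → E}
    (hY : ContDiff ℝ ∞ Y) (x : E) (R : ℝ)
    (hap : ∀ T ∈ Ico (0 : ℝ) 1, ∀ γ : ℝ → E, γ 1 = x → ContinuousOn γ (Ioc T 1) →
      (∀ t ∈ Ioo T 1, HasDerivAt γ (Y (t, γ t)) t) → ∀ t ∈ Ioc T 1, ‖γ t‖ ≤ R) :
    ∃ γ : ℝ → E, γ 1 = x ∧ ∀ t, HasDerivAt γ
      (deriv Real.smoothTransition t • Y (Real.smoothTransition t, γ t)) t := by
  obtain ⟨R', hR'def⟩ : ∃ R' : ℝ, R' = max R ‖x‖ + 1 := ⟨_, rfl⟩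
  have hR1 : R < R' := by have := le_max_left R ‖x‖; linarith
  have hR2 : ‖x‖ < R' := by have := le_max_right R ‖x‖; linarith
  obtain ⟨δ, hδ0, hδc, hδ⟩ := exist_cutoff hY 1 x R'
  have hstay : ∀ s ∈ Icc (0 : ℝ) 1, ‖δ s‖ < R' := by
    by_contra hneg
    push Not at hneg
    obtain ⟨s₀, hs₀, hbig⟩ := hneg
    obtain ⟨A, hA⟩ : ∃ A : Set ℝ, A = Icc (0 : ℝ) 1 ∩ {s | R' ≤ ‖δ s‖} := ⟨_, rfl⟩
    have hAc : IsCompact A := by
      rw [hA]
      exact isCompact_Icc.inter_right (isClosed_le continuous_const hδc.norm)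
    have hAne : A.Nonempty := ⟨s₀, by rw [hA]; exact ⟨hs₀, hbig⟩⟩
    obtain ⟨T, hT, hmax⟩ := hAc.exists_isGreatest hAne
    have hT' : T ∈ Icc (0 : ℝ) 1 ∩ {s | R' ≤ ‖δ s‖} := by rw [← hA]; exact hT
    have hTlt : T < 1 := by
      rcases hT'.1.2.eq_or_lt with h | h
      · exfalso
        have h2 : R' ≤ ‖δ T‖ := hT'.2
        rw [h, hδ0] at h2
        linarith
      · exact h
    have hlt : ∀ t ∈ Ioc T 1, ‖δ t‖ < R' := by
      intro t ht
      by_contra hcon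
      push Not at hcon
      have : t ∈ A := by
        rw [hA]
        exact ⟨⟨hT'.1.1.trans ht.1.le, ht.2⟩, hcon⟩
      have := hmax this
      linarith [ht.1]
    have h3 := hap T ⟨hT'.1.1, hTlt⟩ δ hδ0 hδc.continuousOn (fun t ht =>
      hδ t ⟨hT'.1.1.trans ht.1.le, ht.2.le⟩ (hlt t ⟨ht.1, ht.2.le⟩).le)
    have h4 : closure (Ioc T 1) ⊆ {t | ‖δ t‖ ≤ R} :=
      closure_minimal h3 (isClosed_le hδc.norm continuous_const)
    rw [closure_Ioc hTlt.ne] at h4
    have h5 : ‖δ T‖ ≤ R := h4 ⟨le_rfl, hTlt.le⟩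
    have h6 : R' ≤ ‖δ T‖ := hT'.2
    linarith
  refine ⟨fun t => δ (Real.smoothTransition t), ?_, fun t => ?_⟩
  · simp only [Real.smoothTransition.one, hδ0]
  · exact exist_timechange (fun s hs => hδ s hs (hstay s hs).le) t

end GF2

end Pool.Agent.SH
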