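import Pool.Agent.Lib.MP_f72ae4_gt.Base
import Pool.Agent.Lib.MP_f72ae4_gt.LocalFlow

/-! # GF1: smoothness of global flows -/

open scoped Manifold ContDiff Topology
open Set

noncomputable section

namespace Pool.Agent.SH


section GF
variable {E : Type*} [NormedAddCommGroup E] [NormedSpace ℝ E]

/-- Uniqueness of integral curves of a smooth autonomous field on an open interval. -/
theorem gf_unique {F : Type*} [NormedAddCommGroup F] [NormedSpace ℝ F] {V : F → F}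
    (hV : ContDiff ℝ ∞ V) {f g : ℝ → F} {a b t₀ : ℝ} (ht₀ : t₀ ∈ Ioo a b)
    (hf : ∀ t ∈ Ioo a b, HasDerivAt f (V (f t)) t) (hg : ∀ t ∈ Ioo a b, HasDerivAt g (V (g t)) t)
    (heq : f t₀ = g t₀) : EqOn f g (Ioo a b) := by
  intro t ht
  -- a compact interval containing both points
  set c := (a + min t t₀) / 2 with hc
  set d := (b + max t t₀) / 2 with hd
  have h1 : a < min t t₀ := lt_min ht.1 ht₀.1
  have h2 : max t t₀ < b := max_lt ht.2 ht₀.2
  have hac : a < c := by rw [hc]; linarith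
  have hdb : d < b := by rw [hd]; linarith
  have hcm : c < min t t₀ := by rw [hc]; linarith
  have hdm : max t t₀ < d := by rw [hd]; linarith
  have hsub : Icc c d ⊆ Ioo a b := fun s hs => ⟨hac.trans_le hs.1, hs.2.trans_lt hdb⟩
  have htI : t ∈ Ioo c d := ⟨hcm.trans_le (min_le_left _ _), (le_max_left _ _).trans_lt hdm⟩
  have ht₀I : t₀ ∈ Ioo c d := ⟨hcm.trans_le (min_le_right _ _), (le_max_right _ _).trans_lt hdm⟩
  have hfc : ContinuousOn f (Icc c d) := fun s hs =>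
    (hf s (hsub hs)).continuousAt.continuousWithinAt
  have hgc : ContinuousOn g (Icc c d) := fun s hs =>
    (hg s (hsub hs)).continuousAt.continuousWithinAt
  set S := f '' Icc c d ∪ g '' Icc c d with hS
  have hScomp : IsCompact S := (isCompact_Icc.image_of_continuousOn hfc).union
    (isCompact_Icc.image_of_continuousOn hgc)
  obtain ⟨K, hK⟩ := (((hV.of_le (by simp) : ContDiff ℝ 1 V).locallyLipschitz).locallyLipschitzOn
    (s := S)).exists_lipschitzOnWith_of_compact hScomp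
  exact ODE_solution_unique_of_mem_Ioo (v := fun _ => V) (s := fun _ => S) (K := K)
    (fun _ _ => hK) ht₀I
    (fun s hs => ⟨hf s (hsub (Ioo_subset_Icc_self hs)),
      Or.inl ⟨s, Ioo_subset_Icc_self hs, rfl⟩⟩)
    (fun s hs => ⟨hg s (hsub (Ioo_subset_Icc_self hs)),
      Or.inr ⟨s, Ioo_subset_Icc_self hs, rfl⟩⟩) heq htI

/-- The autonomous field on `ℝ × E` of a time dependent field. -/
def gfField (X : ℝ × E → E) (z : ℝ × E) : ℝ × E := (1, X z)

theorem gfField_smooth {X : ℝ × E → E} (hX : ContDiff ℝ ∞ X) : ContDiff ℝ ∞ (gfField X) :=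
  contDiff_const.prodMk hX

theorem gf_lift {X : ℝ × E → E} {γ : ℝ → E} {t : ℝ} (h : HasDerivAt γ (X (t, γ t)) t) :
    HasDerivAt (fun s => (s, γ s)) (gfField X (t, γ t)) t :=
  (hasDerivAt_id t).prodMk h

/-- Uniqueness of global solutions of a time dependent equation. -/
theorem gf_unique_global {X : ℝ × E → E} (hX : ContDiff ℝ ∞ X) {γ₁ γ₂ : ℝ → E}
    (h1 : ∀ t, HasDerivAt γ₁ (X (t, γ₁ t)) t) (h2 : ∀ t, HasDerivAt γ₂ (X (t, γ₂ t)) t) {t₀ : ℝ}
    (h : γ₁ t₀ = γ₂ t₀) (t : ℝ) : γ₁ t = γ₂ t := by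
  have h3 := gf_unique (gfField_smooth hX) (f := fun s => (s, γ₁ s)) (g := fun s => (s, γ₂ s))
    (a := min t t₀ - 1) (b := max t t₀ + 1) (t₀ := t₀)
    ⟨by linarith [min_le_right t t₀], by linarith [le_max_right t t₀]⟩
    (fun s _ => gf_lift (h1 s)) (fun s _ => gf_lift (h2 s)) (by simp [h])
    (show t ∈ Ioo (min t t₀ - 1) (max t t₀ + 1) from
      ⟨by linarith [min_le_left t t₀], by linarith [le_max_left t t₀]⟩)
  exact (Prod.ext_iff.mp h3).2

/-- The local step. -/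
theorem gf_local [FiniteDimensional ℝ E] {X : ℝ × E → E} (hX : ContDiff ℝ ∞ X) {φ : ℝ → E → E}
    (hφ : ∀ x t, HasDerivAt (fun s => φ s x) (X (t, φ t x)) t) (x₀ : E) (T : ℝ) :
    ∃ δ > 0, ∀ t₁, |t₁ - T| < δ → ContDiffAt ℝ ∞ (φ t₁) x₀ → ∀ t, |t - T| < δ →
      ContDiffAt ℝ ∞ (fun p : ℝ × E => φ p.1 p.2) (t, x₀) := by
  obtain ⟨ε, hε, W, hWo, hW, Θ, hΘ, hΘ0, hΘd⟩ := exists_local_smooth_flow (F := ℝ × E)
    isOpen_univ (gfField_smooth hX).contDiffOn (mem_univ (T, φ T x₀))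
  have hcont : ContinuousAt (fun s => (s, φ s x₀)) T :=
    continuousAt_id.prodMk (hφ x₀ T).continuousAt
  have hnear : ∀ᶠ s in 𝓝 T, (s, φ s x₀) ∈ W := hcont (hWo.mem_nhds hW)
  obtain ⟨δ₁, hδ₁, hδ₁'⟩ := Metric.eventually_nhds_iff.mp hnear
  refine ⟨min δ₁ (ε / 2), lt_min hδ₁ (by positivity), ?_⟩
  intro t₁ ht₁ hsm t ht
  have ht₁W : (t₁, φ t₁ x₀) ∈ W := hδ₁' (by
    rw [Real.dist_eq]; exact ht₁.trans_le (min_le_left _ _))
  have htt : t - t₁ ∈ Ioo (-ε) ε := by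
    have a1 := abs_lt.mp (ht₁.trans_le (min_le_right δ₁ (ε / 2)))
    have a2 := abs_lt.mp (ht.trans_le (min_le_right δ₁ (ε / 2)))
    constructor <;> linarith [a1.1, a1.2, a2.1, a2.2]
  -- the inner map
  have hin : ContDiffAt ℝ ∞ (fun p : ℝ × E => (p.1 - t₁, (t₁, φ t₁ p.2))) (t, x₀) := by
    refine (contDiffAt_fst.sub contDiffAt_const).prodMk (contDiffAt_const.prodMk ?_)
    exact ContDiffAt.comp (t, x₀) (g := φ t₁) (f := Prod.snd) hsm contDiffAt_snd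
  have hmem : Ioo (-ε) ε ×ˢ W ∈ 𝓝 ((fun p : ℝ × E => (p.1 - t₁, (t₁, φ t₁ p.2))) (t, x₀)) :=
    (isOpen_Ioo.prod hWo).mem_nhds ⟨htt, ht₁W⟩
  have hcomp : ContDiffAt ℝ ∞ (fun p : ℝ × E => (Θ (p.1 - t₁, (t₁, φ t₁ p.2))).2) (t, x₀) := by
    have h1 : ContDiffAt ℝ ∞ Θ ((fun p : ℝ × E => (p.1 - t₁, (t₁, φ t₁ p.2))) (t, x₀)) :=
      hΘ.contDiffAt hmem
    have h2 : ContDiffAt ℝ ∞ (fun p : ℝ × E => Θ (p.1 - t₁, (t₁, φ t₁ p.2))) (t, x₀) :=
      ContDiffAt.comp (t, x₀) (g := Θ) (f := fun p : ℝ × E => (p.1 - t₁, (t₁, φ t₁ p.2))) h1 hin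
    exact ContDiffAt.comp (t, x₀) (g := Prod.snd)
      (f := fun p : ℝ × E => Θ (p.1 - t₁, (t₁, φ t₁ p.2))) contDiffAt_snd h2
  refine hcomp.congr_of_eventuallyEq ?_
  have hev : ∀ᶠ p : ℝ × E in 𝓝 (t, x₀), (p.1 - t₁, (t₁, φ t₁ p.2)) ∈ Ioo (-ε) ε ×ˢ W :=
    hin.continuousAt hmem
  filter_upwards [hev] with p hp
  obtain ⟨hp1, hp2⟩ := hp
  have h3 := gf_unique (gfField_smooth hX) (f := fun s => (s, φ s p.2))
    (g := fun s => Θ (s - t₁, (t₁, φ t₁ p.2)))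
    (a := t₁ - ε) (b := t₁ + ε) (t₀ := t₁) ⟨by linarith, by linarith⟩
    (fun s _ => gf_lift (hφ p.2 s))
    (fun s hs => by
      have hs' : s - t₁ ∈ Ioo (-ε) ε := ⟨by linarith [hs.1], by linarith [hs.2]⟩
      have h4 := (hΘd _ hp2 (s - t₁) hs').2
      exact h4.comp_sub_const s t₁)
    (by simp only [sub_self]; exact (hΘ0 _ hp2).symm)
    (show p.1 ∈ Ioo (t₁ - ε) (t₁ + ε) from by
      have := hp1.1; have := hp1.2
      constructor <;> simp only [] at * <;> linarith)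
  exact (Prod.ext_iff.mp h3).2

theorem contDiff_of_global_solutions [FiniteDimensional ℝ E] {X : ℝ × E → E}
    (hX : ContDiff ℝ ∞ X) {φ : ℝ → E → E}
    {t₀ : ℝ} (h0 : ∀ x, φ t₀ x = x)
    (hφ : ∀ x t, HasDerivAt (fun s => φ s x) (X (t, φ t x)) t) :
    ContDiff ℝ ∞ (fun p : ℝ × E => φ p.1 p.2) := by
  rw [contDiff_iff_contDiffAt]
  rintro ⟨T, x₀⟩
  have hslice : ∀ t, ContDiffAt ℝ ∞ (fun p : ℝ × E => φ p.1 p.2) (t, x₀) →
      ContDiffAt ℝ ∞ (φ t) x₀ := by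
    intro t h
    exact ContDiffAt.comp x₀ (g := fun p : ℝ × E => φ p.1 p.2) (f := fun x => (t, x)) h
      (contDiffAt_const.prodMk contDiffAt_id)
  set S := {t | ContDiffAt ℝ ∞ (φ t) x₀} with hS
  have hopen : IsOpen S := by
    rw [Metric.isOpen_iff]
    intro t ht
    obtain ⟨δ, hδ, h⟩ := gf_local hX hφ x₀ t
    refine ⟨δ, hδ, fun s hs => hslice s (h t (by simpa using hδ) ht s ?_)⟩
    rw [Metric.mem_ball, Real.dist_eq] at hs
    exact hs
  have hclosed : IsClosed S := by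
    rw [← closure_subset_iff_isClosed]
    intro t ht
    obtain ⟨δ, hδ, h⟩ := gf_local hX hφ x₀ t
    obtain ⟨s, hs, hst⟩ := Metric.mem_closure_iff.mp ht δ hδ
    refine hslice t (h s ?_ hs t (by simpa using hδ))
    rwa [← Real.dist_eq, dist_comm]
  have huniv : S = univ := IsClopen.eq_univ ⟨hclosed, hopen⟩ ⟨t₀, by
    have : φ t₀ = id := funext h0
    simp only [hS, mem_ofPred_eq, this]
    exact contDiffAt_id⟩
  obtain ⟨δ, hδ, h⟩ := gf_local hX hφ x₀ T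
  exact h T (by simpa using hδ) (by
    have : T ∈ S := by rw [huniv]; trivial
    exact this) T (by simpa using hδ)

theorem exists_flow [FiniteDimensional ℝ E] {X : ℝ × E → E} (hX : ContDiff ℝ ∞ X)
    (h0 : ∀ x, ∃ γ : ℝ → E, γ 0 = x ∧ ∀ t, HasDerivAt γ (X (t, γ t)) t)
    (h1 : ∀ x, ∃ γ : ℝ → E, γ 1 = x ∧ ∀ t, HasDerivAt γ (X (t, γ t)) t) :
    ∃ (φ : ℝ → E → E) (ψ : E → E), ContDiff ℝ ∞ (fun p : ℝ × E => φ p.1 p.2) ∧ ContDiff ℝ ∞ ψ ∧
      (∀ x, φ 0 x = x) ∧ (∀ x t, HasDerivAt (fun s => φ s x) (X (t, φ t x)) t) ∧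
      (∀ x, ψ (φ 1 x) = x) ∧ (∀ y, φ 1 (ψ y) = y) := by
  choose c hc0 hc using h0
  choose d hd1 hd using h1
  have hψ : ContDiff ℝ ∞ (fun p : ℝ × E => d p.2 p.1) :=
    contDiff_of_global_solutions hX (φ := fun t x => d x t) (t₀ := 1) hd1 hd
  refine ⟨fun t x => c x t, fun y => d y 0,
    contDiff_of_global_solutions hX (φ := fun t x => c x t) (t₀ := 0) hc0 hc,
    ContDiff.comp (g := fun p : ℝ × E => d p.2 p.1) hψ (f := fun y => ((0 : ℝ), y))
      (contDiff_const.prodMk contDiff_id), hc0, hc, ?_, ?_⟩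
  · intro x
    have := gf_unique_global hX (hd (c x 1)) (hc x) (t₀ := 1) (hd1 _) 0
    rw [hc0] at this
    exact this
  · intro y
    have := gf_unique_global hX (hc (d y 0)) (hd y) (t₀ := 0) (hc0 _) 1
    rw [hd1] at this
    exact this

end GF

end Pool.Agent.SH
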