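import Pool.Agent.Lib.MP_f72ae4_gt.SetBasic

/-! # S4a: the Liouville field -/

set_option maxSynthPendingDepth 3

open scoped Manifold ContDiff Topology
open Set

noncomputable section

namespace Pool.Agent.SH

section LiouGen
variable {E : Type*} [NormedAddCommGroup E] [InnerProductSpace ℝ E] [FiniteDimensional ℝ E]
  {Ω : E → E →L[ℝ] E →L[ℝ] ℝ} {J : E → E →L[ℝ] E}

/-- `L_E Ω` on an abstract space -/
def liouLE (Ω : E → E →L[ℝ] E →L[ℝ] ℝ) (x : E) : E →L[ℝ] E →L[ℝ] ℝ :=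
  (2 : ℝ) • Ω x + fderiv ℝ Ω x x

/-- the Liouville field on an abstract space -/
def liouZ (Ω : E → E →L[ℝ] E →L[ℝ] ℝ) (y : E) : E := (liouLE Ω y).inverse (Ω y y)

/-- the Moser field on an abstract space -/
def liouY (Ω : E → E →L[ℝ] E →L[ℝ] ℝ) (p : ℝ × E) : E :=
  - (liouLE Ω (p.1 • p.2)).inverse (fderiv ℝ Ω (p.1 • p.2) p.2 p.2)

/-- the hypotheses used for the Liouville field -/
structure LiouHyp (Ω : E → E →L[ℝ] E →L[ℝ] ℝ) (J : E → E →L[ℝ] E) : Prop where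
  smooth : ContDiff ℝ ∞ Ω
  smoothJ : ContDiff ℝ ∞ J
  gauss : ∀ x v, Ω x x (J x v) = inner ℝ x v
  co : ∀ y w, 2 * ‖w‖ ^ 2 ≤ liouLE Ω y w (J y w)

omit [FiniteDimensional ℝ E] in
theorem liou_injective (h : LiouHyp Ω J) (y : E) : Function.Injective (liouLE Ω y) := by
  rw [injective_iff_map_eq_zero]
  intro w hw
  have h1 := h.co y w
  rw [hw, zero_apply] at h1
  have h2 : ‖w‖ = 0 := by nlinarith [norm_nonneg w]
  exact norm_eq_zero.1 h2

theorem liou_exists_equiv (h : LiouHyp Ω J) (y : E) :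
    ∃ A : E ≃L[ℝ] (E →L[ℝ] ℝ), (A : E →L[ℝ] (E →L[ℝ] ℝ)) = liouLE Ω y := by
  have hdim : Module.finrank ℝ E = Module.finrank ℝ (E →L[ℝ] ℝ) := by
    have h1 : Module.finrank ℝ (Module.Dual ℝ E) = Module.finrank ℝ (E →L[ℝ] ℝ) :=
      LinearEquiv.finrank_eq
        (LinearMap.toContinuousLinearMap : (E →ₗ[ℝ] ℝ) ≃ₗ[ℝ] (E →L[ℝ] ℝ))
    rw [← h1, Subspace.dual_finrank_eq]
  let A := (LinearMap.linearEquivOfInjective (liouLE Ω y : E →ₗ[ℝ] (E →L[ℝ] ℝ))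
    (liou_injective h y) hdim).toContinuousLinearEquiv
  refine ⟨A, ?_⟩
  ext u v
  rfl

theorem liou_inverse_apply (h : LiouHyp Ω J) (y : E) (a : E →L[ℝ] ℝ) :
    liouLE Ω y ((liouLE Ω y).inverse a) = a := by
  obtain ⟨A, hA⟩ := liou_exists_equiv h y
  rw [← hA, ContinuousLinearMap.inverse_equiv]
  exact A.apply_symm_apply a

omit [FiniteDimensional ℝ E] in
theorem liou_contDiff_fderiv (h : LiouHyp Ω J) : ContDiff ℝ ∞ (fderiv ℝ Ω) :=
  h.smooth.fderiv_right (m := ∞) (by simp)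

omit [FiniteDimensional ℝ E] in
theorem liou_contDiff_LE (h : LiouHyp Ω J) : ContDiff ℝ ∞ (liouLE Ω) := by
  have h2 : ContDiff ℝ ∞ (fun x => fderiv ℝ Ω x x) :=
    (liou_contDiff_fderiv h).clm_apply contDiff_id
  exact (h.smooth.const_smul (2 : ℝ)).add h2

theorem liou_contDiff_inverse (h : LiouHyp Ω J) :
    ContDiff ℝ ∞ (fun y => (liouLE Ω y).inverse) := by
  rw [contDiff_iff_contDiffAt]
  intro y
  obtain ⟨A, hA⟩ := liou_exists_equiv h y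
  have h1 : ContDiffAt ℝ ∞ (ContinuousLinearMap.inverse :
      (E →L[ℝ] (E →L[ℝ] ℝ)) → _) (liouLE Ω y) := by
    rw [← hA]
    exact contDiffAt_map_inverse A
  exact h1.comp y (liou_contDiff_LE h).contDiffAt

theorem liouZ_spec (h : LiouHyp Ω J) (y v : E) : liouLE Ω y (liouZ Ω y) v = Ω y y v := by
  unfold liouZ
  rw [liou_inverse_apply h]

theorem liouZ_contDiff (h : LiouHyp Ω J) : ContDiff ℝ ∞ (liouZ Ω) := by
  have h1 : ContDiff ℝ ∞ (fun y => Ω y y) := h.smooth.clm_apply contDiff_id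
  exact (liou_contDiff_inverse h).clm_apply h1

theorem liouY_contDiff (h : LiouHyp Ω J) : ContDiff ℝ ∞ (liouY Ω) := by
  have h0 : ContDiff ℝ ∞ (fun p : ℝ × E => p.1 • p.2) := contDiff_fst.smul contDiff_snd
  have h2 : ContDiff ℝ ∞ (fun p : ℝ × E => fderiv ℝ Ω (p.1 • p.2) p.2 p.2) :=
    (((liou_contDiff_fderiv h).comp h0).clm_apply contDiff_snd).clm_apply contDiff_snd
  exact (((liou_contDiff_inverse h).comp h0).clm_apply h2).neg

theorem liouY_spec (h : LiouHyp Ω J) (s : ℝ) (x v : E) :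
    liouLE Ω (s • x) (liouY Ω (s, x)) v = - fderiv ℝ Ω (s • x) x x v := by
  unfold liouY
  rw [map_neg, neg_apply, liou_inverse_apply h]

theorem liouY_liouZ (h : LiouHyp Ω J) (s : ℝ) (x : E) :
    s ^ 2 • liouY Ω (s, x) = - (s • x - (2 : ℝ) • liouZ Ω (s • x)) := by
  apply liou_injective h (s • x)
  ext v
  have h1 := liouY_spec h s x v
  have h2 := liouZ_spec h (s • x) v
  rw [map_smul, smul_apply, h1, map_neg, map_sub, map_smul (liouLE Ω (s • x)) (2 : ℝ),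
    neg_apply, sub_apply, smul_apply, h2]
  unfold liouLE
  simp only [add_apply, smul_apply, map_smul, smul_eq_mul]
  ring

theorem liou_inner_ge (h : LiouHyp Ω J) (y : E) :
    2 * ‖liouZ Ω y‖ ^ 2 ≤ inner ℝ y (liouZ Ω y) := by
  have h1 := h.co y (liouZ Ω y)
  rw [liouZ_spec h, h.gauss] at h1
  exact h1

theorem liouZ_inner_le (h : LiouHyp Ω J) (y : E) :
    inner ℝ y (liouZ Ω y) ≤ ‖y‖ ^ 2 / 2 := by
  have h1 := liou_inner_ge h y
  have h2 : inner ℝ y (liouZ Ω y) ≤ ‖y‖ * ‖liouZ Ω y‖ := real_inner_le_norm _ _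
  nlinarith [sq_nonneg (‖y‖ - 2 * ‖liouZ Ω y‖), norm_nonneg y, norm_nonneg (liouZ Ω y)]

theorem liouZ_inner_pos (h : LiouHyp Ω J) {y : E} (hy : y ≠ 0) :
    0 < inner ℝ y (liouZ Ω y) := by
  have h1 := liou_inner_ge h y
  have h2 : liouZ Ω y ≠ 0 := by
    intro h3
    have h4 := liouZ_spec h y (J y y)
    rw [h3, map_zero, zero_apply, h.gauss] at h4
    exact hy (inner_self_eq_zero.1 h4.symm)
  have h5 : 0 < ‖liouZ Ω y‖ := norm_pos_iff.2 h2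
  have h6 : 0 < ‖liouZ Ω y‖ ^ 2 := by positivity
  linarith

theorem liouZ_taylor (h : LiouHyp Ω J) : ∃ C > 0, ∃ δ > 0, ∀ y : E, ‖y‖ ≤ δ →
    ‖y - (2 : ℝ) • liouZ Ω y‖ ≤ C * ‖y‖ ^ 2 := by
  have hcont : Continuous (fun y => ‖fderiv ℝ Ω y‖ * ‖J y‖) :=
    (liou_contDiff_fderiv h).continuous.norm.mul h.smoothJ.continuous.norm
  obtain ⟨B, hB⟩ := (isCompact_closedBall (0 : E) 1).exists_bound_of_continuousOn
    hcont.continuousOn
  refine ⟨|B| + 1, by positivity, 1, one_pos, fun y hy => ?_⟩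
  have hyB : ‖fderiv ℝ Ω y‖ * ‖J y‖ ≤ |B| + 1 := by
    have h2 := hB y (by rwa [mem_closedBall_zero_iff])
    rw [Real.norm_of_nonneg (by positivity)] at h2
    have := le_abs_self B
    linarith
  set w := liouY Ω (1, y) with hw
  have h3 : y - (2 : ℝ) • liouZ Ω y = - w := by
    have h4 := liouY_liouZ h 1 y
    rw [one_pow, one_smul, one_smul] at h4
    rw [hw, h4, neg_neg]
  rw [h3, norm_neg]
  have h5 := liouY_spec h 1 y (J y w)
  rw [one_smul, ← hw] at h5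
  have h6 := h.co y w
  rw [h5] at h6
  have h7 : -(fderiv ℝ Ω y y y (J y w)) ≤ ‖fderiv ℝ Ω y‖ * ‖y‖ * ‖y‖ * (‖J y‖ * ‖w‖) := by
    calc -(fderiv ℝ Ω y y y (J y w)) ≤ |fderiv ℝ Ω y y y (J y w)| := neg_le_abs _
      _ = ‖fderiv ℝ Ω y y y (J y w)‖ := (Real.norm_eq_abs _).symm
      _ ≤ ‖fderiv ℝ Ω y y y‖ * ‖J y w‖ := ContinuousLinearMap.le_opNorm _ _
      _ ≤ (‖fderiv ℝ Ω y‖ * ‖y‖ * ‖y‖) * (‖J y‖ * ‖w‖) := by
          apply mul_le_mul _ (ContinuousLinearMap.le_opNorm _ _) (norm_nonneg _) (by positivity)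
          refine (ContinuousLinearMap.le_opNorm _ _).trans ?_
          exact mul_le_mul_of_nonneg_right (ContinuousLinearMap.le_opNorm _ _) (norm_nonneg _)
  have h8 : 2 * ‖w‖ ^ 2 ≤ (|B| + 1) * ‖y‖ ^ 2 * ‖w‖ := by
    refine h6.trans (h7.trans ?_)
    have h14 : 0 ≤ ‖y‖ ^ 2 * ‖w‖ := mul_nonneg (sq_nonneg _) (norm_nonneg _)
    calc ‖fderiv ℝ Ω y‖ * ‖y‖ * ‖y‖ * (‖J y‖ * ‖w‖) =
        (‖fderiv ℝ Ω y‖ * ‖J y‖) * (‖y‖ ^ 2 * ‖w‖) := by ring
      _ ≤ (|B| + 1) * (‖y‖ ^ 2 * ‖w‖) := mul_le_mul_of_nonneg_right hyB h14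
      _ = (|B| + 1) * ‖y‖ ^ 2 * ‖w‖ := by ring
  have h13 : 0 ≤ (|B| + 1) * ‖y‖ ^ 2 := by positivity
  rcases (norm_nonneg w).eq_or_lt with h10 | h10
  · rw [← h10]; exact h13
  · have h11 : 2 * ‖w‖ ≤ (|B| + 1) * ‖y‖ ^ 2 := by
      have h12 : 2 * ‖w‖ * ‖w‖ ≤ (|B| + 1) * ‖y‖ ^ 2 * ‖w‖ := by
        calc 2 * ‖w‖ * ‖w‖ = 2 * ‖w‖ ^ 2 := by ring
          _ ≤ _ := h8
      exact le_of_mul_le_mul_right h12 h10
    linarith

end LiouGen

section Sym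
variable {m : ℕ} {Ω : Euc m → Form2 (Euc m)} {J : Euc m → Euc m →L[ℝ] Euc m}


theorem Setting.liouHyp (h : Setting m Ω J) : LiouHyp Ω J where
  smooth := h.smooth
  smoothJ := h.smoothJ
  gauss := h.gauss
  co := fun y w => by
    have h1 := h.norm_sq_le y w
    have h2 : 2 * Ω y w (J y w) ≤ liouLE Ω y w (J y w) := h.tame y w
    linarith

theorem Setting.liou_spec (h : Setting m Ω J) (y v : Euc m) : LE Ω y (liou Ω y) v = Ω y y v :=
  liouZ_spec h.liouHyp y v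

theorem Setting.contDiff_liou (h : Setting m Ω J) : ContDiff ℝ ∞ (liou Ω) :=
  liouZ_contDiff h.liouHyp

theorem Setting.contDiff_yfield (h : Setting m Ω J) : ContDiff ℝ ∞ (yfield Ω) :=
  liouY_contDiff h.liouHyp

theorem Setting.yfield_spec (h : Setting m Ω J) (s : ℝ) (x v : Euc m) :
    LE Ω (s • x) (yfield Ω (s, x)) v = - fderiv ℝ Ω (s • x) x x v :=
  liouY_spec h.liouHyp s x v

theorem Setting.yfield_liou (h : Setting m Ω J) (s : ℝ) (x : Euc m) :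
    s ^ 2 • yfield Ω (s, x) = - (s • x - (2 : ℝ) • liou Ω (s • x)) :=
  liouY_liouZ h.liouHyp s x

theorem Setting.inner_liou_le (h : Setting m Ω J) (y : Euc m) :
    inner ℝ y (liou Ω y) ≤ ‖y‖ ^ 2 / 2 := liouZ_inner_le h.liouHyp y

theorem Setting.inner_liou_pos (h : Setting m Ω J) {y : Euc m} (hy : y ≠ 0) :
    0 < inner ℝ y (liou Ω y) := liouZ_inner_pos h.liouHyp hy

theorem Setting.liou_taylor (h : Setting m Ω J) : ∃ C > 0, ∃ δ > 0, ∀ y : Euc m, ‖y‖ ≤ δ →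
    ‖y - (2 : ℝ) • liou Ω y‖ ≤ C * ‖y‖ ^ 2 := liouZ_taylor h.liouHyp

end Sym

end Pool.Agent.SH
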