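import Pool.Agent.Lib.MP_f72ae4_gt.Base

/-!
# Moser's lemma

`d/dt (φ_t^* Ω_t) = 0` when `Ω_t = dμ_t` and `i_{X_t} Ω_t = - ∂_t μ_t`.

Put `θ_t = φ_t^* μ_t` and `h_t(x) = μ_t(X_t)(φ_t x)`. Then `φ_t^* Ω_t = dθ_t`, and the Moser equation says
`∂_t θ_t = d h_t`; symmetry of second derivatives gives `∂_t dθ_t = d d h_t = 0`.
-/

open scoped Manifold ContDiff Topology
open Set

noncomputable section

namespace Pool.Agent.SH

section MO
variable {E : Type*} [NormedAddCommGroup E] [NormedSpace ℝ E]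

/-- symmetry of the second derivative of a smooth map -/
theorem moser_aux_symm {A B : Type*} [NormedAddCommGroup A] [NormedSpace ℝ A]
    [NormedAddCommGroup B] [NormedSpace ℝ B] {f : A → B} (hf : ContDiff ℝ ∞ f) (p a b : A) :
    fderiv ℝ (fderiv ℝ f) p a b = fderiv ℝ (fderiv ℝ f) p b a := by
  have h := (hf.contDiffAt (x := p)).isSymmSndFDerivAt (n := ∞)
    (by
      rw [minSmoothness_of_isRCLikeNormedField]
      show ((2 : ℕ∞) : WithTop ℕ∞) ≤ ((⊤ : ℕ∞) : WithTop ℕ∞)
      exact WithTop.coe_le_coe.2 le_top)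
  exact h a b

theorem moser_aux_fderiv {A B : Type*} [NormedAddCommGroup A] [NormedSpace ℝ A]
    [NormedAddCommGroup B] [NormedSpace ℝ B] {f : A → B} (hf : ContDiff ℝ ∞ f) :
    ContDiff ℝ ∞ (fderiv ℝ f) := hf.fderiv_right (by simp)

theorem moser_aux_apply {A B : Type*} [NormedAddCommGroup A] [NormedSpace ℝ A]
    [NormedAddCommGroup B] [NormedSpace ℝ B] {f : A → B} (hf : ContDiff ℝ ∞ f) (p a b : A) :
    fderiv ℝ (fun q => fderiv ℝ f q a) p b = fderiv ℝ (fderiv ℝ f) p b a := by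
  have h := ((moser_aux_fderiv hf).differentiable (by simp) p).hasFDerivAt
  have h2 := h.clm_apply (hasFDerivAt_const a p)
  rw [h2.fderiv]
  simp

/-- partial derivative of a map on a product in the second variable -/
theorem moser_aux_snd {B : Type*} [NormedAddCommGroup B] [NormedSpace ℝ B] {f : ℝ × E → B}
    (hf : ContDiff ℝ ∞ f) (t : ℝ) (x u : E) :
    fderiv ℝ (fun y => f (t, y)) x u = fderiv ℝ f (t, x) (0, u) := by
  have h := ((hf.differentiable (by simp)) (t, x)).hasFDerivAt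
  have h2 : HasFDerivAt (fun y : E => ((t, y) : ℝ × E)) (ContinuousLinearMap.inr ℝ ℝ E) x := by
    have := (hasFDerivAt_const t x).prodMk (hasFDerivAt_id (𝕜 := ℝ) x)
    exact this
  have h3 := h.comp x h2
  have h4 := h3.fderiv
  have : (fun y => f (t, y)) = f ∘ (fun y : E => ((t, y) : ℝ × E)) := rfl
  rw [this, h4]
  simp

/-- partial derivative of a map on a product in the first variable -/
theorem moser_aux_fst {B : Type*} [NormedAddCommGroup B] [NormedSpace ℝ B] {f : ℝ × E → B}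
    (hf : ContDiff ℝ ∞ f) (t : ℝ) (x : E) :
    HasDerivAt (fun s => f (s, x)) (fderiv ℝ f (t, x) (1, 0)) t := by
  have h := ((hf.differentiable (by simp)) (t, x)).hasFDerivAt
  have h2 : HasDerivAt (fun s : ℝ => ((s, x) : ℝ × E)) ((1 : ℝ), (0 : E)) t :=
    (hasDerivAt_id t).prodMk (hasDerivAt_const t x)
  exact h.comp_hasDerivAt t h2

theorem moser {X : ℝ × E → E} {φ : ℝ → E → E} (hX : ContDiff ℝ ∞ X)
    (hφ : ContDiff ℝ ∞ (fun p : ℝ × E => φ p.1 p.2))
    (hflow : ∀ x t, HasDerivAt (fun s => φ s x) (X (t, φ t x)) t)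
    {μ : ℝ × E → E →L[ℝ] ℝ} (hμ : ContDiff ℝ ∞ μ) {Ω : ℝ → E → Form2 E}
    (hΩ : ∀ t x u v, Ω t x u v = fderiv ℝ (fun y => μ (t, y)) x u v - fderiv ℝ (fun y => μ (t, y)) x v u)
    (hXeq : ∀ t x v, Ω t x (X (t, x)) v = - deriv (fun s => μ (s, x) v) t) (t : ℝ) (x u v : E) :
    Ω t (φ t x) (fderiv ℝ (φ t) x u) (fderiv ℝ (φ t) x v) =
      Ω 0 (φ 0 x) (fderiv ℝ (φ 0) x u) (fderiv ℝ (φ 0) x v) := by
  set Φ : ℝ × E → E := fun p => φ p.1 p.2 with hΦ
  -- the map `q ↦ (q.1, Φ q)`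
  set P : ℝ × E → ℝ × E := fun q => (q.1, Φ q) with hP
  have hPs : ContDiff ℝ ∞ P := contDiff_fst.prodMk hφ
  have hPd : ∀ q w, fderiv ℝ P q w = (w.1, fderiv ℝ Φ q w) := by
    intro q w
    have h1 := ((hφ.differentiable (by simp)) q).hasFDerivAt
    have h2 : HasFDerivAt P ((ContinuousLinearMap.fst ℝ ℝ E).prod (fderiv ℝ Φ q)) q :=
      hasFDerivAt_fst.prodMk h1
    rw [h2.fderiv]; rfl
  have hΦt : ∀ q, fderiv ℝ Φ q (1, 0) = X (P q) := by
    rintro ⟨s, y⟩
    exact (moser_aux_fst hφ s y).unique (hflow y s)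
  have hΦx : ∀ s y w, fderiv ℝ (φ s) y w = fderiv ℝ Φ (s, y) (0, w) := by
    intro s y w
    exact moser_aux_snd hφ s y w
  -- composite functions
  set m : ℝ × E → E →L[ℝ] ℝ := fun q => μ (P q) with hm
  have hms : ContDiff ℝ ∞ m := hμ.comp hPs
  have hmd : ∀ q w, fderiv ℝ m q w = fderiv ℝ μ (P q) (w.1, fderiv ℝ Φ q w) := by
    intro q w
    have h1 := ((hμ.differentiable (by simp)) (P q)).hasFDerivAt
    have h2 := ((hPs.differentiable (by simp)) q).hasFDerivAt
    have h3 := (h1.comp q h2).fderiv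
    have : m = μ ∘ P := rfl
    rw [this, h3]
    simp [hPd]
  have hXd : ∀ q w, fderiv ℝ (fun q => X (P q)) q w = fderiv ℝ X (P q) (w.1, fderiv ℝ Φ q w) := by
    intro q w
    have h1 := ((hX.differentiable (by simp)) (P q)).hasFDerivAt
    have h2 := ((hPs.differentiable (by simp)) q).hasFDerivAt
    have h3 := (h1.comp q h2).fderiv
    have : (fun q => X (P q)) = X ∘ P := rfl
    rw [this, h3]
    simp [hPd]
  have hdΦs : ContDiff ℝ ∞ (fderiv ℝ Φ) := moser_aux_fderiv hφ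
  set θ : ℝ × E → E →L[ℝ] ℝ := fun q => (m q).comp ((fderiv ℝ Φ q).comp (ContinuousLinearMap.inr ℝ ℝ E))
    with hθ
  have hθs : ContDiff ℝ ∞ θ := hms.clm_comp (hdΦs.clm_comp contDiff_const)
  have hθd : ∀ q w z, fderiv ℝ θ q w z =
      fderiv ℝ m q w (fderiv ℝ Φ q (0, z)) + m q (fderiv ℝ (fderiv ℝ Φ) q w (0, z)) := by
    intro q w z
    have e1 : fderiv ℝ θ q w z = fderiv ℝ (fun p => θ p z) q w := by
      have h := ((hθs.differentiable (by simp)) q).hasFDerivAt
      have h2 := h.clm_apply (hasFDerivAt_const z q)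
      rw [h2.fderiv]; simp
    have e2 : (fun p => θ p z) = fun p => m p (fderiv ℝ Φ p (0, z)) := by
      funext p; simp [hθ]
    rw [e1, e2]
    have h1 := ((hms.differentiable (by simp)) q).hasFDerivAt
    have h2 := ((hdΦs.differentiable (by simp)) q).hasFDerivAt
    have h3 := h2.clm_apply (hasFDerivAt_const ((0 : ℝ), z) q)
    have h4 := h1.clm_apply h3
    rw [h4.fderiv]
    simp [add_comm]
  set h : ℝ × E → ℝ := fun q => m q (X (P q)) with hh
  have hhs : ContDiff ℝ ∞ h := hms.clm_apply (hX.comp hPs)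
  have hhd : ∀ q w, fderiv ℝ h q w =
      fderiv ℝ m q w (X (P q)) + m q (fderiv ℝ X (P q) (w.1, fderiv ℝ Φ q w)) := by
    intro q w
    have h1 := ((hms.differentiable (by simp)) q).hasFDerivAt
    have h2 := (((hX.comp hPs).differentiable (by simp)) q).hasFDerivAt
    have h4 := h1.clm_apply h2
    have h5 : fderiv ℝ h q = _ := h4.fderiv
    rw [h5]
    have := hXd q w
    simp only [ContinuousLinearMap.add_apply, ContinuousLinearMap.coe_comp', Function.comp_apply,
      ContinuousLinearMap.flip_apply]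
    rw [show fderiv ℝ (X ∘ P) q w = fderiv ℝ (fun q => X (P q)) q w from rfl, this, add_comm]
  -- the Moser equation in terms of `μ`
  have hMo : ∀ (s : ℝ) (y w : E), fderiv ℝ μ (s, y) (1, 0) w + fderiv ℝ μ (s, y) (0, X (s, y)) w
      = fderiv ℝ μ (s, y) (0, w) (X (s, y)) := by
    intro s y w
    have h1 := hΩ s y (X (s, y)) w
    have h2 := hXeq s y w
    have h3 : deriv (fun r => μ (r, y) w) s = fderiv ℝ μ (s, y) (1, 0) w := by
      have h4 := (moser_aux_fst hμ s y)
      have h5 := h4.clm_apply (hasDerivAt_const s w)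
      rw [h5.deriv]; simp
    rw [moser_aux_snd hμ, moser_aux_snd hμ] at h1
    rw [h3] at h2
    linarith
  -- K1
  have hK1 : ∀ q w, fderiv ℝ θ q (1, 0) w = fderiv ℝ h q (0, w) := by
    intro q w
    rw [hθd, hhd, hmd, hmd, moser_aux_symm hφ, ← moser_aux_apply hφ]
    have : (fun q => fderiv ℝ Φ q (1, 0)) = fun q => X (P q) := funext hΦt
    rw [this, hXd, hΦt]
    have h1 := hMo q.1 (Φ q) (fderiv ℝ Φ q (0, w))
    have h2 : fderiv ℝ μ (P q) (1, X (P q)) = fderiv ℝ μ (P q) (1, 0) + fderiv ℝ μ (P q) (0, X (P q)) := by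
      rw [← map_add]; simp
    simp only [h2, ContinuousLinearMap.add_apply]
    have h3 : P q = (q.1, Φ q) := rfl
    rw [h3]
    linarith
  -- K2
  have hK2 : ∀ s, Ω s (φ s x) (fderiv ℝ (φ s) x u) (fderiv ℝ (φ s) x v)
      = fderiv ℝ θ (s, x) (0, u) v - fderiv ℝ θ (s, x) (0, v) u := by
    intro s
    rw [hΩ, moser_aux_snd hμ, moser_aux_snd hμ, hθd, hθd, hmd, hmd, hΦx, hΦx,
      moser_aux_symm hφ (s, x) (0, u) (0, v)]
    simp only [hP, hΦ]
    ring
  -- the function is constant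
  have hconst : ∀ s, HasDerivAt (fun s => fderiv ℝ θ (s, x) (0, u) v - fderiv ℝ θ (s, x) (0, v) u) 0 s := by
    intro s
    have key : ∀ a b : E, HasDerivAt (fun s => fderiv ℝ θ (s, x) (0, a) b)
        (fderiv ℝ (fderiv ℝ h) (s, x) (0, a) (0, b)) s := by
      intro a b
      have h1 := moser_aux_fst (moser_aux_fderiv hθs) s x
      have h2 := (h1.clm_apply (hasDerivAt_const s ((0 : ℝ), a))).clm_apply (hasDerivAt_const s b)
      refine h2.congr_deriv ?_
      have h7 : fderiv ℝ (fderiv ℝ θ) (s, x) (1, 0) (0, a) b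
          = fderiv ℝ (fderiv ℝ h) (s, x) (0, a) (0, b) → 
          (fderiv ℝ (fderiv ℝ θ) (s, x) (1, 0) (0, a) + fderiv ℝ θ (s, x) 0) b
            + fderiv ℝ θ (s, x) (0, a) 0 = fderiv ℝ (fderiv ℝ h) (s, x) (0, a) (0, b) := by
        intro h8
        simpa using h8
      refine Eq.trans ?_ (h7 ?_)
      · simp
      rw [moser_aux_symm hθs]
      have h3 : fderiv ℝ (fderiv ℝ θ) (s, x) (0, a) (1, 0) b
          = fderiv ℝ (fun q => fderiv ℝ θ q (1, 0) b) (s, x) (0, a) := by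
        have h4 := (((moser_aux_fderiv hθs).differentiable (by simp)) (s, x)).hasFDerivAt
        have h5 := (h4.clm_apply (hasFDerivAt_const ((1 : ℝ), (0 : E)) (s, x))).clm_apply
          (hasFDerivAt_const b (s, x))
        rw [h5.fderiv]; simp
      rw [h3]
      have h6 : (fun q => fderiv ℝ θ q (1, 0) b) = fun q => fderiv ℝ h q (0, b) := by
        funext q; exact hK1 q b
      rw [h6, moser_aux_apply hhs]
    have h1 := (key u v).sub (key v u)
    rw [moser_aux_symm hhs (s, x) (0, v) (0, u), sub_self] at h1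
    exact h1
  have hc := is_const_of_deriv_eq_zero (fun s => (hconst s).differentiableAt) (fun s => (hconst s).deriv) t 0
  rw [hK2 t, hK2 0]
  exact hc

end MO

end Pool.Agent.SH
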