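import Pool.Agent.Lib.MP_f72ae4_gt.Base

/-! # S1: basic consequences of the setting -/

open scoped Manifold ContDiff Topology
open Set

noncomputable section

namespace Pool.Agent.SH

section Sym
variable {m : ℕ} {Ω : Euc m → Form2 (Euc m)} {J : Euc m → Euc m →L[ℝ] Euc m}

theorem Setting.anti (h : Setting m Ω J) (x u v : Euc m) : Ω x u v = - Ω x v u := by
  have h1 := h.alt x (u + v)
  simp only [map_add, add_apply, h.alt x u, h.alt x v] at h1
  linarith

theorem Setting.symm (h : Setting m Ω J) (x u v : Euc m) : Ω x u (J x v) = Ω x v (J x u) := by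
  have h1 := h.inv x u (J x v)
  rw [h.sq, map_neg] at h1
  rw [← h1, h.anti x (J x u) v, neg_neg]

/-- `Ω` and `J` are differentiable. -/
theorem setbasic_dOmega (h : Setting m Ω J) (x : Euc m) : HasFDerivAt Ω (fderiv ℝ Ω x) x :=
  (h.smooth.differentiable (by simp) x).hasFDerivAt

theorem setbasic_dJ (h : Setting m Ω J) (x : Euc m) : HasFDerivAt J (fderiv ℝ J x) x :=
  (h.smoothJ.differentiable (by simp) x).hasFDerivAt

theorem Setting.form_zero (h : Setting m Ω J) (u v : Euc m) : Ω 0 u (J 0 v) = inner ℝ u v := by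
  have hc : Continuous fun s : ℝ => Ω (s • u) u (J (s • u) v) := by
    have h1 : Continuous fun s : ℝ => Ω (s • u) := h.smooth.continuous.comp (by fun_prop)
    have h2 : Continuous fun s : ℝ => J (s • u) := h.smoothJ.continuous.comp (by fun_prop)
    exact (h1.clm_apply continuous_const).clm_apply (h2.clm_apply continuous_const)
  have heq : (fun s : ℝ => Ω (s • u) u (J (s • u) v)) = fun _ => inner ℝ u v := by
    refine Continuous.ext_on (dense_compl_singleton (0 : ℝ)) hc continuous_const ?_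
    intro s hs
    have hs' : s ≠ 0 := hs
    have h1 := h.gauss (s • u) v
    rw [map_smul, smul_apply, real_inner_smul_left, smul_eq_mul] at h1
    exact mul_left_cancel₀ hs' h1
  have := congrFun heq 0
  simpa using this

theorem Setting.norm_sq_le (h : Setting m Ω J) (x v : Euc m) : ‖v‖ ^ 2 ≤ Ω x v (J x v) := by
  have h1 := h.mono x v (a := 0) (b := 1) (by simp) (by simp) zero_le_one
  simp only [zero_smul, one_smul] at h1
  rw [h.form_zero, real_inner_self_eq_norm_sq] at h1
  exact h1

theorem Setting.abs_le (h : Setting m Ω J) (x u v : Euc m) :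
    |Ω x u v| ≤ Real.sqrt (Ω x u (J x u)) * Real.sqrt (Ω x v (J x v)) := by
  -- Cauchy-Schwarz for `g = Ω(·, J ·)`
  have hnn : ∀ w, 0 ≤ Ω x w (J x w) := fun w => (sq_nonneg _).trans (h.norm_sq_le x w)
  have cs : ∀ a b : Euc m, (Ω x a (J x b)) ^ 2 ≤ Ω x a (J x a) * Ω x b (J x b) := by
    intro a b
    by_cases hb : b = 0
    · subst hb; simp
    · have hc : 0 < Ω x b (J x b) := h.pos x b hb
      have h1 := hnn (Ω x b (J x b) • a - Ω x a (J x b) • b)
      simp only [map_sub, map_smul, sub_apply, smul_apply,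
        smul_eq_mul] at h1
      rw [h.symm x b a] at h1
      generalize Ω x b (J x b) = c at *
      generalize Ω x a (J x b) = d at *
      generalize Ω x a (J x a) = e at *
      have h2 : 0 ≤ c * (e * c - d ^ 2) := by nlinarith
      have h3 := nonneg_of_mul_nonneg_right h2 hc
      linarith
  have h1 : Ω x u v = - Ω x u (J x (J x v)) := by rw [h.sq, map_neg, neg_neg]
  have h2 : Ω x (J x v) (J x (J x v)) = Ω x v (J x v) := h.inv x v (J x v)
  rw [h1, abs_neg, ← Real.sqrt_mul (hnn u)]
  apply Real.abs_le_sqrt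
  rw [← h2]
  exact cs u (J x v)

/-- the derivative of `Ω` is alternating -/
theorem setbasic_dalt (h : Setting m Ω J) (x a v : Euc m) : fderiv ℝ Ω x a v v = 0 := by
  have h1 : HasFDerivAt (fun y => Ω y v v) _ x :=
    ((setbasic_dOmega h x).clm_apply (hasFDerivAt_const v x)).clm_apply (hasFDerivAt_const v x)
  have h2 : (fun y => Ω y v v) = fun _ => (0 : ℝ) := by
    funext y; exact h.alt y v
  rw [h2] at h1
  have h3 := h1.unique (hasFDerivAt_const (0 : ℝ) x)
  have h4 := congrArg (fun L => L a) h3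
  simpa using h4

theorem setbasic_danti (h : Setting m Ω J) (x a u v : Euc m) :
    fderiv ℝ Ω x a u v = - fderiv ℝ Ω x a v u := by
  have h1 := setbasic_dalt h x a (u + v)
  simp only [map_add, add_apply, setbasic_dalt h x a u,
    setbasic_dalt h x a v] at h1
  linarith

/-- the derivative of `J ^ 2 = -1` -/
theorem setbasic_dsq (h : Setting m Ω J) (x a v : Euc m) :
    fderiv ℝ J x a (J x v) + J x (fderiv ℝ J x a v) = 0 := by
  have h1 : HasFDerivAt (fun y => J y (J y v)) _ x :=
    (setbasic_dJ h x).clm_apply ((setbasic_dJ h x).clm_apply (hasFDerivAt_const v x))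
  have h2 : (fun y => J y (J y v)) = fun _ => -v := by
    funext y; exact h.sq y v
  rw [h2] at h1
  have h3 := h1.unique (hasFDerivAt_const (-v) x)
  have h4 := congrArg (fun L => L a) h3
  simp at h4
  rw [add_comm] at h4
  exact h4

/-- monotonicity differentiated at `s = 1` -/
theorem setbasic_dmono (h : Setting m Ω J) (x w : Euc m) :
    0 ≤ fderiv ℝ Ω x x w (J x w) + Ω x w (fderiv ℝ J x x w) := by
  have hs : HasDerivAt (fun s : ℝ => s • x) x 1 := by
    simpa using (hasDerivAt_id (1 : ℝ)).smul_const x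
  have hO : HasDerivAt (fun s : ℝ => Ω (s • x)) (fderiv ℝ Ω x x) 1 := by
    have h1 : HasFDerivAt Ω (fderiv ℝ Ω x) ((1 : ℝ) • x) := by
      rw [one_smul]; exact setbasic_dOmega h x
    exact HasFDerivAt.comp_hasDerivAt (F := Euc m) (E := Form2 (Euc m)) (1 : ℝ) h1 hs
  have hJ : HasDerivAt (fun s : ℝ => J (s • x)) (fderiv ℝ J x x) 1 := by
    have h1 : HasFDerivAt J (fderiv ℝ J x) ((1 : ℝ) • x) := by
      rw [one_smul]; exact setbasic_dJ h x
    exact HasFDerivAt.comp_hasDerivAt (F := Euc m) (E := Euc m →L[ℝ] Euc m) (1 : ℝ) h1 hs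
  have hd : HasDerivAt (fun s : ℝ => Ω (s • x) w (J (s • x) w))
      (fderiv ℝ Ω x x w (J x w) + Ω x w (fderiv ℝ J x x w)) 1 := by
    have h1 := (hO.clm_apply (hasDerivAt_const (1 : ℝ) w)).clm_apply
      (hJ.clm_apply (hasDerivAt_const (1 : ℝ) w))
    simpa using h1
  have hm := (h.mono x w).derivWithin_nonneg (x := 1)
  rwa [(hd.hasDerivWithinAt).derivWithin (uniqueDiffOn_Ici (0 : ℝ) 1 (by simp))] at hm

/-- the key estimate -/
theorem Setting.tame (h : Setting m Ω J) (x v : Euc m) :
    2 * Ω x v (J x v) ≤ LE Ω x v (J x v) := by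
  have h1 := setbasic_dmono h x v
  have h2 := setbasic_dmono h x (J x v)
  have h3 : fderiv ℝ Ω x x (J x v) (J x (J x v)) = fderiv ℝ Ω x x v (J x v) := by
    rw [h.sq, map_neg, setbasic_danti h x x (J x v) v, neg_neg]
  have h4 : Ω x (J x v) (fderiv ℝ J x x (J x v)) = - Ω x v (fderiv ℝ J x x v) := by
    have h5 := eq_neg_of_add_eq_zero_left (setbasic_dsq h x x v)
    rw [h5, map_neg, h.inv]
  rw [h3, h4] at h2
  have h6 : LE Ω x v (J x v) = 2 * Ω x v (J x v) + fderiv ℝ Ω x x v (J x v) := by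
    simp [LE]
  rw [h6]
  linarith

theorem Setting.LE_alt (h : Setting m Ω J) (x v : Euc m) : LE Ω x v v = 0 := by
  simp [LE, h.alt, setbasic_dalt h]

theorem Setting.LE_exact (h : Setting m Ω J) (x u v : Euc m) :
    LE Ω x u v = fderiv ℝ (fun y => Ω y y) x u v - fderiv ℝ (fun y => Ω y y) x v u := by
  have h1 : HasFDerivAt (fun y => Ω y y) _ x :=
    (setbasic_dOmega h x).clm_apply (hasFDerivAt_id x)
  have h2 : ∀ a b : Euc m, fderiv ℝ (fun y => Ω y y) x a b = fderiv ℝ Ω x a x b + Ω x a b := by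
    intro a b
    rw [h1.fderiv]
    simp [add_comm]
  rw [h2, h2]
  have h3 := h.closed x u v x
  have h4 := setbasic_danti h x u v x
  have h5 := h.anti x v u
  have h6 : LE Ω x u v = 2 * Ω x u v + fderiv ℝ Ω x x u v := by
    simp [LE]
  rw [h6]
  linarith

end Sym

end Pool.Agent.SH
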