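import Pool.Agent.Lib.MP_f72ae4_gt.Base
import Pool.Agent.Lib.MP_f72ae4_gt.Nem
import Pool.Agent.Lib.MP_f72ae4_gt.SetBasic

/-! # S2: the Poincaré primitive -/

open scoped Manifold ContDiff Topology
open Set

set_option maxSynthPendingDepth 3

noncomputable section

namespace Pool.Agent.SH


section PoiAux

variable {E : Type*} [NormedAddCommGroup E] [NormedSpace ℝ E]
variable {G : Type*} [NormedAddCommGroup G] [NormedSpace ℝ G]

/-- `x ↦ (s ↦ s • x)` -/
def poincare_ray : E →L[ℝ] C(Icc (0 : ℝ) 1, E) :=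
  LinearMap.mkContinuous
    { toFun := fun x => ⟨fun s => (s : ℝ) • x, by fun_prop⟩
      map_add' := fun x y => by ext s; simp
      map_smul' := fun c x => by
        ext s
        simp only [ContinuousMap.coe_mk, RingHom.id_apply, ContinuousMap.coe_smul, Pi.smul_apply]
        exact smul_comm _ _ _ } 1 (fun x => by
      rw [ContinuousMap.norm_le _ (by positivity)]
      intro s
      simp only [LinearMap.coe_mk, AddHom.coe_mk, ContinuousMap.coe_mk, norm_smul, one_mul]
      have h0 : ‖(s : ℝ)‖ ≤ 1 := by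
        rw [Real.norm_eq_abs, abs_of_nonneg s.2.1]; exact s.2.2
      exact (mul_le_mul_of_nonneg_right h0 (norm_nonneg _)).trans (by simp))

@[simp] theorem poincare_ray_apply (x : E) (s : Icc (0 : ℝ) 1) :
    poincare_ray x s = (s : ℝ) • x := rfl

theorem poincare_cont (u : C(Icc (0 : ℝ) 1, G)) :
    Continuous (fun s : ℝ => s • u (projIcc 0 1 zero_le_one s)) :=
  continuous_id.smul (u.continuous.comp continuous_projIcc)

/-- `u ↦ ∫₀¹ s • u(s) ds` -/
def poincare_int : C(Icc (0 : ℝ) 1, G) →L[ℝ] G :=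
  LinearMap.mkContinuous
    { toFun := fun u => ∫ s in (0 : ℝ)..1, s • u (projIcc 0 1 zero_le_one s)
      map_add' := fun u v => by
        simp only [ContinuousMap.add_apply, smul_add]
        rw [intervalIntegral.integral_add]
        · exact (poincare_cont u).intervalIntegrable _ _
        · exact (poincare_cont v).intervalIntegrable _ _
      map_smul' := fun c u => by
        simp only [ContinuousMap.coe_smul, Pi.smul_apply, RingHom.id_apply]
        rw [← intervalIntegral.integral_smul]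
        congr 1
        ext s
        exact smul_comm _ _ _ } 1 (fun u => by
      have h := intervalIntegral.norm_integral_le_of_norm_le_const (a := (0 : ℝ)) (b := 1)
        (f := fun s => s • u (projIcc 0 1 zero_le_one s)) (C := ‖u‖) (fun s hs => by
          rw [uIoc_of_le zero_le_one] at hs
          rw [norm_smul]
          have h0 : ‖(s : ℝ)‖ ≤ 1 := by
            rw [Real.norm_eq_abs, abs_of_nonneg hs.1.le]; exact hs.2
          exact (mul_le_mul h0 (u.norm_coe_le_norm _) (norm_nonneg _) zero_le_one).trans (by simp))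
      simpa using h)

theorem poincare_int_apply (u : C(Icc (0 : ℝ) 1, G)) :
    poincare_int u = ∫ s in (0 : ℝ)..1, s • u (projIcc 0 1 zero_le_one s) := rfl

theorem poincare_int_eq (u : C(Icc (0 : ℝ) 1, G)) (f : ℝ → G) (hf : ∀ s : Icc (0 : ℝ) 1, u s = f s) :
    poincare_int u = ∫ s in (0 : ℝ)..1, s • f s := by
  rw [poincare_int_apply]
  apply intervalIntegral.integral_congr
  intro s hs
  rw [uIcc_of_le zero_le_one] at hs
  simp only
  rw [hf, projIcc_of_mem _ hs]

end PoiAux

section PoiMain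
variable {m : ℕ} {Ω : Euc m → Form2 (Euc m)}

/-- `W(x) = ∫₀¹ s Ω(s x) ds` -/
def poincare_W (Ω : C(Euc m, Form2 (Euc m))) (x : Euc m) : Form2 (Euc m) :=
  poincare_int (nem (Icc (0 : ℝ) 1) Ω (poincare_ray x))

theorem poincare_nem_contDiff (Ω : C(Euc m, Form2 (Euc m))) (hΩ : ContDiff ℝ ∞ Ω) :
    ContDiff ℝ ∞ (fun x : Euc m => nem (Icc (0 : ℝ) 1) Ω (poincare_ray x)) := by
  have h1 : ContDiff ℝ ∞ (poincare_ray : Euc m → C(Icc (0 : ℝ) 1, Euc m)) :=
    (poincare_ray : Euc m →L[ℝ] C(Icc (0 : ℝ) 1, Euc m)).contDiff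
  exact (contDiff_nem Ω hΩ).comp h1

theorem poincare_W_contDiff (Ω : C(Euc m, Form2 (Euc m))) (hΩ : ContDiff ℝ ∞ Ω) :
    ContDiff ℝ ∞ (poincare_W Ω) := by
  have h1 : ContDiff ℝ ∞ (poincare_int : C(Icc (0 : ℝ) 1, Form2 (Euc m)) → Form2 (Euc m)) :=
    (poincare_int : C(Icc (0 : ℝ) 1, Form2 (Euc m)) →L[ℝ] Form2 (Euc m)).contDiff
  exact h1.comp (poincare_nem_contDiff Ω hΩ)

theorem poincare_W_apply (Ω : C(Euc m, Form2 (Euc m))) (x : Euc m) :
    poincare_W Ω x = ∫ s in (0 : ℝ)..1, s • Ω (s • x) := by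
  apply poincare_int_eq
  intro s
  rfl

theorem poincare_W_fderiv (Ω : C(Euc m, Form2 (Euc m))) (hΩ : ContDiff ℝ ∞ Ω) (x u : Euc m) :
    fderiv ℝ (poincare_W Ω) x u = ∫ s in (0 : ℝ)..1, s • (s • fderiv ℝ Ω (s • x) u) := by
  set Φ : Euc m → C(Icc (0 : ℝ) 1, Form2 (Euc m)) := fun x => nem (Icc (0 : ℝ) 1) Ω (poincare_ray x)
    with hΦ
  have hΦs : ContDiff ℝ ∞ Φ := poincare_nem_contDiff Ω hΩ
  have hΦd : DifferentiableAt ℝ Φ x := (hΦs.differentiable (by simp)) x
  have h1 : fderiv ℝ (poincare_W Ω) x u = poincare_int (fderiv ℝ Φ x u) := by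
    have e0 : HasFDerivAt (fun w : C(Icc (0 : ℝ) 1, Form2 (Euc m)) => poincare_int w)
        (poincare_int : C(Icc (0 : ℝ) 1, Form2 (Euc m)) →L[ℝ] Form2 (Euc m)) (Φ x) :=
      (poincare_int : C(Icc (0 : ℝ) 1, Form2 (Euc m)) →L[ℝ] Form2 (Euc m)).hasFDerivAt
    have e1 := HasFDerivAt.comp x e0 hΦd.hasFDerivAt
    have e2 : HasFDerivAt (poincare_W Ω)
        ((poincare_int : C(Icc (0 : ℝ) 1, Form2 (Euc m)) →L[ℝ] Form2 (Euc m)).comp
          (fderiv ℝ Φ x)) x := e1
    rw [e2.fderiv]
    rfl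
  rw [h1]
  apply poincare_int_eq
  intro s
  -- evaluate at `s`
  have hev : HasFDerivAt (fun y => Φ y s)
      ((ContinuousMap.evalCLM ℝ s).comp (fderiv ℝ Φ x)) x := by
    have e0 : HasFDerivAt (fun w : C(Icc (0 : ℝ) 1, Form2 (Euc m)) => w s)
        (ContinuousMap.evalCLM ℝ s : C(Icc (0 : ℝ) 1, Form2 (Euc m)) →L[ℝ] Form2 (Euc m)) (Φ x) :=
      (ContinuousMap.evalCLM ℝ s : C(Icc (0 : ℝ) 1, Form2 (Euc m)) →L[ℝ] Form2 (Euc m)).hasFDerivAt
    exact HasFDerivAt.comp x e0 hΦd.hasFDerivAt
  have hev2 : HasFDerivAt (fun y => Φ y s)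
      ((fderiv ℝ Ω ((s : ℝ) • x)).comp ((s : ℝ) • ContinuousLinearMap.id ℝ (Euc m))) x := by
    have ha : HasFDerivAt (fun y : Euc m => (s : ℝ) • y) ((s : ℝ) • ContinuousLinearMap.id ℝ (Euc m)) x :=
      (hasFDerivAt_id x).const_smul (s : ℝ)
    have hb : HasFDerivAt Ω (fderiv ℝ Ω ((s : ℝ) • x)) ((s : ℝ) • x) :=
      ((hΩ.differentiable (by simp)) _).hasFDerivAt
    exact hb.comp x ha
  have h := hev.unique hev2
  have h' := congrArg (fun L => L u) h
  simpa using h'

end PoiMain

section Sym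
variable {m : ℕ} {Ω : Euc m → Form2 (Euc m)} {J : Euc m → Euc m →L[ℝ] Euc m}

theorem poincare_gauss (h : Setting m Ω J) (x : Euc m) (s : ℝ) (hs : 0 ≤ s) :
    Ω (s • x) x (J (s • x) x) = ‖x‖ ^ 2 := by
  rcases hs.eq_or_lt with h0 | h0
  · subst h0
    rw [zero_smul, h.form_zero, real_inner_self_eq_norm_sq]
  · have := h.gauss (s • x) x
    rw [map_smul, ContinuousLinearMap.smul_apply, smul_eq_mul, real_inner_smul_left,
      real_inner_self_eq_norm_sq] at this
    exact mul_left_cancel₀ h0.ne' this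

theorem poincare_bound (h : Setting m Ω J) (x v : Euc m) (s : ℝ) (hs : s ∈ Icc (0 : ℝ) 1) :
    |Ω (s • x) x v| ≤ ‖x‖ * Real.sqrt (Ω x v (J x v)) := by
  refine (h.abs_le (s • x) x v).trans ?_
  rw [poincare_gauss h x s hs.1, Real.sqrt_sq (norm_nonneg x)]
  apply mul_le_mul_of_nonneg_left _ (norm_nonneg x)
  apply Real.sqrt_le_sqrt
  have := h.mono x v (mem_Ici.2 hs.1) (mem_Ici.2 zero_le_one) hs.2
  simpa using this

/-! ### S2 (file Poincare.lean): the Poincaré primitive -/
theorem Setting.poincare (h : Setting m Ω J) : ∃ lam : Euc m → Euc m →L[ℝ] ℝ, ContDiff ℝ ∞ lam ∧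
    (∀ x u v, Ω x u v = fderiv ℝ lam x u v - fderiv ℝ lam x v u) ∧
    ∀ x v, |lam x v| ≤ ‖x‖ * Real.sqrt (Ω x v (J x v)) := by
  have hΩd : Differentiable ℝ Ω := h.smooth.differentiable (by simp)
  have hΩ'c : Continuous (fderiv ℝ Ω) := h.smooth.continuous_fderiv (by simp)
  let Ω' : C(Euc m, Form2 (Euc m)) := ⟨Ω, h.smooth.continuous⟩
  have hΩ' : ContDiff ℝ ∞ Ω' := h.smooth
  have hW := poincare_W_contDiff Ω' hΩ'
  have hWd : Differentiable ℝ (poincare_W Ω') := hW.differentiable (by simp)
  -- integrability facts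
  have cont1 : ∀ x : Euc m, Continuous (fun s : ℝ => s • Ω (s • x)) := fun x => by
    have : Continuous (fun s : ℝ => Ω (s • x)) :=
      h.smooth.continuous.comp (continuous_id.smul continuous_const)
    exact continuous_id.smul this
  have cont2 : ∀ x u : Euc m, Continuous (fun s : ℝ => s • (s • fderiv ℝ Ω (s • x) u)) := fun x u => by
    have h1 : Continuous (fun s : ℝ => fderiv ℝ Ω (s • x)) :=
      hΩ'c.comp (continuous_id.smul continuous_const)
    exact continuous_id.smul (continuous_id.smul (h1.clm_apply continuous_const))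
  -- evaluation of integrals
  have evI : ∀ (f : ℝ → Form2 (Euc m)), Continuous f → ∀ a b : Euc m,
      (∫ s in (0 : ℝ)..1, f s) a b = ∫ s in (0 : ℝ)..1, f s a b := fun f hf a b => by
    have h1 := ContinuousLinearMap.intervalIntegral_apply (a := (0 : ℝ)) (b := 1)
      (μ := MeasureTheory.volume) (φ := f) (hf.intervalIntegrable _ _) a
    have h2 := ContinuousLinearMap.intervalIntegral_apply (a := (0 : ℝ)) (b := 1)
      (μ := MeasureTheory.volume) (φ := fun s => f s a)
      ((hf.clm_apply continuous_const).intervalIntegrable _ _) b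
    rw [h1, h2]
  refine ⟨fun x => poincare_W Ω' x x, hW.clm_apply contDiff_id, ?_, ?_⟩
  · intro x u v
    have hD : ∀ u : Euc m, fderiv ℝ (fun x => poincare_W Ω' x x) x u =
        fderiv ℝ (poincare_W Ω') x u x + poincare_W Ω' x u := by
      intro u
      have h1 : HasFDerivAt (fun x => poincare_W Ω' x x)
          ((poincare_W Ω' x).comp (ContinuousLinearMap.id ℝ (Euc m)) +
            (fderiv ℝ (poincare_W Ω') x).flip x) x :=
        (hWd x).hasFDerivAt.clm_apply (hasFDerivAt_id x)
      rw [h1.fderiv]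
      simp [add_comm]
    rw [hD, hD, ContinuousLinearMap.add_apply, ContinuousLinearMap.add_apply,
      poincare_W_fderiv Ω' hΩ', poincare_W_fderiv Ω' hΩ', poincare_W_apply]
    change _ = (∫ s in (0 : ℝ)..1, s • (s • fderiv ℝ Ω (s • x) u)) x v +
        (∫ s in (0 : ℝ)..1, s • Ω (s • x)) u v -
      ((∫ s in (0 : ℝ)..1, s • (s • fderiv ℝ Ω (s • x) v)) x u +
        (∫ s in (0 : ℝ)..1, s • Ω (s • x)) v u)
    rw [evI _ (cont2 x u), evI _ (cont1 x), evI _ (cont2 x v), evI _ (cont1 x)]
    have i1 : ∀ a b c : Euc m, IntervalIntegrable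
        (fun s : ℝ => (s • (s • fderiv ℝ Ω (s • x) a)) b c) MeasureTheory.volume 0 1 := fun a b c =>
      (((cont2 x a).clm_apply continuous_const).clm_apply continuous_const).intervalIntegrable _ _
    have i2 : ∀ b c : Euc m, IntervalIntegrable
        (fun s : ℝ => (s • Ω (s • x)) b c) MeasureTheory.volume 0 1 := fun b c =>
      (((cont1 x).clm_apply continuous_const).clm_apply continuous_const).intervalIntegrable _ _
    rw [← intervalIntegral.integral_add (i1 _ _ _) (i2 _ _),
      ← intervalIntegral.integral_add (i1 _ _ _) (i2 _ _),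
      ← intervalIntegral.integral_sub ((i1 _ _ _).add (i2 _ _)) ((i1 _ _ _).add (i2 _ _))]
    -- the antiderivative
    have hder : ∀ s : ℝ, HasDerivAt (fun s : ℝ => s ^ 2 * Ω (s • x) u v)
        (2 * s * Ω (s • x) u v + s ^ 2 * fderiv ℝ Ω (s • x) x u v) s := by
      intro s
      have h1 : HasDerivAt (fun s : ℝ => s • x) x s := by
        simpa using (hasDerivAt_id s).smul_const x
      have h2 : HasDerivAt (fun s : ℝ => Ω (s • x)) (fderiv ℝ Ω (s • x) x) s :=
        (hΩd (s • x)).hasFDerivAt.comp_hasDerivAt s h1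
      have h3 : HasDerivAt (fun s : ℝ => Ω (s • x) u) (fderiv ℝ Ω (s • x) x u) s := by
        have := h2.clm_apply (hasDerivAt_const s u)
        simpa using this
      have h4 : HasDerivAt (fun s : ℝ => Ω (s • x) u v) (fderiv ℝ Ω (s • x) x u v) s := by
        have := h3.clm_apply (hasDerivAt_const s v)
        simpa using this
      have h5 : HasDerivAt (fun s : ℝ => s ^ 2) (2 * s) s := by
        simpa using hasDerivAt_pow 2 s
      exact h5.mul h4
    have key : ∀ s : ℝ, (s • (s • fderiv ℝ Ω (s • x) u)) x v + (s • Ω (s • x)) u v -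
        ((s • (s • fderiv ℝ Ω (s • x) v)) x u + (s • Ω (s • x)) v u) =
        2 * s * Ω (s • x) u v + s ^ 2 * fderiv ℝ Ω (s • x) x u v := by
      intro s
      have hcl := h.closed (s • x) u v x
      have hanti : ∀ a b c : Euc m, fderiv ℝ Ω (s • x) a b c = - fderiv ℝ Ω (s • x) a c b := by
        intro a b c
        have e1 : HasFDerivAt (fun y => Ω y b c)
            ((ContinuousLinearMap.apply ℝ ℝ c).comp
              ((ContinuousLinearMap.apply ℝ (Euc m →L[ℝ] ℝ) b).comp (fderiv ℝ Ω (s • x)))) (s • x) :=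
          (ContinuousLinearMap.apply ℝ ℝ c).hasFDerivAt.comp _
            ((ContinuousLinearMap.apply ℝ (Euc m →L[ℝ] ℝ) b).hasFDerivAt.comp _
              (hΩd (s • x)).hasFDerivAt)
        have e2 : HasFDerivAt (fun y => Ω y c b)
            ((ContinuousLinearMap.apply ℝ ℝ b).comp
              ((ContinuousLinearMap.apply ℝ (Euc m →L[ℝ] ℝ) c).comp (fderiv ℝ Ω (s • x)))) (s • x) :=
          (ContinuousLinearMap.apply ℝ ℝ b).hasFDerivAt.comp _
            ((ContinuousLinearMap.apply ℝ (Euc m →L[ℝ] ℝ) c).hasFDerivAt.comp _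
              (hΩd (s • x)).hasFDerivAt)
        have e3 : (fun y => Ω y b c) = fun y => -(Ω y c b) := by
          ext y; exact h.anti y b c
        rw [e3] at e1
        have e4 := e1.unique e2.neg
        have e5 := congrArg (fun L => L a) e4
        simpa using e5
      have h1 := hanti u v x
      have h2 := h.anti (s • x) v u
      simp only [ContinuousLinearMap.smul_apply, smul_eq_mul]
      rw [h2]
      have h3 : fderiv ℝ Ω (s • x) x u v =
          fderiv ℝ Ω (s • x) u x v - fderiv ℝ Ω (s • x) v x u := by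
        rw [h1] at hcl
        linarith
      rw [h3]
      ring
    have hint : ∫ s in (0 : ℝ)..1, ((s • (s • fderiv ℝ Ω (s • x) u)) x v + (s • Ω (s • x)) u v -
        ((s • (s • fderiv ℝ Ω (s • x) v)) x u + (s • Ω (s • x)) v u)) =
        ∫ s in (0 : ℝ)..1, (2 * s * Ω (s • x) u v + s ^ 2 * fderiv ℝ Ω (s • x) x u v) := by
      apply intervalIntegral.integral_congr
      intro s _
      exact key s
    rw [hint]
    rw [intervalIntegral.integral_eq_sub_of_hasDerivAt (fun s _ => hder s)]
    · simp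
    · apply Continuous.intervalIntegrable
      have c1 : Continuous (fun s : ℝ => Ω (s • x)) :=
        h.smooth.continuous.comp (continuous_id.smul continuous_const)
      have c2 : Continuous (fun s : ℝ => fderiv ℝ Ω (s • x)) :=
        hΩ'c.comp (continuous_id.smul continuous_const)
      have c3 : Continuous (fun s : ℝ => Ω (s • x) u v) :=
        (c1.clm_apply continuous_const).clm_apply continuous_const
      have c4 : Continuous (fun s : ℝ => fderiv ℝ Ω (s • x) x u v) :=
        ((c2.clm_apply continuous_const).clm_apply continuous_const).clm_apply continuous_const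
      exact ((continuous_const.mul continuous_id).mul c3).add ((continuous_pow 2).mul c4)
  · intro x v
    have h1 : poincare_W Ω' x x v = ∫ s in (0 : ℝ)..1, (s • Ω (s • x)) x v := by
      rw [poincare_W_apply]
      exact evI _ (cont1 x) x v
    change |poincare_W Ω' x x v| ≤ _
    rw [h1]
    have h2 := intervalIntegral.norm_integral_le_of_norm_le_const (a := (0 : ℝ)) (b := 1)
      (f := fun s : ℝ => (s • Ω (s • x)) x v) (C := ‖x‖ * Real.sqrt (Ω x v (J x v))) (fun s hs => by
        rw [uIoc_of_le zero_le_one] at hs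
        have h3 := poincare_bound h x v s ⟨hs.1.le, hs.2⟩
        simp only [ContinuousLinearMap.smul_apply, smul_eq_mul, norm_mul, Real.norm_eq_abs]
        rw [abs_of_nonneg hs.1.le]
        calc s * |Ω (s • x) x v| ≤ 1 * |Ω (s • x) x v| :=
              mul_le_mul_of_nonneg_right hs.2 (abs_nonneg _)
          _ ≤ _ := by rw [one_mul]; exact h3)
    simpa [Real.norm_eq_abs] using h2

end Sym

end Pool.Agent.SH
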