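import Pool.Agent.Lib.MP_f72ae4_gt.SetBasic
import Pool.Agent.Lib.MP_f72ae4_gt.Poincare
import Pool.Agent.Lib.MP_f72ae4_gt.GlobalFlow
import Pool.Agent.Lib.MP_f72ae4_gt.Exist
import Pool.Agent.Lib.MP_f72ae4_gt.Moser

/-! Moser I -/

set_option maxSynthPendingDepth 3

open scoped Manifold ContDiff Topology
open Set

noncomputable section

namespace Pool.Agent.SH


/-! ### general facts -/

/-- a bilinear form without kernel on a finite-dimensional space is invertible -/
theorem moserOne_equiv {E : Type*} [NormedAddCommGroup E] [NormedSpace ℝ E]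
    [FiniteDimensional ℝ E] (B : Form2 E) (hB : ∀ v, (∀ w, B v w = 0) → v = 0) :
    ∃ e : E ≃L[ℝ] (E →L[ℝ] ℝ), (e : E →L[ℝ] (E →L[ℝ] ℝ)) = B := by
  have hinj : Function.Injective (B : E →ₗ[ℝ] (E →L[ℝ] ℝ)) := by
    rw [← LinearMap.ker_eq_bot, LinearMap.ker_eq_bot']
    intro v hv
    refine hB v fun w => ?_
    have : B v = 0 := hv
    rw [this]
    rfl
  have hfr : Module.finrank ℝ E = Module.finrank ℝ (E →L[ℝ] ℝ) := by
    have h1 : Module.finrank ℝ (E →ₗ[ℝ] ℝ) = Module.finrank ℝ (E →L[ℝ] ℝ) :=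
      (LinearMap.toContinuousLinearMap (𝕜 := ℝ) (E := E) (F' := ℝ)).finrank_eq
    rw [← h1]
    exact (Subspace.dual_finrank_eq (K := ℝ) (V := E)).symm
  let e := (LinearEquiv.ofInjectiveOfFinrankEq (B : E →ₗ[ℝ] (E →L[ℝ] ℝ)) hinj
    hfr).toContinuousLinearEquiv
  refine ⟨e, ?_⟩
  ext v w
  rfl

/-- the derivative of the smooth transition is bounded -/
theorem moserOne_deriv_bdd : ∃ C : ℝ, 0 ≤ C ∧ ∀ t, |deriv Real.smoothTransition t| ≤ C := by
  have hc : Continuous (deriv Real.smoothTransition) :=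
    Real.smoothTransition.contDiff.continuous_deriv (n := 1) le_rfl
  obtain ⟨C, hC⟩ := (isCompact_Icc (a := (0 : ℝ)) (b := 1)).exists_bound_of_continuousOn
    hc.continuousOn
  refine ⟨|C|, abs_nonneg _, fun t => ?_⟩
  by_cases ht : t ∈ Icc (0 : ℝ) 1
  · exact (hC t ht).trans (le_abs_self _)
  · have h0 : deriv Real.smoothTransition t = 0 := by
      rw [mem_Icc, not_and_or, not_le, not_le] at ht
      rcases ht with ht | ht
      · have : Real.smoothTransition =ᶠ[𝓝 t] fun _ => (0 : ℝ) := by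
          filter_upwards [Iio_mem_nhds ht] with s hs
          exact Real.smoothTransition.zero_of_nonpos (le_of_lt hs)
        rw [this.deriv_eq]
        simp
      · have : Real.smoothTransition =ᶠ[𝓝 t] fun _ => (1 : ℝ) := by
          filter_upwards [Ioi_mem_nhds ht] with s hs
          exact Real.smoothTransition.one_of_one_le (le_of_lt hs)
        rw [this.deriv_eq]
        simp
    rw [h0, abs_zero]
    exact abs_nonneg _

section Core
variable {E : Type*} [NormedAddCommGroup E] [InnerProductSpace ℝ E] [FiniteDimensional ℝ E]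

theorem moserOne_contDiff_LE {Ω : E → Form2 E} (h : ContDiff ℝ ∞ Ω) :
    ContDiff ℝ ∞ fun x => (2 : ℝ) • Ω x + fderiv ℝ Ω x x := by
  have h1 : ContDiff ℝ ∞ (fderiv ℝ Ω) := h.fderiv_right (by simp)
  have h2 : ContDiff ℝ ∞ fun x => fderiv ℝ Ω x x := h1.clm_apply contDiff_id
  exact (h.const_smul (2 : ℝ)).add h2

theorem moserOne_core {Ω L : E → Form2 E} {J : E → E →L[ℝ] E} (hΩ : ContDiff ℝ ∞ Ω)
    (hLE : ContDiff ℝ ∞ L) (hpos : ∀ x v, v ≠ 0 → 0 < Ω x v (J x v))
    (hinv : ∀ x u v, Ω x (J x u) (J x v) = Ω x u v)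
    (hgauss : ∀ x v, Ω x x (J x v) = inner ℝ x v)
    (hnorm : ∀ x v, ‖v‖ ^ 2 ≤ Ω x v (J x v))
    (htame : ∀ x v, 2 * Ω x v (J x v) ≤ L x v (J x v))
    (hexact : ∀ x u v, L x u v =
      fderiv ℝ (fun y => Ω y y) x u v - fderiv ℝ (fun y => Ω y y) x v u)
    {lam : E → E →L[ℝ] ℝ} (hlam : ContDiff ℝ ∞ lam)
    (hlamd : ∀ x u v, Ω x u v = fderiv ℝ lam x u v - fderiv ℝ lam x v u)
    (hlamb : ∀ x v, |lam x v| ≤ ‖x‖ * Real.sqrt (Ω x v (J x v))) :
    ∃ φ ψ : E → E, ContDiff ℝ ∞ φ ∧ ContDiff ℝ ∞ ψ ∧ (∀ x, ψ (φ x) = x) ∧ (∀ x, φ (ψ x) = x) ∧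
    ∀ x u v, L (φ x) (fderiv ℝ φ x u) (fderiv ℝ φ x v) = Ω x u v := by
  obtain ⟨C, hC0, hC⟩ := moserOne_deriv_bdd
  set β : ℝ → ℝ := Real.smoothTransition with hβ
  have hβs : ContDiff ℝ ∞ β := Real.smoothTransition.contDiff
  have hβ0 : ∀ t, 0 ≤ β t := Real.smoothTransition.nonneg
  have hβ1 : ∀ t, β t ≤ 1 := Real.smoothTransition.le_one
  have hself : ContDiff ℝ ∞ fun x => Ω x x := hΩ.clm_apply contDiff_id
  -- the primitive
  set μ : ℝ × E → E →L[ℝ] ℝ := fun p => (1 - β p.1) • lam p.2 + β p.1 • Ω p.2 p.2 with hμ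
  have hμs : ContDiff ℝ ∞ μ :=
    ((contDiff_const.sub (hβs.comp contDiff_fst)).smul (hlam.comp contDiff_snd)).add
      ((hβs.comp contDiff_fst).smul (hself.comp contDiff_snd))
  -- the forms
  set W : ℝ → E → Form2 E := fun t x => (1 - β t) • Ω x + β t • L x with hW
  have hWs : ContDiff ℝ ∞ fun p : ℝ × E => W p.1 p.2 :=
    ((contDiff_const.sub (hβs.comp contDiff_fst)).smul (hΩ.comp contDiff_snd)).add
      ((hβs.comp contDiff_fst).smul (hLE.comp contDiff_snd))
  have hWd : ∀ t x u v, W t x u v =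
      fderiv ℝ (fun y => μ (t, y)) x u v - fderiv ℝ (fun y => μ (t, y)) x v u := by
    intro t x u v
    have d1 : HasFDerivAt lam (fderiv ℝ lam x) x :=
      (hlam.differentiable (by simp) x).hasFDerivAt
    have d2 : HasFDerivAt (fun y => Ω y y) (fderiv ℝ (fun y => Ω y y) x) x :=
      (hself.differentiable (by simp) x).hasFDerivAt
    have d3 : HasFDerivAt (fun y => μ (t, y))
        ((1 - β t) • fderiv ℝ lam x + β t • fderiv ℝ (fun y => Ω y y) x) x :=
      (d1.const_smul (1 - β t)).add (d2.const_smul (β t))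
    rw [d3.fderiv]
    show (1 - β t) * Ω x u v + β t * L x u v =
      ((1 - β t) * fderiv ℝ lam x u v + β t * fderiv ℝ (fun y => Ω y y) x u v) -
      ((1 - β t) * fderiv ℝ lam x v u + β t * fderiv ℝ (fun y => Ω y y) x v u)
    rw [hlamd x u v, hexact x u v]
    ring
  have hWpos : ∀ t x v, Ω x v (J x v) ≤ W t x v (J x v) := by
    intro t x v
    have h1 := htame x v
    have h2 : 0 ≤ Ω x v (J x v) := (sq_nonneg ‖v‖).trans (hnorm x v)
    show _ ≤ (1 - β t) * Ω x v (J x v) + β t * L x v (J x v)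
    nlinarith [hβ0 t, hβ1 t]
  have hWe : ∀ t x, ∃ e : E ≃L[ℝ] (E →L[ℝ] ℝ), (e : E →L[ℝ] (E →L[ℝ] ℝ)) = W t x := by
    intro t x
    refine moserOne_equiv _ fun v hv => ?_
    by_contra hne
    have h1 := hWpos t x v
    rw [hv] at h1
    exact absurd (hpos x v hne) (not_lt.mpr h1)
  -- the vector field
  set X : ℝ × E → E := fun p => (W p.1 p.2).inverse
    (deriv β p.1 • (lam p.2 - Ω p.2 p.2)) with hX
  have hXW : ∀ t x, W t x (X (t, x)) = deriv β t • (lam x - Ω x x) := by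
    intro t x
    obtain ⟨e, he⟩ := hWe t x
    show W t x ((W t x).inverse _) = _
    rw [← he, ContinuousLinearMap.inverse_equiv]
    exact e.apply_symm_apply _
  have hXs : ContDiff ℝ ∞ X := by
    have hβ' : ContDiff ℝ ∞ (deriv β) := by
      have := (contDiff_infty_iff_deriv.mp hβs).2
      exact this
    have h1 : ContDiff ℝ ∞ fun p : ℝ × E => deriv β p.1 • (lam p.2 - Ω p.2 p.2) :=
      (hβ'.comp contDiff_fst).smul ((hlam.comp contDiff_snd).sub (hself.comp contDiff_snd))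
    have h2 : ContDiff ℝ ∞ fun p : ℝ × E => (W p.1 p.2).inverse := by
      rw [contDiff_iff_contDiffAt]
      rintro ⟨t, x⟩
      obtain ⟨e, he⟩ := hWe t x
      have h3 : ContDiffAt ℝ ∞ ContinuousLinearMap.inverse (W t x) := by
        rw [← he]
        exact contDiffAt_map_inverse e
      exact h3.comp (t, x) hWs.contDiffAt
    exact h2.clm_apply h1
  have hXeq : ∀ t x v, W t x (X (t, x)) v = - deriv (fun s => μ (s, x) v) t := by
    intro t x v
    rw [hXW]
    have d1 : HasDerivAt β (deriv β t) t := (hβs.differentiable (by simp) t).hasDerivAt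
    have d2 : HasDerivAt (fun s => μ (s, x) v)
        (-(deriv β t) * lam x v + deriv β t * Ω x x v) t := by
      have := ((d1.const_sub 1).mul_const (lam x v)).add (d1.mul_const (Ω x x v))
      exact this
    rw [d2.deriv]
    show deriv β t * (lam x v - Ω x x v) = _
    ring
  -- linear growth
  have hgrow : ∀ t x, ‖X (t, x)‖ ≤ (2 * C) * (1 + ‖x‖) := by
    intro t x
    set V := X (t, x) with hV
    set G := Real.sqrt (Ω x V (J x V)) with hG
    have g0 : 0 ≤ Ω x V (J x V) := (sq_nonneg ‖V‖).trans (hnorm x V)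
    have hG0 : 0 ≤ G := Real.sqrt_nonneg _
    have hGsq : G ^ 2 = Ω x V (J x V) := Real.sq_sqrt g0
    have hVG : ‖V‖ ≤ G := Real.le_sqrt_of_sq_le (hnorm x V)
    have h1 : G ^ 2 ≤ deriv β t * (lam x (J x V) - Ω x x (J x V)) := by
      rw [hGsq]
      refine (hWpos t x V).trans (le_of_eq ?_)
      rw [hV, hXW]
      rfl
    have h2 : |lam x (J x V)| ≤ ‖x‖ * G := by
      refine (hlamb x (J x V)).trans (le_of_eq ?_)
      rw [hinv x V (J x V)]
    have h3 : |Ω x x (J x V)| ≤ ‖x‖ * G := by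
      rw [hgauss]
      exact (abs_real_inner_le_norm _ _).trans (by gcongr)
    have h4 : deriv β t * (lam x (J x V) - Ω x x (J x V)) ≤ C * (2 * ‖x‖ * G) := by
      refine (le_abs_self _).trans ?_
      rw [abs_mul]
      have h5 : |lam x (J x V) - Ω x x (J x V)| ≤ 2 * ‖x‖ * G := by
        have := abs_sub (lam x (J x V)) (Ω x x (J x V))
        linarith
      exact mul_le_mul (hC t) h5 (abs_nonneg _) hC0
    have h6 : G ≤ 2 * C * ‖x‖ := by
      by_contra hcon
      push Not at hcon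
      have hx0 := norm_nonneg x
      have hGpos : 0 < G := lt_of_le_of_lt (by positivity) hcon
      nlinarith
    calc ‖V‖ ≤ 2 * C * ‖x‖ := hVG.trans h6
      _ ≤ 2 * C * (1 + ‖x‖) := by
        gcongr
        linarith
  obtain ⟨φ, ψ, hφ, hψ, hφ0, hflow, hψφ, hφψ⟩ := exists_flow hXs
    (exists_solution_of_linear_growth hXs hgrow 0) (exists_solution_of_linear_growth hXs hgrow 1)
  refine ⟨φ 1, ψ, ?_, hψ, hψφ, hφψ, fun x u v => ?_⟩
  · exact hφ.comp (contDiff_const.prodMk contDiff_id)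
  · have key := moser hXs hφ hflow hμs hWd hXeq 1 x u v
    have e1 : β 1 = 1 := Real.smoothTransition.one
    have e0 : β 0 = 0 := Real.smoothTransition.zero
    have hid : φ 0 = id := funext hφ0
    have w1 : ∀ y, W 1 y = L y := fun y => by
      simp only [hW, e1, sub_self, zero_smul, one_smul, zero_add]
    have w0 : ∀ y, W 0 y = Ω y := fun y => by
      simp only [hW, e0, sub_zero, zero_smul, one_smul, add_zero]
    rw [w1, w0, hid, fderiv_id] at key
    simpa using key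

end Core

section Sym
variable {m : ℕ} {Ω : Euc m → Form2 (Euc m)} {J : Euc m → Euc m →L[ℝ] Euc m}

/-! ### Moser I -/
theorem Setting.moser_one (h : Setting m Ω J) : ∃ φ ψ : Euc m → Euc m, ContDiff ℝ ∞ φ ∧
    ContDiff ℝ ∞ ψ ∧ (∀ x, ψ (φ x) = x) ∧ (∀ x, φ (ψ x) = x) ∧
    ∀ x u v, LE Ω (φ x) (fderiv ℝ φ x u) (fderiv ℝ φ x v) = Ω x u v := by
  obtain ⟨lam, hlam, hlamd, hlamb⟩ := h.poincare
  exact moserOne_core (L := LE Ω) h.smooth (moserOne_contDiff_LE h.smooth) h.pos h.inv h.gauss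
    h.norm_sq_le h.tame h.LE_exact hlam hlamd hlamb

end Sym

end Pool.Agent.SH
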