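import Pool.Agent.Lib.MP_f72ae4_gt.SetBasic
import Pool.Agent.Lib.MP_f72ae4_gt.Liou
import Pool.Agent.Lib.MP_f72ae4_gt.Apriori
import Pool.Agent.Lib.MP_f72ae4_gt.GlobalFlow
import Pool.Agent.Lib.MP_f72ae4_gt.Exist
import Pool.Agent.Lib.MP_f72ae4_gt.Moser
import Pool.Agent.Lib.MP_f72ae4_gt.MoserOne

/-! # S4c: the second Moser isotopy and the combination -/

open scoped Manifold ContDiff Topology
open Set

noncomputable section

namespace Pool.Agent.SH


section Sym2
variable {m : ℕ} {Ω : Euc m → Form2 (Euc m)} {J : Euc m → Euc m →L[ℝ] Euc m}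

/-- the Moser field of the second isotopy, with the time change -/
def moserTwo_X (Ω : Euc m → Form2 (Euc m)) (p : ℝ × Euc m) : Euc m :=
  deriv Real.smoothTransition p.1 • yfield Ω (Real.smoothTransition p.1, p.2)

/-- the primitive of the second isotopy -/
def moserTwo_mu (Ω : Euc m → Form2 (Euc m)) (p : ℝ × Euc m) : Euc m →L[ℝ] ℝ :=
  (1 / 2 : ℝ) • Ω (Real.smoothTransition p.1 • p.2) p.2

theorem moserTwo_contDiff_X (h : Setting m Ω J) : ContDiff ℝ ∞ (moserTwo_X Ω) := by
  unfold moserTwo_X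
  have h1 : ContDiff ℝ ∞ Real.smoothTransition := Real.smoothTransition.contDiff
  have h2 : ContDiff ℝ ∞ (deriv Real.smoothTransition) := by
    rw [contDiff_infty_iff_deriv] at h1
    exact h1.2
  refine (h2.comp contDiff_fst).smul (h.contDiff_yfield.comp ?_)
  exact (h1.comp contDiff_fst).prodMk contDiff_snd

theorem moserTwo_contDiff_mu (h : Setting m Ω J) : ContDiff ℝ ∞ (moserTwo_mu Ω) := by
  unfold moserTwo_mu
  have h1 : ContDiff ℝ ∞ Real.smoothTransition := Real.smoothTransition.contDiff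
  refine ContDiff.const_smul (1 / 2 : ℝ) (ContDiff.clm_apply (h.smooth.comp ?_) contDiff_snd)
  exact (h1.comp contDiff_fst).smul contDiff_snd

theorem moserTwo_dmu (h : Setting m Ω J) (t : ℝ) (x u v : Euc m) :
    fderiv ℝ (fun y => moserTwo_mu Ω (t, y)) x u v =
      (1 / 2 : ℝ) * (Real.smoothTransition t *
        fderiv ℝ Ω (Real.smoothTransition t • x) u x v + Ω (Real.smoothTransition t • x) u v) := by
  set s := Real.smoothTransition t with hs
  have hΩd : HasFDerivAt Ω (fderiv ℝ Ω (s • x)) (s • x) :=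
    ((h.smooth.differentiable (by simp)) (s • x)).hasFDerivAt
  have h1 : HasFDerivAt (fun y : Euc m => s • y) (s • ContinuousLinearMap.id ℝ (Euc m)) x :=
    (hasFDerivAt_id x).const_smul s
  have h2 : HasFDerivAt (fun y : Euc m => Ω (s • y))
      ((fderiv ℝ Ω (s • x)).comp (s • ContinuousLinearMap.id ℝ (Euc m))) x :=
    HasFDerivAt.comp (g := Ω) (f := fun y => s • y) x hΩd h1
  have h3 := (h2.clm_apply (hasFDerivAt_id x)).const_smul (1 / 2 : ℝ)
  have h4 : fderiv ℝ (fun y => moserTwo_mu Ω (t, y)) x = _ := h3.fderiv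
  rw [h4]
  simp only [ContinuousLinearMap.smul_apply, ContinuousLinearMap.add_apply,
    ContinuousLinearMap.comp_apply, ContinuousLinearMap.flip_apply, ContinuousLinearMap.id_apply,
    map_smul, smul_eq_mul, id]
  ring

theorem moserTwo_dt (h : Setting m Ω J) (t : ℝ) (x v : Euc m) :
    deriv (fun τ => moserTwo_mu Ω (τ, x) v) t = (1 / 2 : ℝ) * (deriv Real.smoothTransition t *
      fderiv ℝ Ω (Real.smoothTransition t • x) x x v) := by
  have hβ : HasDerivAt Real.smoothTransition (deriv Real.smoothTransition t) t := by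
    have h1 : ContDiff ℝ ∞ Real.smoothTransition := Real.smoothTransition.contDiff
    exact ((h1.differentiable (by simp)) t).hasDerivAt
  have hΩd : HasFDerivAt Ω (fderiv ℝ Ω (Real.smoothTransition t • x))
      (Real.smoothTransition t • x) :=
    ((h.smooth.differentiable (by simp)) _).hasFDerivAt
  have h1 : HasDerivAt (fun τ => Real.smoothTransition τ • x)
      (deriv Real.smoothTransition t • x) t := hβ.smul_const x
  have h2 : HasDerivAt (fun τ => Ω (Real.smoothTransition τ • x))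
      (fderiv ℝ Ω (Real.smoothTransition t • x) (deriv Real.smoothTransition t • x)) t :=
    HasFDerivAt.comp_hasDerivAt (l := Ω) (f := fun τ => Real.smoothTransition τ • x) t hΩd h1
  have h3 : HasDerivAt (fun τ => Ω (Real.smoothTransition τ • x) x v)
      (fderiv ℝ Ω (Real.smoothTransition t • x) (deriv Real.smoothTransition t • x) x v) t := by
    have h4 := (h2.clm_apply (hasDerivAt_const t x)).clm_apply (hasDerivAt_const t v)
    simpa using h4
  have h5 : HasDerivAt (fun τ => moserTwo_mu Ω (τ, x) v) ((1 / 2 : ℝ) *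
      fderiv ℝ Ω (Real.smoothTransition t • x) (deriv Real.smoothTransition t • x) x v) t :=
    h3.const_mul (1 / 2 : ℝ)
  rw [h5.deriv, map_smul]
  simp only [ContinuousLinearMap.smul_apply, smul_eq_mul]

theorem moserTwo_LE (h : Setting m Ω J) (s : ℝ) (x u v : Euc m) :
    LE Ω (s • x) u v = 2 * Ω (s • x) u v + s * fderiv ℝ Ω (s • x) x u v := by
  unfold LE
  rw [map_smul]
  simp only [ContinuousLinearMap.smul_apply, ContinuousLinearMap.add_apply, smul_eq_mul]

theorem moserTwo_anti (h : Setting m Ω J) (x u v : Euc m) : Ω x u v = - Ω x v u := by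
  have h1 := h.alt x (u + v)
  simp only [map_add, ContinuousLinearMap.add_apply, h.alt, zero_add, add_zero] at h1
  linarith

theorem moserTwo_fderiv_anti (h : Setting m Ω J) (y w u v : Euc m) :
    fderiv ℝ Ω y w u v = - fderiv ℝ Ω y w v u := by
  have hd : DifferentiableAt ℝ Ω y := (h.smooth.differentiable (by simp)) y
  have key : ∀ a b : Euc m, HasFDerivAt (fun z => Ω z a b) (((fderiv ℝ Ω y).flip a).flip b) y := by
    intro a b
    have h1 := (hd.hasFDerivAt.clm_apply (hasFDerivAt_const a y)).clm_apply (hasFDerivAt_const b y)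
    refine h1.congr_fderiv ?_
    ext w
    simp
  have h1 := key u v
  have h2 := (key v u).neg
  have h3 : (fun z => Ω z u v) = -(fun z => Ω z v u) := by
    funext z
    exact moserTwo_anti h z u v
  rw [h3] at h1
  have h4 := h1.unique h2
  have h5 := congrArg (fun L : Euc m →L[ℝ] ℝ => L w) h4
  simpa using h5

theorem moserTwo_exact (h : Setting m Ω J) (t : ℝ) (x u v : Euc m) :
    (1 / 2 : ℝ) * LE Ω (Real.smoothTransition t • x) u v =
      fderiv ℝ (fun y => moserTwo_mu Ω (t, y)) x u v -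
        fderiv ℝ (fun y => moserTwo_mu Ω (t, y)) x v u := by
  rw [moserTwo_dmu h, moserTwo_dmu h, moserTwo_LE h]
  have h1 := h.closed (Real.smoothTransition t • x) u v x
  have h2 := moserTwo_fderiv_anti h (Real.smoothTransition t • x) u v x
  have h3 := moserTwo_anti h (Real.smoothTransition t • x) v u
  rw [h3]
  have h4 : fderiv ℝ Ω (Real.smoothTransition t • x) x u v =
      fderiv ℝ Ω (Real.smoothTransition t • x) u x v -
        fderiv ℝ Ω (Real.smoothTransition t • x) v x u := by linarith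
  rw [h4]
  ring

theorem Setting.moser_two (h : Setting m Ω J) : ∃ φ ψ : Euc m → Euc m, ContDiff ℝ ∞ φ ∧
    ContDiff ℝ ∞ ψ ∧ (∀ x, ψ (φ x) = x) ∧ (∀ x, φ (ψ x) = x) ∧
    ∀ x u v, (1 / 2 : ℝ) * LE Ω (φ x) (fderiv ℝ φ x u) (fderiv ℝ φ x v) = Ω 0 u v := by
  have hY : ContDiff ℝ ∞ (yfield Ω) := h.contDiff_yfield
  obtain ⟨φ, ψ, hφ, hψ, hφ0, hflow, hψφ, hφψ⟩ := exists_flow (moserTwo_contDiff_X h)
    (fun x => exists_solution_timechange_fwd hY x ‖x‖
      (apriori_fwd hY.continuous h.yfield_liou h.inner_liou_le x))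
    (fun x => by
      obtain ⟨R, hR⟩ := apriori_bwd hY.continuous h.contDiff_liou.continuous h.yfield_liou
        h.inner_liou_le (fun y hy => h.inner_liou_pos hy) h.liou_taylor x
      exact exists_solution_timechange_bwd hY x R hR)
  have hm := moser (moserTwo_contDiff_X h) hφ hflow (moserTwo_contDiff_mu h)
    (Ω := fun t x => (1 / 2 : ℝ) • LE Ω (Real.smoothTransition t • x))
    (fun t x u v => moserTwo_exact h t x u v)
    (fun t x v => by
      rw [moserTwo_dt h]
      show (1 / 2 : ℝ) * LE Ω (Real.smoothTransition t • x)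
        (deriv Real.smoothTransition t • yfield Ω (Real.smoothTransition t, x)) v = _
      rw [map_smul, ContinuousLinearMap.smul_apply, h.yfield_spec, smul_eq_mul]
      ring)
  refine ⟨φ 1, ψ, ?_, hψ, hψφ, hφψ, ?_⟩
  · exact hφ.comp (contDiff_const.prodMk contDiff_id)
  · intro x u v
    have h1 := hm 1 x u v
    have h2 : (φ 0) = id := by funext y; exact hφ0 y
    rw [Real.smoothTransition.one, Real.smoothTransition.zero, h2, fderiv_id] at h1
    simp only [one_smul, zero_smul, id, ContinuousLinearMap.smul_apply, smul_eq_mul,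
      ContinuousLinearMap.id_apply] at h1
    rw [h1]
    have h3 := moserTwo_LE h 0 0 u v
    rw [smul_zero] at h3
    rw [h3]
    ring

theorem Setting.standard (h : Setting m Ω J) : ∃ φ ψ : Euc m → Euc m, ContDiff ℝ ∞ φ ∧
    ContDiff ℝ ∞ ψ ∧ (∀ x, ψ (φ x) = x) ∧ (∀ x, φ (ψ x) = x) ∧
    ∀ x u v, Ω 0 (fderiv ℝ φ x u) (fderiv ℝ φ x v) = Ω x u v := by
  obtain ⟨φ₁, ψ₁, hφ₁, hψ₁, h1, h1', hp₁⟩ := h.moser_one
  obtain ⟨φ₂, ψ₂, hφ₂, hψ₂, h2, h2', hp₂⟩ := h.moser_two
  have hsq : (√2 : ℝ) * √2 = 2 := Real.mul_self_sqrt (by norm_num)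
  have hsq0 : (√2 : ℝ) ≠ 0 := by positivity
  refine ⟨fun x => (√2 : ℝ) • ψ₂ (φ₁ x), fun x => ψ₁ (φ₂ ((√2 : ℝ)⁻¹ • x)), ?_, ?_, ?_, ?_, ?_⟩
  · exact ContDiff.const_smul (√2 : ℝ) (hψ₂.comp hφ₁)
  · exact hψ₁.comp (hφ₂.comp (ContDiff.const_smul (√2 : ℝ)⁻¹ contDiff_id))
  · intro x
    simp only
    rw [smul_smul, inv_mul_cancel₀ hsq0, one_smul, h2', h1]
  · intro x
    simp only
    rw [h1', h2, smul_smul, mul_inv_cancel₀ hsq0, one_smul]
  · intro x u v
    have hd₁ : DifferentiableAt ℝ φ₁ x := (hφ₁.differentiable (by simp)) x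
    have hdψ : DifferentiableAt ℝ ψ₂ (φ₁ x) := (hψ₂.differentiable (by simp)) _
    have hdc : DifferentiableAt ℝ (fun y => ψ₂ (φ₁ y)) x := hdψ.comp x hd₁
    have hd₂ : DifferentiableAt ℝ φ₂ (ψ₂ (φ₁ x)) := (hφ₂.differentiable (by simp)) _
    have hder : fderiv ℝ (fun y => (√2 : ℝ) • ψ₂ (φ₁ y)) x =
        (√2 : ℝ) • fderiv ℝ (fun y => ψ₂ (φ₁ y)) x := (hdc.hasFDerivAt.const_smul (√2 : ℝ)).fderiv
    have hchain : ∀ w, fderiv ℝ φ₂ (ψ₂ (φ₁ x)) (fderiv ℝ (fun y => ψ₂ (φ₁ y)) x w) =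
        fderiv ℝ φ₁ x w := by
      intro w
      have h3 : HasFDerivAt (fun y => φ₂ (ψ₂ (φ₁ y)))
          ((fderiv ℝ φ₂ (ψ₂ (φ₁ x))).comp (fderiv ℝ (fun y => ψ₂ (φ₁ y)) x)) x :=
        hd₂.hasFDerivAt.comp x hdc.hasFDerivAt
      have h4 : (fun y => φ₂ (ψ₂ (φ₁ y))) = φ₁ := by
        funext y; exact h2' _
      rw [h4] at h3
      have h5 := h3.unique hd₁.hasFDerivAt
      rw [← h5]
      rfl
    have h6 := hp₂ (ψ₂ (φ₁ x)) (fderiv ℝ (fun y => ψ₂ (φ₁ y)) x u)
      (fderiv ℝ (fun y => ψ₂ (φ₁ y)) x v)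
    rw [hchain, hchain, h2', hp₁] at h6
    rw [hder]
    simp only [ContinuousLinearMap.smul_apply, map_smul, smul_eq_mul]
    rw [← h6, ← mul_assoc, hsq]
    ring

end Sym2

end Pool.Agent.SH
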