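import Pool.Agent.Lib.MP_f72ae4_gt.Base

/-! # M2: pull-backs of form fields, and the inverse function theorem for maps `ℝ^m → M` -/

open scoped Manifold ContDiff Topology
open Set

noncomputable section

namespace Pool.Agent.SH

theorem pull_aux_flip {E : Type*} [NormedAddCommGroup E] [NormedSpace ℝ E] :
    ContDiff ℝ ∞ (fun A : E →L[ℝ] E →L[ℝ] ℝ => A.flip) := by
  have : IsBoundedLinearMap ℝ (fun A : E →L[ℝ] E →L[ℝ] ℝ => A.flip) := by
    refine ⟨⟨fun A B => rfl, fun c A => rfl⟩, 1, one_pos, fun A => ?_⟩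
    rw [ContinuousLinearMap.opNorm_flip, one_mul]
  exact this.contDiff

section Mfd
variable {m : ℕ} {M : Type*} [TopologicalSpace M] [ChartedSpace (Euc m) M]

/-- the form field at equal points -/
theorem pull_aux_congr (g : FormField m M) {p p' : M} (h : p = p') (a b : Euc m) :
    (g p : Euc m →L[ℝ] Euc m →L[ℝ] ℝ) a b = (g p' : Euc m →L[ℝ] Euc m →L[ℝ] ℝ) a b := by
  subst h; rfl

/-- the coordinate expression of a smooth map is smooth -/
theorem pull_aux_contDiffOn {f : Euc m → M} (hf : ContMDiff 𝓘(ℝ, Euc m) 𝓘(ℝ, Euc m) ∞ f)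
    {e : OpenPartialHomeomorph M (Euc m)} (he : e ∈ IsManifold.maximalAtlas 𝓘(ℝ, Euc m) ∞ M) :
    ContDiffOn ℝ ∞ (e ∘ f) (f ⁻¹' e.source) := by
  rw [← contMDiffOn_iff_contDiffOn]
  exact (contMDiffOn_of_mem_maximalAtlas he).comp hf.contMDiffOn (fun _ h => h)

theorem pull_aux_isOpen {f : Euc m → M} (hf : ContMDiff 𝓘(ℝ, Euc m) 𝓘(ℝ, Euc m) ∞ f)
    (e : OpenPartialHomeomorph M (Euc m)) : IsOpen (f ⁻¹' e.source) :=
  e.open_source.preimage hf.continuous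

variable [IsManifold 𝓘(ℝ, Euc m) ∞ M]

/-- the derivative of `f` in terms of the derivative of its coordinate expression -/
theorem pull_aux_mfderiv {f : Euc m → M} (hf : ContMDiff 𝓘(ℝ, Euc m) 𝓘(ℝ, Euc m) ∞ f)
    {e : OpenPartialHomeomorph M (Euc m)} (he : e ∈ IsManifold.maximalAtlas 𝓘(ℝ, Euc m) ∞ M)
    {z : Euc m} (hz : f z ∈ e.source) (u : Euc m) :
    (mfderiv 𝓘(ℝ, Euc m) 𝓘(ℝ, Euc m) f z u : Euc m) =
      (chartD e (e (f z)) (fderiv ℝ (e ∘ f) z u) : Euc m) := by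
  have h1 : f =ᶠ[𝓝 z] e.symm ∘ (e ∘ f) := by
    filter_upwards [(pull_aux_isOpen hf e).mem_nhds hz] with x hx
    exact (e.left_inv hx).symm
  have h2 := h1.mfderiv_eq (I := 𝓘(ℝ, Euc m)) (I' := 𝓘(ℝ, Euc m))
  have hd : MDifferentiableAt 𝓘(ℝ, Euc m) 𝓘(ℝ, Euc m) (e ∘ f) z := by
    rw [mdifferentiableAt_iff_differentiableAt]
    exact ((pull_aux_contDiffOn hf he).contDiffAt
      ((pull_aux_isOpen hf e).mem_nhds hz)).differentiableAt (by simp)
  have hd' : MDifferentiableAt 𝓘(ℝ, Euc m) 𝓘(ℝ, Euc m) e.symm ((e ∘ f) z) :=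
    (contMDiffAt_symm_of_mem_maximalAtlas he (e.map_source hz)).mdifferentiableAt (by simp)
  have h3 : mfderiv 𝓘(ℝ, Euc m) 𝓘(ℝ, Euc m) (e.symm ∘ (e ∘ f)) z =
      (mfderiv 𝓘(ℝ, Euc m) 𝓘(ℝ, Euc m) e.symm ((e ∘ f) z)).comp
        (mfderiv 𝓘(ℝ, Euc m) 𝓘(ℝ, Euc m) (e ∘ f) z) := mfderiv_comp z hd' hd
  rw [mfderiv_eq_fderiv (f := e ∘ f)] at h3
  have h4 : (mfderiv 𝓘(ℝ, Euc m) 𝓘(ℝ, Euc m) f z u : Euc m) =
      (mfderiv 𝓘(ℝ, Euc m) 𝓘(ℝ, Euc m) (e.symm ∘ (e ∘ f)) z u : Euc m) :=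
    congrArg (fun A : Euc m →L[ℝ] Euc m => A u) h2
  rw [h4]
  exact congrArg (fun A : Euc m →L[ℝ] Euc m => A u) h3

/-- the pull-back in coordinates -/
theorem pull_aux_form (g : FormField m M) {f : Euc m → M}
    (hf : ContMDiff 𝓘(ℝ, Euc m) 𝓘(ℝ, Euc m) ∞ f)
    {e : OpenPartialHomeomorph M (Euc m)} (he : e ∈ IsManifold.maximalAtlas 𝓘(ℝ, Euc m) ∞ M)
    {z : Euc m} (hz : f z ∈ e.source) :
    pullForm g f z = ((((coordForm g e (e (f z))).comp (fderiv ℝ (e ∘ f) z)).flip).comp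
      (fderiv ℝ (e ∘ f) z)).flip := by
  ext u v
  have h1 := pull_aux_mfderiv hf he hz u
  have h2 := pull_aux_mfderiv hf he hz v
  have h3 : e.symm (e (f z)) = f z := e.left_inv hz
  calc pullForm g f z u v = (g (f z) : Euc m →L[ℝ] Euc m →L[ℝ] ℝ)
        (mfderiv 𝓘(ℝ, Euc m) 𝓘(ℝ, Euc m) f z u) (mfderiv 𝓘(ℝ, Euc m) 𝓘(ℝ, Euc m) f z v) := rfl
    _ = (g (f z) : Euc m →L[ℝ] Euc m →L[ℝ] ℝ) (chartD e (e (f z)) (fderiv ℝ (e ∘ f) z u))
          (chartD e (e (f z)) (fderiv ℝ (e ∘ f) z v)) := by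
        exact congrArg₂ (fun a b : Euc m => (g (f z) : Euc m →L[ℝ] Euc m →L[ℝ] ℝ) a b) h1 h2
    _ = (g (e.symm (e (f z))) : Euc m →L[ℝ] Euc m →L[ℝ] ℝ)
          (chartD e (e (f z)) (fderiv ℝ (e ∘ f) z u))
          (chartD e (e (f z)) (fderiv ℝ (e ∘ f) z v)) := (pull_aux_congr g h3 _ _).symm
    _ = _ := rfl

/-- Pull-backs of smooth form fields under smooth maps are smooth. -/
theorem contDiff_pullForm {g : FormField m M}
    (hg : ∀ e ∈ IsManifold.maximalAtlas 𝓘(ℝ, Euc m) ∞ M, ContDiffOn ℝ ∞ (coordForm g e) e.target)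
    {f : Euc m → M} (hf : ContMDiff 𝓘(ℝ, Euc m) 𝓘(ℝ, Euc m) ∞ f) :
    ContDiff ℝ ∞ (pullForm g f) := by
  rw [contDiff_iff_contDiffAt]
  intro y
  have he : chartAt (Euc m) (f y) ∈ IsManifold.maximalAtlas 𝓘(ℝ, Euc m) ∞ M :=
    IsManifold.chart_mem_maximalAtlas _
  set e := chartAt (Euc m) (f y) with hedef
  have hW := pull_aux_isOpen hf e
  have hyW : y ∈ f ⁻¹' e.source := mem_chart_source _ _
  have hh := pull_aux_contDiffOn hf he
  have h1 : ContDiffAt ℝ ∞ (fun z => coordForm g e (e (f z))) y := by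
    have : ContDiffOn ℝ ∞ (coordForm g e ∘ (e ∘ f)) (f ⁻¹' e.source) :=
      (hg e he).comp hh (fun z hz => e.map_source hz)
    exact this.contDiffAt (hW.mem_nhds hyW)
  have h2 : ContDiffAt ℝ ∞ (fun z => fderiv ℝ (e ∘ f) z) y :=
    ((hh.fderiv_of_isOpen hW (m := ∞) (by simp))).contDiffAt (hW.mem_nhds hyW)
  have hflip : ∀ (A : Euc m → Euc m →L[ℝ] Euc m →L[ℝ] ℝ), ContDiffAt ℝ ∞ A y →
      ContDiffAt ℝ ∞ (fun z => (A z).flip) y := by
    intro A hA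
    exact pull_aux_flip.contDiffAt.comp y hA
  have h3 : ContDiffAt ℝ ∞ (fun z => ((((coordForm g e (e (f z))).comp
      (fderiv ℝ (e ∘ f) z)).flip).comp (fderiv ℝ (e ∘ f) z)).flip) y :=
    hflip _ ((hflip _ (h1.clm_comp h2)).clm_comp h2)
  refine h3.congr_of_eventuallyEq ?_
  filter_upwards [hW.mem_nhds hyW] with z hz
  exact pull_aux_form g hf he hz

/-- If `df` is injective at `y`, then `f⁻¹` is (near `y`) a chart of the maximal atlas. -/
theorem exists_chart_of_injective {f : Euc m → M} (hf : ContMDiff 𝓘(ℝ, Euc m) 𝓘(ℝ, Euc m) ∞ f)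
    {y : Euc m} (hinj : Function.Injective (mfderiv 𝓘(ℝ, Euc m) 𝓘(ℝ, Euc m) f y)) :
    ∃ e ∈ IsManifold.maximalAtlas 𝓘(ℝ, Euc m) ∞ M, y ∈ e.target ∧
      ∀ z ∈ e.target, e.symm z = f z := by
  have hc : chartAt (Euc m) (f y) ∈ IsManifold.maximalAtlas 𝓘(ℝ, Euc m) ∞ M :=
    IsManifold.chart_mem_maximalAtlas _
  set c := chartAt (Euc m) (f y) with hcdef
  have hW := pull_aux_isOpen hf c
  have hyW : y ∈ f ⁻¹' c.source := mem_chart_source _ _
  have hh := pull_aux_contDiffOn hf hc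
  have hhy : ContDiffAt ℝ ∞ (c ∘ f) y := hh.contDiffAt (hW.mem_nhds hyW)
  have hinj' : Function.Injective (fderiv ℝ (c ∘ f) y) := by
    intro u v huv
    apply hinj
    have h1 := pull_aux_mfderiv hf hc hyW u
    have h2 := pull_aux_mfderiv hf hc hyW v
    rw [huv] at h1
    exact h1.trans h2.symm
  -- the derivative is an equivalence
  let L : Euc m ≃L[ℝ] Euc m := (LinearEquiv.ofInjectiveEndo
    ((fderiv ℝ (c ∘ f) y : Euc m →L[ℝ] Euc m) : Euc m →ₗ[ℝ] Euc m) hinj').toContinuousLinearEquiv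
  have hL : (L : Euc m →L[ℝ] Euc m) = fderiv ℝ (c ∘ f) y := by
    ext u
    rfl
  have hLd : HasFDerivAt (c ∘ f) (L : Euc m →L[ℝ] Euc m) y := by
    rw [hL]
    exact (hhy.differentiableAt (by simp)).hasFDerivAt
  let φ₀ := hhy.toOpenPartialHomeomorph (c ∘ f) hLd (by simp)
  have hφ₀ : (φ₀ : Euc m → Euc m) = c ∘ f := rfl
  have hyφ : y ∈ φ₀.source := hhy.mem_toOpenPartialHomeomorph_source hLd (by simp)
  -- the open set on which the derivative is invertible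
  have hcont : ContinuousOn (fderiv ℝ (c ∘ f)) (f ⁻¹' c.source) :=
    hh.continuousOn_fderiv_of_isOpen hW (by simp)
  let D : Set (Euc m) := (f ⁻¹' c.source) ∩
    (fderiv ℝ (c ∘ f)) ⁻¹' (range ((↑) : (Euc m ≃L[ℝ] Euc m) → (Euc m →L[ℝ] Euc m)))
  have hD : IsOpen D := hcont.isOpen_inter_preimage hW ContinuousLinearEquiv.isOpen
  have hyD : y ∈ D := ⟨hyW, L, hL⟩
  let φ := φ₀.restrOpen D hD
  have hφc : ∀ z, φ z = c (f z) := fun z => rfl
  have hφs : φ.source = φ₀.source ∩ D := rfl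
  have hsmooth : ContDiffOn ℝ ∞ φ φ.source := by
    refine (hh.mono ?_)
    rw [hφs]
    exact fun z hz => hz.2.1
  have hsmooth' : ContDiffOn ℝ ∞ φ.symm φ.target := by
    intro a ha
    have hb : φ.symm a ∈ φ.source := φ.map_target ha
    rw [hφs] at hb
    obtain ⟨L', hL'⟩ := hb.2.2
    refine (φ.contDiffAt_symm ha (f₀' := L') ?_ ?_).contDiffWithinAt
    · have h1 : HasFDerivAt (c ∘ f) (fderiv ℝ (c ∘ f) (φ.symm a)) (φ.symm a) :=
        ((hh.contDiffAt (hW.mem_nhds hb.2.1)).differentiableAt (by simp)).hasFDerivAt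
      rw [← hL'] at h1
      exact h1
    · exact hh.contDiffAt (hW.mem_nhds hb.2.1)
  let e : OpenPartialHomeomorph M (Euc m) := c.trans φ.symm
  have hsub : ∀ z ∈ e.target, z ∈ φ.source := by
    intro z hz
    have := hz.1
    exact this
  refine ⟨e, ?_, ?_, ?_⟩
  · apply OpenPartialHomeomorph.mem_maximalAtlas_of_contMDiffOn
    · have h1 := (contMDiffOn_of_mem_maximalAtlas hc)
      have h2 : ContMDiffOn 𝓘(ℝ, Euc m) 𝓘(ℝ, Euc m) ∞ φ.symm φ.target :=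
        contMDiffOn_iff_contDiffOn.2 hsmooth'
      refine h2.comp (h1.mono ?_) ?_
      · intro x hx
        exact hx.1
      · intro x hx
        exact hx.2
    · have h1 := (contMDiffOn_symm_of_mem_maximalAtlas hc)
      have h2 : ContMDiffOn 𝓘(ℝ, Euc m) 𝓘(ℝ, Euc m) ∞ φ φ.source :=
        contMDiffOn_iff_contDiffOn.2 hsmooth
      refine h1.comp (h2.mono ?_) ?_
      · intro x hx
        exact hx.1
      · intro x hx
        exact hx.2
  · refine ⟨⟨hyφ, hyD⟩, ?_⟩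
    show φ y ∈ c.target
    exact c.map_source hyW
  · intro z hz
    have h1 := hsub z hz
    rw [hφs] at h1
    show c.symm (c (f z)) = f z
    exact c.left_inv h1.2.1

end Mfd

section Mfd'
variable {m : ℕ} {M : Type*} [TopologicalSpace M] [ChartedSpace (Euc m) M]
  [IsManifold 𝓘(ℝ, Euc m) ∞ M]

theorem coordForm_eq_pullForm {g : FormField m M} {f : Euc m → M}
    {e : OpenPartialHomeomorph M (Euc m)} (he : ∀ z ∈ e.target, e.symm z = f z) {y : Euc m}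
    (hy : y ∈ e.target) : coordForm g e y = pullForm g f y := by
  have h1 : e.symm =ᶠ[𝓝 y] f := by
    filter_upwards [e.open_target.mem_nhds hy] with z hz
    exact he z hz
  have h2 := h1.mfderiv_eq (I := 𝓘(ℝ, Euc m)) (I' := 𝓘(ℝ, Euc m))
  have h3 : ∀ u : Euc m, (chartD e y u : Euc m) = (mfderiv 𝓘(ℝ, Euc m) 𝓘(ℝ, Euc m) f y u : Euc m) :=
    fun u => congrArg (fun A : Euc m →L[ℝ] Euc m => A u) h2
  ext u v
  calc coordForm g e y u v = (g (e.symm y) : Euc m →L[ℝ] Euc m →L[ℝ] ℝ) (chartD e y u)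
        (chartD e y v) := rfl
    _ = (g (f y) : Euc m →L[ℝ] Euc m →L[ℝ] ℝ) (chartD e y u) (chartD e y v) :=
        pull_aux_congr g (he y hy) _ _
    _ = (g (f y) : Euc m →L[ℝ] Euc m →L[ℝ] ℝ) (mfderiv 𝓘(ℝ, Euc m) 𝓘(ℝ, Euc m) f y u)
        (mfderiv 𝓘(ℝ, Euc m) 𝓘(ℝ, Euc m) f y v) :=
        congrArg₂ (fun a b : Euc m => (g (f y) : Euc m →L[ℝ] Euc m →L[ℝ] ℝ) a b) (h3 u) (h3 v)
    _ = pullForm g f y u v := rfl

end Mfd'

end Pool.Agent.SH
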