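import Pool.Agent.Lib.MP_f72ae4_gt.HadCoords
import Pool.Agent.Lib.MP_f72ae4_gt.MoserTwo
import Pool.Agent.Lib.MP_f72ae4_gt.LinAlg
import Pool.Agent.Lib.MP_f72ae4_gt.Chr
import Pool.Agent.Lib.MP_f72ae4_gt.Pull

/-! # Final assembly for MP_f72ae4_gt -/

open scoped Manifold ContDiff Topology
open Set

noncomputable section

namespace Pool.Agent.SH


/-- antisymmetry from the alternating property -/
theorem final_anti_flat {E : Type*} [NormedAddCommGroup E] [NormedSpace ℝ E] {B : Form2 E}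
    (h : ∀ v, B v v = 0) (u v : E) : B u v = - B v u := by
  have h1 := h (u + v)
  simp only [map_add, add_apply, h u, h v, zero_add, add_zero] at h1
  linarith

section
variable {m : ℕ} {M : Type*} [TopologicalSpace M] [ChartedSpace (Euc m) M]
  {Ω : FormField m M} {J : EndField m M}

/-- A form field with the tangent spaces identified with `ℝ^m`. -/
def flat (B : FormField m M) (x : M) : Form2 (Euc m) := B x

/-- An endomorphism field with the tangent spaces identified with `ℝ^m`. -/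
def flatE (J : EndField m M) (x : M) : Euc m →L[ℝ] Euc m := J x

/-- The derivative as a map `ℝ^m → ℝ^m`. -/
def flatD (f : Euc m → M) (y : Euc m) : Euc m →L[ℝ] Euc m :=
  mfderiv 𝓘(ℝ, Euc m) 𝓘(ℝ, Euc m) f y

theorem pullForm_flat (B : FormField m M) (f : Euc m → M) (y u v : Euc m) :
    pullForm B f y u v = flat B (f y) (flatD f y u) (flatD f y v) := rfl

theorem flat_metricOf (x : M) (u v : Euc m) :
    flat (metricOf Ω J) x u v = flat Ω x u (flatE J x v) := rfl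

theorem flat_anti (hΩ : IsSymplectic Ω) (x : M) (u v : Euc m) :
    flat Ω x u v = - flat Ω x v u :=
  final_anti_flat (B := flat Ω x) (fun w => hΩ.alt x w) u v

/-- The derivative of the inverse chart as a map `ℝ^m → ℝ^m`. -/
def flatC (e : OpenPartialHomeomorph M (Euc m)) (y : Euc m) : Euc m →L[ℝ] Euc m := chartD e y

theorem coordForm_apply (B : FormField m M) (e : OpenPartialHomeomorph M (Euc m)) (y u v : Euc m) :
    coordForm B e y u v = flat B (e.symm y) (flatC e y u) (flatC e y v) := rfl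

theorem flat_metric_symm (hΩ : IsSymplectic Ω) (hJ : IsCompatible Ω J) (x : M) (u v : Euc m) :
    flat Ω x u (flatE J x v) = flat Ω x v (flatE J x u) := by
  have h1 : flat Ω x (flatE J x u) (flatE J x (flatE J x v)) = flat Ω x u (flatE J x v) :=
    hJ.inv x u (flatE J x v)
  have h2 : flatE J x (flatE J x v) = -v := hJ.sq x v
  rw [h2, map_neg, flat_anti hΩ, neg_neg] at h1
  exact h1.symm

variable [IsManifold 𝓘(ℝ, Euc m) ∞ M]

/-- `d(e⁻¹) ∘ de = id`. -/
theorem chartD_mfderiv {e : OpenPartialHomeomorph M (Euc m)}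
    (he : e ∈ IsManifold.maximalAtlas 𝓘(ℝ, Euc m) ∞ M) {y : Euc m} (hy : y ∈ e.target) (v : Euc m) :
    flatC e y ((mfderiv 𝓘(ℝ, Euc m) 𝓘(ℝ, Euc m) e (e.symm y) : Euc m →L[ℝ] Euc m) v) = v := by
  have hmem : e.symm y ∈ e.source := e.map_target hy
  have h1 : MDifferentiableAt 𝓘(ℝ, Euc m) 𝓘(ℝ, Euc m) e (e.symm y) :=
    ((contMDiffOn_of_mem_maximalAtlas he).contMDiffAt (e.open_source.mem_nhds hmem)).mdifferentiableAt
      (by simp)
  have hy' : e (e.symm y) = y := e.right_inv hy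
  have h2 : MDifferentiableAt 𝓘(ℝ, Euc m) 𝓘(ℝ, Euc m) e.symm (e (e.symm y)) := by
    rw [hy']
    exact ((contMDiffOn_symm_of_mem_maximalAtlas he).contMDiffAt
      (e.open_target.mem_nhds hy)).mdifferentiableAt (by simp)
  have h3 := mfderiv_comp (e.symm y) h2 h1
  have h4 : (e.symm ∘ e) =ᶠ[𝓝 (e.symm y)] id := by
    filter_upwards [e.open_source.mem_nhds hmem] with z hz
    exact e.left_inv hz
  rw [h4.mfderiv_eq, mfderiv_id] at h3
  have h5 := DFunLike.congr_fun h3 v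
  rw [hy'] at h5
  exact h5.symm

theorem coordForm_metricOf {e : OpenPartialHomeomorph M (Euc m)}
    (he : e ∈ IsManifold.maximalAtlas 𝓘(ℝ, Euc m) ∞ M) {y : Euc m} (hy : y ∈ e.target) (u v : Euc m) :
    coordForm (metricOf Ω J) e y u v = coordForm Ω e y u (coordEnd J e y v) := by
  rw [coordForm_apply, coordForm_apply, flat_metricOf]
  congr 1
  exact (chartD_mfderiv he hy (flatE J (e.symm y) (flatC e y v))).symm

theorem isRiem_metricOf (hΩ : IsSymplectic Ω) (hJ : IsCompatible Ω J) : IsRiem (metricOf Ω J) where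
  symm x u v := flat_metric_symm hΩ hJ x u v
  pos x v hv := hJ.pos x v hv
  smooth e he := by
    have h1 := hΩ.smooth e he
    have h2 := hJ.smooth e he
    have h3 : ContDiffOn ℝ ∞ (fun y => ContinuousLinearMap.bilinearComp (coordForm Ω e y)
        (ContinuousLinearMap.id ℝ (Euc m)) (coordEnd J e y)) e.target := by
      have : (fun y => ContinuousLinearMap.bilinearComp (coordForm Ω e y)
        (ContinuousLinearMap.id ℝ (Euc m)) (coordEnd J e y)) =
          fun y => (((ContinuousLinearMap.compL ℝ (Euc m) (Euc m) ℝ).flip (coordEnd J e y))).comp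
            (coordForm Ω e y) := by
        ext y u v
        rfl
      rw [this]
      exact ((ContinuousLinearMap.compL ℝ (Euc m) (Euc m) ℝ).flip.contDiff.comp_contDiffOn h2).clm_comp h1
    refine h3.congr fun y hy => ?_
    ext u v
    exact coordForm_metricOf he hy u v


end

section Equiv
variable {E : Type*} [NormedAddCommGroup E] [NormedSpace ℝ E] [FiniteDimensional ℝ E]

/-- A nondegenerate bilinear form on a finite-dimensional space is a linear equivalence onto the dual. -/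
theorem exists_equiv_of_nondeg (B : Form2 E) (h : ∀ v, (∀ w, B v w = 0) → v = 0) :
    ∃ e : E ≃L[ℝ] (E →L[ℝ] ℝ), (e : E →L[ℝ] E →L[ℝ] ℝ) = B := by
  have hinj : Function.Injective (B : E →ₗ[ℝ] (E →L[ℝ] ℝ)) := by
    rw [injective_iff_map_eq_zero]
    intro v hv
    exact h v fun w => by
      have := DFunLike.congr_fun hv w
      simpa using this
  have hfin : Module.finrank ℝ E = Module.finrank ℝ (E →L[ℝ] ℝ) := by
    rw [← (LinearMap.toContinuousLinearMap : (E →ₗ[ℝ] ℝ) ≃ₗ[ℝ] (E →L[ℝ] ℝ)).finrank_eq]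
    exact (Subspace.dual_finrank_eq).symm
  let e0 := LinearMap.linearEquivOfInjective (B : E →ₗ[ℝ] (E →L[ℝ] ℝ)) hinj hfin
  refine ⟨e0.toContinuousLinearEquiv, ?_⟩
  ext v w
  rfl

theorem contDiff_inverse_of_nondeg {B : E → Form2 E} (hB : ContDiff ℝ ∞ B)
    (h : ∀ y v, (∀ w, B y v w = 0) → v = 0) : ContDiff ℝ ∞ (fun y => (B y).inverse) := by
  rw [contDiff_iff_contDiffAt]
  intro y
  obtain ⟨e, he⟩ := exists_equiv_of_nondeg (B y) (h y)
  have h1 := contDiffAt_map_inverse (n := ∞) e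
  rw [he] at h1
  exact h1.comp y hB.contDiffAt

theorem inverse_apply_of_nondeg {B : Form2 E} (h : ∀ v, (∀ w, B v w = 0) → v = 0) (v : E) :
    B.inverse (B v) = v := by
  obtain ⟨e, he⟩ := exists_equiv_of_nondeg B h
  rw [← he, ContinuousLinearMap.inverse_equiv]
  simp

end Equiv

section
variable {m : ℕ} {M : Type*} [TopologicalSpace M] [ChartedSpace (Euc m) M]
  [IsManifold 𝓘(ℝ, Euc m) ∞ M] {Ω : FormField m M} {J : EndField m M}

/-- The derivative of a diffeomorphism, as a linear equivalence of `ℝ^m`. -/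
def flatEquiv (f : Euc m ≃ₘ⟮𝓘(ℝ, Euc m), 𝓘(ℝ, Euc m)⟯ M) (y : Euc m) : Euc m ≃L[ℝ] Euc m :=
  f.mfderivToContinuousLinearEquiv (by simp) y

theorem flatEquiv_apply (f : Euc m ≃ₘ⟮𝓘(ℝ, Euc m), 𝓘(ℝ, Euc m)⟯ M) (y v : Euc m) :
    flatEquiv f y v = flatD f y v := rfl

/-- pulled back almost complex structure -/
def pullEnd (J : EndField m M) (f : Euc m ≃ₘ⟮𝓘(ℝ, Euc m), 𝓘(ℝ, Euc m)⟯ M) (y : Euc m) :
    Euc m →L[ℝ] Euc m :=
  ((flatEquiv f y).symm : Euc m →L[ℝ] Euc m).comp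
    ((flatE J (f y)).comp (flatEquiv f y : Euc m →L[ℝ] Euc m))

theorem flatD_pullEnd (f : Euc m ≃ₘ⟮𝓘(ℝ, Euc m), 𝓘(ℝ, Euc m)⟯ M) (y v : Euc m) :
    flatD f y (pullEnd J f y v) = flatE J (f y) (flatD f y v) := by
  rw [← flatEquiv_apply, ← flatEquiv_apply]
  simp [pullEnd]

theorem pullForm_pullEnd (f : Euc m ≃ₘ⟮𝓘(ℝ, Euc m), 𝓘(ℝ, Euc m)⟯ M) (y u v : Euc m) :
    pullForm Ω f y u (pullEnd J f y v) = pullForm (metricOf Ω J) f y u v := by
  rw [pullForm_flat, pullForm_flat, flatD_pullEnd, flat_metricOf]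

theorem setting_of_coords (hΩ : IsSymplectic Ω) (hJ : IsCompatible Ω J)
    (f : Euc m ≃ₘ⟮𝓘(ℝ, Euc m), 𝓘(ℝ, Euc m)⟯ M)
    (h1 : ∀ x v, pullForm (metricOf Ω J) f x x v = inner ℝ x v)
    (h2 : ∀ x v, MonotoneOn (fun s : ℝ => pullForm (metricOf Ω J) f (s • x) v v) (Ici 0)) :
    Setting m (pullForm Ω f) (pullEnd J f) := by
  have hsm : ContDiff ℝ ∞ (pullForm Ω f) := contDiff_pullForm hΩ.smooth f.contMDiff
  have hG : ContDiff ℝ ∞ (pullForm (metricOf Ω J) f) :=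
    contDiff_pullForm (isRiem_metricOf hΩ hJ).smooth f.contMDiff
  have hne : ∀ y v : Euc m, v ≠ 0 → flatD f y v ≠ 0 := by
    intro y v hv
    rw [← flatEquiv_apply]
    simpa using hv
  have hpos : ∀ x v : Euc m, v ≠ 0 → 0 < pullForm Ω f x v (pullEnd J f x v) := by
    intro x v hv
    rw [pullForm_pullEnd, pullForm_flat, flat_metricOf]
    exact hJ.pos (f x) (flatD f x v) (hne x v hv)
  have hnd : ∀ y v : Euc m, (∀ w, pullForm Ω f y v w = 0) → v = 0 := by
    intro y v hv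
    by_contra hne
    exact (hpos y v hne).ne' (hv _)
  refine ⟨hsm, ?_, ?_, ?_, ?_, ?_, hpos, ?_, ?_⟩
  · -- smoothness of J
    have hinv := contDiff_inverse_of_nondeg hsm hnd
    have h3 : pullEnd J f = fun y => -(((pullForm Ω f y).inverse).comp (pullForm (metricOf Ω J) f y)) := by
      funext y
      ext1 v
      have h4 : pullForm Ω f y (pullEnd J f y v) = - (pullForm (metricOf Ω J) f y v) := by
        ext1 u
        show pullForm Ω f y (pullEnd J f y v) u = - pullForm (metricOf Ω J) f y v u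
        rw [final_anti_flat (B := pullForm Ω f y) (fun w => hΩ.alt (f y) _), pullForm_pullEnd]
        rw [pullForm_flat, pullForm_flat]
        congr 1
        exact (isRiem_metricOf hΩ hJ).symm (f y) _ _
      have h5 := inverse_apply_of_nondeg (hnd y) (pullEnd J f y v)
      rw [h4, map_neg] at h5
      rw [← h5]
      rfl
    rw [h3]
    exact (hinv.clm_comp hG).neg
  · intro x v
    exact hΩ.alt (f x) _
  · intro x
    have hinj : Function.Injective (mfderiv 𝓘(ℝ, Euc m) 𝓘(ℝ, Euc m) f x) :=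
      (flatEquiv f x).injective
    obtain ⟨e, he, hxe, hef⟩ := exists_chart_of_injective f.contMDiff hinj
    have h3 : coordForm Ω e =ᶠ[𝓝 x] pullForm Ω f := by
      filter_upwards [e.open_target.mem_nhds hxe] with y hy
      exact coordForm_eq_pullForm hef hy
    exact (closedAt_congr h3).1 (hΩ.closed e he x hxe)
  · intro x v
    have h3 : flatD f x (pullEnd J f x (pullEnd J f x v)) = flatD f x (-v) := by
      rw [flatD_pullEnd, flatD_pullEnd, map_neg]
      exact hJ.sq (f x) _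
    rw [← flatEquiv_apply, ← flatEquiv_apply] at h3
    exact (flatEquiv f x).injective h3
  · intro x u v
    rw [pullForm_flat, pullForm_flat, flatD_pullEnd, flatD_pullEnd]
    exact hJ.inv (f x) _ _
  · intro x v
    rw [pullForm_pullEnd]
    exact h1 x v
  · intro x v
    simp only [pullForm_pullEnd]
    exact h2 x v

end

theorem symplectic_hadamard {n : ℕ} {M : Type*} [TopologicalSpace M] [T2Space M]
    [SecondCountableTopology M] [ChartedSpace (Euc (2 * n)) M] [IsManifold 𝓘(ℝ, Euc (2 * n)) ∞ M]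
    [SimplyConnectedSpace M] {Ω : FormField (2 * n) M} {J : EndField (2 * n) M}
    (hΩ : IsSymplectic Ω) (hJ : IsCompatible Ω J) (hc : IsGeodesicallyComplete (metricOf Ω J))
    (hK : NonposCurved (metricOf Ω J)) :
    ∃ φ : M ≃ₘ⟮𝓘(ℝ, Euc (2 * n)), 𝓘(ℝ, (Fin n → ℝ) × (Fin n → ℝ))⟯ ((Fin n → ℝ) × (Fin n → ℝ)),
      ∀ (x : M) (u v : TangentSpace 𝓘(ℝ, Euc (2 * n)) x),
        stdForm n (mfderiv 𝓘(ℝ, Euc (2 * n)) 𝓘(ℝ, (Fin n → ℝ) × (Fin n → ℝ)) φ x u)
          (mfderiv 𝓘(ℝ, Euc (2 * n)) 𝓘(ℝ, (Fin n → ℝ) × (Fin n → ℝ)) φ x v) = Ω x u v := by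
  obtain ⟨f, h1, h2⟩ := hadamard_coords (isRiem_metricOf hΩ hJ) hc hK
  have hS := setting_of_coords hΩ hJ f h1 h2
  obtain ⟨φ, ψ, hφ, hψ, hψφ, hφψ, hφΩ⟩ := hS.standard
  obtain ⟨L, hL⟩ := linear_darboux n (pullForm Ω f 0) (pullEnd J f 0) (hS.sq 0) (hS.inv 0) (hS.alt 0)
    (hS.pos 0)
  let Φ : Euc (2 * n) ≃ₘ⟮𝓘(ℝ, Euc (2 * n)), 𝓘(ℝ, Euc (2 * n))⟯ Euc (2 * n) :=
    { toFun := φ, invFun := ψ, left_inv := hψφ, right_inv := hφψ,
      contMDiff_toFun := hφ.contMDiff, contMDiff_invFun := hψ.contMDiff }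
  refine ⟨f.symm.trans (Φ.trans L.toDiffeomorph), ?_⟩
  intro x u v
  -- derivative of the composition
  have hd : ∀ w : Euc (2 * n), (mfderiv 𝓘(ℝ, Euc (2 * n)) 𝓘(ℝ, (Fin n → ℝ) × (Fin n → ℝ))
      (f.symm.trans (Φ.trans L.toDiffeomorph)) x : Euc (2 * n) →L[ℝ] (Fin n → ℝ) × (Fin n → ℝ)) w =
      L (fderiv ℝ φ (f.symm x) ((mfderiv 𝓘(ℝ, Euc (2 * n)) 𝓘(ℝ, Euc (2 * n)) f.symm x :
        Euc (2 * n) →L[ℝ] Euc (2 * n)) w)) := by
    intro w
    have hL1 : MDifferentiableAt 𝓘(ℝ, Euc (2 * n)) 𝓘(ℝ, (Fin n → ℝ) × (Fin n → ℝ))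
        (L : Euc (2 * n) → (Fin n → ℝ) × (Fin n → ℝ)) (φ (f.symm x)) :=
      L.differentiableAt.mdifferentiableAt
    have hφ1 : MDifferentiableAt 𝓘(ℝ, Euc (2 * n)) 𝓘(ℝ, Euc (2 * n)) φ (f.symm x) :=
      (hφ.differentiable (by simp)).differentiableAt.mdifferentiableAt
    have hf1 : MDifferentiableAt 𝓘(ℝ, Euc (2 * n)) 𝓘(ℝ, Euc (2 * n)) f.symm x :=
      f.symm.contMDiff.contMDiffAt.mdifferentiableAt (by simp)
    have hcomp1 : MDifferentiableAt 𝓘(ℝ, Euc (2 * n)) 𝓘(ℝ, Euc (2 * n)) (φ ∘ f.symm) x :=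
      hφ1.comp x hf1
    have e1 := mfderiv_comp x (g := (L : Euc (2 * n) → (Fin n → ℝ) × (Fin n → ℝ)))
      (f := φ ∘ f.symm) hL1 hcomp1
    have e2 := mfderiv_comp x (g := φ) (f := f.symm) hφ1 hf1
    have e3 : mfderiv 𝓘(ℝ, Euc (2 * n)) 𝓘(ℝ, (Fin n → ℝ) × (Fin n → ℝ))
        (L : Euc (2 * n) → (Fin n → ℝ) × (Fin n → ℝ)) (φ (f.symm x)) =
        (L : Euc (2 * n) →L[ℝ] (Fin n → ℝ) × (Fin n → ℝ)) := by
      rw [mfderiv_eq_fderiv]
      exact L.fderiv
    have e4 : mfderiv 𝓘(ℝ, Euc (2 * n)) 𝓘(ℝ, Euc (2 * n)) φ (f.symm x) = fderiv ℝ φ (f.symm x) :=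
      mfderiv_eq_fderiv
    have e5 := DFunLike.congr_fun e1 w
    have e6 := DFunLike.congr_fun e2 w
    refine e5.trans ?_
    show mfderiv 𝓘(ℝ, Euc (2 * n)) 𝓘(ℝ, (Fin n → ℝ) × (Fin n → ℝ))
        (L : Euc (2 * n) → (Fin n → ℝ) × (Fin n → ℝ)) (φ (f.symm x))
        (mfderiv 𝓘(ℝ, Euc (2 * n)) 𝓘(ℝ, Euc (2 * n)) (φ ∘ f.symm) x w) = _
    rw [e3]
    refine congrArg L (e6.trans ?_)
    show mfderiv 𝓘(ℝ, Euc (2 * n)) 𝓘(ℝ, Euc (2 * n)) φ (f.symm x)
        (mfderiv 𝓘(ℝ, Euc (2 * n)) 𝓘(ℝ, Euc (2 * n)) f.symm x w) = _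
    rw [e4]
    rfl
  -- derivative of `f ∘ f.symm`
  have hid : ∀ w : Euc (2 * n), flatD f (f.symm x) ((mfderiv 𝓘(ℝ, Euc (2 * n))
      𝓘(ℝ, Euc (2 * n)) f.symm x : Euc (2 * n) →L[ℝ] Euc (2 * n)) w) = w := by
    intro w
    have hf1 : MDifferentiableAt 𝓘(ℝ, Euc (2 * n)) 𝓘(ℝ, Euc (2 * n)) f.symm x :=
      f.symm.contMDiff.contMDiffAt.mdifferentiableAt (by simp)
    have hf2 : MDifferentiableAt 𝓘(ℝ, Euc (2 * n)) 𝓘(ℝ, Euc (2 * n)) f (f.symm x) :=
      f.contMDiff.contMDiffAt.mdifferentiableAt (by simp)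
    have e1 := mfderiv_comp x (g := f) (f := f.symm) hf2 hf1
    have e2 : (f ∘ f.symm : M → M) = id := by
      funext z
      exact f.apply_symm_apply z
    rw [e2, mfderiv_id] at e1
    exact (DFunLike.congr_fun e1 w).symm
  have key : ∀ U V : Euc (2 * n), flatD f (f.symm x) U = u → flatD f (f.symm x) V = v →
      stdForm n (L (fderiv ℝ φ (f.symm x) U)) (L (fderiv ℝ φ (f.symm x) V)) = flat Ω x u v := by
    intro U V hU hV
    rw [hL, hφΩ, pullForm_flat, hU, hV, f.apply_symm_apply]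
  have hk := key _ _ (hid u) (hid v)
  have hdu := hd u
  have hdv := hd v
  refine Eq.trans ?_ hk
  exact congrArg₂ (stdForm n) hdu hdv

end Pool.Agent.SH
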