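import Pool.Agent.Lib.MP_f72ae4_gt.Chr

/-! # M1a: geodesics in charts, uniqueness, affine reparametrisation -/

open scoped Manifold ContDiff Topology
open Set

noncomputable section

namespace Pool.Agent.SH


section Mfd
variable {m : ℕ} {M : Type*} [TopologicalSpace M] [ChartedSpace (Euc m) M]
  [IsManifold 𝓘(ℝ, Euc m) ∞ M]

/-- a smooth curve is smooth in every chart -/
theorem GeoUnique_contDiffAt {γ : ℝ → M} (hγ : ContMDiff 𝓘(ℝ, ℝ) 𝓘(ℝ, Euc m) ∞ γ)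
    {e : OpenPartialHomeomorph M (Euc m)} (he : e ∈ IsManifold.maximalAtlas 𝓘(ℝ, Euc m) ∞ M)
    {t : ℝ} (ht : γ t ∈ e.source) : ContDiffAt ℝ ∞ (e ∘ γ) t :=
  ((contMDiffAt_of_mem_maximalAtlas he ht).comp t (hγ t)).contDiffAt

theorem GeoUnique_contDiffAt_deriv {γ : ℝ → M} (hγ : ContMDiff 𝓘(ℝ, ℝ) 𝓘(ℝ, Euc m) ∞ γ)
    {e : OpenPartialHomeomorph M (Euc m)} (he : e ∈ IsManifold.maximalAtlas 𝓘(ℝ, Euc m) ∞ M)
    {t : ℝ} (ht : γ t ∈ e.source) : ContDiffAt ℝ ∞ (deriv (e ∘ γ)) t := by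
  have h := GeoUnique_contDiffAt hγ he ht
  have h2 : ContDiffAt ℝ ∞ (fderiv ℝ (e ∘ γ)) t := h.fderiv_right (m := ∞) (by simp)
  have h3 : deriv (e ∘ γ) = fun s => fderiv ℝ (e ∘ γ) s 1 := rfl
  rw [h3]
  exact h2.clm_apply contDiffAt_const

/-- In a chart, a geodesic is an integral curve of the spray. -/
theorem IsGeodesic.hasDerivAt_chart {g : FormField m M} {γ : ℝ → M} (hγ : IsGeodesic g γ)
    {e : OpenPartialHomeomorph M (Euc m)} (he : e ∈ IsManifold.maximalAtlas 𝓘(ℝ, Euc m) ∞ M)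
    {t : ℝ} (ht : γ t ∈ e.source) :
    HasDerivAt (fun s => ((e ∘ γ) s, deriv (e ∘ γ) s))
      (deriv (e ∘ γ) t, - christoffel (coordForm g e) (e (γ t)) (deriv (e ∘ γ) t) (deriv (e ∘ γ) t)) t := by
  have h1 : HasDerivAt (e ∘ γ) (deriv (e ∘ γ) t) t :=
    ((GeoUnique_contDiffAt hγ.1 he ht).differentiableAt (by simp)).hasDerivAt
  have h2 : HasDerivAt (deriv (e ∘ γ)) (deriv (deriv (e ∘ γ)) t) t :=
    ((GeoUnique_contDiffAt_deriv hγ.1 he ht).differentiableAt (by simp)).hasDerivAt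
  rw [hγ.2 e he t ht] at h2
  exact h1.prodMk h2

/-- velocity in a chart is the image of the tangent map -/
theorem GeoUnique_deriv_eq {γ : ℝ → M} (h1 : ContMDiff 𝓘(ℝ, ℝ) 𝓘(ℝ, Euc m) ∞ γ)
    {e : OpenPartialHomeomorph M (Euc m)} (he : e ∈ IsManifold.maximalAtlas 𝓘(ℝ, Euc m) ∞ M) {t : ℝ}
    (ht : γ t ∈ e.source) :
    deriv (e ∘ γ) t = (mfderiv 𝓘(ℝ, Euc m) 𝓘(ℝ, Euc m) e (γ t)
      (mfderiv 𝓘(ℝ, ℝ) 𝓘(ℝ, Euc m) γ t (1 : ℝ)) : Euc m) := by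
  have hd : MDifferentiableAt 𝓘(ℝ, Euc m) 𝓘(ℝ, Euc m) e (γ t) :=
    (contMDiffAt_of_mem_maximalAtlas he ht).mdifferentiableAt (by simp)
  have hd' : MDifferentiableAt 𝓘(ℝ, ℝ) 𝓘(ℝ, Euc m) γ t := (h1 t).mdifferentiableAt (by simp)
  have h3 := mfderiv_comp t hd hd'
  change (fderiv ℝ (e ∘ γ) t) 1 = _
  rw [← mfderiv_eq_fderiv, h3]
  rfl

/-- velocity in a chart, from the tangent map -/
theorem deriv_comp_eq_of_tangentMap_eq {γ₁ γ₂ : ℝ → M}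
    (h1 : ContMDiff 𝓘(ℝ, ℝ) 𝓘(ℝ, Euc m) ∞ γ₁) (h2 : ContMDiff 𝓘(ℝ, ℝ) 𝓘(ℝ, Euc m) ∞ γ₂)
    {e : OpenPartialHomeomorph M (Euc m)} (he : e ∈ IsManifold.maximalAtlas 𝓘(ℝ, Euc m) ∞ M) {t : ℝ}
    (ht : γ₁ t ∈ e.source)
    (h : tangentMap 𝓘(ℝ, ℝ) 𝓘(ℝ, Euc m) γ₁ ⟨t, (1 : ℝ)⟩ = tangentMap 𝓘(ℝ, ℝ) 𝓘(ℝ, Euc m) γ₂ ⟨t, (1 : ℝ)⟩) :
    γ₁ t = γ₂ t ∧ deriv (e ∘ γ₁) t = deriv (e ∘ γ₂) t := by
  have e1 : γ₁ t = γ₂ t := congrArg (fun p : TangentBundle 𝓘(ℝ, Euc m) M => p.proj) h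
  refine ⟨e1, ?_⟩
  rw [GeoUnique_deriv_eq h1 he ht, GeoUnique_deriv_eq h2 he (e1 ▸ ht)]
  exact congrArg (fun p : TangentBundle 𝓘(ℝ, Euc m) M =>
    (mfderiv 𝓘(ℝ, Euc m) 𝓘(ℝ, Euc m) e p.proj p.2 : Euc m)) h

/-- the derivative of the inverse chart is injective -/
theorem GeoUnique_chartD_injective {e : OpenPartialHomeomorph M (Euc m)}
    (he : e ∈ IsManifold.maximalAtlas 𝓘(ℝ, Euc m) ∞ M) {y : Euc m} (hy : y ∈ e.target) (v : Euc m)
    (hv : chartD e y v = 0) : v = 0 := by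
  have hd : MDifferentiableAt 𝓘(ℝ, Euc m) 𝓘(ℝ, Euc m) e (e.symm y) :=
    (contMDiffAt_of_mem_maximalAtlas he (e.map_target hy)).mdifferentiableAt (by simp)
  have hd' : MDifferentiableAt 𝓘(ℝ, Euc m) 𝓘(ℝ, Euc m) e.symm y :=
    (contMDiffAt_symm_of_mem_maximalAtlas he hy).mdifferentiableAt (by simp)
  have h3 := mfderiv_comp y hd hd'
  have h4 : mfderiv 𝓘(ℝ, Euc m) 𝓘(ℝ, Euc m) (e ∘ e.symm) y =
      mfderiv 𝓘(ℝ, Euc m) 𝓘(ℝ, Euc m) (id : Euc m → Euc m) y := by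
    apply Filter.EventuallyEq.mfderiv_eq
    filter_upwards [e.open_target.mem_nhds hy] with z hz
    exact e.right_inv hz
  have h5 := congrArg (fun A : Euc m →L[ℝ] Euc m => A v) (h4.symm.trans h3)
  have h6 : (mfderiv 𝓘(ℝ, Euc m) 𝓘(ℝ, Euc m) (id : Euc m → Euc m) y : Euc m →L[ℝ] Euc m) v = v := by
    rw [mfderiv_id]
    rfl
  rw [← h6]
  refine h5.trans ?_
  change (mfderiv 𝓘(ℝ, Euc m) 𝓘(ℝ, Euc m) e (e.symm y)) (chartD e y v) = 0
  rw [hv]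
  exact map_zero _

theorem GeoUnique_coordForm_pos {g : FormField m M} (hg : IsRiem g)
    {e : OpenPartialHomeomorph M (Euc m)} (he : e ∈ IsManifold.maximalAtlas 𝓘(ℝ, Euc m) ∞ M)
    {y : Euc m} (hy : y ∈ e.target) (v : Euc m) (hv : v ≠ 0) : 0 < coordForm g e y v v :=
  hg.pos (e.symm y) (chartD e y v) (fun h => hv (GeoUnique_chartD_injective he hy v h))

/-- local uniqueness of geodesics -/
theorem GeoUnique_local {g : FormField m M} (hg : IsRiem g) {γ₁ γ₂ : ℝ → M}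
    (h1 : IsGeodesic g γ₁) (h2 : IsGeodesic g γ₂) {e : OpenPartialHomeomorph M (Euc m)}
    (he : e ∈ IsManifold.maximalAtlas 𝓘(ℝ, Euc m) ∞ M) {t : ℝ} (ht : γ₁ t ∈ e.source)
    (h0 : γ₁ t = γ₂ t) (hd : deriv (e ∘ γ₁) t = deriv (e ∘ γ₂) t) : γ₁ =ᶠ[𝓝 t] γ₂ := by
  obtain ⟨Γ, hΓ, hΓe⟩ := exists_christoffelCLM e.open_target (hg.smooth e he)
    (fun y hy v hv => GeoUnique_coordForm_pos hg he hy v hv)
  set V : Euc m × Euc m → Euc m × Euc m := fun p => (p.2, -(Γ p.1 p.2 p.2)) with hV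
  have hyt : e (γ₁ t) ∈ e.target := e.map_source ht
  have hVc : ContDiffAt ℝ 1 V ((e ∘ γ₁) t, deriv (e ∘ γ₁) t) := by
    have hΓc : ContDiffAt ℝ ∞ Γ (e (γ₁ t)) := hΓ.contDiffAt (e.open_target.mem_nhds hyt)
    have hΓ' : ContDiffAt ℝ ∞ (fun p : Euc m × Euc m => Γ p.1) ((e ∘ γ₁) t, deriv (e ∘ γ₁) t) :=
      ContDiffAt.comp _ hΓc contDiffAt_fst
    have h3 : ContDiffAt ℝ ∞ (fun p : Euc m × Euc m => Γ p.1 p.2 p.2)
        ((e ∘ γ₁) t, deriv (e ∘ γ₁) t) :=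
      (hΓ'.clm_apply contDiffAt_snd).clm_apply contDiffAt_snd
    exact (contDiffAt_snd.prodMk h3.neg).of_le (by simp)
  obtain ⟨K, s, hs, hlip⟩ := hVc.exists_lipschitzOnWith
  have hcurve : ∀ {γ : ℝ → M}, IsGeodesic g γ → γ t = γ₁ t →
      deriv (e ∘ γ) t = deriv (e ∘ γ₁) t → ∀ᶠ τ in 𝓝 t,
      HasDerivAt (fun s => ((e ∘ γ) s, deriv (e ∘ γ) s)) (V ((e ∘ γ) τ, deriv (e ∘ γ) τ)) τ ∧
      ((e ∘ γ) τ, deriv (e ∘ γ) τ) ∈ s := by
    intro γ hγ hγt hγd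
    have hsrc : γ t ∈ e.source := by rw [hγt]; exact ht
    have hcont : ContinuousAt γ t := hγ.1.continuous.continuousAt
    have ev1 : ∀ᶠ τ in 𝓝 t, γ τ ∈ e.source := hcont.eventually_mem (e.open_source.mem_nhds hsrc)
    have ev2 : ∀ᶠ τ in 𝓝 t, ((e ∘ γ) τ, deriv (e ∘ γ) τ) ∈ s := by
      have hc : ContinuousAt (fun τ => ((e ∘ γ) τ, deriv (e ∘ γ) τ)) t :=
        (GeoUnique_contDiffAt hγ.1 he hsrc).continuousAt.prodMk
          (GeoUnique_contDiffAt_deriv hγ.1 he hsrc).continuousAt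
      apply hc.eventually_mem
      have : ((e ∘ γ) t, deriv (e ∘ γ) t) = ((e ∘ γ₁) t, deriv (e ∘ γ₁) t) := by
        rw [hγd, Function.comp_apply, hγt, Function.comp_apply]
      rw [this]
      exact hs
    filter_upwards [ev1, ev2] with τ h3 h4
    refine ⟨?_, h4⟩
    have h5 := hγ.hasDerivAt_chart he h3
    rw [← hΓe _ (e.map_source h3)] at h5
    exact h5
  have key := ODE_solution_unique_of_eventually (v := fun _ => V) (s := fun _ => s) (K := K)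
    (.of_forall fun _ => hlip) (hcurve h1 rfl rfl) (hcurve h2 h0.symm hd.symm)
    (by simp only [Function.comp_apply]; rw [h0, hd])
  have c1 : ∀ᶠ τ in 𝓝 t, γ₁ τ ∈ e.source :=
    h1.1.continuous.continuousAt.eventually_mem (e.open_source.mem_nhds ht)
  have c2 : ∀ᶠ τ in 𝓝 t, γ₂ τ ∈ e.source :=
    h2.1.continuous.continuousAt.eventually_mem (e.open_source.mem_nhds (h0 ▸ ht))
  filter_upwards [key, c1, c2] with τ h3 h4 h5
  have h6 : e (γ₁ τ) = e (γ₂ τ) := congrArg Prod.fst h3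
  exact e.injOn h4 h5 h6

theorem geodesic_unique [T2Space M] {g : FormField m M} (hg : IsRiem g) {γ₁ γ₂ : ℝ → M}
    (h1 : IsGeodesic g γ₁) (h2 : IsGeodesic g γ₂)
    (h : tangentMap 𝓘(ℝ, ℝ) 𝓘(ℝ, Euc m) γ₁ ⟨0, (1 : ℝ)⟩ = tangentMap 𝓘(ℝ, ℝ) 𝓘(ℝ, Euc m) γ₂ ⟨0, (1 : ℝ)⟩) :
    γ₁ = γ₂ := by
  have hchart : ∀ x : M, ∃ e ∈ IsManifold.maximalAtlas 𝓘(ℝ, Euc m) ∞ M, x ∈ e.source := fun x =>
    ⟨chartAt (Euc m) x, IsManifold.chart_mem_maximalAtlas x, mem_chart_source _ x⟩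
  set S : Set ℝ := {t | γ₁ =ᶠ[𝓝 t] γ₂} with hS
  have hopen : IsOpen S := by
    rw [isOpen_iff_mem_nhds]
    intro t ht
    exact eventually_eventually_nhds.2 ht
  have h0 : (0 : ℝ) ∈ S := by
    obtain ⟨e, he, hx⟩ := hchart (γ₁ 0)
    obtain ⟨e1, e2⟩ := deriv_comp_eq_of_tangentMap_eq h1.1 h2.1 he hx h
    exact GeoUnique_local hg h1 h2 he hx e1 e2
  have hclosed : IsClosed S := by
    rw [← closure_subset_iff_isClosed]
    intro t ht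
    have e1 : γ₁ t = γ₂ t := by
      have hcl : IsClosed {t | γ₁ t = γ₂ t} := isClosed_eq h1.1.continuous h2.1.continuous
      have hsub : S ⊆ {t | γ₁ t = γ₂ t} := fun τ hτ => hτ.self_of_nhds
      exact (closure_minimal hsub hcl) ht
    obtain ⟨e, he, hx⟩ := hchart (γ₁ t)
    refine GeoUnique_local hg h1 h2 he hx e1 ?_
    -- the derivatives agree on `S`, and are continuous at `t`
    have hc1 : ContinuousAt (deriv (e ∘ γ₁)) t :=
      (GeoUnique_contDiffAt_deriv h1.1 he hx).continuousAt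
    have hc2 : ContinuousAt (deriv (e ∘ γ₂)) t :=
      (GeoUnique_contDiffAt_deriv h2.1 he (e1 ▸ hx)).continuousAt
    have hne : (𝓝[S] t).NeBot := mem_closure_iff_nhdsWithin_neBot.1 ht
    refine tendsto_nhds_unique (f := deriv (e ∘ γ₁)) (l := 𝓝[S] t) (hc1.mono_left nhdsWithin_le_nhds) ?_
    refine (hc2.mono_left nhdsWithin_le_nhds).congr' ?_
    filter_upwards [self_mem_nhdsWithin] with τ hτ
    exact (Filter.EventuallyEq.deriv_eq (hτ.fun_comp e)).symm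
  have huniv : S = univ := IsClopen.eq_univ ⟨hclosed, hopen⟩ ⟨0, h0⟩
  funext t
  have : t ∈ S := by rw [huniv]; trivial
  exact this.self_of_nhds

theorem GeoUnique_christoffel_smul {E : Type*} [NormedAddCommGroup E] [NormedSpace ℝ E]
    (G : E → Form2 E) (y u : E) (a : ℝ) :
    christoffel G y (a • u) (a • u) = (a * a) • christoffel G y u u := by
  have h : christoffelLower G y (a • u) (a • u) = (a * a) • christoffelLower G y u u := by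
    ext w
    simp only [christoffelLower, smul_apply, add_apply,
      sub_apply, ContinuousLinearMap.flip_apply, map_smul, smul_eq_mul]
    ring
  unfold christoffel
  rw [h, map_smul]

/-- affine reparametrisation of geodesics -/
theorem IsGeodesic.comp_mul {g : FormField m M} {γ : ℝ → M} (hγ : IsGeodesic g γ) (a : ℝ) :
    IsGeodesic g (fun t => γ (a * t)) := by
  refine ⟨?_, fun e he t ht => ?_⟩
  · have hmul : ContMDiff 𝓘(ℝ, ℝ) 𝓘(ℝ, ℝ) ∞ (fun t : ℝ => a * t) :=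
      (contDiff_const.mul contDiff_id).contMDiff
    exact hγ.1.comp hmul
  · have h1 : deriv (e ∘ fun t => γ (a * t)) = fun t => a • deriv (e ∘ γ) (a * t) := by
      funext τ
      exact deriv_comp_mul_left a (e ∘ γ) τ
    have h2 : deriv (deriv (e ∘ fun t => γ (a * t))) t = a • (a • deriv (deriv (e ∘ γ)) (a * t)) := by
      rw [h1, deriv_fun_const_smul_field, deriv_comp_mul_left]
    rw [h2, h1, GeoUnique_christoffel_smul, hγ.2 e he (a * t) ht, smul_smul, smul_neg]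

end Mfd

end Pool.Agent.SH
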