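import Pool.Agent.Lib.MP_f72ae4_gt.Pub
import Pool.Agent.Lib.MP_f72ae4_gt.Final
import Pool.Agent.Lib.MP_f72ae4_gt.GeoUnique

/-! # From the statement-level definitions to the internal ones -/

open scoped Manifold ContDiff Topology
open Set

set_option maxSynthPendingDepth 3

noncomputable section

namespace Pool.Agent.SHP

abbrev Eu (m : ℕ) := EuclideanSpace ℝ (Fin m)

section Flat

variable {E : Type*} [NormedAddCommGroup E] [NormedSpace ℝ E] [FiniteDimensional ℝ E]

/-- bundling of a bilinear function -/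
def mkB (b : E → E → ℝ) (hb : Bilinear b) : SH.Form2 E :=
  LinearMap.toContinuousLinearMap
    { toFun := fun u => LinearMap.toContinuousLinearMap (IsLinearMap.mk' (b u) (hb.1 u))
      map_add' := fun u v => by
        ext w
        exact (hb.2 w).map_add u v
      map_smul' := fun c v => by
        ext w
        exact (hb.2 w).map_smul c v }

@[simp] theorem mkB_apply (b : E → E → ℝ) (hb : Bilinear b) (u v : E) : mkB b hb u v = b u v := rfl

def mkL (f : E → E) (hf : IsLinearMap ℝ f) : E →L[ℝ] E :=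
  LinearMap.toContinuousLinearMap (IsLinearMap.mk' f hf)

@[simp] theorem mkL_apply (f : E → E) (hf : IsLinearMap ℝ f) (u : E) : mkL f hf u = f u := rfl

omit [FiniteDimensional ℝ E] in
theorem partialD_eq {G : E → E → E → ℝ} {G' : E → SH.Form2 E} (h : ∀ y u v, G' y u v = G y u v) {y : E}
    (hd : DifferentiableAt ℝ G' y) (u v w : E) : partialD G y u v w = fderiv ℝ G' y u v w := by
  have h1 : (fun z => G z v w) = fun z => G' z v w := by
    funext z; exact (h z v w).symm
  unfold partialD
  rw [h1]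
  have h2 : HasFDerivAt G' (fderiv ℝ G' y) y := hd.hasFDerivAt
  have h3 := (h2.clm_apply (hasFDerivAt_const v y)).clm_apply (hasFDerivAt_const w y)
  rw [h3.fderiv]
  simp

theorem christoffel_eq {G : E → E → E → ℝ} {G' : E → SH.Form2 E} (h : ∀ y u v, G' y u v = G y u v) {y : E}
    (hd : DifferentiableAt ℝ G' y) (hpd : ∀ v, v ≠ 0 → 0 < G' y v v) (u v : E) :
    christoffel G y u v = SH.christoffel G' y u v := by
  have hl : ∀ w, christoffelLower G y u v w = SH.christoffelLower G' y u v w := by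
    intro w
    rw [SH.chr_lower_apply]
    unfold christoffelLower
    rw [partialD_eq h hd, partialD_eq h hd, partialD_eq h hd]
    ring
  have hex : ∃ a : E, ∀ w, G y a w = christoffelLower G y u v w :=
    ⟨SH.christoffel G' y u v, fun w => by rw [← h, SH.christoffel_spec hpd, hl]⟩
  have hs := Classical.epsilon_spec hex
  have : ∀ w, G' y (christoffel G y u v - SH.christoffel G' y u v) w = 0 := by
    intro w
    have h1 := hs w
    have h2 := SH.christoffel_spec (G := G') hpd u v w
    rw [hl w] at h1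
    rw [map_sub]
    have h3 : G' y (christoffel G y u v) w = SH.christoffelLower G' y u v w := by
      rw [h]; exact h1
    change G' y (christoffel G y u v) w - G' y (SH.christoffel G' y u v) w = 0
    rw [h3, h2, sub_self]
  by_contra hne
  have h4 := hpd _ (sub_ne_zero.2 hne)
  rw [this] at h4
  exact lt_irrefl _ h4

theorem riemann_eq {G : E → E → E → ℝ} {G' : E → SH.Form2 E} (h : ∀ y u v, G' y u v = G y u v) {U : Set E}
    (hU : IsOpen U) (hd : ∀ y ∈ U, DifferentiableAt ℝ G' y)
    (hpd : ∀ y ∈ U, ∀ v, v ≠ 0 → 0 < G' y v v) {y : E} (hy : y ∈ U) (u v w : E) :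
    riemann G y u v w = SH.riemann G' y u v w := by
  have key : ∀ a b : E, (fun z => christoffel G z a b) =ᶠ[𝓝 y] fun z => SH.christoffel G' z a b := by
    intro a b
    filter_upwards [hU.mem_nhds hy] with z hz
    exact christoffel_eq h (hd z hz) (hpd z hz) a b
  unfold riemann SH.riemann
  rw [(key v w).fderiv_eq, (key u w).fderiv_eq]
  simp only [christoffel_eq h (hd y hy) (hpd y hy)]

end Flat

section Mfd

variable {m : ℕ} {M : Type*} [TopologicalSpace M] [ChartedSpace (Eu m) M]

/-- bundling -/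
def bundleF (B : FormField (Eu m) M) (hB : ∀ x, Bilinear (B x)) : SH.FormField m M :=
  fun x => mkB (E := Eu m) (B x) (hB x)

def bundleE (J : EndField (Eu m) M) (hJ : ∀ x, IsLinearMap ℝ (J x)) : SH.EndField m M :=
  fun x => mkL (E := Eu m) (J x) (hJ x)

theorem coordForm_bundle (B : FormField (Eu m) M) (hB : ∀ x, Bilinear (B x))
    (e : OpenPartialHomeomorph M (Eu m)) (y u v : Eu m) :
    SH.coordForm (bundleF B hB) e y u v = coordForm B e y u v := rfl

theorem coordEnd_bundle (J : EndField (Eu m) M) (hJ : ∀ x, IsLinearMap ℝ (J x))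
    (e : OpenPartialHomeomorph M (Eu m)) (y u : Eu m) :
    SH.coordEnd (bundleE J hJ) e y u = coordEnd J e y u := rfl

theorem bundle_symplectic {Ω : FormField (Eu m) M} (hΩ : IsSymplectic Ω) :
    SH.IsSymplectic (bundleF Ω hΩ.bilin) := by
  have hs : ∀ e ∈ IsManifold.maximalAtlas 𝓘(ℝ, Eu m) ∞ M,
      ContDiffOn ℝ ∞ (SH.coordForm (bundleF Ω hΩ.bilin) e) e.target := by
    intro e he
    rw [contDiffOn_clm_apply]
    intro u
    rw [contDiffOn_clm_apply]
    intro v
    exact hΩ.smooth e he u v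
  refine ⟨fun x v => hΩ.alt x v, fun x v h => hΩ.nondeg x v h, hs, ?_⟩
  intro e he y hy u v w
  have hd : DifferentiableAt ℝ (SH.coordForm (bundleF Ω hΩ.bilin) e) y :=
    ((hs e he).contDiffAt (e.open_target.mem_nhds hy)).differentiableAt (by simp)
  have := hΩ.closed e he y hy u v w
  rw [partialD_eq (coordForm_bundle Ω hΩ.bilin e) hd, partialD_eq (coordForm_bundle Ω hΩ.bilin e) hd,
    partialD_eq (coordForm_bundle Ω hΩ.bilin e) hd] at this
  exact this

theorem bundle_compatible {Ω : FormField (Eu m) M} {J : EndField (Eu m) M} (hΩ : IsSymplectic Ω)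
    (hJ : IsCompatible Ω J) :
    SH.IsCompatible (bundleF Ω hΩ.bilin) (bundleE J hJ.lin) := by
  refine ⟨?_, fun x v => hJ.sq x v, fun x u v => hJ.inv x u v, fun x v hv => hJ.pos x v hv⟩
  intro e he
  rw [contDiffOn_clm_apply]
  intro u
  exact hJ.smooth e he u

theorem coordForm_metric {Ω : FormField (Eu m) M} {J : EndField (Eu m) M} (hΩ : IsSymplectic Ω)
    (hJ : IsCompatible Ω J) (e : OpenPartialHomeomorph M (Eu m)) (y u v : Eu m) :
    SH.coordForm (SH.metricOf (bundleF Ω hΩ.bilin) (bundleE J hJ.lin)) e y u v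
      = coordForm (metricOf Ω J) e y u v := rfl

variable [IsManifold 𝓘(ℝ, Eu m) ∞ M]

theorem bridge {Ω : FormField (Eu m) M} {J : EndField (Eu m) M} (hΩ : IsSymplectic Ω)
    (hJ : IsCompatible Ω J) (hc : IsGeodesicallyComplete (metricOf Ω J))
    (hK : NonposCurved (metricOf Ω J)) :
    SH.IsGeodesicallyComplete (SH.metricOf (bundleF Ω hΩ.bilin) (bundleE J hJ.lin)) ∧
    SH.NonposCurved (SH.metricOf (bundleF Ω hΩ.bilin) (bundleE J hJ.lin)) := by
  have hR := SH.isRiem_metricOf (bundle_symplectic hΩ) (bundle_compatible hΩ hJ)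
  have hd : ∀ e ∈ IsManifold.maximalAtlas 𝓘(ℝ, Eu m) ∞ M, ∀ y ∈ e.target, DifferentiableAt ℝ
      (SH.coordForm (SH.metricOf (bundleF Ω hΩ.bilin) (bundleE J hJ.lin)) e) y := fun e he y hy =>
    ((hR.smooth e he).contDiffAt (e.open_target.mem_nhds hy)).differentiableAt (by simp)
  have hpd : ∀ e ∈ IsManifold.maximalAtlas 𝓘(ℝ, Eu m) ∞ M, ∀ y ∈ e.target, ∀ v, v ≠ 0 → 0 <
      SH.coordForm (SH.metricOf (bundleF Ω hΩ.bilin) (bundleE J hJ.lin)) e y v v :=
    fun e he y hy v hv => SH.GeoUnique_coordForm_pos hR he hy v hv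
  constructor
  · intro v
    obtain ⟨γ, hγ, hv⟩ := hc v
    refine ⟨γ, ⟨hγ.1, fun e he t ht => ?_⟩, hv⟩
    rw [hγ.2 e he t ht, christoffel_eq (coordForm_metric hΩ hJ e)
      (hd e he _ (e.map_source ht)) (hpd e he _ (e.map_source ht))]
  · intro e he y hy u v
    have := hK e he y hy u v
    rw [riemann_eq (coordForm_metric hΩ hJ e) e.open_target (hd e he) (hpd e he) hy] at this
    exact this

end Mfd

/-- the main theorem in terms of the statement-level definitions -/
theorem main {n : ℕ} {M : Type*} [TopologicalSpace M] [T2Space M]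
    [SecondCountableTopology M] [ChartedSpace (Eu (2 * n)) M]
    [IsManifold 𝓘(ℝ, Eu (2 * n)) ∞ M] [SimplyConnectedSpace M]
    {Ω : FormField (Eu (2 * n)) M} {J : EndField (Eu (2 * n)) M}
    (hΩ : IsSymplectic Ω) (hJ : IsCompatible Ω J) (hc : IsGeodesicallyComplete (metricOf Ω J))
    (hK : NonposCurved (metricOf Ω J)) :
    Symplectomorphic Ω (stdForm n) := by
  obtain ⟨h1, h2⟩ := bridge hΩ hJ hc hK
  obtain ⟨φ, hφ⟩ := SH.symplectic_hadamard (bundle_symplectic hΩ) (bundle_compatible hΩ hJ) h1 h2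
  exact ⟨φ, fun x u v => hφ x u v⟩

end Pool.Agent.SHP
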