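import Pool.Agent.Lib.MP_f72ae4_gt.Pull
import Pool.Agent.Lib.MP_f72ae4_gt.Chr

/-! # M3: the pulled back metric satisfies the hypotheses of the Hadamard core -/

open scoped Manifold ContDiff Topology
open Set

noncomputable section

namespace Pool.Agent.SH


section Mfd
variable {m : ℕ} {M : Type*} [TopologicalSpace M] [ChartedSpace (Euc m) M]
  [IsManifold 𝓘(ℝ, Euc m) ∞ M]

theorem core_hyps {g : FormField m M} (hg : IsRiem g) (hK : NonposCurved g) {f : Euc m → M}
    (hf : ContMDiff 𝓘(ℝ, Euc m) 𝓘(ℝ, Euc m) ∞ f) (hgeo : ∀ v, IsGeodesic g (fun t : ℝ => f (t • v)))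
    (y : Euc m) (hpd : ∀ v, v ≠ 0 → 0 < pullForm g f y v v) :
    christoffel (pullForm g f) y y y = 0 ∧ ∀ u v, sectionalNumerator (pullForm g f) y u v ≤ 0 := by
  have hinj : Function.Injective (mfderiv 𝓘(ℝ, Euc m) 𝓘(ℝ, Euc m) f y) := by
    rw [injective_iff_map_eq_zero]
    intro v hv
    by_contra hne
    have h1 := hpd v hne
    have h2 : pullForm g f y v v = 0 := by
      show (g (f y)) (mfderiv 𝓘(ℝ, Euc m) 𝓘(ℝ, Euc m) f y v)
        (mfderiv 𝓘(ℝ, Euc m) 𝓘(ℝ, Euc m) f y v) = 0
      rw [hv]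
      simp
    rw [h2] at h1
    exact lt_irrefl _ h1
  obtain ⟨e, he, hy, hef⟩ := exists_chart_of_injective hf hinj
  have hev : coordForm g e =ᶠ[𝓝 y] pullForm g f := by
    filter_upwards [e.open_target.mem_nhds hy] with z hz
    exact coordForm_eq_pullForm hef hz
  refine ⟨?_, fun u v => ?_⟩
  · rw [← christoffel_congr hev]
    have hsrc : (fun t : ℝ => f (t • y)) 1 ∈ e.source := by
      show f ((1 : ℝ) • y) ∈ e.source
      rw [one_smul, ← hef y hy]
      exact e.map_target hy
    have h3 := (hgeo y).2 e he 1 hsrc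
    have hlin : (e ∘ fun t : ℝ => f (t • y)) =ᶠ[𝓝 (1 : ℝ)] fun t : ℝ => t • y := by
      have hc : Continuous fun t : ℝ => t • y := by fun_prop
      have hmem : (fun t : ℝ => t • y) ⁻¹' e.target ∈ 𝓝 (1 : ℝ) := by
        apply hc.continuousAt.preimage_mem_nhds
        show e.target ∈ 𝓝 ((1 : ℝ) • y)
        rw [one_smul]
        exact e.open_target.mem_nhds hy
      filter_upwards [hmem] with t ht
      show e (f (t • y)) = t • y
      rw [← hef _ ht, e.right_inv ht]
    have hd : deriv (e ∘ fun t : ℝ => f (t • y)) =ᶠ[𝓝 (1 : ℝ)] fun _ => y := by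
      have h5 := hlin.deriv
      refine h5.trans (Filter.Eventually.of_forall fun t => ?_)
      have : HasDerivAt (fun t : ℝ => t • y) ((1 : ℝ) • y) t := (hasDerivAt_id t).smul_const y
      rw [this.deriv, one_smul]
    have hd1 : deriv (e ∘ fun t : ℝ => f (t • y)) 1 = y := hd.eq_of_nhds
    have hdd : deriv (deriv (e ∘ fun t : ℝ => f (t • y))) 1 = 0 := by
      rw [hd.deriv_eq]
      exact deriv_const 1 y
    have hpt : e ((fun t : ℝ => f (t • y)) 1) = y := by
      have := hlin.eq_of_nhds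
      simpa using this
    rw [hdd, hd1, hpt] at h3
    exact neg_eq_zero.mp h3.symm
  · rw [← sectionalNumerator_congr hev]
    exact hK e he y hy u v

end Mfd

end Pool.Agent.SH
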