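import Pool.Agent.Lib.MP_f72ae4_gt.Base

/-! # M4b: local sections through all points and simple connectivity give a bijection -/

open scoped Manifold ContDiff Topology
open Set

noncomputable section

namespace Pool.Agent.SH

theorem cover_surjective {E M : Type*} [TopologicalSpace E] [Nonempty E] [TopologicalSpace M]
    [ConnectedSpace M] {f : E → M} (hf : IsLocalHomeomorph f)
    (hsec : ∀ q : M, ∃ B : Set M, IsOpen B ∧ q ∈ B ∧ ∀ z : E, f z ∈ B →
      ∃ σ : M → E, ContinuousOn σ B ∧ (∀ b ∈ B, f (σ b) = b) ∧ σ (f z) = z) :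
    Function.Surjective f := by
  have h1 : IsOpen (range f) := hf.isOpenMap.isOpen_range
  have h2 : IsClosed (range f) := by
    rw [← isOpen_compl_iff, isOpen_iff_mem_nhds]
    intro q hq
    obtain ⟨B, hB, hqB, hs⟩ := hsec q
    refine Filter.mem_of_superset (hB.mem_nhds hqB) ?_
    rintro b hb ⟨z, rfl⟩
    obtain ⟨σ, -, hσ, -⟩ := hs z hb
    exact hq ⟨σ q, hσ q hqB⟩
  have h3 : IsClopen (range f) := ⟨h2, h1⟩
  rcases isClopen_iff.mp h3 with h | h
  · exact absurd h (range_nonempty f).ne_empty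
  · exact range_eq_univ.mp h

theorem cover_isCoveringMap {E M : Type*} [TopologicalSpace E] [T2Space E] [Nonempty E]
    [TopologicalSpace M] [ConnectedSpace M] [LocallyConnectedSpace M] {f : E → M}
    (hf : IsLocalHomeomorph f)
    (hsec : ∀ q : M, ∃ B : Set M, IsOpen B ∧ q ∈ B ∧ ∀ z : E, f z ∈ B →
      ∃ σ : M → E, ContinuousOn σ B ∧ (∀ b ∈ B, f (σ b) = b) ∧ σ (f z) = z) :
    IsCoveringMap f := by
  intro q
  obtain ⟨B, hB, hqB, hs⟩ := hsec q
  have hsurj := cover_surjective hf hsec
  set V : Set M := connectedComponentIn B q with hV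
  have hVo : IsOpen V := hB.connectedComponentIn
  have hVB : V ⊆ B := connectedComponentIn_subset B q
  have hqV : q ∈ V := mem_connectedComponentIn hqB
  have hVc : IsPreconnected V := isPreconnected_connectedComponentIn
  have hex : ∀ z : f ⁻¹' {q}, ∃ σ : M → E, ContinuousOn σ B ∧ (∀ b ∈ B, f (σ b) = b) ∧ σ q = z := by
    rintro ⟨z, hz⟩
    have hz' : f z = q := hz
    obtain ⟨σ, h1, h2, h3⟩ := hs z (by rw [hz']; exact hqB)
    exact ⟨σ, h1, h2, (congrArg σ hz').symm.trans h3⟩
  choose σ hσc hσ hσq using hex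
  have hcomp : ∀ (s t : M → E), ContinuousOn s V → ContinuousOn t V → (∀ b ∈ V, f (s b) = b) →
      (∀ b ∈ V, f (t b) = b) → (∃ b ∈ V, s b = t b) → EqOn s t V := by
    rintro s t hsc htc hs' ht' ⟨b, hb, hst⟩
    exact (T2Space.isSeparatedMap f).eqOn_of_comp_eqOn hf.isLocallyInjective hVc hsc htc
      (fun a ha => by simp [Function.comp, hs' a ha, ht' a ha]) hb hst
  let _i : TopologicalSpace (f ⁻¹' {q}) := ⊥
  have _i2 : DiscreteTopology (f ⁻¹' {q}) := ⟨rfl⟩
  have _i3 : Nonempty (f ⁻¹' {q}) := ⟨⟨(hsurj q).choose, (hsurj q).choose_spec⟩⟩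
  have hUo : ∀ i, IsOpen (σ i '' V) := by
    intro i
    have hc : Continuous (fun b : V => σ i b) :=
      ((hσc i).mono hVB).comp_continuous continuous_subtype_val (fun b => b.2)
    have hval : IsLocalHomeomorph (f ∘ (fun b : V => σ i b)) := by
      have : (f ∘ (fun b : V => σ i b)) = (Subtype.val : V → M) := by
        funext b; exact hσ i b (hVB b.2)
      rw [this]
      exact (hVo.isOpenEmbedding_subtypeVal).isLocalHomeomorph
    have hl := IsLocalHomeomorph.of_comp hval hf hc
    have := hl.isOpenMap.isOpen_range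
    rwa [show range (fun b : V => σ i b) = σ i '' V by
      ext e; constructor
      · rintro ⟨b, rfl⟩; exact ⟨b, b.2, rfl⟩
      · rintro ⟨b, hb, rfl⟩; exact ⟨⟨b, hb⟩, rfl⟩] at this
  let t : Bundle.Trivialization (f ⁻¹' {q}) f := by
    have _i4 : Nonempty (M → E) := ⟨fun _ => Classical.arbitrary E⟩
    refine IsOpen.trivializationDiscrete (fun i : f ⁻¹' {q} => σ i '' V) V hVo ?_ ?_ ?_ ?_ ?_
    · intro i W hW
      constructor
      · intro hWo
        exact (hf.continuous.isOpen_preimage W hWo).inter (hUo i)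
      · intro h
        have := hf.isOpenMap _ h
        convert this using 1
        ext b
        constructor
        · intro hb
          have hfb := hσ i b (hVB (hW hb))
          refine ⟨σ i b, ⟨?_, b, hW hb, rfl⟩, hfb⟩
          change f (σ i b) ∈ W
          rw [hfb]; exact hb
        · rintro ⟨e, ⟨he, -⟩, rfl⟩; exact he
    · rintro i _ ⟨b, hb, rfl⟩ _ ⟨b', hb', rfl⟩ h
      rw [hσ i b (hVB hb), hσ i b' (hVB hb')] at h
      rw [h]
    · intro i b hb
      exact ⟨σ i b, ⟨b, hb, rfl⟩, hσ i b (hVB hb)⟩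
    · intro i j hij
      rw [Function.onFun, Set.disjoint_left]
      rintro _ ⟨b, hb, rfl⟩ ⟨b', hb', h⟩
      have hbb : b' = b := by
        have := congrArg f h
        rwa [hσ j b' (hVB hb'), hσ i b (hVB hb)] at this
      subst hbb
      apply hij
      have := hcomp (σ i) (σ j) ((hσc i).mono hVB) ((hσc j).mono hVB) (fun a ha => hσ i a (hVB ha))
        (fun a ha => hσ j a (hVB ha)) ⟨b', hb', h.symm⟩ hqV
      rw [hσq, hσq] at this
      exact Subtype.ext this
    · intro e he
      have he' : f e ∈ V := he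
      obtain ⟨s, hsc, hs1, hs2⟩ := hs e (hVB he')
      have hz : s q ∈ f ⁻¹' {q} := hs1 q hqB
      have := hcomp (σ ⟨s q, hz⟩) s ((hσc _).mono hVB) (hsc.mono hVB)
        (fun a ha => hσ _ a (hVB ha)) (fun a ha => hs1 a (hVB ha)) ⟨q, hqV, by rw [hσq]⟩ he'
      rw [mem_iUnion]
      refine ⟨⟨s q, hz⟩, f e, he', ?_⟩
      rw [this, hs2]
  have hcov : @IsEvenlyCovered E M _ _ f q (f ⁻¹' {q}) ⊥ :=
    IsEvenlyCovered.of_trivialization (t := t) (x := q) hqV
  exact hcov.to_isEvenlyCovered_preimage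

theorem bijective_of_local_sections {m : ℕ} {M : Type*} [TopologicalSpace M] [T2Space M]
    [SimplyConnectedSpace M] {f : Euc m → M} (hf : IsLocalHomeomorph f)
    (hsec : ∀ q : M, ∃ B : Set M, IsOpen B ∧ q ∈ B ∧ ∀ z : Euc m, f z ∈ B →
      ∃ σ : M → Euc m, ContinuousOn σ B ∧ (∀ b ∈ B, f (σ b) = b) ∧ σ (f z) = z) :
    Function.Bijective f := by
  have hsurj := cover_surjective hf hsec
  have hq : Topology.IsQuotientMap f := hf.isOpenMap.isQuotientMap hf.continuous hsurj
  have _i : LocallyPathConnectedSpace M := hq.locallyPathConnectedSpace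
  have hcov := cover_isCoveringMap hf hsec
  refine ⟨?_, hsurj⟩
  obtain ⟨F, ⟨hF0, hF⟩, -⟩ := hcov.existsUnique_continuousMap_lifts (ContinuousMap.id M) (f 0) 0 rfl
  have h2 : (F : M → Euc m) ∘ f = id := by
    refine hcov.eq_of_comp_eq (F.continuous.comp hf.continuous) continuous_id ?_ 0 hF0
    funext z
    have := congrFun hF (f z)
    simpa using this
  intro a b hab
  have h3 := congrFun h2 a
  have h4 := congrFun h2 b
  simp only [Function.comp, id] at h3 h4
  rw [← h3, ← h4, hab]

end Pool.Agent.SH
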