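import Mathlib

/-!
# Definitions for MP_f72ae4_gt (symplectic Hadamard question)

Classical (chart-wise) definitions: a tensor field on a manifold `M` modelled on `Euc m = ℝ^m` is a
family of multilinear maps on the tangent spaces; smoothness, closedness, Christoffel symbols and
curvature are read off in EVERY chart of the maximal smooth atlas.
-/

open scoped Manifold ContDiff
open Set

noncomputable section

namespace Pool.Agent.SH

/-- Euclidean space of dimension `m`. -/
abbrev Euc (m : ℕ) := EuclideanSpace ℝ (Fin m)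

/-- Bilinear forms on a normed space. -/
abbrev Form2 (E : Type*) [NormedAddCommGroup E] [NormedSpace ℝ E] := E →L[ℝ] E →L[ℝ] ℝ

section Flat

variable {E : Type*} [NormedAddCommGroup E] [NormedSpace ℝ E]

/-- A field of bilinear forms on (an open subset of) a vector space is closed at `y` (as a two-form):
`∂_u Ω(v,w) + ∂_v Ω(w,u) + ∂_w Ω(u,v) = 0`. -/
def ClosedAt (Ω : E → Form2 E) (y : E) : Prop :=
  ∀ u v w : E, fderiv ℝ Ω y u v w + fderiv ℝ Ω y v w u + fderiv ℝ Ω y w u v = 0

/-- Christoffel symbols of the first kind: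
`w ↦ ½ (∂_u G(v,w) + ∂_v G(u,w) - ∂_w G(u,v))`. -/
def christoffelLower (G : E → Form2 E) (y u v : E) : E →L[ℝ] ℝ :=
  (1 / 2 : ℝ) • (fderiv ℝ G y u v + fderiv ℝ G y v u - ((fderiv ℝ G y).flip u).flip v)

/-- Christoffel symbols of the second kind: the vector `Γ(u,v)` with
`G(Γ(u,v), w) = ½ (∂_u G(v,w) + ∂_v G(u,w) - ∂_w G(u,v))` for all `w` (for a nondegenerate symmetric `G`). -/
def christoffel (G : E → Form2 E) (y u v : E) : E :=
  (G y).inverse (christoffelLower G y u v)

/-- Riemann curvature in coordinates: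
`R(u,v)w = (∂_u Γ)(v,w) - (∂_v Γ)(u,w) + Γ(u,Γ(v,w)) - Γ(v,Γ(u,w))`. -/
def riemann (G : E → Form2 E) (y u v w : E) : E :=
  fderiv ℝ (fun z => christoffel G z v w) y u - fderiv ℝ (fun z => christoffel G z u w) y v
    + christoffel G y u (christoffel G y v w) - christoffel G y v (christoffel G y u w)

/-- Numerator `G(R(u,v)v,u)` of the sectional curvature of the plane spanned by `u,v`
(the denominator `G(u,u)G(v,v) - G(u,v)^2` is positive). -/
def sectionalNumerator (G : E → Form2 E) (y u v : E) : ℝ :=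
  G y (riemann G y u v v) u

end Flat

/-- The standard symplectic form `∑ dx_i ∧ dy_i` on `ℝ^n × ℝ^n`. -/
def stdForm (n : ℕ) (a b : (Fin n → ℝ) × (Fin n → ℝ)) : ℝ :=
  ∑ i, (a.1 i * b.2 i - b.1 i * a.2 i)

section Manifold

variable {m : ℕ} {M : Type*} [TopologicalSpace M] [ChartedSpace (Euc m) M]

/-- A field of bilinear forms on the tangent spaces of `M`. -/
abbrev FormField (m : ℕ) (M : Type*) [TopologicalSpace M] [ChartedSpace (Euc m) M] :=
  (x : M) → TangentSpace 𝓘(ℝ, Euc m) x →L[ℝ] TangentSpace 𝓘(ℝ, Euc m) x →L[ℝ] ℝ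

/-- A field of endomorphisms of the tangent spaces of `M`. -/
abbrev EndField (m : ℕ) (M : Type*) [TopologicalSpace M] [ChartedSpace (Euc m) M] :=
  (x : M) → TangentSpace 𝓘(ℝ, Euc m) x →L[ℝ] TangentSpace 𝓘(ℝ, Euc m) x

/-- The derivative of the inverse of the chart `e` at the point `y` of its target. -/
def chartD (e : OpenPartialHomeomorph M (Euc m)) (y : Euc m) :
    Euc m →L[ℝ] TangentSpace 𝓘(ℝ, Euc m) (e.symm y) :=
  mfderiv 𝓘(ℝ, Euc m) 𝓘(ℝ, Euc m) e.symm y

/-- Coordinate expression of a field of bilinear forms in the chart `e`: its pull-back under `e⁻¹`. -/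
def coordForm (B : FormField m M) (e : OpenPartialHomeomorph M (Euc m)) (y : Euc m) : Form2 (Euc m) :=
  ContinuousLinearMap.bilinearComp (E := Euc m) (F := Euc m) (E' := Euc m) (F' := Euc m)
    (B (e.symm y)) (chartD e y) (chartD e y)

/-- Coordinate expression of a field of endomorphisms in the chart `e`. -/
def coordEnd (J : EndField m M) (e : OpenPartialHomeomorph M (Euc m)) (y : Euc m) :
    Euc m →L[ℝ] Euc m :=
  (mfderiv 𝓘(ℝ, Euc m) 𝓘(ℝ, Euc m) e (e.symm y)).comp ((J (e.symm y)).comp (chartD e y))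

/-- `Ω` is a symplectic form: alternating, nondegenerate, smooth and closed (in all smooth charts). -/
structure IsSymplectic (Ω : FormField m M) : Prop where
  alt : ∀ x v, Ω x v v = 0
  nondeg : ∀ x v, (∀ w, Ω x v w = 0) → v = 0
  smooth : ∀ e ∈ IsManifold.maximalAtlas 𝓘(ℝ, Euc m) ∞ M, ContDiffOn ℝ ∞ (coordForm Ω e) e.target
  closed : ∀ e ∈ IsManifold.maximalAtlas 𝓘(ℝ, Euc m) ∞ M, ∀ y ∈ e.target, ClosedAt (coordForm Ω e) y

/-- `J` is an `Ω`-compatible (smooth) almost complex structure. -/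
structure IsCompatible (Ω : FormField m M) (J : EndField m M) : Prop where
  smooth : ∀ e ∈ IsManifold.maximalAtlas 𝓘(ℝ, Euc m) ∞ M, ContDiffOn ℝ ∞ (coordEnd J e) e.target
  sq : ∀ x v, J x (J x v) = -v
  inv : ∀ x u v, Ω x (J x u) (J x v) = Ω x u v
  pos : ∀ x v, v ≠ 0 → 0 < Ω x v (J x v)

/-- The metric `g_J(u,v) = Ω(u,Jv)`. -/
def metricOf (Ω : FormField m M) (J : EndField m M) : FormField m M :=
  fun x => ContinuousLinearMap.bilinearComp (E := Euc m) (F := Euc m) (E' := Euc m) (F' := Euc m)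
    (Ω x) (ContinuousLinearMap.id ℝ _) (J x)

/-- Nonpositive sectional curvature (in all smooth charts). -/
def NonposCurved (g : FormField m M) : Prop :=
  ∀ e ∈ IsManifold.maximalAtlas 𝓘(ℝ, Euc m) ∞ M, ∀ y ∈ e.target, ∀ u v,
    sectionalNumerator (coordForm g e) y u v ≤ 0

/-- `γ` is a smooth curve satisfying the geodesic equation `c'' + Γ(c',c') = 0` in all smooth charts. -/
def IsGeodesic (g : FormField m M) (γ : ℝ → M) : Prop :=
  ContMDiff 𝓘(ℝ, ℝ) 𝓘(ℝ, Euc m) ∞ γ ∧
    ∀ e ∈ IsManifold.maximalAtlas 𝓘(ℝ, Euc m) ∞ M, ∀ t : ℝ, γ t ∈ e.source →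
      deriv (deriv (e ∘ γ)) t
        = - christoffel (coordForm g e) (e (γ t)) (deriv (e ∘ γ) t) (deriv (e ∘ γ) t)

/-- (Geodesic) completeness: for every tangent vector `v` there is a geodesic `γ : ℝ → M` defined on
the whole line with initial velocity `v`. -/
def IsGeodesicallyComplete (g : FormField m M) : Prop :=
  ∀ v : TangentBundle 𝓘(ℝ, Euc m) M, ∃ γ : ℝ → M, IsGeodesic g γ ∧
    tangentMap 𝓘(ℝ, ℝ) 𝓘(ℝ, Euc m) γ ⟨0, (1 : ℝ)⟩ = v

end Manifold

end Pool.Agent.SH
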