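import Pool.Agent.Lib.MP_f72ae4_gt.LocalFlow
import Pool.Agent.Lib.MP_f72ae4_gt.Chr
import Pool.Agent.Lib.MP_f72ae4_gt.GeoUnique

set_option autoImplicit false

/-! # M1b: smooth dependence of geodesics on the initial velocity (MP_f72ae4_gt) -/

open scoped Manifold ContDiff Topology
open Set

noncomputable section

namespace Pool.Agent.SH


section Mfd
variable {m : ℕ} {M : Type*} [TopologicalSpace M] [ChartedSpace (Euc m) M]
  [IsManifold 𝓘(ℝ, Euc m) ∞ M]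

theorem gs_mdiff {e : OpenPartialHomeomorph M (Euc m)}
    (he : e ∈ IsManifold.maximalAtlas 𝓘(ℝ, Euc m) ∞ M) :
    e.MDifferentiable 𝓘(ℝ, Euc m) 𝓘(ℝ, Euc m) :=
  ⟨(contMDiffOn_of_mem_maximalAtlas he).mdifferentiableOn (by simp),
    (contMDiffOn_symm_of_mem_maximalAtlas he).mdifferentiableOn (by simp)⟩

theorem gs_chartD_inj {e : OpenPartialHomeomorph M (Euc m)}
    (he : e ∈ IsManifold.maximalAtlas 𝓘(ℝ, Euc m) ∞ M) {y : Euc m} (hy : y ∈ e.target)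
    {v : Euc m} (hv : chartD e y v = 0) : v = 0 := by
  have h1 := (gs_mdiff he).comp_symm_deriv hy
  have h2 : mfderiv 𝓘(ℝ, Euc m) 𝓘(ℝ, Euc m) e (e.symm y)
      (mfderiv 𝓘(ℝ, Euc m) 𝓘(ℝ, Euc m) e.symm y v) = v := DFunLike.congr_fun h1 v
  have h3 : mfderiv 𝓘(ℝ, Euc m) 𝓘(ℝ, Euc m) e.symm y v = 0 := hv
  rw [h3, map_zero] at h2
  exact h2.symm

theorem gs_coord_pos {g : FormField m M} (hg : IsRiem g) {e : OpenPartialHomeomorph M (Euc m)}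
    (he : e ∈ IsManifold.maximalAtlas 𝓘(ℝ, Euc m) ∞ M) {y : Euc m} (hy : y ∈ e.target)
    {v : Euc m} (hv : v ≠ 0) : 0 < coordForm g e y v v :=
  hg.pos (e.symm y) (chartD e y v) fun h => hv (gs_chartD_inj he hy h)

/-- the geodesic spray in a chart -/
theorem gs_spray {g : FormField m M} (hg : IsRiem g) {e : OpenPartialHomeomorph M (Euc m)}
    (he : e ∈ IsManifold.maximalAtlas 𝓘(ℝ, Euc m) ∞ M) :
    ∃ V : Euc m × Euc m → Euc m × Euc m, ContDiffOn ℝ ∞ V (e.target ×ˢ univ) ∧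
      ∀ y ∈ e.target, ∀ w, V (y, w) = (w, - christoffel (coordForm g e) y w w) := by
  obtain ⟨Γ, h1, h2⟩ := exists_christoffelCLM e.open_target (hg.smooth e he)
    (fun y hy v hv => gs_coord_pos hg he hy hv)
  refine ⟨fun z => (z.2, - Γ z.1 z.2 z.2), ?_, fun y hy w => ?_⟩
  · have h3 : ContDiffOn ℝ ∞ (fun z : Euc m × Euc m => Γ z.1) (e.target ×ˢ univ) :=
      h1.comp contDiff_fst.contDiffOn fun z hz => hz.1
    have h4 : ContDiffOn ℝ ∞ (fun z : Euc m × Euc m => z.2) (e.target ×ˢ univ) :=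
      contDiff_snd.contDiffOn
    exact h4.prodMk ((h3.clm_apply h4).clm_apply h4).neg
  · simp only [h2 y hy]

/-- local comparison of a geodesic with an integral curve of the spray -/
theorem gs_compare [T2Space M] {g : FormField m M} {e : OpenPartialHomeomorph M (Euc m)}
    (he : e ∈ IsManifold.maximalAtlas 𝓘(ℝ, Euc m) ∞ M) {V : Euc m × Euc m → Euc m × Euc m}
    (hV : ContDiffOn ℝ ∞ V (e.target ×ˢ univ))
    (hV2 : ∀ y ∈ e.target, ∀ w, V (y, w) = (w, - christoffel (coordForm g e) y w w))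
    {a b : ℝ} {θ : ℝ → Euc m × Euc m} (hθ : ∀ t ∈ Ioo a b, (θ t).1 ∈ e.target)
    (hθ2 : ∀ t ∈ Ioo a b, HasDerivAt θ (V (θ t)) t) {γ : ℝ → M} (hγ : IsGeodesic g γ)
    {t₁ : ℝ} (ht₁ : t₁ ∈ Ioo a b) (hs : γ t₁ ∈ e.source)
    (hst : ((e ∘ γ) t₁, deriv (e ∘ γ) t₁) = θ t₁) :
    ∀ t ∈ Ioo a b, γ t ∈ e.source ∧ ((e ∘ γ) t, deriv (e ∘ γ) t) = θ t := by
  have hγc : Continuous γ := hγ.1.continuous
  have hstd : ∀ t, γ t ∈ e.source →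
      HasDerivAt (fun s => ((e ∘ γ) s, deriv (e ∘ γ) s)) (V ((e ∘ γ) t, deriv (e ∘ γ) t)) t := by
    intro t ht
    have h1 := hγ.hasDerivAt_chart he ht
    have h2 : V ((e ∘ γ) t, deriv (e ∘ γ) t) = _ := hV2 _ (e.map_source ht) _
    rw [h2]
    exact h1
  set u : Set ℝ := {t | t ∈ Ioo a b ∧ γ t ∈ e.source ∧ ((e ∘ γ) t, deriv (e ∘ γ) t) = θ t} with hu
  have hopen : IsOpen u := by
    rw [isOpen_iff_mem_nhds]
    rintro t ⟨ht1, ht2, ht3⟩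
    have e1 : ∀ᶠ s in 𝓝 t, s ∈ Ioo a b := isOpen_Ioo.mem_nhds ht1
    have e2 : ∀ᶠ s in 𝓝 t, γ s ∈ e.source :=
      hγc.continuousAt.preimage_mem_nhds (e.open_source.mem_nhds ht2)
    have hVat : ContDiffAt ℝ 1 V (θ t) :=
      (hV.contDiffAt ((e.open_target.prod isOpen_univ).mem_nhds ⟨hθ t ht1, mem_univ _⟩)).of_le
        (by simp)
    obtain ⟨K, S, hS, hLip⟩ := hVat.exists_lipschitzOnWith
    have c1 : ContinuousAt θ t := (hθ2 t ht1).continuousAt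
    have c2 : ContinuousAt (fun s => ((e ∘ γ) s, deriv (e ∘ γ) s)) t := (hstd t ht2).continuousAt
    have e3 : ∀ᶠ s in 𝓝 t, θ s ∈ S := c1.preimage_mem_nhds hS
    have e4 : ∀ᶠ s in 𝓝 t, ((e ∘ γ) s, deriv (e ∘ γ) s) ∈ S :=
      c2.preimage_mem_nhds (by rw [ht3]; exact hS)
    have h5 := ODE_solution_unique_of_eventually (v := fun _ => V) (s := fun _ => S) (K := K)
      (t₀ := t) (f := fun s => ((e ∘ γ) s, deriv (e ∘ γ) s)) (g := θ)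
      (Filter.Eventually.of_forall fun _ => hLip)
      (by filter_upwards [e2, e4] with s h6 h7 using ⟨hstd s h6, h7⟩)
      (by filter_upwards [e1, e3] with s h6 h7 using ⟨hθ2 s h6, h7⟩) ht3
    filter_upwards [e1, e2, h5] with s h6 h7 h8 using ⟨h6, h7, h8⟩
  have hclosed : closure u ∩ Ioo a b ⊆ u := by
    rintro t ⟨ht1, ht2⟩
    rw [mem_closure_iff_frequently] at ht1
    have c1 : ContinuousAt θ t := (hθ2 t ht2).continuousAt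
    have c3 : Filter.Tendsto (fun s => e.symm (θ s).1) (𝓝 t) (𝓝 (e.symm (θ t).1)) := by
      have h1 : ContinuousAt e.symm (θ t).1 := e.continuousAt_symm (hθ t ht2)
      exact h1.tendsto.comp (continuous_fst.continuousAt.comp c1)
    have h2 : ∃ᶠ s in 𝓝 t, γ s = e.symm (θ s).1 := by
      refine ht1.mono ?_
      rintro s ⟨h6, h7, h8⟩
      rw [← h8]
      exact (e.left_inv h7).symm
    have h3 : γ t = e.symm (θ t).1 :=
      tendsto_nhds_unique_of_frequently_eq hγc.continuousAt c3 h2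
    have h4 : γ t ∈ e.source := by
      rw [h3]
      exact e.map_target (hθ t ht2)
    have c2 : ContinuousAt (fun s => ((e ∘ γ) s, deriv (e ∘ γ) s)) t := (hstd t h4).continuousAt
    refine ⟨ht2, h4, ?_⟩
    exact tendsto_nhds_unique_of_frequently_eq c2 c1 (ht1.mono fun s hs => hs.2.2)
  have hsub : Ioo a b ⊆ u :=
    isPreconnected_Ioo.subset_of_closure_inter_subset hopen ⟨t₁, ht₁, ht₁, hs, hst⟩ hclosed
  exact fun t ht => (hsub ht).2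

/-- propagation of smoothness along a chart -/
theorem gs_extend [T2Space M] {g : FormField m M} (hg : IsRiem g) {γ : Euc m → ℝ → M}
    (hγ : ∀ v, IsGeodesic g (γ v)) (v₀ : Euc m) (T : ℝ) {e : OpenPartialHomeomorph M (Euc m)}
    (he : e ∈ IsManifold.maximalAtlas 𝓘(ℝ, Euc m) ∞ M) (hT : γ v₀ T ∈ e.source) :
    ∃ δ > 0, (∀ t ∈ Ioo (T - δ) (T + δ), γ v₀ t ∈ e.source) ∧ ∀ t₁ ∈ Ioo (T - δ) (T + δ),
      (∀ᶠ v in 𝓝 v₀, γ v t₁ ∈ e.source) →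
      ContDiffAt ℝ ∞ (fun v => ((e ∘ γ v) t₁, deriv (e ∘ γ v) t₁)) v₀ →
      ∀ t ∈ Ioo (T - δ) (T + δ),
        ContMDiffAt 𝓘(ℝ, ℝ × Euc m) 𝓘(ℝ, Euc m) ∞ (fun q : ℝ × Euc m => γ q.2 q.1) (t, v₀) := by
  obtain ⟨V, hV, hV2⟩ := gs_spray hg he
  obtain ⟨ε, hε, W, hW, hzW, Θ, hΘ, hΘ0, hΘ1⟩ := exists_local_smooth_flow
    (e.open_target.prod isOpen_univ) hV
    (z₀ := ((e ∘ γ v₀) T, deriv (e ∘ γ v₀) T)) ⟨e.map_source hT, mem_univ _⟩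
  have c1 : ContinuousAt (fun s => ((e ∘ γ v₀) s, deriv (e ∘ γ v₀) s)) T :=
    ((hγ v₀).hasDerivAt_chart he hT).continuousAt
  have e1 : ∀ᶠ s in 𝓝 T, γ v₀ s ∈ e.source :=
    (hγ v₀).1.continuous.continuousAt.preimage_mem_nhds (e.open_source.mem_nhds hT)
  have e2 : ∀ᶠ s in 𝓝 T, ((e ∘ γ v₀) s, deriv (e ∘ γ v₀) s) ∈ W :=
    c1.preimage_mem_nhds (hW.mem_nhds hzW)
  obtain ⟨δ₁, hδ₁, hball⟩ := Metric.eventually_nhds_iff_ball.1 (e1.and e2)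
  rw [Real.ball_eq_Ioo] at hball
  refine ⟨min δ₁ (ε / 2), lt_min hδ₁ (by linarith), ?_, ?_⟩
  · intro t ht
    have h1 := min_le_left δ₁ (ε / 2)
    exact (hball t ⟨by linarith [ht.1], by linarith [ht.2]⟩).1
  · intro t₁ ht₁ hsrc hst t ht
    have m1 := min_le_left δ₁ (ε / 2)
    have m2 := min_le_right δ₁ (ε / 2)
    have hc1 : ((e ∘ γ v₀) t₁, deriv (e ∘ γ v₀) t₁) ∈ W :=
      (hball t₁ ⟨by linarith [ht₁.1], by linarith [ht₁.2]⟩).2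
    have e3 : ∀ᶠ v in 𝓝 v₀, ((e ∘ γ v) t₁, deriv (e ∘ γ v) t₁) ∈ W :=
      hst.continuousAt.preimage_mem_nhds (hW.mem_nhds hc1)
    -- the formula
    have key : ∀ v, γ v t₁ ∈ e.source → ((e ∘ γ v) t₁, deriv (e ∘ γ v) t₁) ∈ W →
        ∀ τ ∈ Ioo (T - min δ₁ (ε / 2)) (T + min δ₁ (ε / 2)),
        γ v τ = e.symm (Θ (τ - t₁, ((e ∘ γ v) t₁, deriv (e ∘ γ v) t₁))).1 := by
      intro v hv1 hv2 τ hτ
      have hmem : ∀ s ∈ Ioo (t₁ - ε) (t₁ + ε), s - t₁ ∈ Ioo (-ε) ε := fun s hs =>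
        ⟨by linarith [hs.1], by linarith [hs.2]⟩
      have h1 := gs_compare he hV hV2 (a := t₁ - ε) (b := t₁ + ε)
        (θ := fun s => Θ (s - t₁, ((e ∘ γ v) t₁, deriv (e ∘ γ v) t₁)))
        (fun s hs => (hΘ1 _ hv2 _ (hmem s hs)).1.1)
        (fun s hs => by
          have h2 := (hΘ1 _ hv2 _ (hmem s hs)).2
          exact HasDerivAt.comp_sub_const s t₁ h2)
        (hγ v) (t₁ := t₁) ⟨by linarith, by linarith⟩ hv1
        (by simp only [sub_self]; exact (hΘ0 _ hv2).symm)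
      obtain ⟨h3, h4⟩ := h1 τ ⟨by linarith [hτ.1, ht₁.2], by linarith [hτ.2, ht₁.1]⟩
      rw [← h4]
      exact (e.left_inv h3).symm
    have hτt : t - t₁ ∈ Ioo (-ε) ε :=
      ⟨by linarith [ht.1, ht₁.2], by linarith [ht.2, ht₁.1]⟩
    have hev : (fun q : ℝ × Euc m => γ q.2 q.1) =ᶠ[𝓝 (t, v₀)]
        fun q => e.symm (Θ (q.1 - t₁, ((e ∘ γ q.2) t₁, deriv (e ∘ γ q.2) t₁))).1 := by
      have f1 : ∀ᶠ q : ℝ × Euc m in 𝓝 (t, v₀), q.1 ∈ Ioo (T - min δ₁ (ε / 2))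
          (T + min δ₁ (ε / 2)) :=
        continuous_fst.continuousAt.preimage_mem_nhds (isOpen_Ioo.mem_nhds ht)
      have f2 : ∀ᶠ q : ℝ × Euc m in 𝓝 (t, v₀), γ q.2 t₁ ∈ e.source ∧
          ((e ∘ γ q.2) t₁, deriv (e ∘ γ q.2) t₁) ∈ W :=
        (continuous_snd.tendsto (t, v₀)).eventually (hsrc.and e3)
      filter_upwards [f1, f2] with q h1 h2 using key q.2 h2.1 h2.2 q.1 h1
    refine ContMDiffAt.congr_of_eventuallyEq ?_ hev
    have g1 : ContDiffAt ℝ ∞ Θ (t - t₁, ((e ∘ γ v₀) t₁, deriv (e ∘ γ v₀) t₁)) :=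
      hΘ.contDiffAt ((isOpen_Ioo.prod hW).mem_nhds ⟨hτt, hc1⟩)
    have g2 : ContDiffAt ℝ ∞ (fun q : ℝ × Euc m => (q.1 - t₁,
        ((e ∘ γ q.2) t₁, deriv (e ∘ γ q.2) t₁))) (t, v₀) :=
      (contDiffAt_fst.sub contDiffAt_const).prodMk
        (ContDiffAt.comp (t, v₀) (g := fun v => ((e ∘ γ v) t₁, deriv (e ∘ γ v) t₁)) hst
          contDiffAt_snd)
    have g3 : ContDiffAt ℝ ∞ (fun q : ℝ × Euc m => (Θ (q.1 - t₁,
        ((e ∘ γ q.2) t₁, deriv (e ∘ γ q.2) t₁))).1) (t, v₀) :=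
      (ContDiffAt.comp (t, v₀) (g := Θ) g1 g2).fst
    have g4 : (Θ (t - t₁, ((e ∘ γ v₀) t₁, deriv (e ∘ γ v₀) t₁))).1 ∈ e.target :=
      (hΘ1 _ hc1 _ hτt).1.1
    have g5 : ContMDiffAt 𝓘(ℝ, Euc m) 𝓘(ℝ, Euc m) ∞ e.symm
        (Θ (t - t₁, ((e ∘ γ v₀) t₁, deriv (e ∘ γ v₀) t₁))).1 :=
      (contMDiffOn_symm_of_mem_maximalAtlas he).contMDiffAt (e.open_target.mem_nhds g4)
    exact ContMDiffAt.comp (t, v₀) g5 g3.contMDiffAt

/-- the state in a chart is smooth when the family is -/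
theorem gs_state_smooth {γ : Euc m → ℝ → M} {v₀ : Euc m} {t₁ : ℝ}
    {e : OpenPartialHomeomorph M (Euc m)} (he : e ∈ IsManifold.maximalAtlas 𝓘(ℝ, Euc m) ∞ M)
    (hs : γ v₀ t₁ ∈ e.source)
    (h : ContMDiffAt 𝓘(ℝ, ℝ × Euc m) 𝓘(ℝ, Euc m) ∞ (fun q : ℝ × Euc m => γ q.2 q.1) (t₁, v₀)) :
    (∀ᶠ v in 𝓝 v₀, γ v t₁ ∈ e.source) ∧
      ContDiffAt ℝ ∞ (fun v => ((e ∘ γ v) t₁, deriv (e ∘ γ v) t₁)) v₀ := by
  have hpair : ContinuousAt (fun v : Euc m => (t₁, v)) v₀ := by fun_prop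
  have hpairD : ContDiffAt ℝ ∞ (fun v : Euc m => (t₁, v)) v₀ :=
    contDiffAt_const.prodMk contDiffAt_id
  have e1 : ∀ᶠ q : ℝ × Euc m in 𝓝 (t₁, v₀), γ q.2 q.1 ∈ e.source :=
    h.continuousAt.preimage_mem_nhds (e.open_source.mem_nhds hs)
  refine ⟨hpair.tendsto.eventually e1, ?_⟩
  have h1 : ContMDiffAt 𝓘(ℝ, ℝ × Euc m) 𝓘(ℝ, Euc m) ∞ (fun q : ℝ × Euc m => e (γ q.2 q.1))
      (t₁, v₀) :=
    ContMDiffAt.comp (t₁, v₀) ((contMDiffOn_of_mem_maximalAtlas he).contMDiffAt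
      (e.open_source.mem_nhds hs)) h
  have h2 : ContDiffAt ℝ ∞ (fun q : ℝ × Euc m => e (γ q.2 q.1)) (t₁, v₀) := h1.contDiffAt
  have h3 : ContDiffAt ℝ ∞ (fderiv ℝ (fun q : ℝ × Euc m => e (γ q.2 q.1))) (t₁, v₀) :=
    h2.fderiv_right (by simp)
  have h4 : ∀ᶠ q in 𝓝 (t₁, v₀), DifferentiableAt ℝ (fun q : ℝ × Euc m => e (γ q.2 q.1)) q := by
    have h5 : ContDiffAt ℝ 1 (fun q : ℝ × Euc m => e (γ q.2 q.1)) (t₁, v₀) := h2.of_le (by simp)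
    filter_upwards [h5.eventually (by simp)] with q hq using hq.differentiableAt one_ne_zero
  have h6 : (fun v => deriv (e ∘ γ v) t₁) =ᶠ[𝓝 v₀]
      fun v => fderiv ℝ (fun q : ℝ × Euc m => e (γ q.2 q.1)) (t₁, v) (1, 0) := by
    filter_upwards [hpair.tendsto.eventually h4] with v hv
    have h7 : HasDerivAt (fun t : ℝ => (t, v)) ((1 : ℝ), (0 : Euc m)) t₁ :=
      (hasDerivAt_id t₁).prodMk (hasDerivAt_const t₁ v)
    have h8 := hv.hasFDerivAt.comp_hasDerivAt t₁ h7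
    exact h8.deriv
  have h9 : ContDiffAt ℝ ∞
      (fun v => fderiv ℝ (fun q : ℝ × Euc m => e (γ q.2 q.1)) (t₁, v) (1, 0)) v₀ :=
    (ContDiffAt.comp v₀ h3 hpairD).clm_apply contDiffAt_const
  exact (ContDiffAt.comp v₀ h2 hpairD).prodMk (h9.congr_of_eventuallyEq h6)

/-- velocity in a chart from the tangent map -/
theorem gs_deriv_eq {γ : ℝ → M} (hγ : ContMDiff 𝓘(ℝ, ℝ) 𝓘(ℝ, Euc m) ∞ γ)
    {e : OpenPartialHomeomorph M (Euc m)} (he : e ∈ IsManifold.maximalAtlas 𝓘(ℝ, Euc m) ∞ M)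
    {t : ℝ} (ht : γ t ∈ e.source) (w : TangentBundle 𝓘(ℝ, Euc m) M)
    (hw : tangentMap 𝓘(ℝ, ℝ) 𝓘(ℝ, Euc m) γ ⟨t, (1 : ℝ)⟩ = w) :
    deriv (e ∘ γ) t = mfderiv 𝓘(ℝ, Euc m) 𝓘(ℝ, Euc m) e w.1 w.2 := by
  rw [← hw]
  have h1 : MDifferentiableAt 𝓘(ℝ, Euc m) 𝓘(ℝ, Euc m) e (γ t) :=
    (gs_mdiff he).mdifferentiableAt ht
  have h2 : MDifferentiableAt 𝓘(ℝ, ℝ) 𝓘(ℝ, Euc m) γ t := (hγ t).mdifferentiableAt (by simp)
  have h3 := mfderiv_comp t h1 h2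
  rw [mfderiv_eq_fderiv] at h3
  rw [← fderiv_apply_one_eq_deriv, h3]
  rfl

theorem geodesic_family_smooth [T2Space M] {g : FormField m M} (hg : IsRiem g) {p : M}
    (L : Euc m →L[ℝ] TangentSpace 𝓘(ℝ, Euc m) p) {γ : Euc m → ℝ → M} (hγ : ∀ v, IsGeodesic g (γ v))
    (h0 : ∀ v, tangentMap 𝓘(ℝ, ℝ) 𝓘(ℝ, Euc m) (γ v) ⟨0, (1 : ℝ)⟩ = ⟨p, L v⟩) :
    ContMDiff 𝓘(ℝ, ℝ × Euc m) 𝓘(ℝ, Euc m) ∞ (fun q : ℝ × Euc m => γ q.2 q.1) := by
  rintro ⟨T₀, v₀⟩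
  have hp : ∀ v, γ v 0 = p := fun v => congrArg Bundle.TotalSpace.proj (h0 v)
  set S : Set ℝ := {t | ContMDiffAt 𝓘(ℝ, ℝ × Euc m) 𝓘(ℝ, Euc m) ∞
    (fun q : ℝ × Euc m => γ q.2 q.1) (t, v₀)} with hS
  have key : ∀ T : ℝ, ∃ δ > 0, ∀ t₁ ∈ Ioo (T - δ) (T + δ), t₁ ∈ S →
      ∀ t ∈ Ioo (T - δ) (T + δ), t ∈ S := by
    intro T
    have he := IsManifold.chart_mem_maximalAtlas (I := 𝓘(ℝ, Euc m)) (n := ∞) (γ v₀ T)
    obtain ⟨δ, hδ, h1, h2⟩ := gs_extend hg hγ v₀ T he (mem_chart_source _ _)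
    refine ⟨δ, hδ, fun t₁ ht₁ hS₁ t ht => ?_⟩
    obtain ⟨h3, h4⟩ := gs_state_smooth he (h1 t₁ ht₁) hS₁
    exact h2 t₁ ht₁ h3 h4 t ht
  have h0S : (0 : ℝ) ∈ S := by
    have he := IsManifold.chart_mem_maximalAtlas (I := 𝓘(ℝ, Euc m)) (n := ∞) p
    have hps : ∀ v, γ v 0 ∈ (chartAt (Euc m) p).source := fun v => by
      rw [hp v]
      exact mem_chart_source _ _
    obtain ⟨δ, hδ, h1, h2⟩ := gs_extend hg hγ v₀ 0 he (hps v₀)
    refine h2 0 ⟨by linarith, by linarith⟩ (Filter.Eventually.of_forall hps) ?_ 0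
      ⟨by linarith, by linarith⟩
    obtain ⟨A, hA⟩ : ∃ A : Euc m →L[ℝ] Euc m, ∀ v, A v =
        mfderiv 𝓘(ℝ, Euc m) 𝓘(ℝ, Euc m) (chartAt (Euc m) p) p (L v) :=
      ⟨ContinuousLinearMap.comp (mfderiv 𝓘(ℝ, Euc m) 𝓘(ℝ, Euc m) (chartAt (Euc m) p) p) L,
        fun v => rfl⟩
    have h3 : (fun v => ((chartAt (Euc m) p ∘ γ v) 0, deriv (chartAt (Euc m) p ∘ γ v) 0)) =
        fun v => (chartAt (Euc m) p p, A v) := by
      funext v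
      refine Prod.ext ?_ ?_
      · simp only [Function.comp_apply, hp v]
      · rw [hA]
        exact gs_deriv_eq (hγ v).1 he (hps v) _ (h0 v)
    rw [h3]
    exact contDiffAt_const.prodMk A.contDiff.contDiffAt
  have hclopen : IsClopen S := by
    constructor
    · rw [← closure_subset_iff_isClosed]
      intro T hT
      obtain ⟨δ, hδ, h1⟩ := key T
      obtain ⟨t₁, h2, h3⟩ := mem_closure_iff.1 hT (Ioo (T - δ) (T + δ)) isOpen_Ioo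
        ⟨by linarith, by linarith⟩
      exact h1 t₁ h2 h3 T ⟨by linarith, by linarith⟩
    · rw [isOpen_iff_mem_nhds]
      intro T hT
      obtain ⟨δ, hδ, h1⟩ := key T
      exact Filter.mem_of_superset (isOpen_Ioo.mem_nhds ⟨by linarith, by linarith⟩)
        (h1 T ⟨by linarith, by linarith⟩ hT)
  have huniv := hclopen.eq_univ ⟨0, h0S⟩
  have : T₀ ∈ S := by
    rw [huniv]
    exact mem_univ _
  exact this

end Mfd

end Pool.Agent.SH
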