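import Pool.Agent.Lib.MP_f72ae4_gt.GeoUnique
import Pool.Agent.Lib.MP_f72ae4_gt.GeoSmooth

/-! # MP_f72ae4_gt, piece M1c: the exponential map -/

open scoped Manifold ContDiff Topology
open Set

noncomputable section

namespace Pool.Agent.SH

section Mfd
variable {m : ℕ} {M : Type*} [TopologicalSpace M] [ChartedSpace (Euc m) M]
  [IsManifold 𝓘(ℝ, Euc m) ∞ M]


/-- equality in the tangent bundle of a vector space -/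
lemma exp_mk_eq {E : Type*} [NormedAddCommGroup E] [NormedSpace ℝ E] {x y : E} (h : x = y)
    {v w : E} (hv : v = w) :
    (⟨x, v⟩ : TangentBundle 𝓘(ℝ, E) E) = ⟨y, w⟩ := by
  subst h hv; rfl

/-- tangent map of a linear curve -/
lemma exp_tangentMap_line {E : Type*} [NormedAddCommGroup E] [NormedSpace ℝ E] (v : E) :
    tangentMap 𝓘(ℝ, ℝ) 𝓘(ℝ, E) (fun t : ℝ => t • v) ⟨0, (1 : ℝ)⟩ = ⟨0, v⟩ := by
  have h1 : mfderiv 𝓘(ℝ, ℝ) 𝓘(ℝ, E) (fun t : ℝ => t • v) 0 =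
      (ContinuousLinearMap.id ℝ ℝ).smulRight v := by
    rw [mfderiv_eq_fderiv]
    have : HasFDerivAt (fun t : ℝ => t • v) ((ContinuousLinearMap.id ℝ ℝ).smulRight v) 0 := by
      simpa using (hasFDerivAt_id (𝕜 := ℝ) (0 : ℝ)).smul_const v
    exact this.fderiv
  refine exp_mk_eq (by simp) ?_
  show (mfderiv 𝓘(ℝ, ℝ) 𝓘(ℝ, E) (fun t : ℝ => t • v) 0) (1 : ℝ) = v
  rw [h1]
  show (1 : ℝ) • v = v
  simp

/-- velocity scaling -/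
lemma exp_smul {γ : ℝ → M} {p : M} {w : TangentSpace 𝓘(ℝ, Euc m) p}
    (h : tangentMap 𝓘(ℝ, ℝ) 𝓘(ℝ, Euc m) γ ⟨0, (1 : ℝ)⟩ = ⟨p, w⟩) (t : ℝ) :
    tangentMap 𝓘(ℝ, ℝ) 𝓘(ℝ, Euc m) γ ⟨0, t⟩ = ⟨p, t • w⟩ := by
  have h' : (⟨γ 0, mfderiv 𝓘(ℝ, ℝ) 𝓘(ℝ, Euc m) γ 0 (1 : ℝ)⟩ : TangentBundle 𝓘(ℝ, Euc m) M) =
    ⟨p, w⟩ := h
  injection h' with h1 h2
  subst h1
  show (⟨γ 0, mfderiv 𝓘(ℝ, ℝ) 𝓘(ℝ, Euc m) γ 0 t⟩ : TangentBundle 𝓘(ℝ, Euc m) M) = ⟨γ 0, t • w⟩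
  have h4 : (mfderiv 𝓘(ℝ, ℝ) 𝓘(ℝ, Euc m) γ 0) t =
      t • (mfderiv 𝓘(ℝ, ℝ) 𝓘(ℝ, Euc m) γ 0) (1 : ℝ) := by
    have := (mfderiv 𝓘(ℝ, ℝ) 𝓘(ℝ, Euc m) γ 0).map_smul t (1 : ℝ)
    rw [← this]
    congr 1
    show t = t * 1
    simp
  rw [h4, h2]

theorem exists_exp [T2Space M] {g : FormField m M} (hg : IsRiem g) (hc : IsGeodesicallyComplete g)
    (p : M) (L : Euc m →L[ℝ] TangentSpace 𝓘(ℝ, Euc m) p) :
    ∃ f : Euc m → M, ContMDiff 𝓘(ℝ, Euc m) 𝓘(ℝ, Euc m) ∞ f ∧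
      (∀ v, IsGeodesic g (fun t : ℝ => f (t • v))) ∧
      ∀ v, tangentMap 𝓘(ℝ, Euc m) 𝓘(ℝ, Euc m) f ⟨0, v⟩ = ⟨p, L v⟩ := by
  choose γ hγ h0 using fun v : Euc m => hc ⟨p, L v⟩
  have hfam := geodesic_family_smooth hg L hγ h0
  have hf : ContMDiff 𝓘(ℝ, Euc m) 𝓘(ℝ, Euc m) ∞ (fun v => γ v 1) := by
    have h1 : ContMDiff 𝓘(ℝ, Euc m) 𝓘(ℝ, ℝ × Euc m) ∞ (fun v : Euc m => ((1 : ℝ), v)) := by
      rw [contMDiff_iff_contDiff]; fun_prop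
    exact hfam.comp h1
  have hscale : ∀ (v : Euc m) (t : ℝ), γ (t • v) = fun s => γ v (t * s) := by
    intro v t
    refine geodesic_unique hg (hγ _) ((hγ v).comp_mul t) ?_
    rw [h0]
    have hmd : MDifferentiableAt 𝓘(ℝ, ℝ) 𝓘(ℝ, Euc m) (γ v) ((fun s : ℝ => s • t) 0) :=
      ((hγ v).1.contMDiffAt).mdifferentiableAt (by simp)
    have hlin : MDifferentiableAt 𝓘(ℝ, ℝ) 𝓘(ℝ, ℝ) (fun s : ℝ => s • t) 0 := by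
      rw [mdifferentiableAt_iff_differentiableAt]; fun_prop
    have hcomp := tangentMap_comp_at (I := 𝓘(ℝ, ℝ)) (I' := 𝓘(ℝ, ℝ)) (I'' := 𝓘(ℝ, Euc m))
      (⟨0, (1 : ℝ)⟩ : TangentBundle 𝓘(ℝ, ℝ) ℝ) hmd hlin
    have hfun : (γ v ∘ fun s : ℝ => s • t) = fun s => γ v (t * s) := by
      funext s; simp [mul_comm]
    rw [hfun, exp_tangentMap_line, exp_smul (h0 v)] at hcomp
    rw [hcomp, L.map_smul]
  have hline : ∀ v : Euc m, (fun t : ℝ => (fun v => γ v 1) (t • v)) = γ v := by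
    intro v; funext t
    show γ (t • v) 1 = γ v t
    rw [hscale v t]; simp
  refine ⟨fun v => γ v 1, hf, fun v => ?_, fun (v : Euc m) => ?_⟩
  · rw [hline v]; exact hγ v
  · have hmd : MDifferentiableAt 𝓘(ℝ, Euc m) 𝓘(ℝ, Euc m) (fun v : Euc m => γ v 1)
        ((fun s : ℝ => s • v) 0) := (hf.contMDiffAt).mdifferentiableAt (by simp)
    have hlin : MDifferentiableAt 𝓘(ℝ, ℝ) 𝓘(ℝ, Euc m) (fun s : ℝ => s • v) 0 := by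
      rw [mdifferentiableAt_iff_differentiableAt]; fun_prop
    have hcomp := tangentMap_comp_at (I := 𝓘(ℝ, ℝ)) (I' := 𝓘(ℝ, Euc m)) (I'' := 𝓘(ℝ, Euc m))
      (⟨0, (1 : ℝ)⟩ : TangentBundle 𝓘(ℝ, ℝ) ℝ) hmd hlin
    rw [exp_tangentMap_line] at hcomp
    rw [← hcomp]
    have : ((fun v : Euc m => γ v 1) ∘ fun s : ℝ => s • v) = γ v := hline v
    rw [this, h0]

end Mfd

end Pool.Agent.SH
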