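import Pool.Agent.Lib.MP_f72ae4_gt.Ray

open scoped Manifold ContDiff Topology
open Set

noncomputable section

namespace Pool.Agent.SH


theorem hadcore_eps {F : Type*} [NormedAddCommGroup F] (f : ℝ → F) (hf : Continuous f) (s : ℝ) :
    ∃ ε > 0, ∀ t, dist t s < ε → ‖f t - f s‖ < 1 := by
  obtain ⟨ε, hε, hb⟩ := Metric.continuousAt_iff.1 hf.continuousAt 1 one_pos
  exact ⟨ε, hε, fun t ht => by simpa [dist_eq_norm] using hb ht⟩

theorem hadcore_aux {m : ℕ} {G : Euc m → Form2 (Euc m)} (hG : ContDiff ℝ ∞ G)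
    (hsym : ∀ y u v, G y u v = G y v u) (hG0 : ∀ u v, G 0 u v = inner ℝ u v)
    (hgeo : ∀ y, (∀ v, v ≠ 0 → 0 < G y v v) → christoffel G y y y = 0)
    (hcurv : ∀ y, (∀ v, v ≠ 0 → 0 < G y v v) → ∀ u v, sectionalNumerator G y u v ≤ 0)
    (x : Euc m) (b : ℝ) (hb : 0 ≤ b) (v : Euc m) : ‖v‖ ^ 2 ≤ G (b • x) v v := by
  have hcont : Continuous G := hG.continuous
  have h0 : ∀ w : Euc m, G 0 w w = ‖w‖ ^ 2 := fun w => by
    rw [hG0, real_inner_self_eq_norm_sq]
  have hev : ∀ w : Euc m, Continuous fun y : Euc m => G y w w := fun w =>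
    (hcont.clm_apply continuous_const).clm_apply continuous_const
  let B : Set ℝ := {s | ∀ r ∈ Icc (0 : ℝ) 1, ∀ w : Euc m, ‖w‖ ^ 2 ≤ G ((r * s) • x) w w}
  have hBc : IsClosed B := by
    have : B = ⋂ (r : ℝ) (_ : r ∈ Icc (0 : ℝ) 1) (w : Euc m),
        {s : ℝ | ‖w‖ ^ 2 ≤ G ((r * s) • x) w w} := by
      ext s; simp [B]
    rw [this]
    refine isClosed_iInter fun r => isClosed_iInter fun _ => isClosed_iInter fun w => ?_
    exact isClosed_le continuous_const
      ((hev w).comp ((continuous_const.mul continuous_id).smul continuous_const))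
  have hB0 : (0 : ℝ) ∈ B := by
    intro r _ w
    rw [mul_zero, zero_smul, h0]
  have key : Icc (0 : ℝ) b ⊆ B := by
    refine IsClosed.Icc_subset_of_forall_exists_gt (hBc.inter isClosed_Icc) hB0 ?_
    rintro s ⟨hsB, hs0, hsb⟩ y hy
    have hy' : s < y := hy
    obtain ⟨ε, hε, hball⟩ := hadcore_eps (F := Form2 (Euc m)) (fun t : ℝ => G (t • x))
      (hcont.comp (continuous_id.smul continuous_const)) s
    have hpd : ∀ t ∈ Ico 0 (s + ε), ∀ w : Euc m, w ≠ 0 → 0 < G (t • x) w w := by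
      intro t ht w hw
      have hw2 : 0 < ‖w‖ ^ 2 := by positivity
      rcases le_or_gt t s with hts | hts
      · rcases hs0.eq_or_lt with h | h
        · have ht0 : t = 0 := le_antisymm (by rw [h]; exact hts) ht.1
          rw [ht0, zero_smul, h0]; exact hw2
        · have := hsB (t / s) ⟨div_nonneg ht.1 hs0, (div_le_one h).2 hts⟩ w
          rw [div_mul_cancel₀ _ h.ne'] at this
          exact hw2.trans_le this
      · have hd : dist t s < ε := by
          rw [Real.dist_eq, abs_of_pos (by linarith)]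
          linarith [ht.2]
        have h1 := hball t hd
        have h2 : ‖w‖ ^ 2 ≤ G (s • x) w w := by
          have := hsB 1 ⟨zero_le_one, le_refl _⟩ w
          rwa [one_mul] at this
        have h3 : |(G (t • x) - G (s • x)) w w| ≤ ‖G (t • x) - G (s • x)‖ * ‖w‖ * ‖w‖ := by
          rw [← Real.norm_eq_abs]
          exact ContinuousLinearMap.le_opNorm₂ _ _ _
        have h4 : (G (t • x) - G (s • x)) w w = G (t • x) w w - G (s • x) w w := rfl
        rw [h4] at h3
        have h5 : ‖G (t • x) - G (s • x)‖ * ‖w‖ * ‖w‖ < ‖w‖ ^ 2 := by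
          have : ‖G (t • x) - G (s • x)‖ * ‖w‖ * ‖w‖ = ‖G (t • x) - G (s • x)‖ * ‖w‖ ^ 2 := by ring
          rw [this]
          calc ‖G (t • x) - G (s • x)‖ * ‖w‖ ^ 2 < 1 * ‖w‖ ^ 2 :=
                mul_lt_mul_of_pos_right h1 hw2
            _ = ‖w‖ ^ 2 := one_mul _
        have h6 := (abs_le.1 h3).1
        linarith
    have hray := ray hG hsym hG0 hgeo hcurv x (by linarith : 0 < s + ε) hpd
    refine ⟨min y (s + ε / 2), ?_, ?_, min_le_left _ _⟩
    · intro r hr w
      have hm0 : 0 ≤ min y (s + ε / 2) := le_min (by linarith) (by linarith)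
      have hm1 : min y (s + ε / 2) < s + ε := lt_of_le_of_lt (min_le_right _ _) (by linarith)
      have hr0 : 0 ≤ r * min y (s + ε / 2) := mul_nonneg hr.1 hm0
      have hr1 : r * min y (s + ε / 2) < s + ε :=
        lt_of_le_of_lt (mul_le_of_le_one_left hm0 hr.2) hm1
      have := hray.2 w (⟨le_refl _, by linarith⟩ : (0 : ℝ) ∈ Ico 0 (s + ε)) ⟨hr0, hr1⟩ hr0
      simp only [zero_smul, h0] at this
      exact this
    · exact lt_min hy' (by linarith)
  have := key ⟨hb, le_refl b⟩ 1 ⟨zero_le_one, le_refl _⟩ v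
  rwa [one_mul] at this

theorem hadamard_core {m : ℕ} {G : Euc m → Form2 (Euc m)} (hG : ContDiff ℝ ∞ G)
    (hsym : ∀ y u v, G y u v = G y v u) (hG0 : ∀ u v, G 0 u v = inner ℝ u v)
    (hgeo : ∀ y, (∀ v, v ≠ 0 → 0 < G y v v) → christoffel G y y y = 0)
    (hcurv : ∀ y, (∀ v, v ≠ 0 → 0 < G y v v) → ∀ u v, sectionalNumerator G y u v ≤ 0) :
    (∀ y v, v ≠ 0 → 0 < G y v v) ∧ (∀ x v, G x x v = inner ℝ x v) ∧
      ∀ x v, MonotoneOn (fun s : ℝ => G (s • x) v v) (Ici 0) := by
  have hpd : ∀ y v, v ≠ 0 → 0 < G y v v := by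
    intro y v hv
    have := hadcore_aux hG hsym hG0 hgeo hcurv y 1 zero_le_one v
    rw [one_smul] at this
    have hv2 : 0 < ‖v‖ ^ 2 := by positivity
    exact hv2.trans_le this
  refine ⟨hpd, ?_, ?_⟩
  · intro x v
    have := (ray hG hsym hG0 hgeo hcurv x (S := 2) two_pos (fun s _ v hv => hpd _ v hv)).1 1
      ⟨zero_le_one, one_lt_two⟩ v
    rwa [one_smul] at this
  · intro x v a ha b hb hab
    have hb' : (0 : ℝ) ≤ b := hb
    have ha' : (0 : ℝ) ≤ a := ha
    exact (ray hG hsym hG0 hgeo hcurv x (S := b + 1) (by linarith) (fun s _ v hv => hpd _ v hv)).2 v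
      ⟨ha', by linarith⟩ ⟨hb', by linarith⟩ hab

end Pool.Agent.SH
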