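import Pool.Agent.Lib.MP_f72ae4_gt.Pull

/-! # M4a: local sections of an expanding local diffeomorphism -/

open scoped Manifold ContDiff Topology
open Set Filter

noncomputable section

namespace Pool.Agent.SH

section sections_top

variable {E M : Type*} [MetricSpace E] [TopologicalSpace M]

lemma sections_uniq {f : E → M} (hf : IsLocalHomeomorph f) {c : ℝ → M} {T : ℝ} (hT : 0 ≤ T)
    {Γ Γ' : ℝ → E} (h1 : ContinuousOn Γ (Icc 0 T)) (h2 : ContinuousOn Γ' (Icc 0 T))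
    (e1 : ∀ t ∈ Icc 0 T, f (Γ t) = c t) (e2 : ∀ t ∈ Icc 0 T, f (Γ' t) = c t) (h0 : Γ 0 = Γ' 0) :
    EqOn Γ Γ' (Icc 0 T) :=
  (T2Space.isSeparatedMap f).eqOn_of_comp_eqOn hf.isLocallyInjective isPreconnected_Icc h1 h2
    (fun t ht => (e1 t ht).trans (e2 t ht).symm) (left_mem_Icc.2 hT) h0

lemma sections_limit [CompleteSpace E] {T K : ℝ} (hT : 0 < T) {Γ : ℝ → E}
    (hL : ∀ a ∈ Ico 0 T, ∀ b ∈ Ico 0 T, dist (Γ a) (Γ b) ≤ K * |a - b|) :
    ∃ x, Tendsto Γ (𝓝[<] T) (𝓝 x) := by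
  rw [← cauchy_map_iff_exists_tendsto, Metric.cauchy_iff]
  refine ⟨inferInstance, fun ε hε => ?_⟩
  have hK : 0 < |K| + 1 := by positivity
  have hδ : 0 < ε / (|K| + 1) / 2 := by positivity
  refine ⟨Γ '' (Ioo 0 T ∩ Ioo (T - ε / (|K| + 1) / 2) T), image_mem_map ?_, ?_⟩
  · exact inter_mem (Ioo_mem_nhdsLT hT) (Ioo_mem_nhdsLT (by linarith))
  · rintro _ ⟨a, ⟨ha1, ha2⟩, rfl⟩ _ ⟨b, ⟨hb1, hb2⟩, rfl⟩
    refine lt_of_le_of_lt (hL a ⟨ha1.1.le, ha1.2⟩ b ⟨hb1.1.le, hb1.2⟩) ?_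
    have h1 : |a - b| < ε / (|K| + 1) / 2 := by
      rw [abs_lt]
      constructor <;> linarith [ha2.1, ha2.2, hb2.1, hb2.2]
    have h2 : K * |a - b| ≤ (|K| + 1) * |a - b| :=
      mul_le_mul_of_nonneg_right (by linarith [le_abs_self K]) (abs_nonneg _)
    have h3 : (|K| + 1) * |a - b| ≤ (|K| + 1) * (ε / (|K| + 1) / 2) :=
      mul_le_mul_of_nonneg_left h1.le hK.le
    have h4 : (|K| + 1) * (ε / (|K| + 1) / 2) = ε / 2 := by field_simp
    linarith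

/-- extension of a lift beyond its end -/
lemma sections_extend {f : E → M} (hf : IsLocalHomeomorph f) {c : ℝ → M}
    (hc : ContinuousOn c (Icc 0 1)) {T y : ℝ} (hT : T ∈ Ico (0 : ℝ) 1) (hy : T < y) {Γ : ℝ → E}
    (h1 : ContinuousOn Γ (Icc 0 T)) (e1 : ∀ t ∈ Icc 0 T, f (Γ t) = c t) :
    ∃ T' ∈ Ioc T y, ∃ Γ' : ℝ → E, ContinuousOn Γ' (Icc 0 T') ∧
      (∀ t ∈ Icc 0 T', f (Γ' t) = c t) ∧ Γ' 0 = Γ 0 := by
  obtain ⟨φ, hφ, hfφ⟩ := hf (Γ T)
  have hTT : f (Γ T) = c T := e1 T (right_mem_Icc.2 hT.1)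
  have hcT : c T ∈ φ.target := by
    rw [← hTT, hfφ]
    exact φ.map_source hφ
  have h2 : ∀ᶠ t in 𝓝[Icc 0 1] T, c t ∈ φ.target :=
    (hc T ⟨hT.1, hT.2.le⟩).eventually (φ.open_target.mem_nhds hcT)
  obtain ⟨δ, hδ, h3⟩ := Metric.mem_nhdsWithin_iff.1 h2
  set T' : ℝ := min (min y 1) (T + δ / 2) with hT'
  have hTT' : T < T' := lt_min (lt_min hy hT.2) (by linarith)
  have hT'1 : T' ≤ 1 := (min_le_left _ _).trans (min_le_right _ _)
  have hT'y : T' ≤ y := (min_le_left _ _).trans (min_le_left _ _)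
  have h4 : ∀ t ∈ Icc T T', c t ∈ φ.target := by
    intro t ht
    apply h3
    refine ⟨?_, hT.1.trans ht.1, ht.2.trans hT'1⟩
    rw [Metric.mem_ball, Real.dist_eq, abs_lt]
    have : T' ≤ T + δ / 2 := min_le_right _ _
    constructor <;> linarith [ht.1, ht.2]
  refine ⟨T', ⟨hTT', hT'y⟩, fun t => if t ≤ T then Γ t else φ.symm (c t), ?_, ?_, ?_⟩
  · apply ContinuousOn.if
    · rintro a ⟨_, ha⟩
      have ha' : a = T := by
        have := frontier_le_subset_eq continuous_id continuous_const ha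
        exact this
      rw [ha', ← hTT]
      rw [congrFun hfφ (Γ T), φ.left_inv hφ]
    · refine h1.mono ?_
      rintro t ⟨ht1, ht2⟩
      rw [show {a : ℝ | a ≤ T} = Iic T from rfl, closure_Iic] at ht2
      exact ⟨ht1.1, ht2⟩
    · have h5 : ContinuousOn (fun t => φ.symm (c t)) (Icc T T') :=
        φ.continuousOn_symm.comp (hc.mono (Icc_subset_Icc hT.1 hT'1)) h4
      refine h5.mono ?_
      rintro t ⟨ht1, ht2⟩
      rw [show {a : ℝ | ¬ a ≤ T} = Ioi T from by ext; simp, closure_Ioi] at ht2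
      exact ⟨ht2, ht1.2⟩
  · intro t ht
    change f (if t ≤ T then Γ t else φ.symm (c t)) = c t
    by_cases htT : t ≤ T
    · rw [if_pos htT]
      exact e1 t ⟨ht.1, htT⟩
    · rw [if_neg htT, congrFun hfφ, φ.right_inv (h4 t ⟨(not_le.1 htT).le, ht.2⟩)]
  · exact if_pos hT.1

lemma sections_lift [CompleteSpace E] [T2Space M] {f : E → M} (hf : IsLocalHomeomorph f)
    {c : ℝ → M} (hc : ContinuousOn c (Icc 0 1)) {K : ℝ}
    (hL : ∀ T ∈ Ioc (0 : ℝ) 1, ∀ Γ : ℝ → E, ContinuousOn Γ (Ico 0 T) →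
      (∀ t ∈ Ico 0 T, f (Γ t) = c t) →
      ∀ a ∈ Ico 0 T, ∀ b ∈ Ico 0 T, dist (Γ a) (Γ b) ≤ K * |a - b|) {z : E} (hz : f z = c 0) :
    ∃ Γ : ℝ → E, ContinuousOn Γ (Icc 0 1) ∧ (∀ t ∈ Icc (0 : ℝ) 1, f (Γ t) = c t) ∧ Γ 0 = z := by
  set s : Set ℝ := {T | ∃ Γ : ℝ → E, ContinuousOn Γ (Icc 0 T) ∧ (∀ t ∈ Icc (0 : ℝ) T, f (Γ t) = c t)
    ∧ Γ 0 = z} with hs
  have hdown : ∀ T ∈ s, ∀ T' ≤ T, T' ∈ s := by
    rintro T ⟨Γ, g1, g2, g3⟩ T' hT'
    exact ⟨Γ, g1.mono (Icc_subset_Icc_right hT'), fun t ht => g2 t ⟨ht.1, ht.2.trans hT'⟩, g3⟩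
  have h0 : (0 : ℝ) ∈ s := by
    refine ⟨fun _ => z, continuousOn_const, fun t ht => ?_, rfl⟩
    rw [hz, le_antisymm ht.2 ht.1]
  -- the key closedness
  have hlim : ∀ T ∈ Ioc (0 : ℝ) 1, (∀ T' < T, T' ∈ s) → T ∈ s := by
    intro T hT hall
    choose L hL1 hL2 hL3 using fun T' : Iio T => hall T' T'.2
    set Γ : ℝ → E := fun t => if h : t < T then L ⟨t, h⟩ t else z with hΓ
    have hagree : ∀ (T' : ℝ) (hT' : T' < T), 0 ≤ T' → EqOn Γ (L ⟨T', hT'⟩) (Icc 0 T') := by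
      intro T' hT' h0T' t ht
      have htT : t < T := lt_of_le_of_lt ht.2 hT'
      rw [hΓ]
      change (if h : t < T then L ⟨t, h⟩ t else z) = _
      rw [dif_pos htT]
      refine sections_uniq hf ht.1 (hL1 ⟨t, htT⟩)
        ((hL1 ⟨T', hT'⟩).mono (Icc_subset_Icc_right ht.2)) (hL2 ⟨t, htT⟩)
        (fun u hu => hL2 ⟨T', hT'⟩ u ⟨hu.1, hu.2.trans ht.2⟩)
        ((hL3 _).trans (hL3 _).symm) (right_mem_Icc.2 ht.1)
    have hΓc : ContinuousOn Γ (Ico 0 T) := by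
      intro t ht
      obtain ⟨T', hT'1, hT'2⟩ := exists_between ht.2
      have h1 : ContinuousWithinAt Γ (Icc 0 T') t :=
        ((hL1 ⟨T', hT'2⟩).congr (hagree T' hT'2 (ht.1.trans hT'1.le))) t ⟨ht.1, hT'1.le⟩
      refine h1.mono_of_mem_nhdsWithin ?_
      rw [mem_nhdsWithin]
      exact ⟨Iio T', isOpen_Iio, hT'1, fun u hu => ⟨hu.2.1, (le_of_lt hu.1)⟩⟩
    have hΓl : ∀ t ∈ Ico 0 T, f (Γ t) = c t := by
      intro t ht
      rw [hagree t ht.2 ht.1 (right_mem_Icc.2 ht.1)]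
      exact hL2 ⟨t, ht.2⟩ t (right_mem_Icc.2 ht.1)
    have hΓ0 : Γ 0 = z := by
      rw [hagree 0 hT.1 le_rfl (left_mem_Icc.2 le_rfl)]
      exact hL3 _
    obtain ⟨x, hx⟩ := sections_limit hT.1 (hL T hT Γ hΓc hΓl)
    have hfx : f x = c T := by
      have e1 : Tendsto (fun t => f (Γ t)) (𝓝[<] T) (𝓝 (f x)) :=
        (hf.continuous.tendsto x).comp hx
      have e2 : Tendsto c (𝓝[<] T) (𝓝 (c T)) := by
        have h1 := hc T ⟨hT.1.le, hT.2⟩
        refine h1.mono_left ?_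
        rw [nhdsWithin_le_iff]
        filter_upwards [Ioo_mem_nhdsLT hT.1] with u hu
        exact ⟨hu.1.le, hu.2.le.trans hT.2⟩
      refine tendsto_nhds_unique (e1.congr' ?_) e2
      filter_upwards [Ioo_mem_nhdsLT hT.1] with u hu
      exact hΓl u ⟨hu.1.le, hu.2⟩
    refine ⟨Function.update Γ T x, ?_, ?_, ?_⟩
    · intro t ht
      rcases ht.2.lt_or_eq with h | h
      · have h1 : ContinuousWithinAt Γ (Icc 0 T) t := by
          refine (hΓc t ⟨ht.1, h⟩).mono_of_mem_nhdsWithin ?_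
          rw [mem_nhdsWithin]
          exact ⟨Iio T, isOpen_Iio, h, fun u hu => ⟨hu.2.1, hu.1⟩⟩
        refine h1.congr_of_eventuallyEq ?_ ?_
        · have : ∀ᶠ u in 𝓝[Icc 0 T] t, u < T := mem_nhdsWithin_of_mem_nhds (Iio_mem_nhds h)
          filter_upwards [this] with u hu
          exact Function.update_of_ne hu.ne _ _
        · exact Function.update_of_ne h.ne _ _
      · rw [h]
        rw [continuousWithinAt_update_same]
        refine hx.mono_left (nhdsWithin_mono _ ?_)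
        rintro u ⟨hu1, hu2⟩
        exact lt_of_le_of_ne hu1.2 hu2
    · intro t ht
      rcases ht.2.lt_or_eq with h | h
      · rw [Function.update_of_ne h.ne]
        exact hΓl t ⟨ht.1, h⟩
      · rw [h, Function.update_self, hfx]
    · rw [Function.update_of_ne hT.1.ne, hΓ0]
  have hclosed : IsClosed (s ∩ Icc 0 1) := by
    rw [← closure_subset_iff_isClosed]
    intro T hT
    have hT01 : T ∈ Icc (0 : ℝ) 1 :=
      isClosed_Icc.closure_subset_iff.2 inter_subset_right hT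
    refine ⟨?_, hT01⟩
    by_cases h : ∀ T' < T, T' ∈ s
    · rcases hT01.1.eq_or_lt with h1 | h1
      · rw [← h1]; exact h0
      · exact hlim T ⟨h1, hT01.2⟩ h
    · push Not at h
      obtain ⟨T', hT', hT's⟩ := h
      exfalso
      rw [mem_closure_iff] at hT
      obtain ⟨u, hu1, hu2⟩ := hT (Ioi T') isOpen_Ioi hT'
      exact hT's (hdown u hu2.1 T' (le_of_lt hu1))
  have hsub : Icc (0 : ℝ) 1 ⊆ s := by
    refine hclosed.Icc_subset_of_forall_exists_gt h0 ?_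
    rintro T ⟨⟨Γ, g1, g2, g3⟩, hT⟩ y hy
    obtain ⟨T', hT', Γ', k1, k2, k3⟩ := sections_extend hf hc hT hy g1 g2
    exact ⟨T', ⟨Γ', k1, k2, k3.trans g3⟩, hT'⟩
  exact hsub (right_mem_Icc.2 zero_le_one)

end sections_top

lemma sections_bound_aux {E : Type*} [NormedAddCommGroup E] [NormedSpace ℝ E] {G : E → Form2 E}
    {y : E} (h1 : ContinuousAt G y) :
    ∃ C : ℝ, 0 ≤ C ∧ ∀ᶠ z in 𝓝 y, ∀ w, G z w w ≤ C * ‖w‖ ^ 2 := by
  refine ⟨‖G y‖ + 1, by positivity, ?_⟩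
  have h0 := h1.eventually (Metric.ball_mem_nhds (G y) one_pos)
  filter_upwards [h0] with z hz w
  have h3 : ‖G z - G y‖ < 1 := lt_of_eq_of_lt (dist_eq_norm (G z) (G y)).symm hz
  have h4 := (G z - G y).le_opNorm₂ w w
  have h5 := (G y).le_opNorm₂ w w
  have h6 : G z w w = G y w w + (G z - G y) w w := by
    change G z w w = G y w w + (G z w w - G y w w)
    ring
  have h7 : G y w w ≤ ‖G y w w‖ := Real.le_norm_self _
  have h8 : (G z - G y) w w ≤ ‖(G z - G y) w w‖ := Real.le_norm_self _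
  have h9 : ‖G z - G y‖ * ‖w‖ * ‖w‖ ≤ 1 * ‖w‖ * ‖w‖ := by gcongr
  rw [h6]
  nlinarith

section sections_geo

variable {m : ℕ} {M : Type*} [TopologicalSpace M] [ChartedSpace (Euc m) M]
  [IsManifold 𝓘(ℝ, Euc m) ∞ M]


omit [IsManifold 𝓘(ℝ, Euc m) ∞ M] in
lemma sections_form_congr (g : FormField m M) {p q : M} (h : p = q) (u v : Euc m) :
    (show Form2 (Euc m) from g p) u v = (show Form2 (Euc m) from g q) u v := by
  subst h
  rfl

lemma sections_localHomeo {g : FormField m M} {f : Euc m → M}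
    (hf : ContMDiff 𝓘(ℝ, Euc m) 𝓘(ℝ, Euc m) ∞ f) (hexp : ∀ y v, ‖v‖ ^ 2 ≤ pullForm g f y v v) :
    IsLocalHomeomorph f := by
  refine IsLocalHomeomorph.mk f fun y => ?_
  obtain ⟨L, hL⟩ : ∃ L : Euc m →L[ℝ] Euc m, L = mfderiv 𝓘(ℝ, Euc m) 𝓘(ℝ, Euc m) f y := ⟨_, rfl⟩
  have h0 : Function.Injective L := by
    rw [injective_iff_map_eq_zero]
    intro w hw
    have h1 := hexp y w
    have h2 : pullForm g f y w w = 0 := by
      change (show Form2 (Euc m) from g (f y))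
        ((show Euc m →L[ℝ] Euc m from mfderiv 𝓘(ℝ, Euc m) 𝓘(ℝ, Euc m) f y) w)
        ((show Euc m →L[ℝ] Euc m from mfderiv 𝓘(ℝ, Euc m) 𝓘(ℝ, Euc m) f y) w) = 0
      rw [hL] at hw
      rw [hw]
      exact map_zero _
    rw [h2] at h1
    have h4 : ‖w‖ = 0 := by
      have := norm_nonneg w
      nlinarith [h1]
    exact norm_eq_zero.1 h4
  have hinj : Function.Injective (mfderiv 𝓘(ℝ, Euc m) 𝓘(ℝ, Euc m) f y) :=
    fun u v huv => h0 (by rw [hL]; exact huv)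
  obtain ⟨e, _, hy, h⟩ := exists_chart_of_injective hf hinj
  exact ⟨e.symm, hy, fun z hz => (h z hz).symm⟩

omit [IsManifold 𝓘(ℝ, Euc m) ∞ M] in
lemma sections_pull (g : FormField m M) {f : Euc m → M}
    (hf : ContMDiff 𝓘(ℝ, Euc m) 𝓘(ℝ, Euc m) ∞ f) {e : OpenPartialHomeomorph M (Euc m)}
    (he : e ∈ IsManifold.maximalAtlas 𝓘(ℝ, Euc m) ∞ M) {x : Euc m} (hx : f x ∈ e.source)
    (v : Euc m) :
    pullForm g f x v v = coordForm g e (e (f x)) (fderiv ℝ (e ∘ f) x v) (fderiv ℝ (e ∘ f) x v) := by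
  have hone : (∞ : ℕ∞ω) ≠ 0 := by simp
  have hed : MDifferentiableAt 𝓘(ℝ, Euc m) 𝓘(ℝ, Euc m) e (f x) :=
    ((contMDiffOn_of_mem_maximalAtlas he).contMDiffAt (e.open_source.mem_nhds hx)).mdifferentiableAt
      hone
  have hesd : MDifferentiableAt 𝓘(ℝ, Euc m) 𝓘(ℝ, Euc m) e.symm (e (f x)) :=
    ((contMDiffOn_symm_of_mem_maximalAtlas he).contMDiffAt
      (e.open_target.mem_nhds (e.map_source hx))).mdifferentiableAt hone
  have hfd : MDifferentiableAt 𝓘(ℝ, Euc m) 𝓘(ℝ, Euc m) f x := (hf x).mdifferentiableAt hone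
  have h1 : MDifferentiableAt 𝓘(ℝ, Euc m) 𝓘(ℝ, Euc m) (e ∘ f) x := hed.comp x hfd
  have h2 : mfderiv 𝓘(ℝ, Euc m) 𝓘(ℝ, Euc m) (e.symm ∘ (e ∘ f)) x =
      (mfderiv 𝓘(ℝ, Euc m) 𝓘(ℝ, Euc m) e.symm (e (f x))).comp
        (mfderiv 𝓘(ℝ, Euc m) 𝓘(ℝ, Euc m) (e ∘ f) x) := mfderiv_comp x hesd h1
  have h3 : (e.symm ∘ (e ∘ f)) =ᶠ[𝓝 x] f := by
    filter_upwards [hf.continuous.continuousAt.preimage_mem_nhds (e.open_source.mem_nhds hx)] with
      z hz
    exact e.left_inv hz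
  have h4 : mfderiv 𝓘(ℝ, Euc m) 𝓘(ℝ, Euc m) (e.symm ∘ (e ∘ f)) x =
      mfderiv 𝓘(ℝ, Euc m) 𝓘(ℝ, Euc m) f x := h3.mfderiv_eq
  have h5 : (show Euc m →L[ℝ] Euc m from mfderiv 𝓘(ℝ, Euc m) 𝓘(ℝ, Euc m) f x) v =
      (show Euc m →L[ℝ] Euc m from mfderiv 𝓘(ℝ, Euc m) 𝓘(ℝ, Euc m) e.symm (e (f x)))
        (fderiv ℝ (e ∘ f) x v) := by
    rw [← mfderiv_eq_fderiv]
    have h6 := congrArg (fun L : Euc m →L[ℝ] Euc m => L v) (h4.symm.trans h2)
    exact h6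
  change (show Form2 (Euc m) from g (f x))
      ((show Euc m →L[ℝ] Euc m from mfderiv 𝓘(ℝ, Euc m) 𝓘(ℝ, Euc m) f x) v)
      ((show Euc m →L[ℝ] Euc m from mfderiv 𝓘(ℝ, Euc m) 𝓘(ℝ, Euc m) f x) v) =
    (show Form2 (Euc m) from g (e.symm (e (f x))))
      ((show Euc m →L[ℝ] Euc m from mfderiv 𝓘(ℝ, Euc m) 𝓘(ℝ, Euc m) e.symm (e (f x)))
        (fderiv ℝ (e ∘ f) x v))
      ((show Euc m →L[ℝ] Euc m from mfderiv 𝓘(ℝ, Euc m) 𝓘(ℝ, Euc m) e.symm (e (f x)))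
        (fderiv ℝ (e ∘ f) x v))
  rw [h5]
  exact sections_form_congr g (e.left_inv hx).symm _ _

omit [IsManifold 𝓘(ℝ, Euc m) ∞ M] in
lemma sections_bound {g : FormField m M} {e : OpenPartialHomeomorph M (Euc m)}
    (hg : ContDiffOn ℝ ∞ (coordForm g e) e.target) {y : Euc m} (hy : y ∈ e.target) :
    ∃ ρ > 0, ∃ C : ℝ, 0 ≤ C ∧ Metric.ball y ρ ⊆ e.target ∧
      ∀ z ∈ Metric.ball y ρ, ∀ w, coordForm g e z w w ≤ C * ‖w‖ ^ 2 := by
  have h1 : ContinuousAt (coordForm g e) y :=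
    (hg.continuousOn).continuousAt (e.open_target.mem_nhds hy)
  obtain ⟨C, hC, h2⟩ := sections_bound_aux h1
  obtain ⟨ρ, hρ, h3⟩ := Metric.mem_nhds_iff.1 (Filter.inter_mem h2 (e.open_target.mem_nhds hy))
  exact ⟨ρ, hρ, C, hC, fun z hz => (h3 hz).2, fun z hz w => (h3 hz).1 w⟩

omit [IsManifold 𝓘(ℝ, Euc m) ∞ M] in
lemma sections_hasDeriv {g : FormField m M} {f : Euc m → M}
    (hf : ContMDiff 𝓘(ℝ, Euc m) 𝓘(ℝ, Euc m) ∞ f) (hexp : ∀ y v, ‖v‖ ^ 2 ≤ pullForm g f y v v)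
    {e : OpenPartialHomeomorph M (Euc m)}
    (he : e ∈ IsManifold.maximalAtlas 𝓘(ℝ, Euc m) ∞ M) {C : ℝ} {D : Set (Euc m)}
    (hD : D ⊆ e.target) (hC : ∀ z ∈ D, ∀ w, coordForm g e z w w ≤ C * ‖w‖ ^ 2) {S : Set ℝ}
    {Γ : ℝ → Euc m} (hΓ : ContinuousOn Γ S) {y₀ w : Euc m} (hy : ∀ t ∈ S, y₀ + t • w ∈ D)
    (hl : ∀ t ∈ S, f (Γ t) = e.symm (y₀ + t • w)) {t₀ : ℝ} (ht₀ : t₀ ∈ S) :
    ∃ v, HasDerivWithinAt Γ v S t₀ ∧ ‖v‖ ^ 2 ≤ C * ‖w‖ ^ 2 := by
  have hx : f (Γ t₀) ∈ e.source := by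
    rw [hl t₀ ht₀]
    exact e.map_target (hD (hy t₀ ht₀))
  have hef : ∀ t ∈ S, (e ∘ f) (Γ t) = y₀ + t • w := by
    intro t ht
    change e (f (Γ t)) = _
    rw [hl t ht, e.right_inv (hD (hy t ht))]
  have hF : ContDiffAt ℝ ∞ (e ∘ f) (Γ t₀) := by
    rw [← contMDiffAt_iff_contDiffAt]
    exact ((contMDiffOn_of_mem_maximalAtlas he).contMDiffAt (e.open_source.mem_nhds hx)).comp
      (Γ t₀) (hf (Γ t₀))
  have hinj : Function.Injective (fderiv ℝ (e ∘ f) (Γ t₀)) := by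
    rw [injective_iff_map_eq_zero]
    intro u hu
    have h1 := hexp (Γ t₀) u
    rw [sections_pull g hf he hx u, hu] at h1
    have h2 : coordForm g e (e (f (Γ t₀))) 0 0 = 0 := map_zero _
    rw [h2] at h1
    have h4 : ‖u‖ = 0 := by
      have := norm_nonneg u
      nlinarith [h1]
    exact norm_eq_zero.1 h4
  set A : Euc m ≃L[ℝ] Euc m := (LinearEquiv.ofInjectiveEndo
    (fderiv ℝ (e ∘ f) (Γ t₀) : Euc m →ₗ[ℝ] Euc m) hinj).toContinuousLinearEquiv with hA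
  have hAe : (A : Euc m →L[ℝ] Euc m) = fderiv ℝ (e ∘ f) (Γ t₀) := by
    ext u : 1
    rfl
  have hstrict : HasStrictFDerivAt (e ∘ f) (A : Euc m →L[ℝ] Euc m) (Γ t₀) := by
    rw [hAe]
    exact hF.hasStrictFDerivAt (by simp)
  have hG := hstrict.to_localInverse
  have hG' : HasFDerivAt (hstrict.localInverse (e ∘ f) A (Γ t₀))
      (A.symm : Euc m →L[ℝ] Euc m) (y₀ + t₀ • w) := by
    rw [← hef t₀ ht₀]
    exact hG.hasFDerivAt
  have hline : HasDerivWithinAt (fun t : ℝ => y₀ + t • w) w S t₀ := by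
    have h1 : HasDerivAt (fun t : ℝ => y₀ + t • w) ((1 : ℝ) • w) t₀ :=
      ((hasDerivAt_id t₀).smul_const w).const_add y₀
    rw [one_smul] at h1
    exact h1.hasDerivWithinAt
  have hcomp := hG'.comp_hasDerivWithinAt t₀ hline
  refine ⟨A.symm w, ?_, ?_⟩
  · refine hcomp.congr_of_eventuallyEq ?_ ?_
    · have h1 := (hΓ t₀ ht₀).eventually hstrict.eventually_left_inverse
      filter_upwards [h1, self_mem_nhdsWithin] with t h2 h3
      change Γ t = hstrict.localInverse (e ∘ f) A (Γ t₀) (y₀ + t • w)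
      rw [← hef t h3, h2]
    · change Γ t₀ = hstrict.localInverse (e ∘ f) A (Γ t₀) (y₀ + t₀ • w)
      rw [← hef t₀ ht₀, hstrict.localInverse_apply_image]
  · have h1 := hexp (Γ t₀) (A.symm w)
    rw [sections_pull g hf he hx, ← hAe] at h1
    have h2 : (A : Euc m →L[ℝ] Euc m) (A.symm w) = w := A.apply_symm_apply w
    rw [h2] at h1
    have h3 : e (f (Γ t₀)) = y₀ + t₀ • w := hef t₀ ht₀
    rw [h3] at h1
    exact h1.trans (hC _ (hy t₀ ht₀) w)

/-! ### M4a -/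
theorem exists_local_sections [T2Space M] {g : FormField m M} (hg : IsRiem g) {f : Euc m → M}
    (hf : ContMDiff 𝓘(ℝ, Euc m) 𝓘(ℝ, Euc m) ∞ f) (hexp : ∀ y v, ‖v‖ ^ 2 ≤ pullForm g f y v v) (q : M) :
    ∃ B : Set M, IsOpen B ∧ q ∈ B ∧ ∀ z : Euc m, f z ∈ B →
      ∃ σ : M → Euc m, ContinuousOn σ B ∧ (∀ b ∈ B, f (σ b) = b) ∧ σ (f z) = z := by
  classical
  obtain ⟨e, hee⟩ : ∃ e : OpenPartialHomeomorph M (Euc m), e = chartAt (Euc m) q := ⟨_, rfl⟩
  have he : e ∈ IsManifold.maximalAtlas 𝓘(ℝ, Euc m) ∞ M := by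
    rw [hee]; exact IsManifold.chart_mem_maximalAtlas q
  have hqs : q ∈ e.source := by rw [hee]; exact mem_chart_source _ q
  obtain ⟨ρ, hρ, C, hC0, hρe, hC⟩ := sections_bound (hg.smooth e he) (e.map_source hqs)
  refine ⟨e.source ∩ e ⁻¹' Metric.ball (e q) ρ, e.isOpen_inter_preimage Metric.isOpen_ball,
    ⟨hqs, Metric.mem_ball_self hρ⟩, fun z hz => ?_⟩
  have hloc := sections_localHomeo hf hexp
  obtain ⟨y₀, hy₀⟩ : ∃ y₀, y₀ = e (f z) := ⟨_, rfl⟩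
  have hy₀b : y₀ ∈ Metric.ball (e q) ρ := by rw [hy₀]; exact hz.2
  have hseg : ∀ y ∈ Metric.ball (e q) ρ, ∀ t ∈ Icc (0 : ℝ) 1,
      y₀ + t • (y - y₀) ∈ Metric.ball (e q) ρ := fun y hy t ht =>
    (convex_ball (e q) ρ).add_smul_sub_mem hy₀b hy ht
  have hsymm0 : e.symm y₀ = f z := by rw [hy₀]; exact e.left_inv hz.1
  have hlift : ∀ y : Metric.ball (e q) ρ, ∃ Γ : ℝ → Euc m, ContinuousOn Γ (Icc 0 1) ∧
      (∀ t ∈ Icc (0 : ℝ) 1, f (Γ t) = e.symm (y₀ + t • ((y : Euc m) - y₀))) ∧ Γ 0 = z ∧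
      ((y : Euc m) = y₀ → Γ 1 = z) := by
    intro y
    by_cases hyy : (y : Euc m) = y₀
    · refine ⟨fun _ => z, continuousOn_const, fun t _ => ?_, rfl, fun _ => rfl⟩
      rw [hyy, sub_self, smul_zero, add_zero, hsymm0]
    · have hc : ContinuousOn (fun t : ℝ => e.symm (y₀ + t • ((y : Euc m) - y₀))) (Icc 0 1) := by
        refine e.continuousOn_symm.comp ?_ fun t ht => hρe (hseg y y.2 t ht)
        exact (continuous_const.add (continuous_id.smul continuous_const)).continuousOn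
      obtain ⟨Γ, h1, h2, h3⟩ := sections_lift hloc hc (K := Real.sqrt C * ‖(y : Euc m) - y₀‖)
        (z := z) (fun T hT Γ hΓ hl a ha b hb => by
          have hsub : ∀ t ∈ Ico 0 T, y₀ + t • ((y : Euc m) - y₀) ∈ Metric.ball (e q) ρ :=
            fun t ht => hseg y y.2 t ⟨ht.1, ht.2.le.trans hT.2⟩
          have hd : ∀ t ∈ Ico 0 T, HasDerivWithinAt Γ (derivWithin Γ (Ico 0 T) t) (Ico 0 T) t ∧
              ‖derivWithin Γ (Ico 0 T) t‖ ≤ Real.sqrt C * ‖(y : Euc m) - y₀‖ := by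
            intro t ht
            obtain ⟨v, hv1, hv2⟩ := sections_hasDeriv hf hexp he hρe hC hΓ hsub hl ht
            have hv3 : derivWithin Γ (Ico 0 T) t = v :=
              hv1.derivWithin (uniqueDiffOn_Ico 0 T t ht)
            rw [hv3]
            refine ⟨hv1, ?_⟩
            refine abs_le_of_sq_le_sq' ?_ (by positivity) |>.2
            rw [mul_pow, Real.sq_sqrt hC0]
            exact hv2
          have := (convex_Ico (0 : ℝ) T).norm_image_sub_le_of_norm_hasDerivWithin_le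
            (fun t ht => (hd t ht).1) (fun t ht => (hd t ht).2) hb ha
          rw [dist_eq_norm]
          rw [Real.norm_eq_abs] at this
          exact this) (by
          rw [zero_smul, add_zero, hsymm0])
      exact ⟨Γ, h1, h2, h3, fun h => absurd h hyy⟩
  choose G hG1 hG2 hG3 hG4 using hlift
  have hFc : Continuous (fun p : unitInterval × Metric.ball (e q) ρ =>
      e.symm (y₀ + (p.1 : ℝ) • ((p.2 : Euc m) - y₀))) := by
    refine e.continuousOn_symm.comp_continuous ?_ fun p => hρe (hseg p.2 p.2.2 p.1 p.1.2)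
    exact continuous_const.add ((continuous_subtype_val.comp continuous_fst).smul
      ((continuous_subtype_val.comp continuous_snd).sub continuous_const))
  have hcont := hloc.continuous_lift (T2Space.isSeparatedMap f)
    (A := Metric.ball (e q) ρ) ⟨_, hFc⟩ (g := fun p => G p.2 p.1)
    (funext fun p => hG2 p.2 p.1 p.1.2)
    (by
      have : (fun a : Metric.ball (e q) ρ => G a ((0 : unitInterval) : ℝ)) = fun _ => z :=
        funext fun a => hG3 a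
      exact this ▸ continuous_const)
    (fun a => (hG1 a).comp_continuous continuous_subtype_val fun t => t.2)
  refine ⟨fun b => if h : b ∈ e.source ∩ e ⁻¹' Metric.ball (e q) ρ then
    G ⟨e b, h.2⟩ 1 else z, ?_, ?_, ?_⟩
  · rw [continuousOn_iff_continuous_domRestrict]
    have h1 : Continuous (fun b : ↥(e.source ∩ e ⁻¹' Metric.ball (e q) ρ) =>
        (⟨e b, b.2.2⟩ : Metric.ball (e q) ρ)) :=
      Continuous.subtype_mk (e.continuousOn.comp_continuous continuous_subtype_val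
        fun b => b.2.1) _
    have h2 := hcont.comp ((continuous_const (y := (1 : unitInterval))).prodMk h1)
    refine h2.congr fun b => ?_
    change G ⟨e b, b.2.2⟩ ((1 : unitInterval) : ℝ) = if h : (b : M) ∈
      e.source ∩ e ⁻¹' Metric.ball (e q) ρ then G ⟨e b, h.2⟩ 1 else z
    rw [dif_pos b.2]
    rfl
  · intro b hb
    change f (if h : b ∈ e.source ∩ e ⁻¹' Metric.ball (e q) ρ then G ⟨e b, h.2⟩ 1 else z) = b
    rw [dif_pos hb, hG2 _ 1 (right_mem_Icc.2 zero_le_one), one_smul, add_sub_cancel]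
    exact e.left_inv hb.1
  · change (if h : f z ∈ e.source ∩ e ⁻¹' Metric.ball (e q) ρ then G ⟨e (f z), h.2⟩ 1 else z) = z
    rw [dif_pos hz]
    exact hG4 _ hy₀.symm

end sections_geo

end Pool.Agent.SH
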