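import Pool.Agent.Lib.MP_f72ae4_gt.LinAlg
import Pool.Agent.Lib.MP_f72ae4_gt.Exp
import Pool.Agent.Lib.MP_f72ae4_gt.Core
import Pool.Agent.Lib.MP_f72ae4_gt.HadCore
import Pool.Agent.Lib.MP_f72ae4_gt.Sections
import Pool.Agent.Lib.MP_f72ae4_gt.Cover
import Pool.Agent.Lib.MP_f72ae4_gt.Pull

/-! # M5: normal coordinates of a Hadamard manifold (MP_f72ae4_gt) -/

open scoped Manifold ContDiff Topology
open Set

noncomputable section

namespace Pool.Agent.SH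


section Mfd2
variable {m : ℕ} {M : Type*} [TopologicalSpace M] [ChartedSpace (Euc m) M]

/-- The underlying vector of a tangent vector, as an element of the model space. -/
def hadCoords_snd (m : ℕ) (M : Type*) [TopologicalSpace M] [ChartedSpace (Euc m) M]
    (q : TangentBundle 𝓘(ℝ, Euc m) M) : Euc m := q.2

theorem hadCoords_pull_zero {g : FormField m M} {f : Euc m → M} {p : M}
    {L : Euc m →L[ℝ] TangentSpace 𝓘(ℝ, Euc m) p}
    (h : ∀ v, tangentMap 𝓘(ℝ, Euc m) 𝓘(ℝ, Euc m) f ⟨0, v⟩ = ⟨p, L v⟩) (u v : Euc m) :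
    pullForm g f 0 u v = g p (L u) (L v) := by
  have h1 : f 0 = p := congrArg (fun q : TangentBundle 𝓘(ℝ, Euc m) M => q.1) (h 0)
  have h2 : ∀ v, (mfderiv 𝓘(ℝ, Euc m) 𝓘(ℝ, Euc m) f 0 v : Euc m) = (L v : Euc m) := fun v =>
    congrArg (hadCoords_snd m M) (h v)
  let g' : M → Form2 (Euc m) := g
  have h3 : g' (f 0) = g' p := by rw [h1]
  have h4 : pullForm g f 0 u v
      = g' (f 0) (mfderiv 𝓘(ℝ, Euc m) 𝓘(ℝ, Euc m) f 0 u : Euc m)
          (mfderiv 𝓘(ℝ, Euc m) 𝓘(ℝ, Euc m) f 0 v : Euc m) := rfl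
  rw [h4, h3]
  have h5 : g' p (mfderiv 𝓘(ℝ, Euc m) 𝓘(ℝ, Euc m) f 0 u : Euc m)
          (mfderiv 𝓘(ℝ, Euc m) 𝓘(ℝ, Euc m) f 0 v : Euc m) = g' p (L u : Euc m) (L v : Euc m) := by
    rw [show (mfderiv 𝓘(ℝ, Euc m) 𝓘(ℝ, Euc m) f 0 u : Euc m) = (L u : Euc m) from h2 u,
      show (mfderiv 𝓘(ℝ, Euc m) 𝓘(ℝ, Euc m) f 0 v : Euc m) = (L v : Euc m) from h2 v]
  exact h5

variable [IsManifold 𝓘(ℝ, Euc m) ∞ M]

theorem hadCoords_isLocalDiffeo {f : Euc m → M} (hf : ContMDiff 𝓘(ℝ, Euc m) 𝓘(ℝ, Euc m) ∞ f)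
    (hinj : ∀ y, Function.Injective (mfderiv 𝓘(ℝ, Euc m) 𝓘(ℝ, Euc m) f y)) :
    IsLocalDiffeomorph 𝓘(ℝ, Euc m) 𝓘(ℝ, Euc m) ∞ f := by
  intro y
  obtain ⟨e, he, hy, hes⟩ := exists_chart_of_injective hf (hinj y)
  refine ⟨{ toPartialEquiv := e.symm.toPartialEquiv
            open_source := e.open_target
            open_target := e.open_source
            contMDiffOn_toFun := contMDiffOn_symm_of_mem_maximalAtlas he
            contMDiffOn_invFun := contMDiffOn_of_mem_maximalAtlas he }, hy, ?_⟩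
  intro z hz
  exact (hes z hz).symm

theorem hadamard_coords [T2Space M] [SimplyConnectedSpace M] {g : FormField m M} (hg : IsRiem g)
    (hc : IsGeodesicallyComplete g) (hK : NonposCurved g) :
    ∃ f : Euc m ≃ₘ⟮𝓘(ℝ, Euc m), 𝓘(ℝ, Euc m)⟯ M,
      (∀ x v, pullForm g f x x v = inner ℝ x v) ∧
      ∀ x v, MonotoneOn (fun s : ℝ => pullForm g f (s • x) v v) (Ici 0) := by
  have hne : Nonempty M := (inferInstance : PathConnectedSpace M).nonempty
  obtain ⟨p⟩ := hne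
  obtain ⟨L, hL⟩ := exists_isometry (m := m) (g p) (hg.symm p) (hg.pos p)
  obtain ⟨f, hf, hgeo, hf0⟩ := exists_exp hg hc p (L : Euc m →L[ℝ] Euc m)
  have hG := contDiff_pullForm hg.smooth hf
  have hsym : ∀ y u v, pullForm g f y u v = pullForm g f y v u := fun y u v =>
    hg.symm (f y) (mfderiv 𝓘(ℝ, Euc m) 𝓘(ℝ, Euc m) f y u) (mfderiv 𝓘(ℝ, Euc m) 𝓘(ℝ, Euc m) f y v)
  have hG0 : ∀ u v, pullForm g f 0 u v = inner ℝ u v := fun u v =>
    (hadCoords_pull_zero hf0 u v).trans (hL u v)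
  have hch := fun y hpd => core_hyps hg hK hf hgeo y hpd
  obtain ⟨hpd, hgauss, hmono⟩ := hadamard_core hG hsym hG0 (fun y h => (hch y h).1)
    (fun y h => (hch y h).2)
  have hexp : ∀ y v, ‖v‖ ^ 2 ≤ pullForm g f y v v := by
    intro y v
    have h1 := hmono y v (by simp : (0 : ℝ) ∈ Ici 0) (by simp : (1 : ℝ) ∈ Ici 0) zero_le_one
    simp only [zero_smul, one_smul] at h1
    rw [hG0, real_inner_self_eq_norm_sq] at h1
    exact h1
  have hinj : ∀ y, Function.Injective (mfderiv 𝓘(ℝ, Euc m) 𝓘(ℝ, Euc m) f y) := by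
    intro y
    have hker : ∀ v, mfderiv 𝓘(ℝ, Euc m) 𝓘(ℝ, Euc m) f y v = 0 → v = 0 := by
      intro v hv
      by_contra hv0
      have h1 := hpd y v hv0
      have h2 : pullForm g f y v v = g (f y) (mfderiv 𝓘(ℝ, Euc m) 𝓘(ℝ, Euc m) f y v)
        (mfderiv 𝓘(ℝ, Euc m) 𝓘(ℝ, Euc m) f y v) := rfl
      rw [h2, hv] at h1
      simp at h1
    exact (injective_iff_map_eq_zero _).2 hker
  have hld := hadCoords_isLocalDiffeo hf hinj
  have hbij := bijective_of_local_sections hld.isLocalHomeomorph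
    (fun q => exists_local_sections hg hf hexp q)
  have hcoe : ⇑(hld.diffeomorphOfBijective hbij) = f := rfl
  refine ⟨hld.diffeomorphOfBijective hbij, ?_, ?_⟩
  · intro x v
    rw [hcoe]
    exact hgauss x v
  · intro x v
    rw [hcoe]
    exact hmono x v

end Mfd2

end Pool.Agent.SH
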