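import Mathlib

/-!
# Statement-level definitions for MP_f72ae4_gt (symplectic Hadamard question)

`E` is the real vector space on which the manifold `M` is modelled. A tensor field on `M` is a family of
(bi)linear maps on the tangent spaces. Smoothness, closedness, the Levi-Civita connection and curvature
are the classical ones, read off in EVERY chart of the maximal smooth atlas of `M`.
-/

open scoped Manifold ContDiff
open Set

noncomputable section

namespace Pool.Agent.SHP

section Flat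

variable {E : Type*} [NormedAddCommGroup E] [NormedSpace ℝ E]

/-- `∂_u G(v,w)` at the point `y`. -/
def partialD (G : E → E → E → ℝ) (y u v w : E) : ℝ := fderiv ℝ (fun z => G z v w) y u

/-- A two-form on (an open subset of) a vector space is closed at `y`:
`∂_u Ω(v,w) + ∂_v Ω(w,u) + ∂_w Ω(u,v) = 0`. -/
def ClosedAt (Ω : E → E → E → ℝ) (y : E) : Prop :=
  ∀ u v w : E, partialD Ω y u v w + partialD Ω y v w u + partialD Ω y w u v = 0

/-- Christoffel symbols of the first kind: `½ (∂_u G(v,w) + ∂_v G(u,w) - ∂_w G(u,v))`. -/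
def christoffelLower (G : E → E → E → ℝ) (y u v w : E) : ℝ :=
  (partialD G y u v w + partialD G y v u w - partialD G y w u v) / 2

/-- Christoffel symbols of the second kind: the vector `a = Γ(u,v)` with
`G(a, w) = ½ (∂_u G(v,w) + ∂_v G(u,w) - ∂_w G(u,v))` for all `w`. -/
def christoffel (G : E → E → E → ℝ) (y u v : E) : E :=
  Classical.epsilon fun a : E => ∀ w, G y a w = christoffelLower G y u v w

/-- Riemann curvature in coordinates:
`R(u,v)w = (∂_u Γ)(v,w) - (∂_v Γ)(u,w) + Γ(u,Γ(v,w)) - Γ(v,Γ(u,w))`. -/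
def riemann (G : E → E → E → ℝ) (y u v w : E) : E :=
  fderiv ℝ (fun z => christoffel G z v w) y u - fderiv ℝ (fun z => christoffel G z u w) y v
    + christoffel G y u (christoffel G y v w) - christoffel G y v (christoffel G y u w)

end Flat

/-- The standard symplectic form `∑ dx_i ∧ dy_i` on `ℝ^n × ℝ^n`. -/
def stdForm (n : ℕ) (a b : (Fin n → ℝ) × (Fin n → ℝ)) : ℝ :=
  ∑ i, (a.1 i * b.2 i - b.1 i * a.2 i)

/-- The map is bilinear. -/
def Bilinear {V : Type*} [AddCommGroup V] [Module ℝ V] (b : V → V → ℝ) : Prop :=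
  (∀ v, IsLinearMap ℝ (b v)) ∧ ∀ v, IsLinearMap ℝ fun u => b u v

variable {E : Type*} [NormedAddCommGroup E] [NormedSpace ℝ E]
  {M : Type*} [TopologicalSpace M] [ChartedSpace E M]

variable (E M) in
/-- A field of (bilinear) forms: for each `x` a real function of two tangent vectors at `x`. -/
abbrev FormField := (x : M) → TangentSpace 𝓘(ℝ, E) x → TangentSpace 𝓘(ℝ, E) x → ℝ

variable (E M) in
/-- A field of endomorphisms of the tangent spaces. -/
abbrev EndField := (x : M) → TangentSpace 𝓘(ℝ, E) x → TangentSpace 𝓘(ℝ, E) x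

/-- The derivative of the inverse of the chart `e` at the point `y` of its target. -/
def chartD (e : OpenPartialHomeomorph M E) (y u : E) : TangentSpace 𝓘(ℝ, E) (e.symm y) :=
  mfderiv 𝓘(ℝ, E) 𝓘(ℝ, E) e.symm y u

/-- The derivative of the chart `e` at the point `e⁻¹ y`. -/
def chartD' (e : OpenPartialHomeomorph M E) (y : E) (v : TangentSpace 𝓘(ℝ, E) (e.symm y)) : E :=
  mfderiv 𝓘(ℝ, E) 𝓘(ℝ, E) e (e.symm y) v

/-- Coordinate expression of a field of bilinear forms in the chart `e`: its pull-back under `e⁻¹`. -/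
def coordForm (B : FormField E M)
    (e : OpenPartialHomeomorph M E) (y u v : E) : ℝ :=
  B (e.symm y) (chartD e y u) (chartD e y v)

/-- Coordinate expression of a field of endomorphisms in the chart `e`. -/
def coordEnd (J : EndField E M)
    (e : OpenPartialHomeomorph M E) (y u : E) : E :=
  chartD' e y (J (e.symm y) (chartD e y u))

/-- `Ω` is a symplectic form: bilinear, alternating, nondegenerate, smooth and closed (in all smooth
charts). -/
structure IsSymplectic (Ω : FormField E M) :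
    Prop where
  bilin : ∀ x, Bilinear (Ω x)
  alt : ∀ x v, Ω x v v = 0
  nondeg : ∀ x v, (∀ w, Ω x v w = 0) → v = 0
  smooth : ∀ e ∈ IsManifold.maximalAtlas 𝓘(ℝ, E) ∞ M, ∀ u v,
    ContDiffOn ℝ ∞ (fun y => coordForm Ω e y u v) e.target
  closed : ∀ e ∈ IsManifold.maximalAtlas 𝓘(ℝ, E) ∞ M, ∀ y ∈ e.target, ClosedAt (coordForm Ω e) y

/-- `J` is an `Ω`-compatible (smooth) almost complex structure. -/
structure IsCompatible (Ω : FormField E M)
    (J : EndField E M) : Prop where
  lin : ∀ x, IsLinearMap ℝ (J x)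
  smooth : ∀ e ∈ IsManifold.maximalAtlas 𝓘(ℝ, E) ∞ M, ∀ u,
    ContDiffOn ℝ ∞ (fun y => coordEnd J e y u) e.target
  sq : ∀ x v, J x (J x v) = -v
  inv : ∀ x u v, Ω x (J x u) (J x v) = Ω x u v
  pos : ∀ x v, v ≠ 0 → 0 < Ω x v (J x v)

/-- The metric `g_J(u,v) = Ω(u,Jv)`. -/
def metricOf (Ω : FormField E M)
    (J : EndField E M) :
    FormField E M :=
  fun x u v => Ω x u (J x v)

/-- Nonpositive sectional curvature: `G(R(u,v)v,u) ≤ 0` (in all smooth charts). -/
def NonposCurved (g : FormField E M) : Prop :=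
  ∀ e ∈ IsManifold.maximalAtlas 𝓘(ℝ, E) ∞ M, ∀ y ∈ e.target, ∀ u v,
    coordForm g e y (riemann (coordForm g e) y u v v) u ≤ 0

/-- `γ` is a smooth curve satisfying the geodesic equation `c'' + Γ(c',c') = 0` in all smooth charts. -/
def IsGeodesic (g : FormField E M)
    (γ : ℝ → M) : Prop :=
  ContMDiff 𝓘(ℝ, ℝ) 𝓘(ℝ, E) ∞ γ ∧
    ∀ e ∈ IsManifold.maximalAtlas 𝓘(ℝ, E) ∞ M, ∀ t : ℝ, γ t ∈ e.source →
      deriv (deriv (e ∘ γ)) t
        = - christoffel (coordForm g e) (e (γ t)) (deriv (e ∘ γ) t) (deriv (e ∘ γ) t)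

/-- (Geodesic) completeness: for every tangent vector `v` there is a geodesic `γ : ℝ → M` defined on
the whole line with initial velocity `v`. -/
def IsGeodesicallyComplete
    (g : FormField E M) : Prop :=
  ∀ v : TangentBundle 𝓘(ℝ, E) M, ∃ γ : ℝ → M, IsGeodesic g γ ∧
    tangentMap 𝓘(ℝ, ℝ) 𝓘(ℝ, E) γ ⟨0, (1 : ℝ)⟩ = v

/-- `(M, Ω)` is symplectomorphic to the vector space `F` with the constant two-form `σ`: there is a
`C^∞` diffeomorphism `φ` of `M` onto `F` with `φ^* σ = Ω`. -/
def Symplectomorphic {F : Type*} [NormedAddCommGroup F] [NormedSpace ℝ F] (Ω : FormField E M)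
    (σ : F → F → ℝ) : Prop :=
  ∃ φ : M ≃ₘ⟮𝓘(ℝ, E), 𝓘(ℝ, F)⟯ F, ∀ (x : M) (u v : TangentSpace 𝓘(ℝ, E) x),
    σ (mfderiv 𝓘(ℝ, E) 𝓘(ℝ, F) φ x u) (mfderiv 𝓘(ℝ, E) 𝓘(ℝ, F) φ x v) = Ω x u v

end Pool.Agent.SHP
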