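import Pool.Agent.Lib.MP_f72ae4_gt.Chr

/-! # Gauss lemma and monotonicity along rays (file Ray.lean of MP_f72ae4_gt) -/

open scoped Manifold ContDiff Topology
open Set

noncomputable section

namespace Pool.Agent.SH


section Ray

set_option linter.unusedSectionVars false
set_option linter.unusedVariables false

variable {E : Type*} [NormedAddCommGroup E] [NormedSpace ℝ E]

/-- derivative of a map along a ray -/
theorem ray_aux1 {F : Type*} [NormedAddCommGroup F] [NormedSpace ℝ F] {G : E → F} (x : E) (s : ℝ)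
    (hG : DifferentiableAt ℝ G (s • x)) :
    HasDerivAt (fun t : ℝ => G (t • x)) (fderiv ℝ G (s • x) x) s := by
  have h2 : HasDerivAt (fun t : ℝ => t • x) x s := by
    simpa using (hasDerivAt_id s).smul_const x
  exact hG.hasFDerivAt.comp_hasDerivAt s h2

theorem ray_aux2 {F : Type*} [NormedAddCommGroup F] [NormedSpace ℝ F] {G : E → F} (y v : E)
    (hG : DifferentiableAt ℝ G y) :
    HasDerivAt (fun t : ℝ => G (y + t • v)) (fderiv ℝ G y v) 0 := by
  have h2 : HasDerivAt (fun t : ℝ => y + t • v) v 0 := by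
    simpa using ((hasDerivAt_id (0 : ℝ)).smul_const v).const_add y
  have h3 : HasFDerivAt G (fderiv ℝ G y) (y + (0 : ℝ) • v) := by
    simpa using hG.hasFDerivAt
  exact h3.comp_hasDerivAt (0 : ℝ) h2

theorem ray_aux3 (y v : E) : HasDerivAt (fun t : ℝ => y + t • v) v 0 := by
  simpa using ((hasDerivAt_id (0 : ℝ)).smul_const v).const_add y

theorem ray_aux4 {F : Type*} [NormedAddCommGroup F] [NormedSpace ℝ F] {G : E → F}
    (hG : Continuous G) (y : E) {c : ℝ} (hc : 0 < c) : ∀ᶠ z in 𝓝 y, ‖G z - G y‖ < c := by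
  have h1 : Filter.Tendsto (fun z => ‖G z - G y‖) (𝓝 y) (𝓝 ‖G y - G y‖) :=
    ((hG.tendsto y).sub_const (G y)).norm
  rw [sub_self, norm_zero] at h1
  exact h1.eventually (gt_mem_nhds hc)

/-- derivative of `z ↦ G z z z` for a field of bilinear maps -/
theorem ray_aux5 {F : Type*} [NormedAddCommGroup F] [NormedSpace ℝ F] {G : E → E →L[ℝ] E →L[ℝ] F}
    (y v : E) (hG : DifferentiableAt ℝ G y) :
    HasDerivAt (fun t : ℝ => G (y + t • v) (y + t • v) (y + t • v))
      (fderiv ℝ G y v y y + G y v y + G y y v) 0 := by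
  have h1 := ray_aux2 (F := E →L[ℝ] E →L[ℝ] F) y v hG
  have h2 := ray_aux3 y v
  have h3 := h1.clm_apply h2
  have h4 := h3.clm_apply h2
  simpa using h4

theorem ray_aux6 {F : Type*} [NormedAddCommGroup F] [NormedSpace ℝ F] {G : E → E →L[ℝ] E →L[ℝ] F}
    (x u v : E) (s : ℝ) (hG : DifferentiableAt ℝ G (s • x)) :
    HasDerivAt (fun t : ℝ => G (t • x) u v) (fderiv ℝ G (s • x) x u v) s := by
  have h3 := ray_aux1 (F := E →L[ℝ] E →L[ℝ] F) x s hG
  have h4 := h3.clm_apply (hasDerivAt_const s u)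
  have h5 := h4.clm_apply (hasDerivAt_const s v)
  simpa using h5

theorem ray_aux7 {F : Type*} [NormedAddCommGroup F] [NormedSpace ℝ F] {G : E → E →L[ℝ] E →L[ℝ] F}
    (y u v : E) (hG : DifferentiableAt ℝ G y) (w : E) :
    fderiv ℝ (fun z => G z u v) y w = fderiv ℝ G y w u v := by
  have h3 := hG.hasFDerivAt
  have h4 := h3.clm_apply (hasFDerivAt_const u y)
  have h5 := h4.clm_apply (hasFDerivAt_const v y)
  rw [h5.fderiv]
  simp

variable [FiniteDimensional ℝ E]
variable {G : E → Form2 E}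

/-- The positive definiteness locus is open. -/
theorem ray_isOpen (hG : Continuous G) : IsOpen {y | ∀ v, v ≠ 0 → 0 < G y v v} := by
  rw [isOpen_iff_mem_nhds]
  intro y hy
  -- minimum on the unit sphere
  obtain ⟨c, hc0, hc⟩ : ∃ c > 0, ∀ v : E, ‖v‖ = 1 → c ≤ G y v v := by
    rcases (Metric.sphere (0 : E) 1).eq_empty_or_nonempty with he | hne
    · refine ⟨1, one_pos, fun v hv => ?_⟩
      exact absurd (show v ∈ Metric.sphere (0 : E) 1 by simpa using hv) (by simp [he])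
    · obtain ⟨v₀, hv₀, hmin⟩ := (isCompact_sphere (0 : E) 1).exists_isMinOn hne
        (f := fun v => G y v v) (by fun_prop)
      refine ⟨G y v₀ v₀, hy v₀ ?_, fun v hv => ?_⟩
      · rintro rfl
        simp at hv₀
      · exact hmin (show v ∈ Metric.sphere (0 : E) 1 by simpa using hv)
  filter_upwards [ray_aux4 (F := Form2 E) hG y hc0] with z hz v hv
  have hvn : 0 < ‖v‖ := norm_pos_iff.2 hv
  have h2 : c * ‖v‖ ^ 2 ≤ G y v v := by
    have h3 := hc (‖v‖⁻¹ • v) (by rw [norm_smul, norm_inv, norm_norm, inv_mul_cancel₀ hvn.ne'])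
    simp only [map_smul, smul_apply, smul_eq_mul] at h3
    have h4 : ‖v‖ ^ 2 * (‖v‖⁻¹ * (‖v‖⁻¹ * G y v v)) = G y v v := by
      field_simp
    calc c * ‖v‖ ^ 2 = ‖v‖ ^ 2 * c := mul_comm _ _
      _ ≤ ‖v‖ ^ 2 * (‖v‖⁻¹ * (‖v‖⁻¹ * G y v v)) := by
        apply mul_le_mul_of_nonneg_left _ (by positivity)
        linarith
      _ = _ := h4
  have h5 : |(G z - G y) v v| ≤ ‖G z - G y‖ * ‖v‖ * ‖v‖ := by
    have := (G z - G y).le_opNorm₂ v v
    simpa [Real.norm_eq_abs] using this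
  have h6 : ‖G z - G y‖ * ‖v‖ * ‖v‖ < c * ‖v‖ ^ 2 := by
    rw [mul_assoc, ← sq]
    exact mul_lt_mul_of_pos_right hz (by positivity)
  have h7 : (G z - G y) v v = G z v v - G y v v := by simp
  rw [h7] at h5
  have := neg_abs_le (G z v v - G y v v)
  linarith

/-- The hypotheses used along the whole file. -/
structure RayHyp (G : E → Form2 E) (U : Set E) (Γ : E → E →L[ℝ] E →L[ℝ] E) : Prop where
  smooth : ContDiff ℝ ∞ G
  symm : ∀ y u v, G y u v = G y v u
  isOpen : IsOpen U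
  posU : ∀ y ∈ U, ∀ v, v ≠ 0 → 0 < G y v v
  smoothΓ : ContDiffOn ℝ ∞ Γ U
  eqΓ : ∀ y ∈ U, ∀ u v, Γ y u v = christoffel G y u v
  geo : ∀ y ∈ U, Γ y y y = 0

variable {U : Set E} {Γ : E → E →L[ℝ] E →L[ℝ] E}

theorem RayHyp.diff (h : RayHyp G U Γ) (y : E) : DifferentiableAt ℝ G y :=
  (h.smooth.differentiable (by simp)).differentiableAt

theorem RayHyp.diffΓ (h : RayHyp G U Γ) {y : E} (hy : y ∈ U) : DifferentiableAt ℝ Γ y :=
  (h.smoothΓ.contDiffAt (h.isOpen.mem_nhds hy)).differentiableAt (by simp)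

theorem RayHyp.symmΓ (h : RayHyp G U Γ) {y : E} (hy : y ∈ U) (u v : E) : Γ y u v = Γ y v u := by
  rw [h.eqΓ y hy, h.eqΓ y hy]
  exact christoffel_symm (h.diff y) (h.posU y hy) (Filter.Eventually.of_forall h.symm) u v

theorem RayHyp.compat (h : RayHyp G U Γ) {y : E} (hy : y ∈ U) (w u v : E) :
    fderiv ℝ G y w u v = G y (Γ y w u) v + G y u (Γ y w v) := by
  rw [h.eqΓ y hy, h.eqΓ y hy]
  exact christoffel_compat (h.diff y) (h.posU y hy) (Filter.Eventually.of_forall h.symm) w u v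

/-- `Γ(s x)(x,x) = 0` for `s ≠ 0`. -/
theorem RayHyp.geo_ray (h : RayHyp G U Γ) {x : E} {s : ℝ} (hs : s ≠ 0) (hy : s • x ∈ U) :
    Γ (s • x) x x = 0 := by
  have h1 := h.geo _ hy
  simp only [map_smul, smul_apply] at h1
  simpa [hs] using h1

/-- Constancy of speed. -/
theorem RayHyp.speed (h : RayHyp G U Γ) {x : E} (hx : ∀ t ∈ Icc (0 : ℝ) 1, t • x ∈ U) :
    G x x x = G 0 x x := by
  have hd : ∀ t : ℝ, HasDerivAt (fun t : ℝ => G (t • x) x x) (fderiv ℝ G (t • x) x x x) t :=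
    fun t => ray_aux6 x x x t (h.diff _)
  obtain ⟨c, hc, hc'⟩ := exists_hasDerivAt_eq_slope (fun t : ℝ => G (t • x) x x)
    (fun t => fderiv ℝ G (t • x) x x x) (zero_lt_one)
    (fun t _ => (hd t).continuousAt.continuousWithinAt) (fun t _ => hd t)
  have hcU : c • x ∈ U := hx c ⟨hc.1.le, hc.2.le⟩
  rw [h.compat hcU, h.geo_ray hc.1.ne' hcU] at hc'
  simp only [map_zero, zero_apply, add_zero, one_smul, zero_smul, sub_zero, div_one] at hc'
  linarith

theorem RayHyp.speed_nhds (h : RayHyp G U Γ) {x : E} {s S : ℝ} (hs : s ∈ Ico 0 S)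
    (hU : ∀ t ∈ Ico 0 S, t • x ∈ U) : ∀ᶠ z in 𝓝 (s • x), G z z z = G 0 z z := by
  have h1 : ∀ᶠ z in 𝓝 (s • x), ∀ t ∈ Icc (0 : ℝ) 1, t • z ∈ U := by
    apply isCompact_Icc.eventually_forall_of_forall_eventually
    intro t ht
    have hc : Continuous (fun p : E × ℝ => p.2 • p.1) := by fun_prop
    apply hc.continuousAt.eventually_mem (h.isOpen.mem_nhds _)
    rw [smul_smul]
    apply hU
    constructor
    · exact mul_nonneg ht.1 hs.1
    · exact lt_of_le_of_lt (mul_le_of_le_one_left hs.1 ht.2) hs.2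
  filter_upwards [h1] with z hz
  exact h.speed hz

/-- Gauss lemma, differential form. -/
theorem RayHyp.gauss_aux (h : RayHyp G U Γ) {x : E} {s S : ℝ} (hs : s ∈ Ioo 0 S)
    (hU : ∀ t ∈ Ico 0 S, t • x ∈ U) (v : E) :
    s * fderiv ℝ G (s • x) x x v + G (s • x) x v = G 0 x v := by
  have hy : s • x ∈ U := hU s ⟨hs.1.le, hs.2⟩
  have h1 := ray_aux5 (s • x) v (h.diff (s • x))
  have h2 := ray_aux5 (G := fun _ => G 0) (s • x) v (differentiableAt_const (G 0))
  have h3 : (fun t : ℝ => G (s • x + t • v) (s • x + t • v) (s • x + t • v)) =ᶠ[𝓝 0]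
      (fun t : ℝ => G 0 (s • x + t • v) (s • x + t • v)) := by
    have hc : Continuous (fun t : ℝ => s • x + t • v) := by fun_prop
    have h4 : Filter.Tendsto (fun t : ℝ => s • x + t • v) (𝓝 0) (𝓝 (s • x)) := by
      have := hc.tendsto 0
      simpa using this
    exact h4.eventually (h.speed_nhds ⟨hs.1.le, hs.2⟩ hU)
  have h5 := (h2.congr_of_eventuallyEq h3).unique h1
  have h6 : fderiv ℝ G (s • x) v (s • x) (s • x) = 2 * fderiv ℝ G (s • x) (s • x) (s • x) v := by
    rw [h.compat hy, h.compat hy, h.geo _ hy, h.symmΓ hy v (s • x), h.symm (s • x) (s • x)]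
    simp only [map_zero, zero_apply, zero_add]
    ring
  rw [h6] at h5
  simp only [fderiv_fun_const, Pi.zero_apply, zero_apply, map_smul, smul_apply, smul_eq_mul] at h5
  rw [h.symm 0 v x, h.symm (s • x) v x] at h5
  have h7 : s * (s * fderiv ℝ G (s • x) x x v + G (s • x) x v) = s * G 0 x v := by
    linarith
  exact mul_left_cancel₀ hs.1.ne' h7

/-- Gauss lemma. -/
theorem RayHyp.gauss (h : RayHyp G U Γ) {x : E} {s S : ℝ} (hs : s ∈ Ico 0 S)
    (hU : ∀ t ∈ Ico 0 S, t • x ∈ U) (v : E) : G (s • x) x v = G 0 x v := by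
  rcases hs.1.eq_or_lt with h0 | h0
  · rw [← h0, zero_smul]
  · have hd : ∀ t : ℝ, HasDerivAt (fun t : ℝ => t * (G (t • x) x v - G 0 x v))
        (1 * (G (t • x) x v - G 0 x v) + t * fderiv ℝ G (t • x) x x v) t := fun t => by
      exact (hasDerivAt_id t).mul ((ray_aux6 x x v t (h.diff _)).sub_const (G 0 x v))
    obtain ⟨c, hc, hc'⟩ := exists_hasDerivAt_eq_slope (fun t : ℝ => t * (G (t • x) x v - G 0 x v))
      (fun t => 1 * (G (t • x) x v - G 0 x v) + t * fderiv ℝ G (t • x) x x v) h0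
      (fun t _ => (hd t).continuousAt.continuousWithinAt) (fun t _ => hd t)
    have h1 := h.gauss_aux ⟨hc.1, hc.2.trans hs.2⟩ hU v
    have h2 : (1 * (G (c • x) x v - G 0 x v) + c * fderiv ℝ G (c • x) x x v) = 0 := by linarith
    simp only [h2] at hc'
    have h3 : s * (G (s • x) x v - G 0 x v) = 0 := by
      field_simp at hc'
      linarith
    rcases mul_eq_zero.1 h3 with h4 | h4
    · exact absurd h4 h0.ne'
    · linarith

/-- The curvature term along a ray. -/
theorem RayHyp.riemann_ray (h : RayHyp G U Γ) {x : E} {s : ℝ} (hs : s ≠ 0) (hy : s • x ∈ U) (v : E) :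
    s ^ 2 • riemann G (s • x) v x x = - ((2 * s) • Γ (s • x) x v)
      - s ^ 2 • (fderiv ℝ Γ (s • x) x x v) - s ^ 2 • Γ (s • x) x (Γ (s • x) x v) := by
  have hU : ∀ᶠ z in 𝓝 (s • x), z ∈ U := h.isOpen.mem_nhds hy
  have e1 : fderiv ℝ (fun z => christoffel G z x x) (s • x) v = fderiv ℝ Γ (s • x) v x x := by
    rw [← ray_aux7 (s • x) x x (h.diffΓ hy) v]
    congr 1
    apply Filter.EventuallyEq.fderiv_eq
    filter_upwards [hU] with z hz
    exact (h.eqΓ z hz x x).symm
  have e2 : fderiv ℝ (fun z => christoffel G z v x) (s • x) x = fderiv ℝ Γ (s • x) x x v := by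
    rw [← ray_aux7 (s • x) x v (h.diffΓ hy) x]
    congr 1
    apply Filter.EventuallyEq.fderiv_eq
    filter_upwards [hU] with z hz
    rw [h.symmΓ hz, h.eqΓ z hz]
  have e3 : fderiv ℝ Γ (s • x) v (s • x) (s • x) + Γ (s • x) v (s • x) + Γ (s • x) (s • x) v = 0 := by
    have h1 := ray_aux5 (s • x) v (h.diffΓ hy)
    have h3 : (fun t : ℝ => Γ (s • x + t • v) (s • x + t • v) (s • x + t • v)) =ᶠ[𝓝 0]
        (fun _ : ℝ => (0 : E)) := by
      have hc : Continuous (fun t : ℝ => s • x + t • v) := by fun_prop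
      have h4 : Filter.Tendsto (fun t : ℝ => s • x + t • v) (𝓝 0) (𝓝 (s • x)) := by
        have := hc.tendsto 0
        simpa using this
      filter_upwards [h4.eventually hU] with t ht
      exact h.geo _ ht
    exact (((hasDerivAt_const (0 : ℝ) (0 : E)).congr_of_eventuallyEq h3).unique h1).symm
  rw [riemann, e1, e2, ← h.eqΓ _ hy, ← h.eqΓ _ hy, ← h.eqΓ _ hy, ← h.eqΓ _ hy, h.geo_ray hs hy,
    h.symmΓ hy v x, map_zero]
  have e4 : s ^ 2 • fderiv ℝ Γ (s • x) v x x = - ((2 * s) • Γ (s • x) x v) := by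
    rw [h.symmΓ hy v (s • x)] at e3
    simp only [map_smul, smul_apply] at e3
    rw [eq_neg_iff_add_eq_zero, ← e3, two_mul, add_smul, sq, mul_smul]
    abel
  rw [add_zero, smul_sub, smul_sub, e4]

/-- The function `c(s) = s² G(Γ(x,v),v)` is nondecreasing. -/
theorem RayHyp.mono_aux (h : RayHyp G U Γ)
    (hcurv : ∀ y ∈ U, ∀ u v, sectionalNumerator G y u v ≤ 0) {x : E} {S : ℝ}
    (hU : ∀ t ∈ Ico 0 S, t • x ∈ U) (v : E) :
    MonotoneOn (fun s : ℝ => s ^ 2 * G (s • x) (Γ (s • x) x v) v) (Ico 0 S) := by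
  have hd : ∀ s ∈ Ico 0 S, HasDerivAt (fun s : ℝ => s ^ 2 * G (s • x) (Γ (s • x) x v) v)
      (2 * s * G (s • x) (Γ (s • x) x v) v + s ^ 2 *
        (fderiv ℝ G (s • x) x (Γ (s • x) x v) v + G (s • x) (fderiv ℝ Γ (s • x) x x v) v)) s := by
    intro s hs
    have hy := hU s hs
    have h1 := ray_aux1 (F := Form2 E) x s (h.diff _)
    have h2 := ray_aux6 x x v s (h.diffΓ hy)
    have h3 := h1.clm_apply h2
    have h4 := h3.clm_apply (hasDerivAt_const s v)
    exact ((hasDerivAt_pow 2 s).mul h4).congr_deriv (by simp)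
  apply monotoneOn_of_deriv_nonneg (convex_Ico 0 S)
  · intro s hs
    exact (hd s hs).continuousAt.continuousWithinAt
  · intro s hs
    exact (hd s (interior_subset hs)).differentiableAt.differentiableWithinAt
  · intro s hs
    have hs' : s ∈ Ioo 0 S := by rwa [interior_Ico] at hs
    have hsI : s ∈ Ico 0 S := ⟨hs'.1.le, hs'.2⟩
    have hy := hU s hsI
    rw [(hd s hsI).deriv, h.compat hy]
    have h1 := h.riemann_ray hs'.1.ne' hy v
    have h2 : s ^ 2 * sectionalNumerator G (s • x) v x =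
        - (2 * s * G (s • x) (Γ (s • x) x v) v) - s ^ 2 * G (s • x) (fderiv ℝ Γ (s • x) x x v) v
        - s ^ 2 * G (s • x) (Γ (s • x) x (Γ (s • x) x v)) v := by
      have h3 : s ^ 2 * sectionalNumerator G (s • x) v x =
          G (s • x) (s ^ 2 • riemann G (s • x) v x x) v := by
        simp [sectionalNumerator]
      rw [h3, h1]
      simp
    have h4 : s ^ 2 * sectionalNumerator G (s • x) v x ≤ 0 :=
      mul_nonpos_of_nonneg_of_nonpos (by positivity) (hcurv _ hy v x)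
    have h5 : 0 ≤ s ^ 2 * G (s • x) (Γ (s • x) x v) (Γ (s • x) x v) := by
      apply mul_nonneg (by positivity)
      by_cases h6 : Γ (s • x) x v = 0
      · rw [h6]; simp
      · exact (h.posU _ hy _ h6).le
    rw [h2] at h4
    nlinarith

theorem RayHyp.mono (h : RayHyp G U Γ)
    (hcurv : ∀ y ∈ U, ∀ u v, sectionalNumerator G y u v ≤ 0) {x : E} {S : ℝ}
    (hU : ∀ t ∈ Ico 0 S, t • x ∈ U) (v : E) :
    MonotoneOn (fun s : ℝ => G (s • x) v v) (Ico 0 S) := by
  have hd : ∀ s : ℝ, HasDerivAt (fun t : ℝ => G (t • x) v v) (fderiv ℝ G (s • x) x v v) s :=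
    fun s => ray_aux6 x v v s (h.diff _)
  apply monotoneOn_of_deriv_nonneg (convex_Ico 0 S)
  · intro s _
    exact (hd s).continuousAt.continuousWithinAt
  · intro s _
    exact (hd s).differentiableAt.differentiableWithinAt
  · intro s hs
    have hs' : s ∈ Ioo 0 S := by rwa [interior_Ico] at hs
    have hsI : s ∈ Ico 0 S := ⟨hs'.1.le, hs'.2⟩
    have hy := hU s hsI
    have h0 : (0 : ℝ) ∈ Ico 0 S := ⟨le_rfl, hs'.1.trans hs'.2⟩
    have h1 := h.mono_aux hcurv hU v h0 hsI hs'.1.le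
    simp only [ne_eq, OfNat.ofNat_ne_zero, not_false_eq_true, zero_pow, zero_mul] at h1
    rw [(hd s).deriv, h.compat hy, h.symm (s • x) v]
    have h2 : 0 ≤ G (s • x) (Γ (s • x) x v) v := by
      by_contra h3
      push Not at h3
      have : s ^ 2 * G (s • x) (Γ (s • x) x v) v < 0 := mul_neg_of_pos_of_neg (by have := hs'.1; positivity) h3
      linarith
    linarith

end Ray

set_option linter.unusedVariables false in
theorem ray {m : ℕ} {G : Euc m → Form2 (Euc m)} (hG : ContDiff ℝ ∞ G)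
    (hsym : ∀ y u v, G y u v = G y v u) (hG0 : ∀ u v, G 0 u v = inner ℝ u v)
    (hgeo : ∀ y, (∀ v, v ≠ 0 → 0 < G y v v) → christoffel G y y y = 0)
    (hcurv : ∀ y, (∀ v, v ≠ 0 → 0 < G y v v) → ∀ u v, sectionalNumerator G y u v ≤ 0)
    (x : Euc m) {S : ℝ} (hS : 0 < S) (hpd : ∀ s ∈ Ico 0 S, ∀ v, v ≠ 0 → 0 < G (s • x) v v) :
    (∀ s ∈ Ico 0 S, ∀ v, G (s • x) x v = inner ℝ x v) ∧
      ∀ v, MonotoneOn (fun s : ℝ => G (s • x) v v) (Ico 0 S) := by
  set U : Set (Euc m) := {y | ∀ v, v ≠ 0 → 0 < G y v v} with hUdef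
  have hUo : IsOpen U := ray_isOpen hG.continuous
  obtain ⟨Γ, hΓ, hΓe⟩ := exists_christoffelCLM hUo hG.contDiffOn (fun y hy => hy)
  have h : RayHyp G U Γ :=
    { smooth := hG
      symm := hsym
      isOpen := hUo
      posU := fun y hy => hy
      smoothΓ := hΓ
      eqΓ := hΓe
      geo := fun y hy => by rw [hΓe y hy]; exact hgeo y hy }
  refine ⟨fun s hs v => ?_, fun v => h.mono (fun y hy => hcurv y hy) hpd v⟩
  rw [h.gauss hs hpd v, hG0]

end Pool.Agent.SH
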